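import Mathlib

/-!
# Rigid maximal Cohen-Macaulay modules: definitions (helper96)

Project MP_d7d607_ag, Theorem G: `k` infinite, `R = k[[X]]/I` with Jacobian ideal of coheight at most
one has only finitely many rigid maximal Cohen-Macaulay modules of bounded multiplicity.
-/

set_option autoImplicit false
set_option linter.unusedSectionVars false
set_option linter.unusedVariables false

namespace H96.RM

universe u v

/-- Multiplication by `x` on `M` factors through a finite free module. -/
def FF (R : Type*) [CommRing R] (M : Type*) [AddCommGroup M] [Module R M] (x : R) : Prop :=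
  ∃ (n : ℕ) (α : M →ₗ[R] (Fin n → R)) (β : (Fin n → R) →ₗ[R] M), ∀ m, β (α m) = x • m

/-- Permutable weakly regular sequence. -/
def PR (R : Type*) [CommRing R] (M : Type*) [AddCommGroup M] [Module R M] (ys : List R) : Prop :=
  ∀ zs : List R, zs.Perm ys → RingTheory.Sequence.IsWeaklyRegular M zs

/-- Abbreviation: `M / I^n M`. -/
abbrev Lv {R : Type*} [CommRing R] (I : Ideal R) (n : ℕ) (M : Type*) [AddCommGroup M]
    [Module R M] : Type _ :=
  M ⧸ (I ^ n • (⊤ : Submodule R M))

section Core

variable (D : Type u) [CommRing D] (ι : Type) [Fintype ι] [DecidableEq ι]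

/-- A `D`-point of the closed subscheme `V(I)` of affine space over `D`, with a basis `β` of the
saturated tangent module and a formal family `Ψ` with the full tangent space. -/
structure PointData (z : D) (I : Ideal (MvPolynomial ι D)) where
  a : ι → D
  δ : ℕ
  β : Fin δ → ι → D
  Ψ : MvPolynomial ι D →ₐ[D] PowerSeries (MvPolynomial (Fin δ) D)
  hβ1 : ∀ c : Fin δ → D, (∀ l, z ∣ ∑ i, c i * β i l) → ∀ i, z ∣ c i
  hβ2 : ∀ τ : ι → D, (∀ f ∈ I, ∑ l, MvPolynomial.eval a (MvPolynomial.pderiv l f) * τ l = 0) →
    ∃ c : Fin δ → D, ∀ l, τ l = ∑ i, c i * β i l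
  hI : ∀ f ∈ I, Ψ f = 0
  h0 : ∀ l, PowerSeries.constantCoeff (Ψ (MvPolynomial.X l)) = MvPolynomial.C (a l)
  h1 : ∀ l, PowerSeries.coeff 1 (Ψ (MvPolynomial.X l)) =
    ∑ i, MvPolynomial.C (β i l) * MvPolynomial.X i

end Core

end H96.RM
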