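import Mathlib
import Pool.Agent.H96.RM.Defs

/-!
# Job RM-C1: permutable regular sequences (helper96, MP_d7d607_ag)

`PR R M ys`: every permutation of `ys` is weakly `M`-regular.

* `PR.tail`, `PR.quot`: `PR R M (y :: ys)` implies `PR R M ys` and `PR R (QuotSMulTop y M) ys`
  (a permutation `zs` of `ys` gives the permutations `zs ++ [y]` and `y :: zs`; use
  `isWeaklyRegular_append_iff`, `isWeaklyRegular_cons_iff`).  More generally `PR.sub2`:
  `PR R M (x :: y :: ys)` implies `PR R M (y :: ys)` and `PR R (QuotSMulTop y M) (x :: ys)`.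

* Claim A(ys) = `PR.regular_quot`: for all `M`, `x` with `PR R M (x :: ys)` and all `n`:
  `x • m ∈ 𝔟^n M → m ∈ 𝔟^n M` where `𝔟 = ofList ys`.
* Claim B(y :: ys) = `PR.smul_mem`: for `PR R M (y :: ys)`, `𝔠 = ofList (y :: ys)`:
  `y • m ∈ 𝔠^(n+1) M → m ∈ 𝔠^n M`.

B(y :: ys) follows from A(ys): `𝔠 = (y) + 𝔟`, so `𝔠^(n+1) = y 𝔠^n + 𝔟^(n+1)`, `y m = y m₁ + m₂` with
`m₁ ∈ 𝔠^n M`, `m₂ ∈ 𝔟^(n+1) M`; so `y (m - m₁) ∈ 𝔟^(n+1) M`, by A `m - m₁ ∈ 𝔟^(n+1) M ≤ 𝔠^n M`.
A([]): `𝔟 = ⊥`; `n = 0` trivial, `n ≥ 1`: `x m = 0` implies `m = 0`.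
A(y :: ys), by induction on `n` (`n = 0` trivial): let `x m ∈ 𝔠^(n+1) M`.  In `M̄ = M / y M`:
`x m̄ ∈ 𝔟^(n+1) M̄`, by A(ys) for `M̄` (`PR R M̄ (x :: ys)`) `m̄ ∈ 𝔟^(n+1) M̄`, i.e. `m = y m₁ + m₂` with
`m₂ ∈ 𝔟^(n+1) M`.  Then `y (x m₁) = x m - x m₂ ∈ 𝔠^(n+1) M`, so by B(y :: ys) `x m₁ ∈ 𝔠^n M`, by induction on `n`
`m₁ ∈ 𝔠^n M`, and `m = y m₁ + m₂ ∈ 𝔠^(n+1) M`.
So: prove A by induction on `ys` generalizing `M` and `x` (B as a `have` depending on A for the tail).
Universe: `QuotSMulTop y M` lives in the same universe as `M`.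
-/

set_option autoImplicit false
set_option linter.unusedVariables false

namespace H96.RM

universe u v

open RingTheory.Sequence
open scoped Pointwise

variable {R : Type u} [CommRing R]

theorem PR.tail {M : Type v} [AddCommGroup M] [Module R M] {y : R} {ys : List R}
    (h : PR R M (y :: ys)) : PR R M ys := by
  intro zs hzs
  have h1 : (zs ++ [y]).Perm (y :: ys) :=
    (List.perm_append_singleton y zs).trans (List.Perm.cons y hzs)
  exact ((isWeaklyRegular_append_iff M zs [y]).1 (h _ h1)).1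

theorem PR.quot {M : Type v} [AddCommGroup M] [Module R M] {y : R} {ys : List R}
    (h : PR R M (y :: ys)) : PR R (QuotSMulTop y M) ys := by
  intro zs hzs
  exact ((isWeaklyRegular_cons_iff M y zs).1 (h _ (List.Perm.cons y hzs))).2

theorem PR.perm {M : Type v} [AddCommGroup M] [Module R M] {ys zs : List R}
    (h : PR R M ys) (hz : zs.Perm ys) : PR R M zs :=
  fun ws hws => h ws (hws.trans hz)

theorem PR.regular {M : Type v} [AddCommGroup M] [Module R M] {y : R} {ys : List R}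
    (h : PR R M (y :: ys)) : IsSMulRegular M y :=
  ((isWeaklyRegular_cons_iff M y ys).1 (h _ (List.Perm.refl _))).1

/-- `(y + 𝔟)^(n+1) ≤ y (y + 𝔟)^n + 𝔟^(n+1)` -/
theorem PR_pow_le (y : R) (b : Ideal R) (n : ℕ) :
    (Ideal.span {y} ⊔ b) ^ (n + 1) ≤ Ideal.span {y} * (Ideal.span {y} ⊔ b) ^ n ⊔ b ^ (n + 1) := by
  induction n with
  | zero => simp
  | succ n ih =>
    calc (Ideal.span {y} ⊔ b) ^ (n + 1 + 1)
        = Ideal.span {y} * (Ideal.span {y} ⊔ b) ^ (n + 1) ⊔
            b * (Ideal.span {y} ⊔ b) ^ (n + 1) := by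
          rw [pow_succ' (Ideal.span {y} ⊔ b) (n + 1), Ideal.sup_mul]
      _ ≤ Ideal.span {y} * (Ideal.span {y} ⊔ b) ^ (n + 1) ⊔ b ^ (n + 1 + 1) := by
          refine sup_le le_sup_left ?_
          refine (Ideal.mul_mono_right ih).trans ?_
          rw [Ideal.mul_sup]
          refine sup_le ?_ ?_
          · refine le_trans ?_ le_sup_left
            rw [mul_left_comm]
            refine Ideal.mul_mono_right ?_
            rw [pow_succ' (Ideal.span {y} ⊔ b) n]
            exact Ideal.mul_mono_left le_sup_right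
          · rw [← pow_succ' b]
            exact le_sup_right

theorem PR_decomp {M : Type v} [AddCommGroup M] [Module R M] (y : R) (ys : List R) (n : ℕ) (m : M)
    (hm : m ∈ Ideal.ofList (y :: ys) ^ (n + 1) • (⊤ : Submodule R M)) :
    ∃ m₁ ∈ Ideal.ofList (y :: ys) ^ n • (⊤ : Submodule R M),
      ∃ m₂ ∈ Ideal.ofList ys ^ (n + 1) • (⊤ : Submodule R M), m = y • m₁ + m₂ := by
  have h1 : Ideal.ofList (y :: ys) ^ (n + 1) • (⊤ : Submodule R M) ≤
      y • (Ideal.ofList (y :: ys) ^ n • (⊤ : Submodule R M)) ⊔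
        Ideal.ofList ys ^ (n + 1) • (⊤ : Submodule R M) := by
    rw [← Submodule.ideal_span_singleton_smul, ← mul_smul, ← Submodule.sup_smul]
    rw [Ideal.ofList_cons]
    exact Submodule.smul_mono_left (PR_pow_le y _ n)
  obtain ⟨a, ha, m₂, hm₂, rfl⟩ := Submodule.mem_sup.1 (h1 hm)
  obtain ⟨m₁, hm₁, rfl⟩ := (Submodule.mem_smul_pointwise_iff_exists _ _ _).1 ha
  exact ⟨m₁, hm₁, m₂, hm₂, rfl⟩

theorem PR_B {M : Type v} [AddCommGroup M] [Module R M] (y : R) (ys : List R)
    (A : ∀ (n : ℕ) (m : M), y • m ∈ Ideal.ofList ys ^ n • (⊤ : Submodule R M) →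
      m ∈ Ideal.ofList ys ^ n • (⊤ : Submodule R M)) (n : ℕ) (m : M)
    (hm : y • m ∈ Ideal.ofList (y :: ys) ^ (n + 1) • (⊤ : Submodule R M)) :
    m ∈ Ideal.ofList (y :: ys) ^ n • (⊤ : Submodule R M) := by
  obtain ⟨m₁, hm₁, m₂, hm₂, h⟩ := PR_decomp y ys n _ hm
  have h1 : y • (m - m₁) ∈ Ideal.ofList ys ^ (n + 1) • (⊤ : Submodule R M) := by
    rw [smul_sub, h, add_sub_cancel_left]
    exact hm₂
  have h2 := A (n + 1) _ h1
  have h3 : Ideal.ofList ys ^ (n + 1) ≤ Ideal.ofList (y :: ys) ^ n := by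
    refine (Ideal.pow_le_pow_right (Nat.le_succ n)).trans ?_
    rw [Ideal.ofList_cons]
    exact Ideal.pow_right_mono le_sup_right n
  have h4 : m - m₁ ∈ Ideal.ofList (y :: ys) ^ n • (⊤ : Submodule R M) :=
    Submodule.smul_mono_left h3 h2
  have h5 := Submodule.add_mem _ h4 hm₁
  rwa [sub_add_cancel] at h5

theorem PR_A (ys : List R) : ∀ (M : Type v) [AddCommGroup M] [Module R M] (x : R),
    PR R M (x :: ys) → ∀ (n : ℕ) (m : M), x • m ∈ Ideal.ofList ys ^ n • (⊤ : Submodule R M) →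
      m ∈ Ideal.ofList ys ^ n • (⊤ : Submodule R M) := by
  induction ys with
  | nil =>
    intro M _ _ x h n m hm
    rcases Nat.eq_zero_or_pos n with rfl | hn
    · simp
    · obtain ⟨k, rfl⟩ := Nat.exists_eq_add_of_lt hn
      have h0 : Ideal.ofList ([] : List R) ^ (0 + k + 1) • (⊤ : Submodule R M) = ⊥ := by
        rw [Ideal.ofList_nil, pow_succ, Ideal.mul_bot, Submodule.bot_smul]
      rw [h0, Submodule.mem_bot] at hm ⊢
      apply h.regular
      show x • m = x • (0 : M)
      rw [hm, smul_zero]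
  | cons y ys ih =>
    intro M _ _ x h n
    have hyx : PR R M (y :: x :: ys) := h.perm (List.Perm.swap x y ys)
    have hB := PR_B (M := M) y ys (ih M y h.tail)
    induction n with
    | zero =>
      intro m _
      simp
    | succ n ihn =>
      intro m hm
      obtain ⟨m₁, hm₁, m₂, hm₂, hd⟩ := PR_decomp y ys n _ hm
      have hbar : x • (Submodule.Quotient.mk m : QuotSMulTop y M) ∈
          Ideal.ofList ys ^ (n + 1) • (⊤ : Submodule R (QuotSMulTop y M)) := by
        have h1 : x • (Submodule.Quotient.mk m : QuotSMulTop y M) =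
            (Submodule.mkQ (y • (⊤ : Submodule R M))) m₂ := by
          rw [← Submodule.Quotient.mk_smul, hd, Submodule.Quotient.mk_add, Submodule.mkQ_apply]
          have h2 : (Submodule.Quotient.mk (y • m₁) : M ⧸ (y • (⊤ : Submodule R M))) = 0 := by
            rw [Submodule.Quotient.mk_eq_zero]
            exact Submodule.smul_mem_pointwise_smul _ _ _ trivial
          rw [h2, zero_add]
        rw [h1]
        have h3 := Submodule.mem_map_of_mem (f := Submodule.mkQ (y • (⊤ : Submodule R M))) hm₂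
        rw [Submodule.map_smul''] at h3
        exact Submodule.smul_mono le_rfl le_top h3
      have h4 := ih (QuotSMulTop y M) x hyx.quot (n + 1) _ hbar
      have h5 : Ideal.ofList ys ^ (n + 1) • (⊤ : Submodule R (QuotSMulTop y M)) =
          Submodule.map (Submodule.mkQ (y • (⊤ : Submodule R M)))
            (Ideal.ofList ys ^ (n + 1) • (⊤ : Submodule R M)) := by
        rw [Submodule.map_smul'', Submodule.map_top, Submodule.range_mkQ]
      rw [h5] at h4
      obtain ⟨k₂, hk₂, hk⟩ := h4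
      have h6 : m - k₂ ∈ y • (⊤ : Submodule R M) := by
        rw [← Submodule.Quotient.eq]
        exact hk.symm
      obtain ⟨k₁, -, hk₁⟩ := (Submodule.mem_smul_pointwise_iff_exists _ _ _).1 h6
      have hbc : Ideal.ofList ys ^ (n + 1) ≤ Ideal.ofList (y :: ys) ^ (n + 1) := by
        rw [Ideal.ofList_cons]
        exact Ideal.pow_right_mono le_sup_right _
      have hk₂' : k₂ ∈ Ideal.ofList (y :: ys) ^ (n + 1) • (⊤ : Submodule R M) :=
        Submodule.smul_mono_left hbc hk₂
      have h7 : y • (x • k₁) ∈ Ideal.ofList (y :: ys) ^ (n + 1) • (⊤ : Submodule R M) := by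
        have h8 : y • (x • k₁) = x • m - x • k₂ := by
          rw [smul_comm, hk₁, smul_sub]
        rw [h8]
        exact Submodule.sub_mem _ hm (Submodule.smul_mem _ _ hk₂')
      have h9 := ihn _ (hB n _ h7)
      have h10 : m = y • k₁ + k₂ := by
        rw [hk₁, sub_add_cancel]
      rw [h10]
      refine Submodule.add_mem _ ?_ hk₂'
      have h11 : y ∈ Ideal.ofList (y :: ys) := by
        rw [Ideal.ofList_cons]
        exact Ideal.mem_sup_left (Ideal.mem_span_singleton_self y)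
      rw [pow_succ', mul_smul]
      exact Submodule.smul_mem_smul h11 h9

theorem PR.regular_quot {M : Type v} [AddCommGroup M] [Module R M] {x : R} {ys : List R}
    (h : PR R M (x :: ys)) (n : ℕ) (m : M)
    (hm : x • m ∈ Ideal.ofList ys ^ n • (⊤ : Submodule R M)) :
    m ∈ Ideal.ofList ys ^ n • (⊤ : Submodule R M) :=
  PR_A ys M x h n m hm

theorem PR.smul_mem {M : Type v} [AddCommGroup M] [Module R M] {y : R} {ys : List R}
    (h : PR R M (y :: ys)) (n : ℕ) (m : M)
    (hm : y • m ∈ Ideal.ofList (y :: ys) ^ (n + 1) • (⊤ : Submodule R M)) :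
    m ∈ Ideal.ofList (y :: ys) ^ n • (⊤ : Submodule R M) :=
  PR_B y ys (PR_A ys M y h) n m hm

/-- The ideal of a list of the form `List.ofFn y`. -/
theorem ofList_ofFn {l : ℕ} (y : Fin l → R) :
    Ideal.ofList (List.ofFn y) = Ideal.span (Set.range y) := by
  unfold Ideal.ofList
  congr 1
  ext x
  simp

end H96.RM
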