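import Mathlib
import Pool.Agent.H96.RM.PRLemma

/-!
# Job RM-D5: length of `M / 𝔟^(n+1) M` (helper96, MP_d7d607_ag)

For a permutable weakly regular sequence `ys` of length `l`, `𝔟 = (ys)`:
`length (M/𝔟^(n+1) M) = binom (n+l) l * length (M/𝔟 M)` in `ℕ∞`.

Proof.  Induction on `ys` (generalizing `M`), then on `n`.  `ys = []`: `𝔟 = ⊥`, both quotients are `M/0`.
`ys = y :: ys'`, `𝔠 = (y :: ys')`, `𝔟' = (ys')`, `M̄ = QuotSMulTop y M`: there is an exact sequence
`0 → M/𝔠^n M  -(y)->  M/𝔠^(n+1) M → M̄/𝔟'^(n+1) M̄ → 0` (well defined; injective by `PR.smul_mem`; the cokernel of `y` on `M/𝔠^(n+1)M` is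
`M/(y M + 𝔠^(n+1) M) = M/(y M + 𝔟'^(n+1) M)`).  So with `L_l(n) = length (M/𝔠^n M)`: `L_l(n+1) = L_l(n) + length (M̄/𝔟'^(n+1) M̄)`
(`Module.length_eq_add_of_exact`), `L_l(0) = 0`, and by induction
`length (M̄/𝔟'^(n+1) M̄) = binom (n+l-1) (l-1) * length (M̄/𝔟' M̄)`, `M̄/𝔟' M̄ ≃ M/𝔠 M`
(`Submodule.quotOfListConsSMulTopEquivQuotSMulTopInner` or similar).
Pascal's rule `Nat.choose_succ_succ`.
-/

set_option autoImplicit false
set_option linter.unusedVariables false

namespace H96.RM

universe u v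

open RingTheory.Sequence
open scoped Pointwise

/-- the exact sequence `0 → M/𝔠^n M → M/𝔠^(n+1) M → M̄/𝔟^(n+1) M̄ → 0` -/
theorem LenPow_step {R : Type u} [CommRing R] (M : Type v) [AddCommGroup M] [Module R M]
    (y : R) (ys : List R) (hPR : PR R M (y :: ys)) (n : ℕ) :
    Module.length R (M ⧸ (Ideal.ofList (y :: ys) ^ (n + 1) • (⊤ : Submodule R M))) =
      Module.length R (M ⧸ (Ideal.ofList (y :: ys) ^ n • (⊤ : Submodule R M))) +
      Module.length R (QuotSMulTop y M ⧸
        (Ideal.ofList ys ^ (n + 1) • (⊤ : Submodule R (QuotSMulTop y M)))) := by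
  have hy : y ∈ Ideal.ofList (y :: ys) := by
    rw [Ideal.ofList_cons]
    exact Ideal.mem_sup_left (Ideal.mem_span_singleton_self y)
  have hbc : Ideal.ofList ys ^ (n + 1) ≤ Ideal.ofList (y :: ys) ^ (n + 1) := by
    rw [Ideal.ofList_cons]
    exact Ideal.pow_right_mono le_sup_right _
  have hmap : Ideal.ofList ys ^ (n + 1) • (⊤ : Submodule R (QuotSMulTop y M)) =
      Submodule.map (Submodule.mkQ (y • (⊤ : Submodule R M)))
        (Ideal.ofList ys ^ (n + 1) • (⊤ : Submodule R M)) := by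
    rw [Submodule.map_smul'', Submodule.map_top, Submodule.range_mkQ]
  have hf : Ideal.ofList (y :: ys) ^ n • (⊤ : Submodule R M) ≤
      (Ideal.ofList (y :: ys) ^ (n + 1) • (⊤ : Submodule R M)).comap
        (LinearMap.lsmul R M y) := by
    intro m hm
    rw [Submodule.mem_comap, LinearMap.lsmul_apply, pow_succ', mul_smul]
    exact Submodule.smul_mem_smul hy hm
  have hg : Ideal.ofList (y :: ys) ^ (n + 1) • (⊤ : Submodule R M) ≤
      (Ideal.ofList ys ^ (n + 1) • (⊤ : Submodule R (QuotSMulTop y M))).comap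
        (Submodule.mkQ (y • (⊤ : Submodule R M))) := by
    intro m hm
    obtain ⟨m₁, hm₁, m₂, hm₂, hd⟩ := PR_decomp y ys n _ hm
    rw [Submodule.mem_comap, hmap]
    refine ⟨m₂, hm₂, ?_⟩
    rw [Submodule.mkQ_apply, Submodule.mkQ_apply, Submodule.Quotient.eq, hd]
    have : m₂ - (y • m₁ + m₂) = -(y • m₁) := by abel
    rw [this]
    exact Submodule.neg_mem _ (Submodule.smul_mem_pointwise_smul _ _ _ trivial)
  refine Module.length_eq_add_of_exact
    (Submodule.mapQ _ _ (LinearMap.lsmul R M y) hf)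
    (Submodule.mapQ _ _ (Submodule.mkQ (y • (⊤ : Submodule R M))) hg) ?_ ?_ ?_
  · rw [injective_iff_map_eq_zero]
    intro z hz
    obtain ⟨m, rfl⟩ := Submodule.mkQ_surjective _ z
    have h1 : Submodule.mkQ (Ideal.ofList (y :: ys) ^ (n + 1) • (⊤ : Submodule R M)) (y • m) = 0 :=
      hz
    rw [Submodule.mkQ_apply, Submodule.Quotient.mk_eq_zero] at h1 ⊢
    exact hPR.smul_mem n m h1
  · intro z
    obtain ⟨z, rfl⟩ := Submodule.mkQ_surjective _ z
    obtain ⟨m, rfl⟩ := Submodule.mkQ_surjective _ z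
    exact ⟨Submodule.mkQ _ m, rfl⟩
  · intro z
    obtain ⟨m, rfl⟩ := Submodule.mkQ_surjective _ z
    constructor
    · intro h
      have h1 : Submodule.mkQ (y • (⊤ : Submodule R M)) m ∈
          Ideal.ofList ys ^ (n + 1) • (⊤ : Submodule R (QuotSMulTop y M)) := by
        rw [← Submodule.ker_mkQ (Ideal.ofList ys ^ (n + 1) • (⊤ : Submodule R (QuotSMulTop y M)))]
        exact h
      rw [hmap] at h1
      obtain ⟨m₂, hm₂, hm⟩ := h1
      have h2 : m - m₂ ∈ y • (⊤ : Submodule R M) := by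
        rw [← Submodule.Quotient.eq]
        exact hm.symm
      obtain ⟨k, -, hk⟩ := (Submodule.mem_smul_pointwise_iff_exists _ _ _).1 h2
      refine ⟨Submodule.mkQ _ k, ?_⟩
      change Submodule.mkQ _ (y • k) = Submodule.mkQ _ m
      rw [Submodule.mkQ_apply, Submodule.mkQ_apply, Submodule.Quotient.eq, hk]
      have : m - m₂ - m = - m₂ := by abel
      rw [this]
      exact Submodule.neg_mem _ (Submodule.smul_mono_left hbc hm₂)
    · rintro ⟨w, hw⟩
      obtain ⟨k, rfl⟩ := Submodule.mkQ_surjective _ w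
      rw [← hw]
      change Submodule.mkQ _ (Submodule.mkQ (y • (⊤ : Submodule R M)) (y • k)) = 0
      have : Submodule.mkQ (y • (⊤ : Submodule R M)) (y • k) = 0 := by
        rw [Submodule.mkQ_apply, Submodule.Quotient.mk_eq_zero]
        exact Submodule.smul_mem_pointwise_smul _ _ _ trivial
      rw [this, map_zero]

theorem length_pow {R : Type u} [CommRing R] (M : Type v) [AddCommGroup M] [Module R M]
    (ys : List R) (hPR : PR R M ys) (n : ℕ) :
    Module.length R (M ⧸ (Ideal.ofList ys ^ (n + 1) • (⊤ : Submodule R M))) =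
      ((n + ys.length).choose ys.length : ℕ∞) *
        Module.length R (M ⧸ (Ideal.ofList ys • (⊤ : Submodule R M))) := by
  induction ys generalizing M n with
  | nil =>
    have h1 : Ideal.ofList ([] : List R) ^ (n + 1) = Ideal.ofList ([] : List R) := by
      rw [Ideal.ofList_nil, pow_succ, Ideal.mul_bot]
    rw [h1]
    simp
  | cons y ys ih =>
    induction n with
    | zero =>
      rw [zero_add, pow_one, zero_add, Nat.choose_self, Nat.cast_one, one_mul]
    | succ n ihn =>
      rw [LenPow_step M y ys hPR (n + 1), ihn, ih (QuotSMulTop y M) hPR.quot (n + 1),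
        ← (Submodule.quotOfListConsSMulTopEquivQuotSMulTopInner M y ys).length_eq, ← add_mul]
      congr 1
      rw [List.length_cons]
      have h2 : n + 1 + (ys.length + 1) = (n + (ys.length + 1)) + 1 := by ring
      have h3 : n + 1 + ys.length = n + (ys.length + 1) := by ring
      rw [h2, h3, Nat.choose_succ_succ, Nat.cast_add, add_comm]

end H96.RM
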