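import Mathlib
import Pool.Agent.H96.RM.LenPow

/-!
# Job RM-D6: the length modulo parameters is bounded by the multiplicity
(helper96, MP_d7d607_ag)

`R` Noetherian local, `M` finite, `ys` permutable `M`-regular of length `d`, `𝔪^c ≤ 𝔟 = (ys)`, `c ≥ 1`, and
`d! length(M/𝔪^n M) / n^d → e ≤ B`.  Then `length (M/𝔟 M) ≤ c^d B`.

Proof.  `M/𝔟 M` has finite length (quotient of `M/𝔪^c M`, which has finite length: see `H42` file `Mult.lean`, or
`R/𝔪^c` is Artinian and `M/𝔪^c M` is a finite module over it); let `L = (length (M/𝔟M)).toNat`.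
For `n ≥ 1`: `𝔪^(c n) ≤ 𝔟^n`, so `length (M/𝔪^(cn) M) ≥ length (M/𝔟^n M) = binom (n-1+d) d * L` (`length_pow`), and all
lengths are finite.  Multiply by `d! / (c n)^d`: `d! * binom (n-1+d) d = n (n+1) ⋯ (n+d-1) ≥ n^d` (`Nat.ascFactorial`,
`Nat.pow_succ_le_ascFactorial` or similar), so `L / c^d ≤ d! length(M/𝔪^(cn) M) / (c n)^d → e`
(subsequence `n ↦ c n`, `Filter.Tendsto.comp`), hence `L / c^d ≤ e ≤ B` (`ge_of_tendsto`).
-/

set_option autoImplicit false
set_option linter.unusedVariables false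

namespace H96.RM

universe u v

open IsLocalRing Filter

theorem lenLim_artin {R : Type u} [CommRing R] [IsLocalRing R] [IsNoetherianRing R] (n : ℕ) :
    IsArtinianRing (R ⧸ maximalIdeal R ^ n) := by
  rw [isArtinianRing_iff_krullDimLE_zero]
  refine Ring.KrullDimLE.mk₀ (fun J hJ => ?_)
  have h1 : (J.comap (Ideal.Quotient.mk (maximalIdeal R ^ n))).IsMaximal := by
    have hp : (J.comap (Ideal.Quotient.mk (maximalIdeal R ^ n))).IsPrime := Ideal.IsPrime.comap _
    have hle : maximalIdeal R ^ n ≤ J.comap (Ideal.Quotient.mk (maximalIdeal R ^ n)) := by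
      intro r hr
      rw [Ideal.mem_comap, Ideal.Quotient.eq_zero_iff_mem.mpr hr]
      exact J.zero_mem
    have h1 : maximalIdeal R ≤ J.comap (Ideal.Quotient.mk (maximalIdeal R ^ n)) :=
      Ideal.IsPrime.le_of_pow_le hle
    rw [← (IsLocalRing.maximalIdeal.isMaximal R).eq_of_le hp.ne_top h1]
    exact IsLocalRing.maximalIdeal.isMaximal R
  have h2 : ((J.comap (Ideal.Quotient.mk (maximalIdeal R ^ n))).map
      (Ideal.Quotient.mk (maximalIdeal R ^ n))).IsMaximal := by
    refine Ideal.IsMaximal.map_of_surjective_of_ker_le Ideal.Quotient.mk_surjective ?_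
    intro r hr
    rw [Ideal.mem_comap, RingHom.mem_ker.mp hr]
    exact J.zero_mem
  rwa [Ideal.map_comap_of_surjective _ Ideal.Quotient.mk_surjective] at h2

theorem lenLim_ne_top {R : Type u} [CommRing R] [IsLocalRing R] [IsNoetherianRing R]
    (M : Type v) [AddCommGroup M] [Module R M] [Module.Finite R M] (n : ℕ) :
    Module.length R (M ⧸ (maximalIdeal R ^ n • (⊤ : Submodule R M))) ≠ ⊤ := by
  have ht : Module.IsTorsionBySet R (M ⧸ (maximalIdeal R ^ n • (⊤ : Submodule R M)))
      ((maximalIdeal R ^ n : Ideal R) : Set R) := by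
    intro c r
    obtain ⟨c, rfl⟩ := Submodule.Quotient.mk_surjective _ c
    rw [← Submodule.Quotient.mk_smul, Submodule.Quotient.mk_eq_zero]
    exact Submodule.smul_mem_smul r.2 trivial
  have hI := lenLim_artin (R := R) n
  let _ : Module (R ⧸ maximalIdeal R ^ n) (M ⧸ (maximalIdeal R ^ n • (⊤ : Submodule R M))) :=
    ht.module
  have hst : IsScalarTower R (R ⧸ maximalIdeal R ^ n)
    (M ⧸ (maximalIdeal R ^ n • (⊤ : Submodule R M))) := inferInstance
  have hfin : Module.Finite (R ⧸ maximalIdeal R ^ n)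
      (M ⧸ (maximalIdeal R ^ n • (⊤ : Submodule R M))) :=
    Module.Finite.of_restrictScalars_finite R (R ⧸ maximalIdeal R ^ n) _
  rw [Module.length_eq_of_surjective (R := R ⧸ maximalIdeal R ^ n) (S := R)
    (M := M ⧸ (maximalIdeal R ^ n • (⊤ : Submodule R M))) Ideal.Quotient.mk_surjective]
  have h1 : IsArtinian (R ⧸ maximalIdeal R ^ n)
    (M ⧸ (maximalIdeal R ^ n • (⊤ : Submodule R M))) := inferInstance
  have h2 : IsNoetherian (R ⧸ maximalIdeal R ^ n)
    (M ⧸ (maximalIdeal R ^ n • (⊤ : Submodule R M))) := inferInstance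
  exact Module.length_ne_top

theorem length_le_of_mult {R : Type u} [CommRing R] [IsLocalRing R] [IsNoetherianRing R]
    (M : Type v) [AddCommGroup M] [Module R M] [Module.Finite R M] (ys : List R)
    (hys : ∀ y ∈ ys, y ∈ maximalIdeal R) (hPR : PR R M ys) (c : ℕ) (hc : 1 ≤ c)
    (hmc : maximalIdeal R ^ c ≤ Ideal.ofList ys) (B : ℕ) (e : ℝ) (he : e ≤ B)
    (hlim : Tendsto (fun n : ℕ => (ys.length.factorial : ℝ) *
        ((Module.length R (M ⧸ (maximalIdeal R ^ n • (⊤ : Submodule R M)))).toNat : ℝ) /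
          ((n : ℝ) ^ ys.length)) atTop (nhds e)) :
    Module.length R (M ⧸ (Ideal.ofList ys • (⊤ : Submodule R M))) ≤
      ((c ^ ys.length * B : ℕ) : ℕ∞) := by
  have hle : ∀ n : ℕ, ((n + ys.length).choose ys.length : ℕ∞) *
      Module.length R (M ⧸ (Ideal.ofList ys • (⊤ : Submodule R M))) ≤
      Module.length R (M ⧸ (maximalIdeal R ^ (c * (n + 1)) • (⊤ : Submodule R M))) := by
    intro n
    rw [← length_pow M ys hPR n]
    have h1 : maximalIdeal R ^ (c * (n + 1)) ≤ Ideal.ofList ys ^ (n + 1) := by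
      rw [pow_mul]
      exact Ideal.pow_right_mono hmc (n + 1)
    have h2 : maximalIdeal R ^ (c * (n + 1)) • (⊤ : Submodule R M) ≤
        Ideal.ofList ys ^ (n + 1) • (⊤ : Submodule R M) := Submodule.smul_mono_left h1
    refine Module.length_le_of_surjective (Submodule.mapQ _ _ LinearMap.id h2) ?_
    intro y
    obtain ⟨y, rfl⟩ := Submodule.Quotient.mk_surjective _ y
    exact ⟨Submodule.Quotient.mk y, rfl⟩
  have hfin : Module.length R (M ⧸ (Ideal.ofList ys • (⊤ : Submodule R M))) ≠ ⊤ := by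
    have h1 := hle 0
    rw [Nat.zero_add, Nat.choose_self, Nat.cast_one, one_mul] at h1
    exact ne_top_of_le_ne_top (lenLim_ne_top M _) h1
  obtain ⟨L, hL⟩ := ENat.ne_top_iff_exists.mp hfin
  have hle3 : ∀ n : ℕ, (n + ys.length).choose ys.length * L ≤
      (Module.length R (M ⧸ (maximalIdeal R ^ (c * (n + 1)) • (⊤ : Submodule R M)))).toNat := by
    intro n
    have h1 := hle n
    rw [← hL] at h1
    obtain ⟨l, hl⟩ := ENat.ne_top_iff_exists.mp (lenLim_ne_top (R := R) M (c * (n + 1)))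
    rw [← hl] at h1 ⊢
    rw [ENat.toNat_natCast]
    exact_mod_cast h1
  have htend : Tendsto (fun n : ℕ => c * (n + 1)) atTop atTop :=
    (tendsto_add_atTop_nat 1).const_mul_atTop' hc
  have h4 := hlim.comp htend
  have hc' : (0 : ℝ) < c := by exact_mod_cast hc
  have h5 : (L : ℝ) / (c : ℝ) ^ ys.length ≤ e := by
    refine ge_of_tendsto' h4 ?_
    intro n
    simp only [Function.comp_apply]
    have hn' : (0 : ℝ) < (n : ℝ) + 1 := by positivity
    rw [div_le_div_iff₀ (by positivity) (by push_cast; positivity)]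
    have h6 : (n + 1) ^ ys.length * L ≤ ys.length.factorial *
        (Module.length R (M ⧸ (maximalIdeal R ^ (c * (n + 1)) • (⊤ : Submodule R M)))).toNat := by
      calc (n + 1) ^ ys.length * L ≤ (n + 1).ascFactorial ys.length * L :=
            Nat.mul_le_mul_right _ (Nat.pow_succ_le_ascFactorial (n + 1) _)
        _ = ys.length.factorial * ((n + ys.length).choose ys.length * L) := by
            rw [Nat.ascFactorial_eq_factorial_mul_choose, mul_assoc]
        _ ≤ _ := Nat.mul_le_mul_left _ (hle3 n)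
    have h7 : ((n : ℝ) + 1) ^ ys.length * L ≤ (ys.length.factorial : ℝ) *
        ((Module.length R
          (M ⧸ (maximalIdeal R ^ (c * (n + 1)) • (⊤ : Submodule R M)))).toNat : ℝ) := by
      exact_mod_cast h6
    have h8 : (0 : ℝ) ≤ (c : ℝ) ^ ys.length := by positivity
    push_cast
    rw [mul_pow]
    calc (L : ℝ) * ((c : ℝ) ^ ys.length * ((n : ℝ) + 1) ^ ys.length) =
          (((n : ℝ) + 1) ^ ys.length * L) * (c : ℝ) ^ ys.length := by ring
      _ ≤ _ := mul_le_mul_of_nonneg_right h7 h8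
  have h9 : (L : ℝ) ≤ (c : ℝ) ^ ys.length * B := by
    have h10 : (0 : ℝ) < (c : ℝ) ^ ys.length := by positivity
    rw [div_le_iff₀ h10] at h5
    nlinarith
  rw [← hL]
  have h11 : L ≤ c ^ ys.length * B := by exact_mod_cast h9
  exact_mod_cast h11

end H96.RM
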