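import Mathlib

/-!
# Job RM-D7: dimension of a quotient by one element (helper96, MP_d7d607_ag)

`dim_quot_le`: `A` Noetherian local, `dim A ≤ n + 1`, `x` not in any minimal prime of `A` other than `𝔪`, `x ∈ 𝔪`.  Then
`dim A/x ≤ n`.  Proof: a chain of primes of `A/x` of length `m ≥ 1` gives a chain of primes of `A` containing `x`; its smallest member `p`
is not `𝔪`; it contains a minimal prime `p₀`, which is not `𝔪` and does not contain `x`, so `p₀ < p` extends the chain.  If `m = 0` there
is nothing to show as `n ≥ 0`.  (Or use `Module.supportDim_quotSMulTop_succ_le_of_notMem_minimalPrimes` from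
`Mathlib/RingTheory/KrullDimension/Regular.lean` when no minimal prime is `𝔪`, and if `𝔪` is a minimal prime then `dim A = 0`.)
-/

set_option autoImplicit false
set_option linter.unusedVariables false

namespace H96.RM

universe u

open IsLocalRing

theorem dim_quot_le {A : Type u} [CommRing A] [IsLocalRing A] [IsNoetherianRing A] (n : ℕ)
    (hn : ringKrullDim A ≤ (n + 1 : ℕ)) (x : A) (hx : x ∈ maximalIdeal A)
    (h : ∀ p ∈ minimalPrimes A, p ≠ maximalIdeal A → x ∉ p) :
    ringKrullDim (A ⧸ Ideal.span {x}) ≤ (n : ℕ) := by
  rw [ringKrullDim_quotient]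
  refine iSup_le fun l => ?_
  rcases Nat.eq_zero_or_pos l.length with h0 | h0
  · rw [h0]
    exact_mod_cast Nat.zero_le n
  · have hlt : l.head < l.last :=
      l.strictMono (show (0 : Fin (l.length + 1)) < Fin.last _ from by
        rw [Fin.lt_def]; simpa using h0)
    have hlast : l.last.1.asIdeal ≤ maximalIdeal A :=
      le_maximalIdeal l.last.1.2.ne_top
    have hlt' : l.head.1.asIdeal < l.last.1.asIdeal := hlt
    have hne : l.head.1.asIdeal ≠ maximalIdeal A := fun he =>
      absurd hlast (not_le_of_gt (he ▸ hlt'))
    obtain ⟨p, hp, hp'⟩ := Ideal.exists_minimalPrimes_le (J := l.head.1.asIdeal) bot_le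
    have hpm : p ≠ maximalIdeal A := by
      intro he
      apply hne
      exact le_antisymm (le_maximalIdeal l.head.1.2.ne_top) (he ▸ hp')
    have hxp : x ∉ p := h p hp hpm
    have hxh : x ∈ l.head.1.asIdeal := by
      have := l.head.2
      simpa using this
    let p' : PrimeSpectrum A := ⟨p, hp.1.1⟩
    have hp'' : p' < l.head.1 := lt_of_le_of_ne hp' fun he => hxp (by
      have : p = l.head.1.asIdeal := congrArg PrimeSpectrum.asIdeal he
      rw [this]; exact hxh)
    have hmono : StrictMono (Subtype.val :
        PrimeSpectrum.zeroLocus ((Ideal.span {x} : Ideal A) : Set A) → PrimeSpectrum A) :=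
      Subtype.strictMono_coe _
    let l' : LTSeries (PrimeSpectrum A) := l.map Subtype.val hmono
    have hl' : l'.length = l.length := rfl
    have hhead : p' < l'.head := hp''
    have hlen := Order.LTSeries.length_le_krullDim (l'.cons p' hhead)
    have h2 : ((l.length + 1 : ℕ) : WithBot ℕ∞) ≤ ((n + 1 : ℕ) : WithBot ℕ∞) := by
      have hl : (l'.cons p' hhead).length = l.length + 1 := by
        rw [RelSeries.cons_length, hl']
      rw [hl] at hlen
      exact hlen.trans hn
    have h3 : l.length + 1 ≤ n + 1 := by exact_mod_cast h2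
    have h4 : l.length ≤ n := by omega
    exact_mod_cast h4

end H96.RM
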