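import Mathlib
import Pool.Agent.H96.RM.DimQuot

/-!
# Job RM-D8: existence of parameters in an ideal (helper96, MP_d7d607_ag)

`exists_params`: `A` Noetherian local, `dim A ≤ n`, `I` an ideal with `𝔪^e ≤ I`: there are `y_1..y_n ∈ I ∩ 𝔪` with `𝔪^c ≤ (y)`.
Proof: induction on `n` (for all `A`).  `n = 0`: `A` is Artinian, `𝔪^c = 0`.  `n + 1`: prime avoidance: `I ⊓ 𝔪` is not contained in a
minimal prime `p ≠ 𝔪` (else `𝔪^e ⊓ 𝔪 ≤ p`, `𝔪 ≤ p`), so there is `x ∈ I ⊓ 𝔪` outside all minimal primes `≠ 𝔪`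
(`Ideal.subset_union_prime`, finitely many minimal primes).  `dim A/x ≤ n`; apply induction to `A/x` and the image of `I`, lift the
elements to `I ⊓ 𝔪` (lift to `I`, they are in `𝔪` automatically because their images are).
-/

set_option autoImplicit false
set_option linter.unusedVariables false

namespace H96.RM

universe u

open IsLocalRing

theorem exists_params_elt {A : Type u} [CommRing A] [IsLocalRing A] [IsNoetherianRing A]
    (I : Ideal A) (e : ℕ) (he : maximalIdeal A ^ e ≤ I) :
    ∃ x, x ∈ I ∧ x ∈ maximalIdeal A ∧ ∀ p ∈ minimalPrimes A, p ≠ maximalIdeal A → x ∉ p := by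
  by_contra hcon
  push Not at hcon
  have hfin : {p ∈ minimalPrimes A | p ≠ maximalIdeal A}.Finite :=
    (minimalPrimes.finite_of_isNoetherianRing A).subset (Set.sep_subset _ _)
  have hsub : ((I ⊓ maximalIdeal A : Ideal A) : Set A) ⊆
      ⋃ p ∈ {p ∈ minimalPrimes A | p ≠ maximalIdeal A}, ((id p : Ideal A) : Set A) := by
    intro x hx
    obtain ⟨p, hp, hpm, hxp⟩ := hcon x hx.1 hx.2
    exact Set.mem_biUnion (show p ∈ {p ∈ minimalPrimes A | p ≠ maximalIdeal A} from ⟨hp, hpm⟩) hxp
  obtain ⟨p, ⟨hp, hpm⟩, hle⟩ := (Ideal.subset_union_prime_finite hfin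
    (maximalIdeal A) (maximalIdeal A) (fun q hq _ _ => hq.1.1.1)).mp hsub
  have hpp : p.IsPrime := hp.1.1
  have h1 : maximalIdeal A ^ (e + 1) ≤ p :=
    le_trans (le_inf ((Ideal.pow_le_pow_right (Nat.le_succ e)).trans he)
      (Ideal.pow_le_self (Nat.succ_ne_zero e))) hle
  have h2 : maximalIdeal A ≤ p := hpp.le_of_pow_le h1
  exact hpm (le_antisymm (le_maximalIdeal hpp.ne_top) h2)

theorem exists_params (n : ℕ) {A : Type u} [CommRing A] [IsLocalRing A] [IsNoetherianRing A]
    (hn : ringKrullDim A ≤ (n : ℕ)) (I : Ideal A) (e : ℕ) (he : maximalIdeal A ^ e ≤ I) :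
    ∃ y : Fin n → A, (∀ j, y j ∈ I ∧ y j ∈ maximalIdeal A) ∧
      ∃ c : ℕ, maximalIdeal A ^ c ≤ Ideal.span (Set.range y) := by
  induction n generalizing A with
  | zero =>
    have h0 : Ring.KrullDimLE 0 A := Ring.krullDimLE_iff.mpr hn
    refine ⟨Fin.elim0, fun j => j.elim0, ?_⟩
    obtain ⟨c, hc⟩ := IsNoetherianRing.isNilpotent_nilradical A
    refine ⟨c, ?_⟩
    rw [← Ring.jacobson_eq_nilradical_of_krullDimLE_zero, ringJacobson_eq_maximalIdeal] at hc
    rw [hc]
    exact bot_le
  | succ n ih =>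
    obtain ⟨x, hxI, hxm, hx⟩ := exists_params_elt I e he
    have hne : Ideal.span {x} ≠ (⊤ : Ideal A) := by
      intro h
      have h1 : (⊤ : Ideal A) ≤ maximalIdeal A := by
        rw [← h, Ideal.span_le]
        simpa using hxm
      exact (maximalIdeal.isMaximal A).ne_top (top_le_iff.mp h1)
    have hnt : Nontrivial (A ⧸ Ideal.span {x}) := Ideal.Quotient.nontrivial_iff.mpr hne
    have hsurj : Function.Surjective (Ideal.Quotient.mk (Ideal.span {x})) :=
      Ideal.Quotient.mk_surjective
    have hloc : IsLocalRing (A ⧸ Ideal.span {x}) :=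
      IsLocalRing.of_surjective' (Ideal.Quotient.mk (Ideal.span {x})) hsurj
    have hcomap : (maximalIdeal (A ⧸ Ideal.span {x})).comap (Ideal.Quotient.mk (Ideal.span {x})) =
        maximalIdeal A :=
      IsLocalRing.eq_maximalIdeal (Ideal.comap_isMaximal_of_surjective _ hsurj)
    have hmap : maximalIdeal (A ⧸ Ideal.span {x}) =
        (maximalIdeal A).map (Ideal.Quotient.mk (Ideal.span {x})) := by
      rw [← hcomap, Ideal.map_comap_of_surjective _ hsurj]
    obtain ⟨y', hy', c, hc⟩ := ih (A := A ⧸ Ideal.span {x}) (dim_quot_le n hn x hxm hx)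
      (I.map (Ideal.Quotient.mk (Ideal.span {x}))) (by
        rw [hmap, ← Ideal.map_pow]
        exact Ideal.map_mono he)
    have hlift : ∀ j, ∃ a, a ∈ I ∧ a ∈ maximalIdeal A ∧
        Ideal.Quotient.mk (Ideal.span {x}) a = y' j := by
      intro j
      obtain ⟨a, ha, hay⟩ := (Ideal.mem_map_iff_of_surjective _ hsurj).mp (hy' j).1
      refine ⟨a, ha, ?_, hay⟩
      rw [← hcomap, Ideal.mem_comap, hay]
      exact (hy' j).2
    choose a haI ham hay using hlift
    refine ⟨Fin.cons x a, ?_, c, ?_⟩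
    · intro j
      refine Fin.cases ⟨hxI, hxm⟩ (fun i => ⟨haI i, ham i⟩) j
    · intro z hz
      have h1 : Ideal.Quotient.mk (Ideal.span {x}) z ∈
          (Ideal.span (Set.range a)).map (Ideal.Quotient.mk (Ideal.span {x})) := by
        have h2 : Ideal.Quotient.mk (Ideal.span {x}) z ∈ Ideal.span (Set.range y') := by
          apply hc
          rw [hmap, ← Ideal.map_pow]
          exact Ideal.mem_map_of_mem _ hz
        have h3 : Set.range y' = Ideal.Quotient.mk (Ideal.span {x}) '' Set.range a := by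
          rw [← Set.range_comp]
          congr 1
          funext j
          exact (hay j).symm
        rw [Ideal.map_span, ← h3]
        exact h2
      obtain ⟨s, hs, hsz⟩ := (Ideal.mem_map_iff_of_surjective _ hsurj).mp h1
      have h4 : z - s ∈ Ideal.span {x} := Ideal.Quotient.eq.mp hsz.symm
      have h5 : z = s + (z - s) := by ring
      rw [h5]
      refine add_mem ?_ ?_
      · refine (Ideal.span_le.mpr ?_) hs
        rintro _ ⟨j, rfl⟩
        exact Ideal.subset_span ⟨j.succ, by rw [Fin.cons_succ]⟩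
      · refine (Ideal.span_le.mpr ?_) h4
        rintro _ rfl
        exact Ideal.subset_span ⟨0, by rw [Fin.cons_zero]⟩

end H96.RM
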