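import Mathlib

/-!
# Job RM-D2: a common parameter (helper96, MP_d7d607_ag)

`R` Noetherian local, `𝔪^e ≤ A + (r)`, `𝔪^e ≤ A' + (r')`, `r, r' ∈ 𝔪`.  Then some `w ∈ 𝔪` satisfies
`𝔪^e' ≤ A + (w)` and `𝔪^e' ≤ A' + (w)`.

Proof.  By prime avoidance (`Ideal.subset_union_prime`, finitely many minimal primes:
`Ideal.finite_minimalPrimes_of_isNoetherianRing`) choose `w ∈ 𝔪` outside all minimal primes `p ≠ 𝔪` of `A` and of `A'`.
Claim: every prime `q ≥ A + (w)` is `𝔪` (then `𝔪 ≤ radical (A + (w))`, and a power of the f.g. ideal `𝔪` is in `A + (w)`,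
`Ideal.exists_pow_le_of_le_radical_of_fg`).  `q` contains a minimal prime `p` of `A` (`Ideal.exists_minimalPrimes_le`).  If
`p = 𝔪` then `q = 𝔪`.  Otherwise `w ∉ p`, so `q ≠ p`.  In the domain `R ⧸ p` the maximal ideal is the only prime
containing the image of `r` (a prime `≥ p + (r) ≥ A + (r) ≥ 𝔪^e` is `𝔪`), so it is a minimal prime over a principal ideal and has
height `≤ 1` by Krull's theorem (`Ideal.height_le_one_of_isPrincipal_of_mem_minimalPrimes`); as `p < q ≤ 𝔪` the prime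
`q/p` is nonzero, so `q = 𝔪` (otherwise `0 < q/p < 𝔪/p` is a chain of length 2).
-/

set_option autoImplicit false
set_option linter.unusedVariables false

namespace H96.RM

open IsLocalRing

theorem common_key {R : Type*} [CommRing R] [IsLocalRing R] [IsNoetherianRing R]
    (A : Ideal R) (r : R) (hr : r ∈ maximalIdeal R) (e : ℕ)
    (h : maximalIdeal R ^ e ≤ A ⊔ Ideal.span {r}) (w : R)
    (hw : ∀ p ∈ A.minimalPrimes, w ∈ p → p = maximalIdeal R)
    (q : Ideal R) (hq : q.IsPrime) (hAq : A ⊔ Ideal.span {w} ≤ q) : q = maximalIdeal R := by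
  obtain ⟨p, hp, hpq⟩ := Ideal.exists_minimalPrimes_le (I := A) (J := q) (le_sup_left.trans hAq)
  have hpp : p.IsPrime := hp.1.1
  have hAp : A ≤ p := hp.1.2
  have hwq : w ∈ q := hAq (Ideal.mem_sup_right (Ideal.mem_span_singleton_self w))
  have hqm : q ≤ maximalIdeal R := le_maximalIdeal hq.ne_top
  by_contra hne
  have hwp : w ∉ p := fun hwp => hne (le_antisymm hqm ((hw p hp hwp).symm.le.trans hpq))
  have hm : maximalIdeal R ∈ (p ⊔ Ideal.span {r}).minimalPrimes := by
    refine ⟨⟨inferInstance, sup_le (hpq.trans hqm) ?_⟩, ?_⟩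
    · rw [Ideal.span_le, Set.singleton_subset_iff]
      exact hr
    · rintro P ⟨hP, hle⟩ -
      exact hP.le_of_pow_le (h.trans ((sup_le_sup_right hAp _).trans hle))
  have h1 := Ideal.map_height_le_one_of_mem_minimalPrimes hm
  have hsurj : Function.Surjective (Ideal.Quotient.mk p) := Ideal.Quotient.mk_surjective
  have hker : RingHom.ker (Ideal.Quotient.mk p) = p := Ideal.mk_ker
  have hmp : ((maximalIdeal R).map (Ideal.Quotient.mk p)).IsPrime :=
    Ideal.map_isPrime_of_surjective hsurj (hker.le.trans (hpq.trans hqm))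
  have hqp : (q.map (Ideal.Quotient.mk p)).IsPrime :=
    Ideal.map_isPrime_of_surjective hsurj (hker.le.trans hpq)
  have hbot : (⊥ : Ideal (R ⧸ p)).IsPrime := Ideal.isPrime_bot
  have hcom : ∀ J : Ideal R, p ≤ J → (J.map (Ideal.Quotient.mk p)).comap (Ideal.Quotient.mk p) = J := by
    intro J hJ
    rw [Ideal.comap_map_of_surjective _ hsurj, ← RingHom.ker_eq_comap_bot, hker, sup_eq_left]
    exact hJ
  have l1 : (⊥ : Ideal (R ⧸ p)) < q.map (Ideal.Quotient.mk p) := by
    rw [bot_lt_iff_ne_bot]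
    intro h0
    apply hwp
    have h2 := Ideal.mem_map_of_mem (Ideal.Quotient.mk p) hwq
    rw [h0, Ideal.mem_bot, Ideal.Quotient.eq_zero_iff_mem] at h2
    exact h2
  have l2 : q.map (Ideal.Quotient.mk p) < (maximalIdeal R).map (Ideal.Quotient.mk p) := by
    refine lt_of_le_of_ne (Ideal.map_mono hqm) fun h0 => hne ?_
    rw [← hcom q hpq, h0, hcom _ (hpq.trans hqm)]
  have h2 := Ideal.height_add_one_le_of_lt_of_isPrime l1
  have h3 := Ideal.height_add_one_le_of_lt_of_isPrime l2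
  have h4 : (1 : ℕ∞) ≤ (q.map (Ideal.Quotient.mk p)).height := le_trans (by simp) h2
  have h5 : (2 : ℕ∞) ≤ 1 := by
    calc (2 : ℕ∞) = 1 + 1 := by norm_num
      _ ≤ (q.map (Ideal.Quotient.mk p)).height + 1 := by gcongr
      _ ≤ _ := h3
      _ ≤ 1 := h1
  exact absurd h5 (by decide)

theorem common_pow {R : Type*} [CommRing R] [IsLocalRing R] [IsNoetherianRing R]
    (A : Ideal R) (r : R) (hr : r ∈ maximalIdeal R) (e : ℕ)
    (h : maximalIdeal R ^ e ≤ A ⊔ Ideal.span {r}) (w : R)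
    (hw : ∀ p ∈ A.minimalPrimes, w ∈ p → p = maximalIdeal R) :
    ∃ n : ℕ, maximalIdeal R ^ n ≤ A ⊔ Ideal.span {w} := by
  refine Ideal.exists_pow_le_of_le_radical_of_fg ?_ (IsNoetherian.noetherian _)
  rw [Ideal.radical_eq_sInf]
  refine le_sInf ?_
  rintro q ⟨hle, hq⟩
  exact (common_key A r hr e h w hw q hq hle).symm.le

theorem exists_common {R : Type*} [CommRing R] [IsLocalRing R] [IsNoetherianRing R]
    (A A' : Ideal R) (r r' : R) (hr : r ∈ maximalIdeal R) (hr' : r' ∈ maximalIdeal R) (e : ℕ)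
    (h : maximalIdeal R ^ e ≤ A ⊔ Ideal.span {r}) (h' : maximalIdeal R ^ e ≤ A' ⊔ Ideal.span {r'}) :
    ∃ w ∈ maximalIdeal R, ∃ e' : ℕ, maximalIdeal R ^ e' ≤ A ⊔ Ideal.span {w} ∧
      maximalIdeal R ^ e' ≤ A' ⊔ Ideal.span {w} := by
  classical
  have hfin : ((A.minimalPrimes ∪ A'.minimalPrimes) \ {maximalIdeal R}).Finite :=
    ((Ideal.finite_minimalPrimes_of_isNoetherianRing R A).union
      (Ideal.finite_minimalPrimes_of_isNoetherianRing R A')).subset Set.sdiff_subset
  have hex : ∃ w ∈ maximalIdeal R, ∀ p ∈ A.minimalPrimes ∪ A'.minimalPrimes, w ∈ p →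
      p = maximalIdeal R := by
    by_contra hcon
    push Not at hcon
    have hsub : (maximalIdeal R : Set R) ⊆
        ⋃ i ∈ (↑hfin.toFinset : Set (Ideal R)), ((id i : Ideal R) : Set R) := by
      intro w hw
      obtain ⟨p, hp, hwp, hne⟩ := hcon w hw
      rw [Set.mem_iUnion₂]
      exact ⟨p, by simpa using ⟨hp, hne⟩, hwp⟩
    rw [Ideal.subset_union_prime ⊥ ⊥ (by
      intro p hp _ _
      rw [Set.Finite.mem_toFinset] at hp
      rcases hp.1 with h1 | h1
      · exact h1.1.1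
      · exact h1.1.1)] at hsub
    obtain ⟨p, hp, hle⟩ := hsub
    rw [Set.Finite.mem_toFinset] at hp
    have hpp : p.IsPrime := by
      rcases hp.1 with h1 | h1
      · exact h1.1.1
      · exact h1.1.1
    exact hp.2 (le_antisymm (le_maximalIdeal hpp.ne_top) hle)
  obtain ⟨w, hw, hw'⟩ := hex
  obtain ⟨n, hn⟩ := common_pow A r hr e h w fun p hp => hw' p (Or.inl hp)
  obtain ⟨n', hn'⟩ := common_pow A' r' hr' e h' w fun p hp => hw' p (Or.inr hp)
  exact ⟨w, hw, max n n', (Ideal.pow_le_pow_right (le_max_left _ _)).trans hn,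
    (Ideal.pow_le_pow_right (le_max_right _ _)).trans hn'⟩

end H96.RM
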