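import Mathlib

/-!
# Job RM-D1: exchange of the last parameter (helper96, MP_d7d607_ag)

`R` Noetherian local, `M` finite, `as ++ [b]` weakly `M`-regular, `b ∈ 𝔪`,
`𝔪^e ≤ (as) + (c) + Ann M`.  Then `as ++ [c]` is weakly `M`-regular.

Proof.  By `isWeaklyRegular_append_iff` (and `isWeaklyRegular_singleton_iff`) `as` is weakly `M`-regular and `b` is regular on
`M' = M ⧸ (as) M`; we have to show that `c` is regular on `M'`.  `𝔪^e M' ≤ c M'`.  Suppose `c` is not regular on `M'`: then the
submodule `{m' | c m' = 0}` is nonzero, so it has an associated prime `p = Ann(x)`, `x ≠ 0`, `c x = 0`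
(`associatedPrimes.nonempty`, `IsAssociatedPrime`), so `c ∈ p`.  Claim: `p = 𝔪`.  `p` contains `Ann M'`, so `p` is in the support
of `M'` (`Module.mem_support_iff_of_finite`), and as `c ∈ p` it is in the support of `M'/cM'`
(`Module.support_quotient` or Nakayama over `R_p`), hence contains `Ann (M'/cM') ≥ 𝔪^e`, so `𝔪 ≤ p`.
Then `b ∈ 𝔪 = Ann x`, `b x = 0`, `x ≠ 0` contradicts the regularity of `b` on `M'`.
-/

set_option autoImplicit false
set_option linter.unusedVariables false

namespace H96.RM

open IsLocalRing RingTheory.Sequence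

theorem exchange {R : Type*} [CommRing R] [IsLocalRing R] [IsNoetherianRing R] {M : Type*}
    [AddCommGroup M] [Module R M] [Module.Finite R M] (as : List R) (b c : R)
    (has : ∀ a ∈ as, a ∈ maximalIdeal R) (hb : b ∈ maximalIdeal R) (hc : c ∈ maximalIdeal R)
    (hreg : IsWeaklyRegular M (as ++ [b])) (e : ℕ)
    (he : maximalIdeal R ^ e ≤ Ideal.ofList as ⊔ Ideal.span {c} ⊔ Module.annihilator R M) :
    IsWeaklyRegular M (as ++ [c]) := by
  rw [isWeaklyRegular_append_iff, isWeaklyRegular_singleton_iff] at hreg ⊢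
  obtain ⟨h1, h2⟩ := hreg
  refine ⟨h1, ?_⟩
  rw [isSMulRegular_iff_right_eq_zero_of_smul]
  intro x hx
  by_contra hx0
  obtain ⟨P, hP, hxP⟩ := exists_le_isAssociatedPrime_of_isNoetherianRing R x hx0
  have hcP : c ∈ P := hxP (by
    rw [Submodule.mem_colon_singleton, Submodule.mem_bot]
    exact hx)
  have hPp : P.IsPrime := hP.isPrime
  have hann := hP.annihilator_le
  have hle : Ideal.ofList as ⊔ Ideal.span {c} ⊔ Module.annihilator R M ≤ P := by
    refine sup_le (sup_le ?_ ?_) ?_
    · refine le_trans ?_ hann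
      intro r hr
      rw [Submodule.mem_annihilator]
      intro m _
      obtain ⟨m, rfl⟩ := Submodule.mkQ_surjective _ m
      rw [← map_smul, Submodule.mkQ_apply, Submodule.Quotient.mk_eq_zero]
      exact Submodule.smul_mem_smul hr trivial
    · rw [Ideal.span_singleton_le_iff_mem]
      exact hcP
    · refine le_trans ?_ hann
      intro r hr
      rw [Submodule.mem_annihilator]
      intro m _
      obtain ⟨m, rfl⟩ := Submodule.mkQ_surjective _ m
      rw [← map_smul, Module.mem_annihilator.1 hr m, map_zero]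
  have hmP : maximalIdeal R ≤ P := hPp.le_of_pow_le (he.trans hle)
  obtain ⟨-, y, hy⟩ := isAssociatedPrime_iff.1 hP
  have hby : b • y = 0 := by
    have hbP : b ∈ P := hmP hb
    rw [hy, Submodule.mem_colon_singleton, Submodule.mem_bot] at hbP
    exact hbP
  have hy0 : y = 0 := isSMulRegular_iff_right_eq_zero_of_smul.1 h2 y hby
  apply hPp.ne_top
  rw [hy, hy0]
  rw [Ideal.eq_top_iff_one, Submodule.mem_colon_singleton]
  simp

end H96.RM
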