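import Mathlib
import Pool.Agent.H96.RM.Exchange
import Pool.Agent.H96.RM.Common

/-!
# Job RM-D3: a system of parameters is regular if one is
(helper96, MP_d7d607_ag)

`weaklyRegular_of_primary`: `rs`, `ys` lists in `𝔪` of the same length `n`, `rs` weakly `M`-regular,
`𝔪^e ≤ (rs) + Ann M`, `𝔪^e ≤ (ys) + Ann M`.  Then `ys` is weakly `M`-regular.
Proof by induction on `n` (generalizing `M`).  `n = 0` is trivial.  `rs = r :: rs'`, `ys = y :: ys'`.  By `exists_common` with
`A = (rs') + Ann M`, `A' = (ys') + Ann M` there is `w ∈ 𝔪` with `𝔪^e' ≤ (rs') + (w) + Ann M` and `𝔪^e' ≤ (ys') + (w) + Ann M`.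
Permutations of weakly regular sequences in `𝔪` are weakly regular
(`IsLocalRing.isWeaklyRegular_of_perm_of_subset_maximalIdeal`).  `rs' ++ [r]` is regular, by `exchange` `rs' ++ [w]` is regular, so
`w :: rs'` is regular: `w` is `M`-regular and `rs'` is regular on `M̄ = QuotSMulTop w M`.  `w ∈ Ann M̄` and
`Ann M ≤ Ann M̄`, so the induction hypothesis applies to `M̄, rs', ys'`: `ys'` is regular on `M̄`, so `w :: ys'` is regular on `M`,
so `ys' ++ [w]`, so by `exchange` (`𝔪^e ≤ (ys') + (y) + Ann M`) `ys' ++ [y]`, so `y :: ys'`.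
-/

set_option autoImplicit false
set_option linter.unusedVariables false

namespace H96.RM

universe u v

open IsLocalRing RingTheory.Sequence

variable {R : Type u} [CommRing R] [IsLocalRing R] [IsNoetherianRing R]

theorem weaklyRegular_of_primary (n : ℕ) (M : Type v) [AddCommGroup M] [Module R M]
    [Module.Finite R M] (rs ys : List R) (hrs : ∀ r ∈ rs, r ∈ maximalIdeal R)
    (hys : ∀ y ∈ ys, y ∈ maximalIdeal R) (hrn : rs.length = n) (hyn : ys.length = n)
    (hreg : IsWeaklyRegular M rs) (e : ℕ)
    (he : maximalIdeal R ^ e ≤ Ideal.ofList rs ⊔ Module.annihilator R M)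
    (he' : maximalIdeal R ^ e ≤ Ideal.ofList ys ⊔ Module.annihilator R M) :
    IsWeaklyRegular M ys := by
  induction n generalizing M rs ys e with
  | zero =>
    obtain rfl := List.length_eq_zero_iff.1 hyn
    exact IsWeaklyRegular.nil R M
  | succ n ih =>
    obtain ⟨r, rs', rfl⟩ := List.exists_cons_of_length_eq_add_one hrn
    obtain ⟨y, ys', rfl⟩ := List.exists_cons_of_length_eq_add_one hyn
    have hr : r ∈ maximalIdeal R := hrs r List.mem_cons_self
    have hy : y ∈ maximalIdeal R := hys y List.mem_cons_self
    have hrs' : ∀ a ∈ rs', a ∈ maximalIdeal R := fun a ha => hrs a (List.mem_cons_of_mem _ ha)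
    have hys' : ∀ a ∈ ys', a ∈ maximalIdeal R := fun a ha => hys a (List.mem_cons_of_mem _ ha)
    have h1 : maximalIdeal R ^ e ≤
        (Ideal.ofList rs' ⊔ Module.annihilator R M) ⊔ Ideal.span {r} := by
      refine he.trans (le_of_eq ?_)
      rw [Ideal.ofList_cons, sup_assoc, sup_comm (Ideal.span {r})]
    have h2 : maximalIdeal R ^ e ≤
        (Ideal.ofList ys' ⊔ Module.annihilator R M) ⊔ Ideal.span {y} := by
      refine he'.trans (le_of_eq ?_)
      rw [Ideal.ofList_cons, sup_assoc, sup_comm (Ideal.span {y})]
    obtain ⟨w, hw, e', hw1, hw2⟩ := exists_common _ _ r y hr hy e h1 h2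
    have p1 : IsWeaklyRegular M (rs' ++ [r]) :=
      IsLocalRing.isWeaklyRegular_of_perm_of_subset_maximalIdeal hreg
        (List.perm_append_singleton r rs').symm hrs
    have p2 : IsWeaklyRegular M (rs' ++ [w]) := by
      refine exchange rs' r w hrs' hr hw p1 e' (hw1.trans (le_of_eq ?_))
      rw [sup_right_comm]
    have p3 : IsWeaklyRegular M (w :: rs') := by
      refine IsLocalRing.isWeaklyRegular_of_perm_of_subset_maximalIdeal p2
        (List.perm_append_singleton w rs') ?_
      intro a ha
      rcases List.mem_append.1 ha with ha | ha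
      · exact hrs' a ha
      · rw [List.mem_singleton.1 ha]
        exact hw
    rw [isWeaklyRegular_cons_iff] at p3
    have hAnn : Ideal.span {w} ⊔ Module.annihilator R M ≤
        Module.annihilator R (QuotSMulTop w M) := by
      refine sup_le ?_ ?_
      · rw [Ideal.span_singleton_le_iff_mem, Module.mem_annihilator]
        intro m
        obtain ⟨m, rfl⟩ := Submodule.mkQ_surjective _ m
        rw [← map_smul, Submodule.mkQ_apply, Submodule.Quotient.mk_eq_zero]
        exact Submodule.smul_mem_pointwise_smul _ _ _ trivial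
      · intro a ha
        rw [Module.mem_annihilator]
        intro m
        obtain ⟨m, rfl⟩ := Submodule.mkQ_surjective _ m
        rw [← map_smul, Module.mem_annihilator.1 ha m, map_zero]
    have p4 : IsWeaklyRegular (QuotSMulTop w M) ys' := by
      refine ih (QuotSMulTop w M) rs' ys' hrs' hys' (by simpa using hrn) (by simpa using hyn)
        p3.2 e' (hw1.trans ?_) (hw2.trans ?_)
      · rw [sup_assoc, sup_comm (Module.annihilator R M)]
        exact sup_le_sup_left hAnn _
      · rw [sup_assoc, sup_comm (Module.annihilator R M)]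
        exact sup_le_sup_left hAnn _
    have p5 : IsWeaklyRegular M (w :: ys') := by
      rw [isWeaklyRegular_cons_iff]
      exact ⟨p3.1, p4⟩
    have p6 : IsWeaklyRegular M (ys' ++ [w]) := by
      refine IsLocalRing.isWeaklyRegular_of_perm_of_subset_maximalIdeal p5
        (List.perm_append_singleton w ys').symm ?_
      intro a ha
      rcases List.mem_cons.1 ha with rfl | ha
      · exact hw
      · exact hys' a ha
    have p7 : IsWeaklyRegular M (ys' ++ [y]) := by
      refine exchange ys' w y hys' hw hy p6 e (h2.trans (le_of_eq ?_))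
      rw [sup_right_comm]
    refine IsLocalRing.isWeaklyRegular_of_perm_of_subset_maximalIdeal p7
      (List.perm_append_singleton y ys') ?_
    intro a ha
    rcases List.mem_append.1 ha with ha | ha
    · exact hys' a ha
    · rw [List.mem_singleton.1 ha]
      exact hy

end H96.RM
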