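import Mathlib

/-!
# Job RM-D3b: regular sequences of full length are systems of parameters (helper96, MP_d7d607_ag)

`primary_of_regular`: `rs` `M`-regular in `𝔪` of length `dim R`: `𝔪^e ≤ (rs) + Ann M`.
Proof.  `Module.supportDim_add_length_eq_supportDim_of_isRegular`: `supportDim (M/(rs)M) + length = supportDim M ≤ dim R = length`,
so `supportDim (M/(rs)M) ≤ 0`: its support has no chains of length one, and contains only `𝔪`
(every prime in the support is contained in `𝔪`, which is in the support too if the module is nonzero).
The support of `M/(rs)M` is the set of primes containing `(rs) + Ann M` (`Module.support_quotient`,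
`Module.support_eq_zeroLocus`), so every prime containing `(rs) + Ann M` is `𝔪`, so
`𝔪 ≤ radical` and `Ideal.exists_pow_le_of_le_radical_of_fg`.
-/

set_option autoImplicit false
set_option linter.unusedVariables false

namespace H96.RM

universe u v

open IsLocalRing RingTheory.Sequence

variable {R : Type u} [CommRing R] [IsLocalRing R] [IsNoetherianRing R]

theorem primary_of_regular (M : Type v) [AddCommGroup M] [Module R M] [Module.Finite R M]
    (rs : List R) (hrs : ∀ r ∈ rs, r ∈ maximalIdeal R) (hreg : IsRegular M rs)
    (hlen : (rs.length : WithBot ℕ∞) = ringKrullDim R) :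
    ∃ e : ℕ, maximalIdeal R ^ e ≤ Ideal.ofList rs ⊔ Module.annihilator R M := by
  have h1 := Module.supportDim_add_length_eq_supportDim_of_isRegular (R := R) (M := M) rs hreg
  have h2 : Module.supportDim R M ≤ ringKrullDim R := Module.supportDim_le_ringKrullDim R M
  rw [← h1, ← hlen] at h2
  have h3 : Module.supportDim R (M ⧸ (Ideal.ofList rs • ⊤ : Submodule R M)) ≤ 0 := by
    generalize Module.supportDim R (M ⧸ (Ideal.ofList rs • ⊤ : Submodule R M)) = d at h2
    induction d with
    | bot => exact bot_le
    | coe d =>
      have h4 : ((d + (rs.length : ℕ∞) : ℕ∞) : WithBot ℕ∞) ≤ ((rs.length : ℕ∞) : WithBot ℕ∞) := by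
        exact_mod_cast h2
      rw [WithBot.coe_le_coe] at h4
      induction d using ENat.recTopCoe with
      | top => simp at h4
      | coe d =>
        have h5 : d + rs.length ≤ rs.length := by exact_mod_cast h4
        have h6 : d = 0 := by omega
        subst h6
        exact le_rfl
  -- every prime containing the sum is maximal
  have h4 : ∀ p : Ideal R, p.IsPrime → Ideal.ofList rs ⊔ Module.annihilator R M ≤ p →
      maximalIdeal R ≤ p := by
    intro p hp hle
    have hsupp : ∀ q : PrimeSpectrum R, Ideal.ofList rs ⊔ Module.annihilator R M ≤ q.asIdeal →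
        q ∈ Module.support R (M ⧸ (Ideal.ofList rs • ⊤ : Submodule R M)) := by
      intro q hq
      rw [Module.support_quotient, Module.support_eq_zeroLocus]
      exact ⟨le_sup_right.trans hq, le_sup_left.trans hq⟩
    let P : PrimeSpectrum R := ⟨p, hp⟩
    let Q : PrimeSpectrum R := ⟨maximalIdeal R, inferInstance⟩
    have hPQ : P ≤ Q := IsLocalRing.le_maximalIdeal hp.ne_top
    by_contra hcon
    have hlt : P < Q := lt_of_le_of_ne hPQ (fun h => hcon (le_of_eq (congrArg
      PrimeSpectrum.asIdeal h).symm))
    have hP := hsupp P hle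
    have hQ := hsupp Q (hle.trans hPQ)
    have h5 : (⟨P, hP⟩ : Module.support R (M ⧸ (Ideal.ofList rs • ⊤ : Submodule R M))) <
      ⟨Q, hQ⟩ := hlt
    have h6 := (Order.krullDim_nonpos_iff_forall_isMax.1 h3) ⟨P, hP⟩
    exact (not_isMax_iff.2 ⟨_, h5⟩) h6
  have h5 : maximalIdeal R ≤ (Ideal.ofList rs ⊔ Module.annihilator R M).radical := by
    rw [Ideal.radical_eq_sInf]
    refine le_sInf fun p hp => h4 p hp.2 hp.1
  exact Ideal.exists_pow_le_of_le_radical_of_fg h5 (isNoetherian_def.mp inferInstance _)

end H96.RM
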