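import Mathlib
import Pool.Agent.H96.RM.Defs
import Pool.Agent.H96.RM.SopReg1
import Pool.Agent.H96.RM.SopReg2

/-!
# Job RM-D3c: systems of parameters are permutably regular on maximal Cohen-Macaulay modules (helper96, MP_d7d607_ag)

`PR_of_sop`: combine `primary_of_regular` and `weaklyRegular_of_primary` (`𝔪^c ≤ (ys)`); permutations `zs` of `ys` generate the
same ideal and have the same length (unfold `PR`: all permutations are weakly regular).
-/

set_option autoImplicit false
set_option linter.unusedVariables false

namespace H96.RM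

universe u v

open IsLocalRing RingTheory.Sequence

variable {R : Type u} [CommRing R] [IsLocalRing R] [IsNoetherianRing R]

theorem PR_of_sop (M : Type v) [AddCommGroup M] [Module R M] [Module.Finite R M]
    (rs : List R) (hrs : ∀ r ∈ rs, r ∈ maximalIdeal R) (hreg : IsRegular M rs)
    (hlen : (rs.length : WithBot ℕ∞) = ringKrullDim R) (ys : List R)
    (hys : ∀ y ∈ ys, y ∈ maximalIdeal R) (hyn : ys.length = rs.length) (c : ℕ)
    (hc : maximalIdeal R ^ c ≤ Ideal.ofList ys) : PR R M ys := by
  intro zs hzs
  obtain ⟨e, he⟩ := primary_of_regular M rs hrs hreg hlen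
  have hzy : Ideal.ofList zs = Ideal.ofList ys := by
    unfold Ideal.ofList
    congr 1
    ext r
    exact hzs.mem_iff
  have h1 : maximalIdeal R ^ (e + c) ≤ Ideal.ofList rs ⊔ Module.annihilator R M :=
    (Ideal.pow_le_pow_right (Nat.le_add_right e c)).trans he
  have h2 : maximalIdeal R ^ (e + c) ≤ Ideal.ofList zs ⊔ Module.annihilator R M := by
    rw [hzy]
    exact ((Ideal.pow_le_pow_right (Nat.le_add_left c e)).trans hc).trans le_sup_left
  exact weaklyRegular_of_primary rs.length M rs zs hrs
    (fun y hy => hys y (hzs.mem_iff.1 hy)) rfl (hzs.length_eq.trans hyn)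
    hreg.toIsWeaklyRegular (e + c) h1 h2

end H96.RM
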