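import Mathlib

/-!
# Job RM-D4: freeness over a regular local ring (helper96, MP_d7d607_ag)

`S` Noetherian local, `(xs) = 𝔪_S`, `M` a finite module on which `xs` is weakly regular.  Then `M` is free.

Proof by induction on the length of `xs`, for all `S` and `M` (state an auxiliary lemma
`∀ n, ∀ (S : Type u) [CommRing S] ..., ∀ M ..., ∀ xs, xs.length = n → ...`).  `xs = []`: `𝔪_S = ⊥`, `S` is a field
(`IsLocalRing.isField_iff_maximalIdeal_eq`), every module is free.  `xs = x :: xs'`: `x ∈ 𝔪_S`.  If `x` is regular on `M`
then by Mathlib `Module.free_quotSMulTop_iff_free` (file `Mathlib/RingTheory/Regular/Free.lean`, `M` is finitely presented,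
`x` in the Jacobson radical) it is enough that `QuotSMulTop x M` is free over `S ⧸ span {x}`.  `S ⧸ span {x}` is Noetherian
local with maximal ideal generated by the images of `xs'` (if `x` is a unit ... cannot happen), and the images of `xs'` are weakly regular on the
`S ⧸ span {x}`-module `QuotSMulTop x M` (`isWeaklyRegular_map_algebraMap_iff`).
-/

set_option autoImplicit false
set_option linter.unusedVariables false

namespace H96.RM

universe u v

open IsLocalRing RingTheory.Sequence

theorem fr_aux : ∀ (n : ℕ) (S : Type u) [CommRing S] [IsLocalRing S] [IsNoetherianRing S]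
    (M : Type v) [AddCommGroup M] [Module S M] [Module.Finite S M] (xs : List S),
    xs.length = n → Ideal.ofList xs = maximalIdeal S → IsWeaklyRegular M xs → Module.Free S M := by
  intro n
  induction n with
  | zero =>
    intro S _ _ _ M _ _ _ xs hn hxs _
    have h0 : xs = [] := List.length_eq_zero_iff.1 hn
    rw [h0, Ideal.ofList_nil] at hxs
    have hf : IsField S := IsLocalRing.isField_iff_maximalIdeal_eq.2 hxs.symm
    letI := hf.toField
    exact Module.Free.of_divisionRing S M
  | succ n ih =>
    intro S _ _ _ M _ _ _ xs hn hxs hreg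
    obtain ⟨x, ys, rfl⟩ := List.exists_cons_of_length_eq_add_one hn
    rw [isWeaklyRegular_cons_iff'] at hreg
    obtain ⟨h1, h2⟩ := hreg
    have hx : x ∈ maximalIdeal S := by
      rw [← hxs]
      exact Ideal.subset_span List.mem_cons_self
    haveI : Module.FinitePresentation S M := Module.finitePresentation_of_finite S M
    rw [← Module.free_quotSMulTop_iff_free S M (x := x)
      (by rw [IsLocalRing.jacobson_eq_maximalIdeal _ bot_ne_top]; exact hx) h1]
    have hne : Ideal.span {x} ≠ ⊤ := by
      intro h
      apply (maximalIdeal.isMaximal S).ne_top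
      rw [eq_top_iff, ← h, Ideal.span_le, Set.singleton_subset_iff]
      exact hx
    haveI : Nontrivial (S ⧸ Ideal.span {x}) := Ideal.Quotient.nontrivial_iff.2 hne
    haveI : IsLocalRing (S ⧸ Ideal.span {x}) :=
      IsLocalRing.of_surjective' (Ideal.Quotient.mk _) Ideal.Quotient.mk_surjective
    haveI : Module.Finite (S ⧸ Ideal.span {x}) (QuotSMulTop x M) :=
      Module.Finite.of_restrictScalars_finite S _ _
    refine ih (S ⧸ Ideal.span {x}) (QuotSMulTop x M) (ys.map (Ideal.Quotient.mk _)) ?_ ?_ h2
    · rw [List.length_map]
      simpa using hn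
    · rw [← Ideal.map_ofList]
      have e1 : maximalIdeal (S ⧸ Ideal.span {x}) =
          (maximalIdeal S).map (Ideal.Quotient.mk (Ideal.span {x})) :=
        (IsLocalRing.map_maximalIdeal_of_surjective _ Ideal.Quotient.mk_surjective).symm
      rw [e1, ← hxs, Ideal.ofList_cons, Ideal.map_sup]
      have e2 : (Ideal.span {x}).map (Ideal.Quotient.mk (Ideal.span {x})) = ⊥ :=
        Ideal.map_quotient_self _
      rw [e2, bot_sup_eq]

theorem free_of_regular {S : Type u} [CommRing S] [IsLocalRing S] [IsNoetherianRing S]
    (xs : List S) (hxs : Ideal.ofList xs = maximalIdeal S) (M : Type v) [AddCommGroup M]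
    [Module S M] [Module.Finite S M] (hreg : IsWeaklyRegular M xs) : Module.Free S M := by
  exact fr_aux xs.length S M xs rfl hxs hreg

end H96.RM
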