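import Mathlib

/-!
# Job RM-E1: quotients of power series rings I (helper96, MP_d7d607_ag)

`π : k[[X_1..X_n]] → R` surjective, `R` local.
* `pi_mem`: if `constantCoeff F = 0` then `π F ∈ 𝔪`.  (If `π F` were a unit, `π (F G) = 1`, then `1 - F G` is a unit
  of `k[[X]]` (constant coefficient `1`, `MvPowerSeries.isUnit_iff_constantCoeff`) in `ker π`, so `1 = 0` in `R`.)
* `pi_res`: every `r : R` is congruent to a constant modulo `𝔪` (`F - C (constantCoeff F)`).
* `pi_isNoetherian`: `R` is Noetherian (`MvPowerSeries.isNoetherianRing`, surjective image).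
* `pi_span`: `𝔪` is generated by the `π (X j)`.  Every `F` with zero constant coefficient is in the ideal generated by the variables
  (`MvPowerSeries` file `Ideal`/`idealOfVars`..., or `F = ∑ X_j G_j` by hand: send a monomial to its first variable; or use
  `MvPowerSeries.truncTotal` and `pi_approx` with Nakayama: `𝔪 = (x) + 𝔪^2`).
-/

set_option autoImplicit false
set_option linter.unusedVariables false

namespace H96.RM

universe u

open IsLocalRing

/-- a power series without constant term is in the ideal generated by the variables -/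
theorem pi_mem_span_X {k : Type u} [Field k] {n : ℕ} (F : MvPowerSeries (Fin n) k)
    (hF : MvPowerSeries.constantCoeff F = 0) :
    F ∈ Ideal.span (Set.range fun j : Fin n => (MvPowerSeries.X j : MvPowerSeries (Fin n) k)) := by
  classical
  let G : Fin n → MvPowerSeries (Fin n) k := fun j m =>
    if ∀ i < j, m i = 0 then MvPowerSeries.coeff (m + Finsupp.single j 1) F else 0
  have hG : ∀ (j : Fin n) (m : Fin n →₀ ℕ), MvPowerSeries.coeff m (G j) =
      if ∀ i < j, m i = 0 then MvPowerSeries.coeff (m + Finsupp.single j 1) F else 0 :=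
    fun _ _ => rfl
  have h1 : F = ∑ j : Fin n, MvPowerSeries.X j * G j := by
    ext m
    rw [map_sum]
    have h2 : ∀ j : Fin n, MvPowerSeries.coeff m (MvPowerSeries.X j * G j) =
        if (m j ≠ 0 ∧ ∀ i < j, m i = 0) then MvPowerSeries.coeff m F else 0 := by
      intro j
      rw [MvPowerSeries.X_def, MvPowerSeries.coeff_monomial_mul]
      by_cases hj : m j = 0
      · rw [if_neg, if_neg]
        · exact fun h => h.1 hj
        · intro h
          have := h j
          rw [Finsupp.single_eq_same] at this
          omega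
      · have hle : Finsupp.single j 1 ≤ m := by
          rw [Finsupp.single_le_iff]
          omega
        rw [if_pos hle, one_mul, hG, tsub_add_cancel_of_le hle]
        have h3 : (∀ i < j, (m - Finsupp.single j 1 : Fin n →₀ ℕ) i = 0) ↔ (m j ≠ 0 ∧ ∀ i < j, m i = 0) := by
          constructor
          · intro h
            refine ⟨hj, fun i hi => ?_⟩
            have := h i hi
            rw [Finsupp.tsub_apply, Finsupp.single_eq_of_ne (by exact hi.ne)] at this
            simpa using this
          · rintro ⟨-, h⟩ i hi
            rw [Finsupp.tsub_apply, h i hi, Nat.zero_sub]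
        by_cases h4 : (m j ≠ 0 ∧ ∀ i < j, m i = 0)
        · rw [if_pos h4, if_pos (h3.2 h4)]
        · rw [if_neg h4, if_neg (fun h => h4 (h3.1 h))]
    rw [Finset.sum_congr rfl (fun j _ => h2 j)]
    by_cases hm : m = 0
    · subst hm
      rw [Finset.sum_eq_zero]
      · exact hF
      · intro j _
        rw [if_neg]
        exact fun h => h.1 rfl
    · have h5 : ∃ j : Fin n, m j ≠ 0 := by
        by_contra h
        push Not at h
        exact hm (Finsupp.ext h)
      obtain ⟨j, hj, hmin⟩ : ∃ j : Fin n, m j ≠ 0 ∧ ∀ i < j, m i = 0 := by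
        have hne : (Finset.univ.filter fun j : Fin n => m j ≠ 0).Nonempty := by
          obtain ⟨j, hj⟩ := h5
          exact ⟨j, by simp [hj]⟩
        refine ⟨Finset.min' _ hne, ?_, ?_⟩
        · exact (Finset.mem_filter.1 (Finset.min'_mem _ hne)).2
        · intro i hi
          by_contra h
          exact absurd (Finset.min'_le _ i (by simp [h])) (not_le.2 hi)
      rw [Finset.sum_eq_single j]
      · rw [if_pos ⟨hj, hmin⟩]
      · intro i _ hij
        rw [if_neg]
        rintro ⟨hi, hi'⟩
        rcases lt_or_gt_of_ne hij with h | h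
        · exact hi (hmin i h)
        · exact hj (hi' j h)
      · intro h
        exact absurd (Finset.mem_univ j) h
  rw [h1]
  refine Ideal.sum_mem _ (fun j _ => ?_)
  exact Ideal.mul_mem_right _ _ (Ideal.subset_span ⟨j, rfl⟩)

variable {k : Type u} [Field k] {R : Type u} [CommRing R] {n : ℕ}
  (π : MvPowerSeries (Fin n) k →+* R) (hπ : Function.Surjective π)

include hπ

theorem pi_mem [IsLocalRing R] (F : MvPowerSeries (Fin n) k)
    (hF : MvPowerSeries.constantCoeff F = 0) : π F ∈ maximalIdeal R := by
  rw [mem_maximalIdeal, mem_nonunits_iff]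
  intro hu
  obtain ⟨s, hs⟩ := hu.exists_right_inv
  obtain ⟨G, rfl⟩ := hπ s
  have h1 : IsUnit (1 - F * G) := by
    rw [MvPowerSeries.isUnit_iff_constantCoeff, map_sub, map_mul, hF, zero_mul, sub_zero, map_one]
    exact isUnit_one
  have h2 : π (1 - F * G) = 0 := by
    rw [map_sub, map_one, map_mul, hs, sub_self]
  have h3 : IsUnit (π (1 - F * G)) := h1.map π
  rw [h2] at h3
  exact not_isUnit_zero h3

theorem pi_res [IsLocalRing R] (r : R) :
    ∃ c : k, r - π (MvPowerSeries.C c) ∈ maximalIdeal R := by
  obtain ⟨F, rfl⟩ := hπ r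
  refine ⟨MvPowerSeries.constantCoeff F, ?_⟩
  rw [← map_sub]
  refine pi_mem π hπ _ ?_
  rw [map_sub, MvPowerSeries.constantCoeff_C, sub_self]

theorem pi_isNoetherian : IsNoetherianRing R :=
  isNoetherianRing_of_surjective _ _ π hπ

theorem pi_span [IsLocalRing R] :
    Ideal.span (Set.range fun j : Fin n => π (MvPowerSeries.X j)) = maximalIdeal R := by
  apply le_antisymm
  · rw [Ideal.span_le]
    rintro _ ⟨j, rfl⟩
    exact pi_mem π hπ _ (MvPowerSeries.constantCoeff_X j)
  · intro r hr
    obtain ⟨F, rfl⟩ := hπ r
    have h1 : MvPowerSeries.constantCoeff F = 0 := by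
      by_contra hne
      have h2 : IsUnit F := by
        rw [MvPowerSeries.isUnit_iff_constantCoeff]
        exact isUnit_iff_ne_zero.2 hne
      exact (mem_maximalIdeal _).1 hr (h2.map π)
    have h3 := Ideal.mem_map_of_mem π (pi_mem_span_X F h1)
    rw [Ideal.map_span, ← Set.range_comp] at h3
    exact h3

end H96.RM
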