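import Mathlib
import Pool.Agent.H96.RM.Params

/-!
# Job RM-D9: existence of systems of parameters with all but one element in J (helper96, MP_d7d607_ag)

`exists_sop`: `dim R = d + 1` (as an equality in `WithBot ℕ∞`), `dim R/J ≤ 1`.  Choose `z ∈ 𝔪` outside all minimal primes `≠ 𝔪` of `R` and
outside all minimal primes `≠ 𝔪` of `J`.  Then `dim R/z ≤ d`, and every prime containing `J + (z)` is `𝔪` (it contains a minimal prime `p` of
`J`; if `p ≠ 𝔪` it is strictly larger than `p`, and `dim R/J ≤ 1`), so `𝔪^e ≤ J + (z)`.  Apply `exists_params` to `R/z` and the image of `J`: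
`y_j ∈ J ∩ 𝔪` with `𝔪^c ≤ (y) + (z)`.
-/

set_option autoImplicit false
set_option linter.unusedVariables false

namespace H96.RM

universe u

open IsLocalRing

/-- A chain `J ≤ p < q < r` of primes contradicts `dim R/J ≤ 1`. -/
theorem no_chain_of_dim_le_one {R : Type u} [CommRing R] (J : Ideal R) (hJ : ringKrullDim (R ⧸ J) ≤ 1)
    (p q r : Ideal R) (hp : p.IsPrime) (hq : q.IsPrime) (hr : r.IsPrime) (h0 : J ≤ p) (h1 : p < q)
    (h2 : q < r) : False := by
  rw [ringKrullDim_quotient] at hJ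
  let P : PrimeSpectrum.zeroLocus (R := R) (J : Set R) := ⟨⟨p, hp⟩, h0⟩
  let Q : PrimeSpectrum.zeroLocus (R := R) (J : Set R) := ⟨⟨q, hq⟩, h0.trans h1.le⟩
  let W : PrimeSpectrum.zeroLocus (R := R) (J : Set R) := ⟨⟨r, hr⟩, (h0.trans h1.le).trans h2.le⟩
  have hPQ : P < Q := h1
  have hQW : Q < W := h2
  let l : LTSeries (PrimeSpectrum.zeroLocus (R := R) (J : Set R)) :=
    ((RelSeries.singleton _ W).cons Q hQW).cons P (by
      show P < RelSeries.head _
      rw [RelSeries.head_cons]
      exact hPQ)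
  have hl : (l.length : WithBot ℕ∞) ≤ Order.krullDim (PrimeSpectrum.zeroLocus (R := R) (J : Set R)) :=
    Order.LTSeries.length_le_krullDim l
  have hlen : l.length = 2 := by
    simp [l]
  rw [hlen] at hl
  have h3 := hl.trans hJ
  norm_num at h3

/-- Prime avoidance for finitely many non-maximal primes. -/
theorem exists_avoid {R : Type u} [CommRing R] [IsLocalRing R] (S : Set (Ideal R)) (hS : S.Finite)
    (hp : ∀ p ∈ S, p.IsPrime ∧ p ≠ maximalIdeal R) :
    ∃ z ∈ maximalIdeal R, ∀ p ∈ S, z ∉ p := by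
  by_contra hcon
  push Not at hcon
  have hsub : ((maximalIdeal R : Ideal R) : Set R) ⊆ ⋃ i ∈ S, ((i : Ideal R) : Set R) := by
    intro z hz
    obtain ⟨p, hpS, hzp⟩ := hcon z hz
    exact Set.mem_iUnion₂.mpr ⟨p, hpS, hzp⟩
  rw [Ideal.subset_union_prime_finite (f := fun i : Ideal R => i) hS ⊥ ⊥
    (fun i hi _ _ => (hp i hi).1)] at hsub
  obtain ⟨p, hpS, hle⟩ := hsub
  have h1 : p ≤ maximalIdeal R := le_maximalIdeal (hp p hpS).1.ne_top
  exact (hp p hpS).2 (le_antisymm h1 hle)

theorem exists_sop {R : Type u} [CommRing R] [IsLocalRing R] [IsNoetherianRing R] (d : ℕ)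
    (hd : ringKrullDim R = (d + 1 : ℕ)) (J : Ideal R) (hJ : ringKrullDim (R ⧸ J) ≤ 1) :
    ∃ (z : R) (y : Fin d → R), z ∈ maximalIdeal R ∧ (∀ j, y j ∈ J ∧ y j ∈ maximalIdeal R) ∧
      ∃ c : ℕ, maximalIdeal R ^ c ≤ Ideal.span {z} ⊔ Ideal.span (Set.range y) := by
  obtain ⟨z, hz, hav⟩ := exists_avoid (R := R)
    ({p | (p ∈ minimalPrimes R ∨ p ∈ J.minimalPrimes) ∧ p ≠ maximalIdeal R})
    (by
      refine Set.Finite.subset ((minimalPrimes.finite_of_isNoetherianRing R).union
        (Ideal.finite_minimalPrimes_of_isNoetherianRing R J)) ?_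
      rintro p ⟨hp, -⟩
      exact hp)
    (by
      rintro p ⟨hp, hne⟩
      refine ⟨?_, hne⟩
      rcases hp with hp | hp
      · exact hp.1.1
      · exact hp.1.1)
  have hdim : ringKrullDim (R ⧸ Ideal.span {z}) ≤ (d : ℕ) := by
    refine dim_quot_le d hd.le z hz ?_
    intro p hp hne
    exact hav p ⟨Or.inl hp, hne⟩
  have hmax : ∀ q : Ideal R, q.IsPrime → J ⊔ Ideal.span {z} ≤ q → q = maximalIdeal R := by
    intro q hq hle
    have hJq : J ≤ q := le_sup_left.trans hle
    have hzq : z ∈ q := (le_sup_right.trans hle) (Ideal.mem_span_singleton_self z)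
    obtain ⟨p, hp, hpq⟩ := Ideal.exists_minimalPrimes_le hJq
    by_contra hne
    have hqm : q < maximalIdeal R := lt_of_le_of_ne (le_maximalIdeal hq.ne_top) hne
    have hpm : p ≠ maximalIdeal R := by
      rintro rfl
      exact absurd hpq (not_le_of_gt hqm)
    have hzp : z ∉ p := hav p ⟨Or.inr hp, hpm⟩
    have hlt : p < q := lt_of_le_of_ne hpq (by
      rintro rfl
      exact hzp hzq)
    exact no_chain_of_dim_le_one J hJ p q (maximalIdeal R) hp.1.1 hq inferInstance hp.1.2 hlt hqm
  have hrad : maximalIdeal R ≤ (J ⊔ Ideal.span {z}).radical := by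
    rw [Ideal.radical_eq_sInf]
    refine le_sInf ?_
    rintro q ⟨hle, hq⟩
    exact (hmax q hq hle).ge
  obtain ⟨e, he⟩ := Ideal.exists_pow_le_of_le_radical_of_fg hrad
    ((isNoetherianRing_iff_ideal_fg R).mp inferInstance (maximalIdeal R))
  set A := R ⧸ Ideal.span {z} with hA
  have hzt : Ideal.span {z} ≠ ⊤ := by
    intro h
    have : Ideal.span {z} ≤ maximalIdeal R := (Ideal.span_singleton_le_iff_mem _).mpr hz
    rw [h] at this
    exact (Ideal.IsPrime.ne_top (inferInstance : (maximalIdeal R).IsPrime)) (top_le_iff.mp this)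
  have : Nontrivial A := Ideal.Quotient.nontrivial_iff.mpr hzt
  have hsurj : Function.Surjective (Ideal.Quotient.mk (Ideal.span {z})) := Ideal.Quotient.mk_surjective
  have : IsLocalRing A := IsLocalRing.of_surjective' (Ideal.Quotient.mk (Ideal.span {z})) hsurj
  have : IsLocalHom (Ideal.Quotient.mk (Ideal.span {z})) := IsLocalHom.of_surjective _ hsurj
  have hmaxA : maximalIdeal A = (maximalIdeal R).map (Ideal.Quotient.mk (Ideal.span {z})) := by
    apply le_antisymm
    · intro a ha
      obtain ⟨r, rfl⟩ := hsurj a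
      apply Ideal.mem_map_of_mem
      have h2 : ¬ IsUnit (Ideal.Quotient.mk (Ideal.span {z}) r) := ha
      exact fun h3 => h2 (h3.map _)
    · rw [Ideal.map_le_iff_le_comap]
      intro r hr
      show ¬ IsUnit (Ideal.Quotient.mk (Ideal.span {z}) r)
      intro h3
      exact hr (isUnit_of_map_unit (Ideal.Quotient.mk (Ideal.span {z})) r h3)
  have hkill : (Ideal.span {z}).map (Ideal.Quotient.mk (Ideal.span {z})) = ⊥ :=
    Ideal.map_quotient_self _
  have hpow : maximalIdeal A ^ e ≤ J.map (Ideal.Quotient.mk (Ideal.span {z})) := by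
    rw [hmaxA, ← Ideal.map_pow]
    refine (Ideal.map_mono he).trans ?_
    rw [Ideal.map_sup, hkill, sup_bot_eq]
  obtain ⟨y', hy', c, hc⟩ := exists_params d hdim (J.map (Ideal.Quotient.mk (Ideal.span {z}))) e hpow
  have hlift : ∀ j, ∃ x : R, x ∈ J ∧ Ideal.Quotient.mk (Ideal.span {z}) x = y' j := by
    intro j
    exact (Ideal.mem_map_iff_of_surjective _ hsurj).mp (hy' j).1
  choose y hyJ hyq using hlift
  refine ⟨z, y, hz, fun j => ⟨hyJ j, ?_⟩, c, ?_⟩
  · intro hu
    have h4 : Ideal.Quotient.mk (Ideal.span {z}) (y j) ∈ maximalIdeal A := by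
      rw [hyq j]
      exact (hy' j).2
    exact h4 (hu.map _)
  · intro x hx
    have h5 : Ideal.Quotient.mk (Ideal.span {z}) x ∈ maximalIdeal A ^ c := by
      rw [hmaxA, ← Ideal.map_pow]
      exact Ideal.mem_map_of_mem _ hx
    have h6 := hc h5
    have h7 : Ideal.span (Set.range y') =
        (Ideal.span (Set.range y)).map (Ideal.Quotient.mk (Ideal.span {z})) := by
      rw [Ideal.map_span, ← Set.range_comp]
      congr 2
      funext j
      exact (hyq j).symm
    rw [h7] at h6
    obtain ⟨w, hw, hwx⟩ := (Ideal.mem_map_iff_of_surjective _ hsurj).mp h6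
    have h8 : x - w ∈ Ideal.span {z} := by
      rw [← Ideal.Quotient.eq_zero_iff_mem, map_sub, hwx, sub_self]
    have h9 : x = (x - w) + w := by ring
    rw [h9]
    exact Ideal.add_mem _ (Ideal.mem_sup_left h8) (Ideal.mem_sup_right hw)

end H96.RM
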