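import Mathlib
import Pool.Agent.H96.RM.PRLemma

/-!
# Job RM-C3: the exact sequence (helper96, MP_d7d607_ag)

For `PR R M (y :: ys)`, `𝔠 = ofList (y :: ys)`, `𝔟 = ofList ys`, `M̄ = QuotSMulTop y M`, `n ≥ 0`:
  `0 → 𝔠^n M  -(y)->  𝔠^(n+1) M -mk- > 𝔟^(n+1) M̄ → 0`
is a short exact sequence in `ModuleCat R`.

* `fmap`: `m ↦ y • m` maps `𝔠^n M` to `𝔠^(n+1) M`; injective because `y` is `M`-regular.
* `gmap`: the quotient map `M → M̄` maps `𝔠^(n+1) M` onto `𝔠^(n+1) M̄ = 𝔟^(n+1) M̄` (`y` acts as `0` on `M̄`;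
  `𝔠^(n+1) = y 𝔠^n + 𝔟^(n+1)`; surjective because already `𝔟^(n+1) M` maps onto `𝔟^(n+1) M̄`, `Submodule.map_smul''`).
* exactness in the middle: if `m ∈ 𝔠^(n+1) M` maps to `0` then `m = y • m'`, and `m' ∈ 𝔠^n M` by `PR.smul_mem`.
The definitions of the two maps (below) are part of the job.
-/

set_option autoImplicit false
set_option linter.unusedVariables false

namespace H96.RM

universe u

open CategoryTheory RingTheory.Sequence

variable {R : Type u} [CommRing R] (M : Type u) [AddCommGroup M] [Module R M] (y : R)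
  (ys : List R) (n : ℕ)

/-- the quotient map -/
private def exSeq_q : M →ₗ[R] QuotSMulTop y M := Submodule.mkQ _

private theorem exSeq_q_surj : Function.Surjective (exSeq_q M y) := Submodule.mkQ_surjective _

private theorem exSeq_q_zero (m : M) : exSeq_q M y m = 0 ↔ ∃ m', y • m' = m := by
  unfold exSeq_q
  rw [Submodule.mkQ_apply, Submodule.Quotient.mk_eq_zero,
    Submodule.mem_smul_pointwise_iff_exists]
  constructor
  · rintro ⟨m', _, h⟩
    exact ⟨m', h⟩
  · rintro ⟨m', h⟩
    exact ⟨m', trivial, h⟩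

private theorem exSeq_smul_quot (x : QuotSMulTop y M) : y • x = 0 := by
  obtain ⟨m, rfl⟩ := exSeq_q_surj M y x
  rw [← map_smul, exSeq_q_zero]
  exact ⟨m, rfl⟩

private theorem exSeq_pow_le : Ideal.ofList (y :: ys) ^ n • (⊤ : Submodule R (QuotSMulTop y M)) ≤
    Ideal.ofList ys ^ n • (⊤ : Submodule R (QuotSMulTop y M)) := by
  induction n with
  | zero => rw [pow_zero, pow_zero]
  | succ n ih =>
    rw [pow_succ', pow_succ', mul_smul, mul_smul, Ideal.ofList_cons, Submodule.sup_smul]
    refine sup_le ?_ ?_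
    · rw [Submodule.smul_le]
      intro r hr x _
      obtain ⟨a, rfl⟩ := Ideal.mem_span_singleton'.1 hr
      rw [mul_smul, exSeq_smul_quot, smul_zero]
      exact Submodule.zero_mem _
    · refine Submodule.smul_mono le_rfl ?_
      rw [← Ideal.ofList_cons]
      exact ih

private theorem exSeq_mem : y ∈ Ideal.ofList (y :: ys) :=
  Ideal.subset_span List.mem_cons_self

private theorem exSeq_le : Ideal.ofList ys ≤ Ideal.ofList (y :: ys) := by
  rw [Ideal.ofList_cons]
  exact le_sup_right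

theorem smul_mem_pow (m : M) (hm : m ∈ Ideal.ofList (y :: ys) ^ n • (⊤ : Submodule R M)) :
    y • m ∈ Ideal.ofList (y :: ys) ^ (n + 1) • (⊤ : Submodule R M) := by
  rw [pow_succ', mul_smul]
  exact Submodule.smul_mem_smul (exSeq_mem y ys) hm

theorem mkQ_mem_pow (m : M) (hm : m ∈ Ideal.ofList (y :: ys) ^ n • (⊤ : Submodule R M)) :
    (Submodule.mkQ _ m : QuotSMulTop y M) ∈ Ideal.ofList ys ^ n •
      (⊤ : Submodule R (QuotSMulTop y M)) := by
  apply exSeq_pow_le M y ys n
  have h1 : exSeq_q M y m ∈ Submodule.map (exSeq_q M y)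
        (Ideal.ofList (y :: ys) ^ n • (⊤ : Submodule R M)) := Submodule.mem_map_of_mem hm
  rw [Submodule.map_smul''] at h1
  exact Submodule.smul_mono le_rfl le_top h1

/-- `m ↦ y • m`. -/
def fmap : ↥(Ideal.ofList (y :: ys) ^ n • (⊤ : Submodule R M)) →ₗ[R]
    ↥(Ideal.ofList (y :: ys) ^ (n + 1) • (⊤ : Submodule R M)) :=
  LinearMap.restrict (LinearMap.lsmul R M y) (smul_mem_pow M y ys n)

/-- restriction of the quotient map. -/
def gmap : ↥(Ideal.ofList (y :: ys) ^ n • (⊤ : Submodule R M)) →ₗ[R]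
    ↥(Ideal.ofList ys ^ n • (⊤ : Submodule R (QuotSMulTop y M))) :=
  LinearMap.restrict (Submodule.mkQ _) (mkQ_mem_pow M y ys n)

theorem gmap_fmap : gmap M y ys (n + 1) ∘ₗ fmap M y ys n = 0 := by
  apply LinearMap.ext
  intro x
  apply Subtype.ext
  change exSeq_q M y (y • (x : M)) = 0
  rw [map_smul]
  exact exSeq_smul_quot M y _

/-- The short complex. -/
noncomputable def seqC : ShortComplex (ModuleCat.{u} R) :=
  ShortComplex.mk (ModuleCat.ofHom (fmap M y ys n)) (ModuleCat.ofHom (gmap M y ys (n + 1)))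
    (by rw [← ModuleCat.ofHom_comp, gmap_fmap]; rfl)

theorem seqC_shortExact (h : PR R M (y :: ys)) : (seqC M y ys n).ShortExact := by
  have hex : Function.Exact (fmap M y ys n) (gmap M y ys (n + 1)) := by
    intro x
    constructor
    · intro hx
      have h1 : exSeq_q M y (x : M) = 0 := congrArg Subtype.val hx
      rw [exSeq_q_zero] at h1
      obtain ⟨m, hm⟩ := h1
      have h2 : m ∈ Ideal.ofList (y :: ys) ^ n • (⊤ : Submodule R M) :=
        h.smul_mem n m (by rw [hm]; exact x.2)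
      exact ⟨⟨m, h2⟩, Subtype.ext hm⟩
    · rintro ⟨z, rfl⟩
      exact LinearMap.congr_fun (gmap_fmap M y ys n) z
  have hinj : Function.Injective (fmap M y ys n) := by
    intro a b hab
    have h1 : y • (a : M) = y • (b : M) := congrArg Subtype.val hab
    exact Subtype.ext (h.regular h1)
  have hsurj : Function.Surjective (gmap M y ys (n + 1)) := by
    intro z
    have h1 : Submodule.map (exSeq_q M y) (Ideal.ofList ys ^ (n + 1) • (⊤ : Submodule R M)) =
        Ideal.ofList ys ^ (n + 1) • (⊤ : Submodule R (QuotSMulTop y M)) := by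
      rw [Submodule.map_smul'', Submodule.map_top, LinearMap.range_eq_top.2 (exSeq_q_surj M y)]
    have h2 : (z : QuotSMulTop y M) ∈ Submodule.map (exSeq_q M y)
        (Ideal.ofList ys ^ (n + 1) • (⊤ : Submodule R M)) := by
      rw [h1]; exact z.2
    obtain ⟨m, hm, hmz⟩ := h2
    have h3 : m ∈ Ideal.ofList (y :: ys) ^ (n + 1) • (⊤ : Submodule R M) :=
      Submodule.smul_mono_left (Ideal.pow_right_mono (exSeq_le y ys) _) hm
    exact ⟨⟨m, h3⟩, Subtype.ext hmz⟩
  exact ModuleCat.shortComplex_shortExact _ hex hinj hsurj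

end H96.RM
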