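import Mathlib
import Pool.Agent.H96.RM.Defs

/-!
# Job RM-C2: elements factoring through free modules kill Ext (helper96, MP_d7d607_ag)

* `FF.add`, `FF.mul`: `{x | FF R M x}` is an ideal (sum: use `Fin m ⊕ Fin n ≃ Fin (m + n)`,
  or `Fin.append`/`LinearEquiv.finTwoArrow`-like equivalences `(Fin (m+n) → R) ≃ (Fin m → R) × (Fin n → R)`;
  `r * x`: replace `α` by `r • α`).
* `FF.ext_zero`: `x • 𝟙 = β ∘ α` on `M` with `F = R^n` projective.  For `e ∈ Ext^p(M, N)`, `p ≥ 1`: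
  `e.comp (mk₀ (x • 𝟙 N)) = x • e = (mk₀ (x • 𝟙 M)).comp e = (mk₀ α).comp ((mk₀ β).comp e)` and
  `(mk₀ β).comp e ∈ Ext^p(F, N) = 0` (`CategoryTheory.Abelian.Ext.eq_zero_of_projective`).
  `Ext` is `R`-linear: `Mathlib/Algebra/Homology/DerivedCategory/Ext/Linear.lean`
  (`Ext.smul_comp`, `Ext.comp_smul`, `Ext.mk₀_smul`); see also the use of `Ext.postcomp_smul_id_...` in
  `Mathlib/RingTheory/Depth/Rees.lean`.
-/

set_option autoImplicit false
set_option linter.unusedVariables false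

namespace H96.RM

universe u

open CategoryTheory Abelian

variable {R : Type u} [CommRing R] {M : Type u} [AddCommGroup M] [Module R M]

theorem FF.add {x y : R} (hx : FF R M x) (hy : FF R M y) : FF R M (x + y) := by
  obtain ⟨m, α, β, h⟩ := hx
  obtain ⟨n, α', β', h'⟩ := hy
  let E : ((Fin m → R) × (Fin n → R)) ≃ₗ[R] (Fin (m + n) → R) :=
    (LinearEquiv.sumArrowLequivProdArrow (Fin m) (Fin n) R R).symm.trans
      (LinearEquiv.funCongrLeft R R finSumFinEquiv.symm)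
  refine ⟨m + n, E.toLinearMap ∘ₗ (α.prod α'), (β.coprod β') ∘ₗ E.symm.toLinearMap, fun z => ?_⟩
  simp [h, h', add_smul]

theorem FF.mul {x : R} (hx : FF R M x) (r : R) : FF R M (r * x) := by
  obtain ⟨m, α, β, h⟩ := hx
  refine ⟨m, r • α, β, fun z => ?_⟩
  simp [h, mul_smul]

theorem FF.zero : FF R M 0 :=
  ⟨0, 0, 0, fun z => by simp⟩

/-- The ideal of elements factoring through a free module. -/
def ffIdeal (R : Type u) [CommRing R] (M : Type u) [AddCommGroup M] [Module R M] : Ideal R where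
  carrier := {x | FF R M x}
  add_mem' hx hy := FF.add hx hy
  zero_mem' := FF.zero
  smul_mem' r _ hx := FF.mul hx r

theorem FF.ext_zero {x : R} (hx : FF R M x) (N : ModuleCat.{u} R) (p : ℕ) (hp : 1 ≤ p)
    (e : Ext (ModuleCat.of R M) N p) :
    e.comp (Ext.mk₀ (x • 𝟙 N)) (add_zero p) = 0 := by
  obtain ⟨m, α, β, h⟩ := hx
  obtain ⟨q, rfl⟩ : ∃ q, p = q + 1 := ⟨p - 1, by omega⟩
  have h1 : e.comp (Ext.mk₀ (x • 𝟙 N)) (add_zero (q + 1)) = x • e := by
    rw [Ext.mk₀_smul, Ext.comp_smul, Ext.comp_mk₀_id]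
  have h2 : x • e = (Ext.mk₀ (x • 𝟙 (ModuleCat.of R M))).comp e (zero_add (q + 1)) := by
    rw [Ext.mk₀_smul, Ext.smul_comp, Ext.mk₀_id_comp]
  have h3 : x • 𝟙 (ModuleCat.of R M) = ModuleCat.ofHom α ≫ ModuleCat.ofHom β := by
    ext z
    simp [h]
  have : Projective (ModuleCat.of R (Fin m → R)) := by
    have : Module.Projective R (Fin m → R) := inferInstance
    exact (IsProjective.iff_projective _).mp this
  rw [h1, h2, h3, ← Ext.mk₀_comp_mk₀, Ext.comp_assoc_of_second_deg_zero,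
    Ext.eq_zero_of_projective ((Ext.mk₀ (ModuleCat.ofHom β)).comp e (zero_add (q + 1)))]
  simp

end H96.RM
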