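import Mathlib
import Pool.Agent.H96.RM.ExSeq
import Pool.Agent.H96.RM.FFLemma

/-!
# Job RM-C4: Lemma E (helper96, MP_d7d607_ag)

If every `y ∈ ys` factors through a free module on `M` and `PR R M' ys`, then for `p ≥ 1`, `n ≥ 1` the map
`Ext^p(M, 𝔟^(n+l) M') → Ext^p(M, 𝔟^n M')` is zero, `𝔟 = ofList ys`, `l = ys.length`.
More generally for every `N ≥ n + l`.

Proof, by induction on `ys` generalizing `M'` and `n`.
`ys = []`: `𝔟 = ⊥`, `𝔟^n M' = 0` as `n ≥ 1`, so the target `Ext` group is `0` (`Ext` into a zero object;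
or the inclusion is the zero map, `Ext.mk₀_zero`, `Ext.comp_zero`).
`ys = y :: ys'`, `l' = ys'.length`, `N ≥ n + l' + 1`, `M̄ = QuotSMulTop y M'`, `PR R M̄ ys'` (`PR.quot`).  Let `x ∈ Ext^p(M, 𝔠^N M')`.
Let `x₁` be its image in `Ext^p(M, 𝔠^(n+1) M')`.  The image of `x₁` under `gmap : 𝔠^(n+1) M' → 𝔟^(n+1) M̄` is, by naturality
(`gmap` commutes with the inclusions), the image of `gmap_* x ∈ Ext^p(M, 𝔟^N M̄)` under the inclusion to `𝔟^(n+1) M̄`, which is `0` by
induction (target level `n + 1 ≥ 1`, `N ≥ (n+1) + l'`).  By the long exact sequence of `seqC M' y ys' n`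
(`Ext.covariant_sequence_exact₂`, or `Ext.covariant_sequence_exact₂'`) `x₁ = η.comp (mk₀ (fmap))` with
`η ∈ Ext^p(M, 𝔠^n M')`.  The composite `𝔠^n M' -fmap- > 𝔠^(n+1) M' ⊆ 𝔠^n M'` is `y • 𝟙`, so the image of `x` in
`Ext^p(M, 𝔠^n M')` is `η.comp (mk₀ (y • 𝟙)) = 0` by `FF.ext_zero`.
-/

set_option autoImplicit false
set_option linter.unusedVariables false

namespace H96.RM

universe u

open CategoryTheory Abelian

variable {R : Type u} [CommRing R]

theorem pow_smul_le {M : Type u} [AddCommGroup M] [Module R M] (I : Ideal R) {m n : ℕ}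
    (h : m ≤ n) : I ^ n • (⊤ : Submodule R M) ≤ I ^ m • (⊤ : Submodule R M) :=
  Submodule.smul_mono_left (Ideal.pow_le_pow_right h)

theorem extZero_comp {X Y Z T : ModuleCat.{u} R} {p : ℕ} (x : Ext X Y p) (f : Y ⟶ Z)
    (g : Z ⟶ T) : (x.comp (Ext.mk₀ f) (add_zero p)).comp (Ext.mk₀ g) (add_zero p) =
      x.comp (Ext.mk₀ (f ≫ g)) (add_zero p) := by
  rw [Ext.comp_assoc_of_third_deg_zero, Ext.mk₀_comp_mk₀]

/-- the inclusion `I^N M → I^n M` -/
def extZero_i {M : Type u} [AddCommGroup M] [Module R M] (I : Ideal R) {n N : ℕ} (h : n ≤ N) :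
    ↥(I ^ N • (⊤ : Submodule R M)) →ₗ[R] ↥(I ^ n • (⊤ : Submodule R M)) :=
  Submodule.inclusion (pow_smul_le I h)

theorem extZero_nil {M : Type u} [AddCommGroup M] [Module R M] {n N : ℕ} (hn : 1 ≤ n)
    (h : n ≤ N) : extZero_i (M := M) (Ideal.ofList ([] : List R)) h = 0 := by
  apply LinearMap.ext
  intro z
  apply Subtype.ext
  have h1 := (extZero_i (M := M) (Ideal.ofList ([] : List R)) h z).2
  have h2 : Ideal.ofList ([] : List R) ^ n • (⊤ : Submodule R M) = ⊥ := by
    rw [Ideal.ofList_nil, ← Ideal.zero_eq_bot, zero_pow (by omega), Ideal.zero_eq_bot,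
      Submodule.bot_smul]
  exact (Submodule.mem_bot R).1 (h2.le h1)

theorem extZero_aux (M : Type u) [AddCommGroup M] [Module R M] (p : ℕ) (hp : 1 ≤ p)
    (ys : List R) : (∀ y ∈ ys, FF R M y) →
    ∀ (M' : Type u) [AddCommGroup M'] [Module R M'], PR R M' ys → ∀ (n N : ℕ), 1 ≤ n →
    n + ys.length ≤ N → ∀ (h : n ≤ N) (x : Ext (ModuleCat.of R M)
      (ModuleCat.of R ↥(Ideal.ofList ys ^ N • (⊤ : Submodule R M'))) p),
    x.comp (Ext.mk₀ (ModuleCat.ofHom (extZero_i (M := M') (Ideal.ofList ys) h)))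
      (add_zero p) = 0 := by
  induction ys with
  | nil =>
    intro _ M' _ _ _ n N hn _ h x
    rw [extZero_nil hn h, ModuleCat.ofHom_zero, Ext.mk₀_zero, Ext.comp_zero]
  | cons y ys ih =>
    intro hFF M' _ _ hPR n N hn hN h x
    rw [List.length_cons] at hN
    have h1 : n + 1 ≤ N := by omega
    have h2 : n ≤ n + 1 := by omega
    -- the class in the middle term of the exact sequence
    have hx1 : (x.comp (Ext.mk₀ (ModuleCat.ofHom (extZero_i (M := M')
        (Ideal.ofList (y :: ys)) h1))) (add_zero p)).comp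
        (Ext.mk₀ (seqC M' y ys n).g) (add_zero p) = 0 := by
      have hcomm : ModuleCat.ofHom (extZero_i (M := M') (Ideal.ofList (y :: ys)) h1) ≫
          (seqC M' y ys n).g = ModuleCat.ofHom (gmap M' y ys N) ≫
          ModuleCat.ofHom (extZero_i (M := QuotSMulTop y M') (Ideal.ofList ys) h1) := by
        rfl
      refine (extZero_comp x _ _).trans ?_
      refine (congrArg (fun f => Ext.comp x (Ext.mk₀ f) (add_zero p)) hcomm).trans ?_
      refine (extZero_comp x (ModuleCat.ofHom (gmap M' y ys N)) (ModuleCat.ofHom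
        (extZero_i (M := QuotSMulTop y M') (Ideal.ofList ys) h1))).symm.trans ?_
      exact ih (fun z hz => hFF z (List.mem_cons_of_mem _ hz)) (QuotSMulTop y M') hPR.quot
        (n + 1) N (by omega) (by omega) h1 _
    obtain ⟨η, hη⟩ := Ext.covariant_sequence_exact₂ (ModuleCat.of R M)
      (seqC_shortExact M' y ys n hPR) _ hx1
    have h3 : ModuleCat.ofHom (extZero_i (M := M') (Ideal.ofList (y :: ys)) h) =
        ModuleCat.ofHom (extZero_i (M := M') (Ideal.ofList (y :: ys)) h1) ≫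
        ModuleCat.ofHom (extZero_i (M := M') (Ideal.ofList (y :: ys)) h2) := by
      rfl
    have h4 : (seqC M' y ys n).f ≫ ModuleCat.ofHom (extZero_i (M := M')
        (Ideal.ofList (y :: ys)) h2) = y • 𝟙 (ModuleCat.of R
          ↥(Ideal.ofList (y :: ys) ^ n • (⊤ : Submodule R M'))) := by
      apply ModuleCat.hom_ext
      apply LinearMap.ext
      intro z
      apply Subtype.ext
      rfl
    rw [h3, ← extZero_comp]
    refine (congrArg (fun e => Ext.comp e (Ext.mk₀ (ModuleCat.ofHom (extZero_i (M := M')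
        (Ideal.ofList (y :: ys)) h2))) (add_zero p)) hη.symm).trans ?_
    refine (extZero_comp η _ _).trans ?_
    refine Eq.trans ?_ (FF.ext_zero (hFF y List.mem_cons_self) (ModuleCat.of R
      ↥(Ideal.ofList (y :: ys) ^ n • (⊤ : Submodule R M'))) p hp η)
    exact congrArg (fun f => Ext.comp η (Ext.mk₀ f) (add_zero p)) h4

theorem ext_zero (M : Type u) [AddCommGroup M] [Module R M] (M' : Type u) [AddCommGroup M']
    [Module R M'] (ys : List R) (hFF : ∀ y ∈ ys, FF R M y) (hPR : PR R M' ys) (p : ℕ)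
    (hp : 1 ≤ p) (n N : ℕ) (hn : 1 ≤ n) (hN : n + ys.length ≤ N)
    (x : Ext (ModuleCat.of R M)
      (ModuleCat.of R ↥(Ideal.ofList ys ^ N • (⊤ : Submodule R M'))) p) :
    x.comp (Ext.mk₀ (ModuleCat.ofHom (Submodule.inclusion
      (pow_smul_le (M := M') (Ideal.ofList ys) (show n ≤ N by omega))))) (add_zero p) = 0 :=
  extZero_aux M p hp ys hFF M' hPR n N hn hN (by omega) x

end H96.RM
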