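import Mathlib
import Pool.Agent.H96.RM.ExtZero

/-!
# Job RM-C6: isomorphic at level `n` implies isomorphic (helper96, MP_d7d607_ag)

`n ≥ l + 1`, `l = ys.length`, `𝔟 = ofList ys ≤ 𝔪`, `e : M/𝔟^n M ≃ M'/𝔟^n M'`.

Step 1 (`lift_mod`): every `f : M → M'/𝔟^n M'` has a lift `F : M → M'` with `F ≡ f mod 𝔟^(n-l) M'`
(i.e. the composites of `f` and `F` to `M'/𝔟^(n-l) M'` agree).  Proof: for the short exact sequences
`0 → 𝔟^m M' → M' → M'/𝔟^m M' → 0`, `m = n` and `m = n - l`, with the map between them induced by the inclusion and the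
projection, the obstruction of the composite `M → M'/𝔟^(n-l) M'` in `Ext^1(M, 𝔟^(n-l) M')` is the image of the obstruction of `f`
in `Ext^1(M, 𝔟^n M')` (naturality of `extClass`: `ShortComplex.ShortExact.extClass_naturality` or
`Ext.mk₀_comp_extClass`...), which is `0` by `ext_zero` (`p = 1`, target level `n - l ≥ 1`).  Exactness
`Hom(M, M') → Hom(M, M'/𝔟^(n-l)) → Ext^1(M, 𝔟^(n-l) M')` (`Ext.covariant_sequence_exact₃`) gives `F`.
Step 2: apply this to `f = e ∘ mk` and to `e⁻¹ ∘ mk`: `F : M → M'`, `G : M' → M`.  `F` is surjective modulo `𝔟^(n-l) M'`, a fortiori modulo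
`𝔪 M'` (`n - l ≥ 1`), so surjective by Nakayama (`IsLocalRing.map_mkQ_eq_top`, see the end of the proof in
`Pool/Agent/H42/SeqTwo.lean`).  Same for `G`.  `G ∘ F` is a surjective endomorphism of the Noetherian module `M`, hence injective
(`IsNoetherian.injective_of_surjective_endomorphism` / `OrzechProperty.injective_of_surjective_endomorphism`), so `F` is bijective.
-/

set_option autoImplicit false
set_option linter.unusedVariables false

namespace H96.RM

universe u

open CategoryTheory Abelian IsLocalRing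

variable {R : Type u} [CommRing R]

/-- The projection `M/𝔟^n → M/𝔟^m`, `m ≤ n`. -/
def projLv {M : Type u} [AddCommGroup M] [Module R M] (I : Ideal R) {m n : ℕ} (h : m ≤ n) :
    Lv I n M →ₗ[R] Lv I m M :=
  Submodule.factor (pow_smul_le (M := M) I h)

theorem projLv_mk {M : Type u} [AddCommGroup M] [Module R M] (I : Ideal R) {m n : ℕ}
    (h : m ≤ n) (v : M) : projLv I h (Submodule.Quotient.mk v : Lv I n M) =
      (Submodule.Quotient.mk v : Lv I m M) := rfl

/-- the free cover of `M` -/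
noncomputable abbrev levelIso_π (M : Type u) [AddCommGroup M] [Module R M] : (M →₀ R) →ₗ[R] M :=
  Finsupp.linearCombination R (id : M → M)

theorem levelIso_w (M : Type u) [AddCommGroup M] [Module R M] :
    levelIso_π (R := R) M ∘ₗ (LinearMap.ker (levelIso_π (R := R) M)).subtype = 0 := by
  apply LinearMap.ext
  intro z
  exact z.2

/-- the free cover of `M` as a short complex -/
noncomputable def levelIso_S (M : Type u) [AddCommGroup M] [Module R M] :
    ShortComplex (ModuleCat.{u} R) :=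
  ShortComplex.mk
    (X₁ := ModuleCat.of R ↥(LinearMap.ker (levelIso_π (R := R) M)))
    (X₂ := ModuleCat.of R (M →₀ R)) (X₃ := ModuleCat.of R M)
    (ModuleCat.ofHom (LinearMap.ker (levelIso_π (R := R) M)).subtype)
    (ModuleCat.ofHom (levelIso_π (R := R) M))
    (by
      rw [← ModuleCat.ofHom_comp, levelIso_w]
      rfl)

theorem levelIso_exact (M : Type u) [AddCommGroup M] [Module R M] :
    (levelIso_S (R := R) M).ShortExact where
  exact := by
    rw [ShortComplex.moduleCat_exact_iff]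
    intro x hx
    exact ⟨⟨x, hx⟩, rfl⟩
  mono_f := (ModuleCat.mono_iff_injective _).2 (Submodule.injective_subtype _)
  epi_g := (ModuleCat.epi_iff_surjective _).2 (Finsupp.linearCombination_id_surjective R M)

theorem lift_mod (M : Type u) [AddCommGroup M] [Module R M] (M' : Type u) [AddCommGroup M']
    [Module R M'] (ys : List R) (hFF : ∀ y ∈ ys, FF R M y) (hPR : PR R M' ys) (m n : ℕ)
    (hm : 1 ≤ m) (hn : m + ys.length ≤ n) (f : M →ₗ[R] Lv (Ideal.ofList ys) n M') :
    ∃ F : M →ₗ[R] M', ∀ v, (Submodule.Quotient.mk (F v) : Lv (Ideal.ofList ys) m M') =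
      projLv (Ideal.ofList ys) (show m ≤ n by omega) (f v) := by
  have hmn : m ≤ n := by omega
  -- lift `f` to the free cover
  have hL : ∀ v : M, ∃ w : M', (Submodule.Quotient.mk w : Lv (Ideal.ofList ys) n M') = f v :=
    fun v => Submodule.Quotient.mk_surjective _ (f v)
  choose L hL using hL
  let φ : (M →₀ R) →ₗ[R] M' := Finsupp.linearCombination R L
  have hφ : ∀ z, (Submodule.Quotient.mk (φ z) : Lv (Ideal.ofList ys) n M') =
      f (levelIso_π (R := R) M z) := by
    have h1 : (Submodule.mkQ _ : M' →ₗ[R] Lv (Ideal.ofList ys) n M') ∘ₗ φ =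
        f ∘ₗ levelIso_π (R := R) M := by
      apply Finsupp.lhom_ext
      intro v c
      simp only [φ, LinearMap.comp_apply, Finsupp.linearCombination_single, map_smul, id_eq]
      rw [← hL v]
      rfl
    intro z
    exact LinearMap.congr_fun h1 z
  have hker : ∀ z ∈ LinearMap.ker (levelIso_π (R := R) M),
      φ z ∈ Ideal.ofList ys ^ n • (⊤ : Submodule R M') := by
    intro z hz
    rw [← Submodule.Quotient.mk_eq_zero, hφ z, LinearMap.mem_ker.1 hz, map_zero]
  let ψ : LinearMap.ker (levelIso_π (R := R) M) →ₗ[R]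
      ↥(Ideal.ofList ys ^ n • (⊤ : Submodule R M')) :=
    LinearMap.codRestrict _ (φ ∘ₗ Submodule.subtype _) (fun z => hker z.1 z.2)
  let inc : ↥(Ideal.ofList ys ^ n • (⊤ : Submodule R M')) →ₗ[R]
      ↥(Ideal.ofList ys ^ m • (⊤ : Submodule R M')) :=
    Submodule.inclusion (pow_smul_le (M := M') (Ideal.ofList ys) hmn)
  have hS := levelIso_exact (R := R) M
  have h0 : hS.extClass.comp (Ext.mk₀ (ModuleCat.ofHom (inc ∘ₗ ψ) : (levelIso_S (R := R) M).X₁ ⟶
      ModuleCat.of R ↥(Ideal.ofList ys ^ m • (⊤ : Submodule R M')))) (add_zero 1) = 0 := by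
    have h1 := ext_zero M M' ys hFF hPR 1 le_rfl m n hm hn
      (hS.extClass.comp (Ext.mk₀ (ModuleCat.ofHom ψ : (levelIso_S (R := R) M).X₁ ⟶
        ModuleCat.of R ↥(Ideal.ofList ys ^ n • (⊤ : Submodule R M')))) (add_zero 1))
    refine Eq.trans ?_ h1
    refine Eq.trans ?_ (extZero_comp hS.extClass _ _).symm
    rfl
  obtain ⟨x₂, hx₂⟩ := Ext.contravariant_sequence_exact₁ hS _ _ _ h0
  let χ := Ext.homEquiv₀ x₂
  have hχ : Ext.mk₀ χ = x₂ := Ext.mk₀_homEquiv₀_apply x₂
  rw [← hχ, Ext.mk₀_comp_mk₀] at hx₂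
  have h2 := (Ext.mk₀_bijective _ _).1 hx₂
  have h3 : ∀ z : LinearMap.ker (levelIso_π (R := R) M),
      ((χ.hom z.1 : ↥(Ideal.ofList ys ^ m • (⊤ : Submodule R M'))) : M') = φ z.1 := by
    intro z
    have h4 := congrArg (fun g => ((ModuleCat.Hom.hom g) z : M')) h2
    exact h4
  let χ' : (M →₀ R) →ₗ[R] M' :=
    (Ideal.ofList ys ^ m • (⊤ : Submodule R M')).subtype ∘ₗ χ.hom
  have hle : LinearMap.ker (levelIso_π (R := R) M) ≤
      LinearMap.ker (φ - χ') := by
    intro z hz
    rw [LinearMap.mem_ker, LinearMap.sub_apply, sub_eq_zero]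
    exact (h3 ⟨z, hz⟩).symm
  have hsurj := Finsupp.linearCombination_id_surjective R M
  let F : M →ₗ[R] M' := (Submodule.liftQ _ (φ - χ') hle) ∘ₗ
    ((levelIso_π (R := R) M).quotKerEquivOfSurjective hsurj).symm.toLinearMap
  have hF : ∀ z, F (levelIso_π (R := R) M z) = φ z - χ' z := by
    intro z
    have h5 : ((levelIso_π (R := R) M).quotKerEquivOfSurjective hsurj).symm
        (levelIso_π (R := R) M z) = Submodule.Quotient.mk z := by
      rw [LinearEquiv.symm_apply_eq]
      rfl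
    change (Submodule.liftQ _ (φ - χ') hle)
      (((levelIso_π (R := R) M).quotKerEquivOfSurjective hsurj).symm
        (levelIso_π (R := R) M z)) = _
    rw [h5]
    rfl
  refine ⟨F, fun v => ?_⟩
  obtain ⟨z, rfl⟩ := hsurj v
  rw [hF, ← hφ z, projLv_mk]
  rw [Submodule.Quotient.eq]
  have h6 : φ z - χ' z - φ z = - χ' z := by abel
  rw [h6]
  exact Submodule.neg_mem _ (χ.hom z).2

theorem levelIso_surj [IsLocalRing R] [IsNoetherianRing R] (M : Type u) [AddCommGroup M]
    [Module R M] (M' : Type u) [AddCommGroup M'] [Module R M']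
    [Module.Finite R M'] (ys : List R) (hys : ∀ y ∈ ys, y ∈ maximalIdeal R)
    (hFF : ∀ y ∈ ys, FF R M y) (hPR' : PR R M' ys) (n : ℕ) (hn : ys.length + 1 ≤ n)
    (e : Lv (Ideal.ofList ys) n M ≃ₗ[R] Lv (Ideal.ofList ys) n M') :
    ∃ F : M →ₗ[R] M', Function.Surjective F := by
  obtain ⟨F, hF⟩ := lift_mod M M' ys hFF hPR' 1 n le_rfl (by omega)
    (e.toLinearMap ∘ₗ Submodule.mkQ _)
  refine ⟨F, ?_⟩
  rw [← LinearMap.range_eq_top, eq_top_iff]
  have hle : Ideal.ofList ys ≤ maximalIdeal R := by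
    rw [Ideal.ofList, Ideal.span_le]
    intro y hy
    exact hys y hy
  refine Submodule.le_of_le_smul_of_le_jacobson_bot (I := maximalIdeal R) Module.Finite.fg_top
    (IsLocalRing.maximalIdeal_le_jacobson _) ?_
  intro v' _
  obtain ⟨w, hw⟩ := e.surjective (Submodule.Quotient.mk v')
  obtain ⟨v, rfl⟩ := Submodule.Quotient.mk_surjective _ w
  have h1 := hF v
  have h2 : (e.toLinearMap ∘ₗ Submodule.mkQ _) v =
      (Submodule.Quotient.mk v' : Lv (Ideal.ofList ys) n M') := hw
  rw [h2, projLv_mk, Submodule.Quotient.eq, pow_one] at h1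
  have h3 : v' = F v + -(F v - v') := by abel
  rw [h3]
  refine Submodule.add_mem_sup (LinearMap.mem_range_self F v) (Submodule.neg_mem _ ?_)
  exact Submodule.smul_mono_left hle h1

theorem iso_of_level [IsLocalRing R] [IsNoetherianRing R] (M : Type u) [AddCommGroup M]
    [Module R M] [Module.Finite R M] (M' : Type u) [AddCommGroup M'] [Module R M']
    [Module.Finite R M'] (ys : List R) (hys : ∀ y ∈ ys, y ∈ maximalIdeal R)
    (hFF : ∀ y ∈ ys, FF R M y) (hFF' : ∀ y ∈ ys, FF R M' y) (hPR : PR R M ys)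
    (hPR' : PR R M' ys) (n : ℕ) (hn : ys.length + 1 ≤ n)
    (e : Lv (Ideal.ofList ys) n M ≃ₗ[R] Lv (Ideal.ofList ys) n M') :
    Nonempty (M ≃ₗ[R] M') := by
  obtain ⟨F, hF⟩ := levelIso_surj M M' ys hys hFF hPR' n hn e
  obtain ⟨G, hG⟩ := levelIso_surj M' M ys hys hFF' hPR n hn e.symm
  have h1 : Function.Injective (G ∘ₗ F) :=
    OrzechProperty.injective_of_surjective_endomorphism (G ∘ₗ F) (hG.comp hF)
  have h2 : Function.Injective F := by
    intro a b hab
    apply h1
    rw [LinearMap.comp_apply, LinearMap.comp_apply, hab]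
  exact ⟨LinearEquiv.ofBijective F ⟨h2, hF⟩⟩

end H96.RM
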