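import Mathlib
import Pool.Agent.H96.RM.LevelIso

/-!
# Job RM-C7: the retraction (helper96, MP_d7d607_ag)

`𝔟 = ofList ys`, `L_m = M/𝔟^m M`.

Let `E` be an `R`-module killed by `𝔟^N`, `ι : L_N → E` injective, `p : E → L_N` surjective,
`range ι = ker p`.  If `Ext^1(M, M) = 0` then there is `ρ : E → L_n` with `ρ ∘ ι = ` the projection `L_N → L_n`.
Proof.  Let `E' = {(e, m) | p e = mk m} ≤ E × M`, `0 → L_N → E' → M → 0` exact with class `x ∈ Ext^1(M, L_N)`.  From
`0 → 𝔟^N M → M → L_N → 0` and `Ext^1(M, M) = 0` the connecting map `Ext^1(M, L_N) → Ext^2(M, 𝔟^N M)` is injective, and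
similarly `Ext^1(M, L_n) → Ext^2(M, 𝔟^n M)`; the square with the projection `L_N → L_n` and the inclusion `𝔟^N M → 𝔟^n M` commutes,
and `Ext^2(M, 𝔟^N M) → Ext^2(M, 𝔟^n M)` is zero (`ext_zero`, `p = 2`).  So the image of `x` in `Ext^1(M, L_n)` is `0`, hence
(contravariant sequence of `0 → L_N → E' → M → 0`: `Hom(E', L_n) → Hom(L_N, L_n) → Ext^1(M, L_n)`) the projection
`L_N → L_n` extends to `ρ' : E' → L_n`.  The kernel of the surjection `E' → E` is `{(0, m) | m ∈ 𝔟^N M}`, which is contained in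
`𝔟^N E'` (for `b ∈ 𝔟^N`, `m' ∈ M` choose `e'` with `p e' = mk m'`: `(0, b m') = b (e', m')` because `b` kills `E`), and
`𝔟^N` kills `L_n` (`n ≤ N`), so `ρ'` factors through `E`.
-/

set_option autoImplicit false
set_option linter.unusedVariables false

namespace H96.RM

universe u

open CategoryTheory Abelian

section
variable {R : Type u} [CommRing R]

/-- the short complex of two linear maps -/
def retrSC {A B C : Type u} [AddCommGroup A] [Module R A] [AddCommGroup B] [Module R B]
    [AddCommGroup C] [Module R C] (f : A →ₗ[R] B) (g : B →ₗ[R] C) (h : g ∘ₗ f = 0) :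
    ShortComplex (ModuleCat.{u} R) :=
  ShortComplex.mk (ModuleCat.ofHom f) (ModuleCat.ofHom g)
    (by rw [← ModuleCat.ofHom_comp, h]; rfl)

theorem retrSC_shortExact {A B C : Type u} [AddCommGroup A] [Module R A] [AddCommGroup B]
    [Module R B] [AddCommGroup C] [Module R C] (f : A →ₗ[R] B) (g : B →ₗ[R] C)
    (h : g ∘ₗ f = 0) (hf : Function.Injective f) (hg : Function.Surjective g)
    (hex : ∀ b, g b = 0 → ∃ a, f a = b) : (retrSC f g h).ShortExact := by
  have h1 : Mono (retrSC f g h).f := (ModuleCat.mono_iff_injective _).2 hf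
  have h2 : Epi (retrSC f g h).g := (ModuleCat.epi_iff_surjective _).2 hg
  refine ShortComplex.ShortExact.mk ?_
  rw [ShortComplex.moduleCat_exact_iff]
  intro b hb
  exact hex b hb

theorem retr_comp (M : Type u) [AddCommGroup M] [Module R M] (I : Ideal R) (n : ℕ) :
    (Submodule.mkQ (I ^ n • (⊤ : Submodule R M))) ∘ₗ
      (I ^ n • (⊤ : Submodule R M)).subtype = 0 := by
  apply LinearMap.ext
  intro x
  exact (Submodule.Quotient.mk_eq_zero _).2 x.2

/-- `0 → I^n M → M → M/I^n M → 0` -/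
def retrS (M : Type u) [AddCommGroup M] [Module R M] (I : Ideal R) (n : ℕ) :
    ShortComplex (ModuleCat.{u} R) :=
  retrSC (I ^ n • (⊤ : Submodule R M)).subtype (Submodule.mkQ (I ^ n • (⊤ : Submodule R M)))
    (retr_comp M I n)

theorem retrS_shortExact (M : Type u) [AddCommGroup M] [Module R M] (I : Ideal R) (n : ℕ) :
    (retrS M I n).ShortExact := by
  refine retrSC_shortExact _ _ _ (Submodule.injective_subtype _) (Submodule.mkQ_surjective _) ?_
  intro b hb
  exact ⟨⟨b, (Submodule.Quotient.mk_eq_zero _).1 hb⟩, rfl⟩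

/-- the map of short complexes induced by the inclusion and the projection -/
def retrMap (M : Type u) [AddCommGroup M] [Module R M] (I : Ideal R) {n N : ℕ} (h : n ≤ N) :
    retrS M I N ⟶ retrS M I n where
  τ₁ := ModuleCat.ofHom (Submodule.inclusion (pow_smul_le (M := M) I h))
  τ₂ := 𝟙 _
  τ₃ := ModuleCat.ofHom (projLv (M := M) I h)
  comm₁₂ := rfl
  comm₂₃ := rfl

theorem retr_class (M : Type u) [AddCommGroup M] [Module R M]
    (ys : List R) (hM : Subsingleton (Ext (ModuleCat.of R M) (ModuleCat.of R M) 1))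
    (hFF : ∀ y ∈ ys, FF R M y) (hPR : PR R M ys) (n N : ℕ) (hn : 1 ≤ n)
    (hN : n + ys.length ≤ N)
    (x : Ext (ModuleCat.of R M) (ModuleCat.of R (Lv (Ideal.ofList ys) N M)) 1) :
    x.comp (Ext.mk₀ (ModuleCat.ofHom (projLv (M := M) (Ideal.ofList ys)
      (show n ≤ N by omega)))) (add_zero 1) = 0 := by
  have h1 : (x.comp (Ext.mk₀ (ModuleCat.ofHom (projLv (M := M) (Ideal.ofList ys)
      (show n ≤ N by omega)))) (add_zero 1)).comp
      (retrS_shortExact M (Ideal.ofList ys) n).extClass (rfl : 1 + 1 = 2) = 0 := by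
    refine (Ext.comp_assoc_of_second_deg_zero x _ _ _).trans ?_
    have h2 := ShortComplex.ShortExact.extClass_naturality
      (retrS_shortExact M (Ideal.ofList ys) N) (retrS_shortExact M (Ideal.ofList ys) n)
      (retrMap M (Ideal.ofList ys) (show n ≤ N by omega))
    refine (congrArg (fun z => x.comp z (rfl : 1 + 1 = 2)) h2.symm).trans ?_
    refine (Ext.comp_assoc_of_third_deg_zero x _ _ _).symm.trans ?_
    exact ext_zero M M ys hFF hPR 2 (by omega) n N hn hN _
  obtain ⟨z, hz⟩ := Ext.covariant_sequence_exact₃ (ModuleCat.of R M)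
    (retrS_shortExact M (Ideal.ofList ys) n) _ _ h1
  have hz0 : z = 0 := @Subsingleton.elim _ hM z 0
  refine hz.symm.trans ?_
  rw [hz0]
  simp only [Ext.zero_comp]
  rfl

end

theorem retract {R : Type u} [CommRing R] (M : Type u) [AddCommGroup M] [Module R M]
    (ys : List R) (hM : Subsingleton (Ext (ModuleCat.of R M) (ModuleCat.of R M) 1))
    (hFF : ∀ y ∈ ys, FF R M y) (hPR : PR R M ys) (n N : ℕ) (hn : 1 ≤ n)
    (hN : n + ys.length ≤ N) (E : Type u) [AddCommGroup E] [Module R E]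
    (hE : ∀ b ∈ Ideal.ofList ys ^ N, ∀ e : E, b • e = 0)
    (i : Lv (Ideal.ofList ys) N M →ₗ[R] E) (p : E →ₗ[R] Lv (Ideal.ofList ys) N M)
    (hi : Function.Injective i) (hp : Function.Surjective p)
    (hip : LinearMap.range i = LinearMap.ker p) :
    ∃ ρ : E →ₗ[R] Lv (Ideal.ofList ys) n M, ∀ w,
      ρ (i w) = projLv (Ideal.ofList ys) (show n ≤ N by omega) w := by
  have hpi : ∀ w, p (i w) = 0 := fun w => hip.le ⟨w, rfl⟩
  -- the pullback
  let E' : Submodule R (E × M) := LinearMap.ker ((p ∘ₗ LinearMap.fst R E M) -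
    (Submodule.mkQ (Ideal.ofList ys ^ N • (⊤ : Submodule R M)) ∘ₗ LinearMap.snd R E M))
  have memE' : ∀ z : E × M, z ∈ E' ↔ p z.1 = Submodule.Quotient.mk z.2 := by
    intro z
    simp only [E', LinearMap.mem_ker, LinearMap.sub_apply, LinearMap.comp_apply,
      LinearMap.fst_apply, LinearMap.snd_apply, sub_eq_zero]
    rfl
  let f' : Lv (Ideal.ofList ys) N M →ₗ[R] E' :=
    (LinearMap.inl R E M ∘ₗ i).codRestrict E' (fun w => by
      rw [memE']
      exact hpi w)
  let g' : E' →ₗ[R] M := LinearMap.snd R E M ∘ₗ E'.subtype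
  have hgf : g' ∘ₗ f' = 0 := by
    apply LinearMap.ext
    intro w
    rfl
  have hS : (retrSC f' g' hgf).ShortExact := by
    refine retrSC_shortExact _ _ _ ?_ ?_ ?_
    · intro w w' h
      apply hi
      exact congrArg (fun z : E' => (z : E × M).1) h
    · intro m
      obtain ⟨e, he⟩ := hp (Submodule.Quotient.mk m)
      exact ⟨⟨(e, m), (memE' _).2 he⟩, rfl⟩
    · rintro ⟨⟨e, m⟩, hz⟩ hb
      have hm : m = 0 := hb
      subst hm
      have he : p e = 0 := (memE' _).1 hz
      have : e ∈ LinearMap.range i := hip.ge he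
      obtain ⟨w, hw⟩ := this
      exact ⟨w, Subtype.ext (Prod.ext hw rfl)⟩
  have h0 := retr_class M ys hM hFF hPR n N hn hN hS.extClass
  obtain ⟨x₂, hx₂⟩ := Ext.contravariant_sequence_exact₁
    (Y := ModuleCat.of R (Lv (Ideal.ofList ys) n M)) hS _ (add_zero 1) h0
  obtain ⟨r', hr'⟩ := (Ext.mk₀_bijective _ _).2 x₂
  rw [← hr', Ext.mk₀_comp_mk₀] at hx₂
  have hx3 := (Ext.mk₀_bijective _ _).1 hx₂
  let ρ' : E' →ₗ[R] Lv (Ideal.ofList ys) n M := r'.hom
  have hρ' : ∀ w, ρ' (f' w) = projLv (Ideal.ofList ys) (show n ≤ N by omega) w := by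
    intro w
    exact congrArg (fun t => t.hom w) hx3
  have memz : ∀ c ∈ Ideal.ofList ys ^ N • (⊤ : Submodule R M), ((0 : E), c) ∈ E' := by
    intro c hc
    rw [memE']
    change p 0 = _
    rw [map_zero]
    exact ((Submodule.Quotient.mk_eq_zero _).2 hc).symm
  have hkill : ∀ m (hm : m ∈ Ideal.ofList ys ^ N • (⊤ : Submodule R M)),
      ρ' ⟨(0, m), memz m hm⟩ = 0 := by
    intro m hm
    refine Submodule.smul_induction_on' (p := fun x hx => ρ' ⟨(0, x), memz x hx⟩ = 0) hm ?_ ?_
    · intro b hb m' _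
      obtain ⟨e, he⟩ := hp (Submodule.Quotient.mk m')
      have h2 : (⟨((0 : E), b • m'), memz _ (Submodule.smul_mem_smul hb Submodule.mem_top)⟩ : E')
          = b • (⟨(e, m'), (memE' _).2 he⟩ : E') := by
        apply Subtype.ext
        apply Prod.ext
        · exact (hE b hb e).symm
        · rfl
      rw [h2, map_smul]
      obtain ⟨t, ht⟩ := Submodule.Quotient.mk_surjective _ (ρ' ⟨(e, m'), (memE' _).2 he⟩)
      rw [← ht, ← Submodule.Quotient.mk_smul, Submodule.Quotient.mk_eq_zero]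
      exact Submodule.smul_mem_smul (Ideal.pow_le_pow_right (by omega) hb) Submodule.mem_top
    · intro a ha b hb h1 h2
      have h3 : (⟨((0 : E), a + b), memz _ (Submodule.add_mem _ ha hb)⟩ : E')
          = ⟨(0, a), memz a ha⟩ + ⟨(0, b), memz b hb⟩ := by
        apply Subtype.ext
        apply Prod.ext
        · exact (add_zero (0 : E)).symm
        · rfl
      rw [h3, map_add, h1, h2, add_zero]
  let π : E' →ₗ[R] E := LinearMap.fst R E M ∘ₗ E'.subtype
  have hπ : Function.Surjective π := by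
    intro e
    obtain ⟨m, hm⟩ := Submodule.Quotient.mk_surjective _ (p e)
    exact ⟨⟨(e, m), (memE' _).2 hm.symm⟩, rfl⟩
  have hker : LinearMap.ker π ≤ LinearMap.ker ρ' := by
    rintro ⟨⟨e, m⟩, hz⟩ hb
    have he : e = 0 := hb
    subst he
    have h1 : p 0 = Submodule.Quotient.mk m := (memE' _).1 hz
    rw [map_zero] at h1
    exact hkill m ((Submodule.Quotient.mk_eq_zero _).1 h1.symm)
  refine ⟨((LinearMap.ker π).liftQ ρ' hker) ∘ₗ
    (π.quotKerEquivOfSurjective hπ).symm.toLinearMap, ?_⟩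
  intro w
  have h1 : (π.quotKerEquivOfSurjective hπ).symm (i w) = Submodule.Quotient.mk (f' w) := by
    rw [LinearEquiv.symm_apply_eq]
    rfl
  rw [LinearMap.comp_apply]
  change (LinearMap.ker π).liftQ ρ' hker ((π.quotKerEquivOfSurjective hπ).symm (i w)) = _
  rw [h1]
  exact hρ' w

end H96.RM
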