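import Mathlib
import Pool.Agent.H96.RM.Retract

/-!
# Job RM-C8: rigid modules are approximately rigid at finite level (helper96, MP_d7d607_ag)

`𝔟 = (y_1..y_l)`, `N = 2 n`, `n ≥ l + 1`, `L_m = M/𝔟^m M`.  (`ofList_ofFn` identifies `Ideal.ofList (List.ofFn y)` with
`Ideal.span (Set.range y)`; rewrite with it in the statement of `retract`.)

Given `c`, make `E = L_N × L_N` into an `R`-module by `a (v, w) = (a v, a w + c a v)` (a type
synonym, or `Module.compHom`-like construction from the ring homomorphism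
`R → End_ℤ(L_N × L_N)`; `c 1 = 0` from the product rule), `ι w = (0, w)`, `p (v, w) = v`.  `𝔟^N` kills `E`: `c` kills `𝔟^N` because
`c (y_j a) v = y_j c a v` and `L_N` is killed by `𝔟^N`.  Let `ρ` be the retraction to `L_n` and `h₀ v = - ρ (v, 0)`.  Then
`0 = ρ (a (v, 0)) - a ρ (v, 0) = ρ (a v, c a v) - a ρ (v, 0) = - h₀ (a v) + proj (c a v) + a h₀ v`, i.e.
`proj (c a v) = h₀ (a v) - a h₀ v`.  `h₀` is `D`-linear (`c d = 0` for `d ∈ D` because `c` is `D`-linear and `c 1 = 0`) and commutes
with the `y_j` (`c y_j = 0`).  `hlift` lifts `h₀` to `h : L_N → L_N`.  Then `c a v - (h (a v) - a h v)` is in the kernel of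
`L_N → L_n`, which is `𝔟^n L_N`.
-/

set_option autoImplicit false
set_option linter.unusedVariables false

namespace H96.RM

universe u

open CategoryTheory Abelian

/-- Cocycles at level `2 n` are coboundaries modulo `𝔟^n`. -/
def ApproxRigid (D : Type u) [CommRing D] {R : Type u} [CommRing R] [Algebra D R] {l : ℕ}
    (y : Fin l → R) (n : ℕ) (M : Type u) [AddCommGroup M] [Module R M] [Module D M]
    [IsScalarTower D R M] : Prop :=
  ∀ c : R →ₗ[D] (Lv (Ideal.span (Set.range y)) (2 * n) M →ₗ[D]
      Lv (Ideal.span (Set.range y)) (2 * n) M),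
    (∀ j, c (y j) = 0) → (∀ a b v, c (a * b) v = a • c b v + c a (b • v)) →
    ∃ h : Lv (Ideal.span (Set.range y)) (2 * n) M →ₗ[D] Lv (Ideal.span (Set.range y)) (2 * n) M,
      (∀ j v, h (y j • v) = y j • h v) ∧
      ∀ a v, c a v - (h (a • v) - a • h v) ∈ Ideal.span (Set.range y) ^ n •
        (⊤ : Submodule R (Lv (Ideal.span (Set.range y)) (2 * n) M))

/-- `D[y]`-linear maps `M/𝔟^(2n) → M/𝔟^n` lift to `M/𝔟^(2n)`. -/
def LiftP (D : Type u) [CommRing D] {R : Type u} [CommRing R] [Algebra D R] {l : ℕ}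
    (y : Fin l → R) (n : ℕ) (M : Type u) [AddCommGroup M] [Module R M] [Module D M]
    [IsScalarTower D R M] : Prop :=
  ∀ h : Lv (Ideal.span (Set.range y)) (2 * n) M →ₗ[D] Lv (Ideal.span (Set.range y)) n M,
    (∀ j v, h (y j • v) = y j • h v) →
    ∃ h' : Lv (Ideal.span (Set.range y)) (2 * n) M →ₗ[D] Lv (Ideal.span (Set.range y)) (2 * n) M,
      (∀ j v, h' (y j • v) = y j • h' v) ∧
      ∀ v, projLv (Ideal.span (Set.range y)) (show n ≤ 2 * n by omega) (h' v) = h v

/-- pairs, without a module structure -/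
def ApproxE (X : Type u) : Type u := X × X

instance (X : Type u) [AddCommGroup X] : AddCommGroup (ApproxE X) :=
  inferInstanceAs (AddCommGroup (X × X))

section twist

variable {R : Type u} [CommRing R] {X : Type u} [AddCommGroup X] [Module R X]

theorem approx_one (c : R →+ (X →+ X)) (hc : ∀ a b v, c (a * b) v = a • c b v + c a (b • v))
    (v : X) : c 1 v = 0 := by
  have h := hc 1 1 v
  rw [one_mul, one_smul, one_smul] at h
  simpa using h

/-- the twisted module structure on pairs -/
@[reducible] def approxModule (c : R →+ (X →+ X))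
    (hc : ∀ a b v, c (a * b) v = a • c b v + c a (b • v)) : Module R (ApproxE X) where
  smul a e := ((a • e.1, a • e.2 + c a e.1) : X × X)
  one_smul e := by
    change ((1 : R) • e.1, (1 : R) • e.2 + c 1 e.1) = (e : X × X)
    rw [approx_one c hc, one_smul, one_smul, add_zero]
    exact rfl
  mul_smul a b e := by
    change ((a * b) • e.1, (a * b) • e.2 + c (a * b) e.1) =
      (a • b • e.1, a • (b • e.2 + c b e.1) + c a (b • e.1))
    rw [hc, mul_smul, mul_smul, smul_add, add_assoc]
  smul_zero a := by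
    change (a • (0 : X), a • (0 : X) + c a 0) = (0, 0)
    simp
  smul_add a e f := by
    change (a • (e.1 + f.1), a • (e.2 + f.2) + c a (e.1 + f.1)) =
      (a • e.1 + a • f.1, (a • e.2 + c a e.1) + (a • f.2 + c a f.1))
    rw [smul_add, smul_add, map_add]
    congr 1
    abel
  add_smul a b e := by
    change ((a + b) • e.1, (a + b) • e.2 + c (a + b) e.1) =
      (a • e.1 + b • e.1, (a • e.2 + c a e.1) + (b • e.2 + c b e.1))
    rw [add_smul, add_smul, map_add, AddMonoidHom.add_apply]
    congr 1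
    abel
  zero_smul e := by
    change ((0 : R) • e.1, (0 : R) • e.2 + c 0 e.1) = (0, 0)
    simp

end twist

theorem approx_retract {R : Type u} [CommRing R] (M : Type u) [AddCommGroup M] [Module R M]
    (ys : List R) (I : Ideal R) (hI : Ideal.ofList ys = I)
    (hM : Subsingleton (Ext (ModuleCat.of R M) (ModuleCat.of R M) 1))
    (hFF : ∀ y ∈ ys, FF R M y) (hPR : PR R M ys) (n N : ℕ) (hn : 1 ≤ n)
    (hN : n + ys.length ≤ N) (E : Type u) [AddCommGroup E] [Module R E]
    (hE : ∀ b ∈ I ^ N, ∀ e : E, b • e = 0)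
    (i : Lv I N M →ₗ[R] E) (p : E →ₗ[R] Lv I N M)
    (hi : Function.Injective i) (hp : Function.Surjective p)
    (hip : LinearMap.range i = LinearMap.ker p) :
    ∃ ρ : E →ₗ[R] Lv I n M, ∀ w,
      ρ (i w) = projLv I (show n ≤ N by omega) w := by
  subst hI
  exact retract M ys hM hFF hPR n N hn hN E hE i p hi hp hip

theorem approx_c_mem {R : Type u} [CommRing R] {X : Type u} [AddCommGroup X] [Module R X]
    {l : ℕ} (y : Fin l → R) (c : R →+ (X →+ X)) (hy : ∀ j, c (y j) = 0)
    (hc : ∀ a b v, c (a * b) v = a • c b v + c a (b • v)) (k : ℕ) :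
    ∀ b ∈ Ideal.span (Set.range y) ^ k, ∀ v, c b v ∈
      Ideal.span (Set.range y) ^ k • (⊤ : Submodule R X) := by
  induction k with
  | zero => intro b _ v; simp
  | succ k ih =>
    intro b hb v
    rw [pow_succ'] at hb
    have key : ∀ s ∈ Ideal.span (Set.range y), ∀ t ∈ Ideal.span (Set.range y) ^ k, ∀ v,
        c (s * t) v ∈ Ideal.span (Set.range y) ^ (k + 1) • (⊤ : Submodule R X) := by
      intro s hs
      induction hs using Submodule.span_induction with
      | mem x hx =>
        obtain ⟨j, rfl⟩ := hx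
        intro t ht v
        rw [hc, hy, AddMonoidHom.zero_apply, add_zero, pow_succ', ← smul_eq_mul, smul_assoc]
        exact Submodule.smul_mem_smul (Ideal.subset_span ⟨j, rfl⟩) (ih t ht v)
      | zero => intro t ht v; simp
      | add s1 s2 _ _ h1 h2 =>
        intro t ht v
        rw [add_mul, map_add, AddMonoidHom.add_apply]
        exact add_mem (h1 t ht v) (h2 t ht v)
      | smul a s1 _ h1 =>
        intro t ht v
        rw [smul_eq_mul, show a * s1 * t = s1 * (a * t) by ring]
        exact h1 (a * t) (Ideal.mul_mem_left _ _ ht) v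
    refine Submodule.mul_induction_on hb (fun s hs t ht => key s hs t ht v) ?_
    intro s t hs ht
    rw [map_add, AddMonoidHom.add_apply]
    exact add_mem hs ht

theorem approx_ker {R : Type u} [CommRing R] (M : Type u) [AddCommGroup M] [Module R M]
    (I : Ideal R) {n N : ℕ} (h : n ≤ N) (w : Lv I N M) (hw : projLv I h w = 0) :
    w ∈ I ^ n • (⊤ : Submodule R (Lv I N M)) := by
  obtain ⟨m, rfl⟩ := Submodule.Quotient.mk_surjective _ w
  rw [projLv_mk, Submodule.Quotient.mk_eq_zero] at hw
  have h1 : (Submodule.mkQ (I ^ N • (⊤ : Submodule R M))) m ∈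
      Submodule.map (Submodule.mkQ (I ^ N • (⊤ : Submodule R M))) (I ^ n • (⊤ : Submodule R M)) :=
    Submodule.mem_map_of_mem hw
  rw [Submodule.map_smul''] at h1
  exact Submodule.smul_mono le_rfl le_top h1

theorem approxRigid_of_rigid {D : Type u} [CommRing D] {R : Type u} [CommRing R] [Algebra D R]
    {l : ℕ} (y : Fin l → R) (n : ℕ) (hn : l + 1 ≤ n) (M : Type u) [AddCommGroup M]
    [Module R M] [Module D M] [IsScalarTower D R M]
    (hM : Subsingleton (Ext (ModuleCat.of R M) (ModuleCat.of R M) 1))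
    (hFF : ∀ j, FF R M (y j)) (hPR : PR R M (List.ofFn y)) (hlift : LiftP D y n M) :
    ApproxRigid D y n M := by
  intro c hy hc
  set I := Ideal.span (Set.range y) with hI
  let c' : R →+ (Lv I (2 * n) M →+ Lv I (2 * n) M) :=
    { toFun := fun a => (c a).toAddMonoidHom
      map_zero' := by ext v; simp
      map_add' := fun a b => by ext v; simp }
  have hc'a : ∀ a v, c' a v = c a v := fun _ _ => rfl
  have hc' : ∀ a b v, c' (a * b) v = a • c' b v + c' a (b • v) := hc
  have hy' : ∀ j, c' (y j) = 0 := fun j => by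
    ext v
    change c (y j) v = 0
    rw [hy, LinearMap.zero_apply]
  have hc1 : ∀ v, c 1 v = 0 := approx_one c' hc'
  have hcD : ∀ (d : D) v, c (algebraMap D R d) v = 0 := by
    intro d v
    rw [Algebra.algebraMap_eq_smul_one, map_smul, LinearMap.smul_apply, hc1, smul_zero]
  have hkill : ∀ b ∈ I ^ (2 * n), ∀ v : Lv I (2 * n) M, b • v = 0 := by
    intro b hb v
    obtain ⟨m, rfl⟩ := Submodule.Quotient.mk_surjective _ v
    rw [← Submodule.Quotient.mk_smul, Submodule.Quotient.mk_eq_zero]
    exact Submodule.smul_mem_smul hb Submodule.mem_top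
  have hbot : I ^ (2 * n) • (⊤ : Submodule R (Lv I (2 * n) M)) = ⊥ := by
    rw [eq_bot_iff, Submodule.smul_le]
    intro b hb v _
    rw [hkill b hb v]
    exact Submodule.zero_mem _
  let _ : Module R (ApproxE (Lv I (2 * n) M)) := approxModule c' hc'
  have hsm : ∀ (a : R) (e : ApproxE (Lv I (2 * n) M)), a • e =
      ((a • e.1, a • e.2 + c a e.1) : Lv I (2 * n) M × Lv I (2 * n) M) := fun _ _ => rfl
  have hE : ∀ b ∈ I ^ (2 * n), ∀ e : ApproxE (Lv I (2 * n) M), b • e = 0 := by
    intro b hb e
    rw [hsm, hkill b hb, hkill b hb, zero_add]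
    have h1 := approx_c_mem y c' hy' hc' (2 * n) b hb e.1
    rw [← hI, hbot, Submodule.mem_bot] at h1
    change ((0, c b e.1) : Lv I (2 * n) M × Lv I (2 * n) M) = (0, 0)
    rw [show c b e.1 = 0 from h1]
  let i : Lv I (2 * n) M →ₗ[R] ApproxE (Lv I (2 * n) M) :=
    { toFun := fun w => ((0, w) : Lv I (2 * n) M × Lv I (2 * n) M)
      map_add' := fun v w => by
        change ((0, v + w) : Lv I (2 * n) M × Lv I (2 * n) M) = (0 + 0, v + w)
        rw [add_zero]
      map_smul' := fun a w => by
        change ((0, a • w) : Lv I (2 * n) M × Lv I (2 * n) M) =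
          (a • (0 : Lv I (2 * n) M), a • w + c a 0)
        rw [smul_zero, map_zero, add_zero] }
  let p : ApproxE (Lv I (2 * n) M) →ₗ[R] Lv I (2 * n) M :=
    { toFun := fun e => e.1
      map_add' := fun v w => rfl
      map_smul' := fun a w => rfl }
  obtain ⟨ρ, hρ⟩ := approx_retract M (List.ofFn y) I (ofList_ofFn y) hM
    (fun z hz => by
      obtain ⟨j, rfl⟩ := (List.mem_ofFn' _ _).1 hz
      exact hFF j) hPR n (2 * n) (by omega) (by rw [List.length_ofFn]; omega)
    (ApproxE (Lv I (2 * n) M)) hE i p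
    (fun v w h => congrArg Prod.snd h)
    (fun v => ⟨((v, 0) : Lv I (2 * n) M × Lv I (2 * n) M), rfl⟩)
    (by
      ext e
      constructor
      · rintro ⟨w, rfl⟩
        exact rfl
      · intro he
        exact ⟨e.2, Prod.ext (show (0 : Lv I (2 * n) M) = e.1 from (show e.1 = 0 from he).symm) rfl⟩)
  let inl : Lv I (2 * n) M → ApproxE (Lv I (2 * n) M) :=
    fun v => ((v, 0) : Lv I (2 * n) M × Lv I (2 * n) M)
  have hinl_add : ∀ v w, inl (v + w) = inl v + inl w := fun v w => by
    change ((v + w, 0) : Lv I (2 * n) M × Lv I (2 * n) M) = (v + w, 0 + 0)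
    rw [add_zero]
  have hinl_smul : ∀ (a : R) v, a • inl v = inl (a • v) + i (c a v) := fun a v => by
    change ((a • v, a • (0 : Lv I (2 * n) M) + c a v) : Lv I (2 * n) M × Lv I (2 * n) M) =
      (a • v + 0, 0 + c a v)
    rw [smul_zero, add_zero]
  let h₀ : Lv I (2 * n) M →ₗ[D] Lv I n M :=
    { toFun := fun v => - ρ (inl v)
      map_add' := fun v w => by
        rw [hinl_add, map_add, neg_add]
      map_smul' := fun d v => by
        have h1 := hinl_smul (algebraMap D R d) v
        rw [hcD, map_zero, add_zero] at h1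
        rw [RingHom.id_apply, ← algebraMap_smul R d v, ← h1, map_smul, algebraMap_smul, smul_neg] }
  have hh₀ : ∀ v, h₀ v = - ρ (inl v) := fun _ => rfl
  obtain ⟨h', hh1, hh2⟩ := hlift h₀ (by
    intro j v
    have h1 := hinl_smul (y j) v
    rw [hy, LinearMap.zero_apply, map_zero, add_zero] at h1
    rw [hh₀, hh₀, ← h1, map_smul, smul_neg])
  refine ⟨h', hh1, ?_⟩
  intro a v
  apply approx_ker M I (show n ≤ 2 * n by omega)
  rw [map_sub, map_sub, (projLv I (show n ≤ 2 * n by omega)).map_smul, hh2, hh2, hh₀, hh₀, ← hρ]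
  have h2 := congrArg ρ (hinl_smul a v)
  rw [map_smul, map_add] at h2
  rw [smul_neg, h2]
  abel

end H96.RM
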