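import Mathlib

/-!
# Job RM-A4: a nonzero maximal minor (helper96, MP_d7d607_ag)

`D` a domain, `w : Φ → (ν → D)` any family of row vectors (`Φ` possibly infinite, `ν` finite).  If the
only `x : ν → D` orthogonal to all rows is `0`, then some `ν × ν` minor is nonzero.

Proof.  Let `K = FractionRing D`.  Clearing denominators the only `x : ν → K` orthogonal to all rows
`w f` (mapped to `K`) is `0`, so the span of the rows in `ν → K` is everything (otherwise there is a
nonzero linear functional vanishing on the span, and a functional on `ν → K` is a dot product).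
Hence some subfamily of the rows is a basis of `ν → K` (`exists_linearIndependent`,
`Module.Basis.extend` / `exists_linearIndepOn_extension`), indexed by `ν` after
choosing a bijection (cardinalities agree), and the determinant of that square matrix is nonzero in `K`
(`Matrix.isUnit_iff_..`, `LinearIndependent ... Matrix.det ≠ 0`:
`Matrix.linearIndependent_rows_iff_isUnit`), so it is nonzero in `D`.
-/

set_option autoImplicit false
set_option linter.unusedVariables false

namespace H96.RM

/-- over a field, a family of rows with trivial orthogonal complement contains a square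
invertible subfamily -/
theorem rows_field {K : Type*} [Field K] {ν : Type*} [Fintype ν] [DecidableEq ν] {Φ : Type*}
    (w : Φ → ν → K) (h : ∀ x : ν → K, (∀ f, ∑ l, w f l * x l = 0) → x = 0) :
    ∃ g : ν → Φ, Matrix.det (Matrix.of fun i l => w (g i) l) ≠ 0 := by
  have hspan : Submodule.span K (Set.range w) = ⊤ := by
    by_contra hne
    obtain ⟨φ, hφ, hle⟩ := Submodule.exists_le_ker_of_lt_top _ (lt_top_iff_ne_top.2 hne)
    have h1 : (fun l => φ (Pi.single l 1)) = (0 : ν → K) := by
      apply h
      intro f
      have h2 : φ (w f) = 0 := hle (Submodule.subset_span ⟨f, rfl⟩)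
      have h3 : w f = ∑ l, w f l • (Pi.single l 1 : ν → K) := by
        ext j
        simp [Finset.sum_apply, Pi.single_apply]
      rw [h3, map_sum] at h2
      simpa [smul_eq_mul] using h2
    apply hφ
    apply LinearMap.pi_ext'
    intro l
    ext
    simpa using congrFun h1 l
  obtain ⟨s, hs, hb⟩ := exists_linearIndependent K (Set.range w)
  obtain ⟨hb1, hb2⟩ := hb
  rw [hspan] at hb1
  let b : Module.Basis s K (ν → K) := Module.Basis.mk hb2 (by
    rw [Subtype.range_coe]; exact hb1.ge)
  have hcard : Nonempty (ν ≃ s) := by
    have := Module.Finite.finite_basis b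
    have h1 : Module.finrank K (ν → K) = Nat.card s := Module.finrank_eq_nat_card_basis b
    rw [Module.finrank_fintype_fun_eq_card] at h1
    rw [← Nat.card_eq_fintype_card] at h1
    exact Finite.card_eq.mp h1
  obtain ⟨e⟩ := hcard
  choose g hg using fun i : ν => hs (e i).2
  refine ⟨g, ?_⟩
  have hM : (Matrix.of fun i l => w (g i) l) = fun i => ((e i : ν → K)) := by
    ext i l
    rw [Matrix.of_apply, hg i]
  have hli : LinearIndependent K (fun i : ν => ((e i : ν → K))) :=
    hb2.comp e e.injective
  have hu : IsUnit (Matrix.of fun i l => w (g i) l) := by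
    rw [hM]
    exact Matrix.linearIndependent_rows_iff_isUnit.1 hli
  exact ((Matrix.isUnit_iff_isUnit_det _).1 hu).ne_zero

theorem exists_det_ne_zero {D : Type*} [CommRing D] [IsDomain D] {ν : Type*} [Fintype ν]
    [DecidableEq ν] {Φ : Type*} (w : Φ → ν → D)
    (h : ∀ x : ν → D, (∀ f, ∑ l, w f l * x l = 0) → x = 0) :
    ∃ g : ν → Φ, Matrix.det (Matrix.of fun i l => w (g i) l) ≠ 0 := by
  let K := FractionRing D
  obtain ⟨g, hg⟩ := rows_field (K := K) (fun f l => algebraMap D K (w f l)) (by
    intro x hx
    obtain ⟨c, hc⟩ := IsLocalization.exist_integer_multiples_of_finite (nonZeroDivisors D) x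
    choose y hy using hc
    have hy0 : y = 0 := by
      apply h
      intro f
      apply IsFractionRing.injective D K
      rw [map_zero, map_sum]
      have h1 := hx f
      have h2 : ∀ l, algebraMap D K (w f l * y l) =
          algebraMap D K (c : D) * (algebraMap D K (w f l) * x l) := by
        intro l
        rw [map_mul, hy l, Algebra.smul_def]
        ring
      rw [Finset.sum_congr rfl (fun l _ => h2 l), ← Finset.mul_sum, h1, mul_zero]
    ext l
    have h3 := hy l
    rw [hy0, Pi.zero_apply, map_zero, Algebra.smul_def] at h3
    have hc0 : algebraMap D K (c : D) ≠ 0 := by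
      rw [Ne, IsFractionRing.to_map_eq_zero_iff]
      exact nonZeroDivisors.ne_zero c.2
    rcases mul_eq_zero.1 h3.symm with h4 | h4
    · exact absurd h4 hc0
    · rw [h4]; rfl)
  refine ⟨g, fun h0 => hg ?_⟩
  have : (Matrix.of fun i l => algebraMap D K (w (g i) l)) =
      (algebraMap D K).mapMatrix (Matrix.of fun i l => w (g i) l) := by
    ext i l
    simp
  rw [this, ← RingHom.map_det, h0, map_zero]

end H96.RM
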