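import Mathlib
import Pool.Agent.H96.RM.Defs
import Pool.Agent.H96.RM.Rows

/-!
# Job RM-A5: derivations vanish (helper96, MP_d7d607_ag)

Let `P` be a point datum, `J` a family of coordinates with unit minor, `φ : D[t] → F` a `D`-algebra
homomorphism to a field killing `I` with `ker φ ≤ ker P.Ψ`.  A `D`-derivation `d` of `F` with
`d (φ t_{J j}) = 0` for all `j` satisfies `d (φ t_l) = 0` for all `l`.

Proof.  Put `x l = d (φ (X l))`.  For every polynomial `f`:
`d (φ f) = ∑ l, φ (pderiv l f) * x l` (`Derivation` of a polynomial: compare the two derivations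
`f ↦ d (φ f)` and `f ↦ ∑ l ...`; `MvPolynomial.derivation_eq_of_forall_mem_vars`, `MvPolynomial.mkDerivation`,
or `Derivation.leibniz` and induction on `f`).  So `∑ l, φ (pderiv l f) * x l = 0` for `f ∈ I`.
Rows: for `f ∈ I` let `w f l = eval P.a (pderiv l f)` for `f : I` and `l ∈ ν := {l // l ∉ range J}`.
If `y : ν → D` is orthogonal to all rows, extend `y` by `0` to `τ : ι → D`; by `P.hβ2`
`τ l = ∑ i, c i * β i l`; as `τ (J j) = 0` for all `j` and `det (β i (J j))` is a unit, `c = 0`, so `y = 0`.
By `exists_det_ne_zero` there are `f_i ∈ I` (`i ∈ ν`) with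
`det (eval P.a (pderiv l f_i)) = eval P.a (det (pderiv l f_i)) ≠ 0`.
The polynomial `det (pderiv l f_i)` is not in `ker φ`: otherwise `P.Ψ` of it would be `0`, but
`constantCoeff (P.Ψ g) = C (eval P.a g)` for all `g` (`P.h0`, algebra homomorphisms agreeing on the variables),
contradiction.  So the matrix `(φ (pderiv l f_i))_{i, l ∈ ν}` is invertible over `F`; it kills
`(x l)_{l ∈ ν}` because `x (J j) = 0`.  Hence `x = 0`.
The statement `P.constCoeff` below is part of the job.
-/

set_option autoImplicit false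
set_option linter.unusedVariables false

namespace H96.RM

universe u

variable {D : Type u} [CommRing D] {ι : Type} [Fintype ι] [DecidableEq ι] {z : D}
  {I : Ideal (MvPolynomial ι D)}

theorem PointData.constCoeff (P : PointData D ι z I) (g : MvPolynomial ι D) :
    PowerSeries.constantCoeff (P.Ψ g) = MvPolynomial.C (MvPolynomial.eval P.a g) := by
  have h : (PowerSeries.constantCoeff (R := MvPolynomial (Fin P.δ) D)).comp
      (P.Ψ : MvPolynomial ι D →+* PowerSeries (MvPolynomial (Fin P.δ) D)) =
      (MvPolynomial.C (σ := Fin P.δ) (R := D)).comp (MvPolynomial.eval P.a) := by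
    apply MvPolynomial.ringHom_ext
    · intro r
      have h1 : P.Ψ (MvPolynomial.C r) = algebraMap D _ r := P.Ψ.commutes r
      rw [RingHom.comp_apply, RingHom.comp_apply, MvPolynomial.eval_C]
      change PowerSeries.constantCoeff (P.Ψ (MvPolynomial.C r)) = _
      rw [h1]
      rfl
    · intro l
      rw [RingHom.comp_apply, RingHom.comp_apply, MvPolynomial.eval_X]
      exact P.h0 l
  exact congrArg (fun f : MvPolynomial ι D →+* MvPolynomial (Fin P.δ) D => f g) h

theorem deriv_formula {F : Type*} [Field F] [Algebra D F] (φ : MvPolynomial ι D →ₐ[D] F)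
    (d : Derivation D F F) (f : MvPolynomial ι D) :
    d (φ f) = ∑ l, φ (MvPolynomial.pderiv l f) * d (φ (MvPolynomial.X l)) := by
  induction f using MvPolynomial.induction_on with
  | C r =>
    have h1 : φ (MvPolynomial.C r) = algebraMap D F r := φ.commutes r
    rw [h1, Derivation.map_algebraMap]
    simp
  | add p q hp hq =>
    rw [map_add, map_add, hp, hq, ← Finset.sum_add_distrib]
    apply Finset.sum_congr rfl
    intro l _
    rw [map_add, map_add, add_mul]
  | mul_X p i hp =>
    rw [map_mul, Derivation.leibniz, hp, smul_eq_mul, smul_eq_mul, Finset.mul_sum]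
    have h1 : φ p * d (φ (MvPolynomial.X i)) =
        ∑ l, φ (p * MvPolynomial.pderiv l (MvPolynomial.X i)) * d (φ (MvPolynomial.X l)) := by
      rw [Finset.sum_eq_single i]
      · rw [MvPolynomial.pderiv_X_self, mul_one]
      · intro l _ hl
        rw [MvPolynomial.pderiv_X_of_ne hl.symm, mul_zero, map_zero, zero_mul]
      · intro h
        exact absurd (Finset.mem_univ i) h
    rw [h1, ← Finset.sum_add_distrib]
    apply Finset.sum_congr rfl
    intro l _
    rw [Derivation.leibniz, smul_eq_mul, smul_eq_mul, map_add, map_mul φ (MvPolynomial.X i)]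
    ring

theorem deriv_sum_nu {R : Type*} [CommRing R] {δ : ℕ} (J : Fin δ → ι) (f : ι → R)
    [Fintype {l // l ∉ Set.range J}]
    (h : ∀ j, f (J j) = 0) : ∑ l : {l // l ∉ Set.range J}, f l = ∑ l, f l := by
  classical
  have h1 := Fintype.sum_subtype_add_sum_subtype (fun l => l ∉ Set.range J) f
  have h2 : ∑ i : {l // ¬ (l ∉ Set.range J)}, f i = 0 := by
    apply Finset.sum_eq_zero
    intro i _
    obtain ⟨j, hj⟩ := not_not.1 i.2
    rw [← hj]
    exact h j
  rw [h2, add_zero] at h1
  rw [← h1]
  exact Finset.sum_congr (by ext; simp) (fun _ _ => rfl)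

theorem PointData.deriv_zero [IsDomain D] (P : PointData D ι z I) (J : Fin P.δ → ι)
    (hJ : IsUnit (Matrix.det (Matrix.of fun i j => P.β i (J j)))) {F : Type*} [Field F]
    [Algebra D F] (φ : MvPolynomial ι D →ₐ[D] F) (hI : ∀ f ∈ I, φ f = 0)
    (hker : ∀ f, φ f = 0 → P.Ψ f = 0) (d : Derivation D F F)
    (hd : ∀ j, d (φ (MvPolynomial.X (J j))) = 0) (l : ι) : d (φ (MvPolynomial.X l)) = 0 := by
  classical
  obtain ⟨g, hg⟩ := exists_det_ne_zero
    (fun (f : I) (l : {l // l ∉ Set.range J}) =>
      MvPolynomial.eval P.a (MvPolynomial.pderiv l.1 f.1)) (by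
    intro y hy
    obtain ⟨c, hc⟩ := P.hβ2 (fun l => if h : l ∉ Set.range J then y ⟨l, h⟩ else 0) (by
      intro f hf
      rw [← deriv_sum_nu J]
      · rw [← hy ⟨f, hf⟩]
        apply Finset.sum_congr rfl
        intro l _
        rw [dif_pos l.2]
      · intro j
        rw [dif_neg (fun h => h ⟨j, rfl⟩), mul_zero])
    have hc0 : c = 0 := by
      refine Matrix.eq_zero_of_vecMul_eq_zero hJ.ne_zero ?_
      ext j
      have h1 := hc (J j)
      rw [dif_neg (fun h => h ⟨j, rfl⟩)] at h1
      rw [Matrix.vecMul, dotProduct]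
      exact h1.symm
    ext l
    have h1 := hc l.1
    rw [dif_pos l.2, hc0] at h1
    rw [h1]
    simp)
  let N : Matrix {l // l ∉ Set.range J} {l // l ∉ Set.range J} (MvPolynomial ι D) :=
    Matrix.of fun i l => MvPolynomial.pderiv l.1 (g i).1
  have h1 : MvPolynomial.eval P.a N.det ≠ 0 := by
    rw [RingHom.map_det]
    exact hg
  have h2 : φ N.det ≠ 0 := by
    intro h3
    apply h1
    have h4 := P.constCoeff N.det
    rw [hker _ h3, map_zero] at h4
    exact (MvPolynomial.C_injective (Fin P.δ) D) (by rw [← h4, map_zero])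
  rw [AlgHom.map_det] at h2
  have h3 := Matrix.eq_zero_of_mulVec_eq_zero h2
    (v := fun l : {l // l ∉ Set.range J} => d (φ (MvPolynomial.X l.1))) (by
      ext i
      have h5 := deriv_formula φ d (g i).1
      rw [hI _ (g i).2, map_zero, ← deriv_sum_nu J] at h5
      · exact h5.symm
      · intro j
        rw [hd, mul_zero])
  by_cases hl : l ∈ Set.range J
  · obtain ⟨j, rfl⟩ := hl
    exact hd j
  · exact congrFun h3 ⟨l, hl⟩

end H96.RM
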