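import Mathlib

/-!
# Job RM-A6: no derivations implies finite separable (helper96, MP_d7d607_ag)

`F/E` a finitely generated field extension with `Der_E(F, F) = 0` is finite and separable.

Proof.  `Derivation E F F` is the dual of `Ω[F⁄E]` (`KaehlerDifferential.linearMapEquivDerivation`,
`Derivation.liftKaehlerDifferential`), so all linear functionals on the `F`-vector space `Ω[F⁄E]` vanish,
so `Ω[F⁄E]` is zero (`Module.forall_dual_apply_eq_zero_iff` / `Module.dual_... subsingleton`), i.e.
`Algebra.FormallyUnramified E F` (`Algebra.formallyUnramified_iff` : `Subsingleton (Ω[F⁄E])`).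
`F/E` is essentially of finite type (`IntermediateField.essFiniteType_iff` or
`IntermediateField.FG`, `Algebra.EssFiniteType`; file `Mathlib/RingTheory/EssentialFiniteness.lean`).
Then `Mathlib/RingTheory/Unramified/Field.lean`:
`Algebra.FormallyUnramified.finite_of_free` / `Algebra.FormallyUnramified.isSeparable`
(formally unramified and essentially of finite type over a field is finite and separable).
-/

set_option autoImplicit false
set_option linter.unusedVariables false

namespace H96.RM

universe u

theorem finSep_of_deriv {E F : Type u} [Field E] [Field F] [Algebra E F] (S : Finset F)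
    (hS : IntermediateField.adjoin E (S : Set F) = ⊤) (h : ∀ d : Derivation E F F, d = 0) :
    FiniteDimensional E F ∧ Algebra.IsSeparable E F := by
  have h1 : Subsingleton (Ω[F⁄E]) := by
    refine subsingleton_of_forall_eq 0 fun x => ?_
    rw [← Module.forall_dual_apply_eq_zero_iff F x]
    intro f
    have h2 := h (KaehlerDifferential.linearMapEquivDerivation E F f)
    have h3 : f = 0 := by
      apply (KaehlerDifferential.linearMapEquivDerivation E F).injective
      rw [h2, map_zero]
    rw [h3]
    rfl
  have h4 : Algebra.FormallyUnramified E F := Algebra.FormallyUnramified.mk h1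
  have h5 : Algebra.EssFiniteType E F := by
    rw [← IntermediateField.fg_top_iff]
    exact ⟨S, hS⟩
  exact ⟨Algebra.FormallyUnramified.finite_of_free E F,
    Algebra.FormallyUnramified.isSeparable E F⟩

end H96.RM
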