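import Mathlib

/-!
# Job RM-A2: lowest forms (helper96, MP_d7d607_ag)

`k` a field, `φ : k[X_1..X_δ] → k[v_1..v_δ][[λ]]` a `k`-algebra homomorphism with
`φ(X_j) = a_j + λ L_j + λ^2 (...)`, `L_j = ∑ i, M i j v_i`, `det M ≠ 0`.  Then `φ` is injective.

Proof.  Let `g ≠ 0` and let `g' = aeval (fun j => X j + C (a j)) g` (the automorphism `X ↦ X + a`, so
`g' ≠ 0`).  Then `φ g = aeval w' g'` with `w' j = φ (X j) - C (C (a j)) = X * w j` (divisible by the
variable `PowerSeries.X` because the constant coefficient vanishes), `constantCoeff (w j) = L_j`.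
Let `e` be the smallest total degree of a monomial of `g'`
(e.g. `Nat.find` on `∃ e, MvPolynomial.homogeneousComponent e g' ≠ 0`, or work with the support).
Write `g' = ∑ α, C (c_α) ∏ X_j^{α_j}`.  Then `aeval w' g' = ∑ α, c_α • (X^{|α|} * ∏ (w j)^{α j})`, so its
coefficient of `λ^e` is `∑_{|α| = e} c_α • ∏ (L_j)^{α_j} = aeval L (homogeneousComponent e g')`
(terms with `|α| > e` do not contribute, terms with `|α| < e` have `c_α = 0`).
Now `aeval L : k[X] → k[v]` is injective: with `M⁻¹` the inverse matrix,
`aeval (fun j => ∑ i, C (M⁻¹ i j) * X i)` composed with it is the identity.  Hence the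
coefficient is nonzero and `φ g ≠ 0`.
Useful: `MvPolynomial.aeval_def`, `MvPolynomial.eval₂_eq'`, `PowerSeries.coeff_X_pow_mul'`,
`PowerSeries.coeff_zero_eq_constantCoeff`, `PowerSeries.X_dvd_iff`.
-/

set_option autoImplicit false
set_option linter.unusedVariables false

namespace H96.RM

universe u

/-- The linear substitution with invertible matrix is injective. -/
theorem lin_subst_injective {k : Type u} [Field k] {δ : ℕ}
    (M : Matrix (Fin δ) (Fin δ) k) (hM : M.det ≠ 0) :
    Function.Injective (MvPolynomial.aeval (R := k)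
      (fun j => ∑ i, MvPolynomial.C (M i j) * MvPolynomial.X i :
        Fin δ → MvPolynomial (Fin δ) k)) := by
  classical
  have hu : IsUnit M.det := isUnit_iff_ne_zero.mpr hM
  set ψ : MvPolynomial (Fin δ) k →ₐ[k] MvPolynomial (Fin δ) k :=
    MvPolynomial.aeval (fun i => ∑ l, MvPolynomial.C (M⁻¹ l i) * MvPolynomial.X l) with hψ
  have hcomp : ψ.comp (MvPolynomial.aeval (R := k)
      (fun j => ∑ i, MvPolynomial.C (M i j) * MvPolynomial.X i :
        Fin δ → MvPolynomial (Fin δ) k)) = AlgHom.id k _ := by
    apply MvPolynomial.algHom_ext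
    intro j
    simp only [AlgHom.comp_apply, MvPolynomial.aeval_X, AlgHom.id_apply, map_sum, map_mul]
    have h1 : ∀ i, ψ (MvPolynomial.C (M i j)) * ψ (MvPolynomial.X i) =
        ∑ l, MvPolynomial.C (M⁻¹ l i * M i j) * MvPolynomial.X l := by
      intro i
      rw [hψ, MvPolynomial.aeval_X, MvPolynomial.aeval_C, Finset.mul_sum]
      refine Finset.sum_congr rfl fun l _ => ?_
      rw [MvPolynomial.algebraMap_eq, map_mul]
      ring
    rw [Finset.sum_congr rfl fun i _ => h1 i, Finset.sum_comm]
    have h2 : ∀ l, ∑ i, MvPolynomial.C (M⁻¹ l i * M i j) * MvPolynomial.X l =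
        (MvPolynomial.C ((1 : Matrix (Fin δ) (Fin δ) k) l j) * MvPolynomial.X l :
          MvPolynomial (Fin δ) k) := by
      intro l
      rw [← Finset.sum_mul, ← map_sum]
      congr 2
      rw [← Matrix.nonsing_inv_mul M hu, Matrix.mul_apply]
    rw [Finset.sum_congr rfl fun l _ => h2 l, Finset.sum_eq_single j]
    · simp
    · intro l _ hl
      rw [Matrix.one_apply_ne hl]
      simp
    · intro h
      exact absurd (Finset.mem_univ j) h
  intro x y hxy
  have := congrArg ψ hxy
  rw [← AlgHom.comp_apply, ← AlgHom.comp_apply, hcomp] at this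
  simpa using this

/-- Coefficients of the image of a monomial. -/
theorem coeff_monomial_low {k : Type u} [Field k] {δ : ℕ}
    (φ : MvPolynomial (Fin δ) k →ₐ[k] PowerSeries (MvPolynomial (Fin δ) k))
    (L : Fin δ → MvPolynomial (Fin δ) k)
    (h0 : ∀ j, PowerSeries.constantCoeff (φ (MvPolynomial.X j)) = 0)
    (h1 : ∀ j, PowerSeries.coeff 1 (φ (MvPolynomial.X j)) = L j)
    (α : Fin δ →₀ ℕ) (c : k) (n : ℕ) :
    (n < α.degree → PowerSeries.coeff n (φ (MvPolynomial.monomial α c)) = 0) ∧
    (n = α.degree → PowerSeries.coeff n (φ (MvPolynomial.monomial α c)) =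
      MvPolynomial.aeval L (MvPolynomial.monomial α c)) := by
  classical
  have hw : ∀ j, ∃ w : PowerSeries (MvPolynomial (Fin δ) k),
      φ (MvPolynomial.X j) = PowerSeries.X * w ∧ PowerSeries.constantCoeff w = L j := by
    intro j
    obtain ⟨w, hw⟩ := PowerSeries.X_dvd_iff.mpr (h0 j)
    refine ⟨w, hw, ?_⟩
    have := h1 j
    rw [hw, show (1 : ℕ) = 0 + 1 from rfl, PowerSeries.coeff_succ_X_mul] at this
    simpa using this
  choose w hw1 hw2 using hw
  have hm : φ (MvPolynomial.monomial α c) = PowerSeries.X ^ α.degree *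
      (algebraMap k (PowerSeries (MvPolynomial (Fin δ) k)) c * ∏ j, w j ^ α j) := by
    rw [MvPolynomial.monomial_eq, map_mul, ← MvPolynomial.algebraMap_eq, AlgHom.commutes,
      Finsupp.prod_fintype _ _ (fun _ => pow_zero _), map_prod]
    have : ∀ j, φ (MvPolynomial.X j ^ α j) = PowerSeries.X ^ α j * w j ^ α j := by
      intro j
      rw [map_pow, hw1 j, mul_pow]
    rw [Finset.prod_congr rfl fun j _ => this j, Finset.prod_mul_distrib,
      Finset.prod_pow_eq_pow_sum, Finsupp.degree_eq_sum]
    ring
  constructor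
  · intro hn
    rw [hm, PowerSeries.coeff_X_pow_mul', if_neg (not_le.mpr hn)]
  · intro hn
    rw [hm, PowerSeries.coeff_X_pow_mul', if_pos hn.ge, hn, Nat.sub_self,
      PowerSeries.coeff_zero_eq_constantCoeff_apply, map_mul, map_prod]
    have : ∀ j, PowerSeries.constantCoeff (w j ^ α j) = L j ^ α j := by
      intro j
      rw [map_pow, hw2 j]
    rw [Finset.prod_congr rfl fun j _ => this j, MvPolynomial.aeval_monomial,
      Finsupp.prod_fintype _ _ (fun _ => pow_zero _)]
    congr 1

/-- The case of vanishing constant terms. -/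
theorem lowest_form_zero {k : Type u} [Field k] {δ : ℕ}
    (φ : MvPolynomial (Fin δ) k →ₐ[k] PowerSeries (MvPolynomial (Fin δ) k))
    (L : Fin δ → MvPolynomial (Fin δ) k)
    (hL : Function.Injective (MvPolynomial.aeval (R := k) L))
    (h0 : ∀ j, PowerSeries.constantCoeff (φ (MvPolynomial.X j)) = 0)
    (h1 : ∀ j, PowerSeries.coeff 1 (φ (MvPolynomial.X j)) = L j) :
    Function.Injective φ := by
  classical
  rw [injective_iff_map_eq_zero]
  intro g hg
  by_contra hne
  have hex : ∃ e, MvPolynomial.homogeneousComponent e g ≠ 0 := by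
    by_contra hall
    push Not at hall
    apply hne
    rw [← MvPolynomial.sum_homogeneousComponent g]
    exact Finset.sum_eq_zero fun i _ => hall i
  set e := Nat.find hex with he
  have hee : MvPolynomial.homogeneousComponent e g ≠ 0 := Nat.find_spec hex
  have hlow : ∀ d < e, MvPolynomial.homogeneousComponent d g = 0 := by
    intro d hd
    by_contra h
    exact Nat.find_min hex hd h
  -- homogeneous polynomials
  have hhom : ∀ (d : ℕ) (p : MvPolynomial (Fin δ) k), p.IsHomogeneous d →
      (e < d → PowerSeries.coeff e (φ p) = 0) ∧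
      (e = d → PowerSeries.coeff e (φ p) = MvPolynomial.aeval L p) := by
    intro d p hp
    have hsum : p = ∑ α ∈ p.support, MvPolynomial.monomial α (p.coeff α) := p.as_sum
    have hdeg : ∀ α ∈ p.support, α.degree = d := by
      intro α hα
      have := hp (MvPolynomial.mem_support_iff.mp hα)
      rw [Finsupp.degree_eq_weight_one]
      exact this
    constructor
    · intro hed
      rw [hsum, map_sum, map_sum]
      refine Finset.sum_eq_zero fun α hα => ?_
      exact (coeff_monomial_low φ L h0 h1 α _ e).1 (by rw [hdeg α hα]; exact hed)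
    · intro hed
      rw [hsum, map_sum, map_sum, map_sum]
      refine Finset.sum_congr rfl fun α hα => ?_
      exact (coeff_monomial_low φ L h0 h1 α _ e).2 (by rw [hdeg α hα]; exact hed)
  have hkey : PowerSeries.coeff e (φ g) =
      MvPolynomial.aeval L (MvPolynomial.homogeneousComponent e g) := by
    conv_lhs => rw [← MvPolynomial.sum_homogeneousComponent g]
    rw [map_sum, map_sum, Finset.sum_eq_single e]
    · exact (hhom e _ (MvPolynomial.homogeneousComponent_isHomogeneous e g)).2 rfl
    · intro d _ hd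
      rcases lt_or_gt_of_ne hd with h | h
      · rw [hlow d h, map_zero, map_zero]
      · exact (hhom d _ (MvPolynomial.homogeneousComponent_isHomogeneous d g)).1 h
    · intro h
      have : MvPolynomial.homogeneousComponent e g = 0 := by
        apply MvPolynomial.homogeneousComponent_eq_zero
        simpa [Nat.lt_succ_iff] using h
      exact absurd this hee
  rw [hg, map_zero] at hkey
  exact hee (hL (by rw [← hkey, map_zero]))

theorem lowest_form {k : Type u} [Field k] {δ : ℕ}
    (φ : MvPolynomial (Fin δ) k →ₐ[k] PowerSeries (MvPolynomial (Fin δ) k))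
    (a : Fin δ → k) (M : Matrix (Fin δ) (Fin δ) k) (hM : M.det ≠ 0)
    (h0 : ∀ j, PowerSeries.constantCoeff (φ (MvPolynomial.X j)) = MvPolynomial.C (a j))
    (h1 : ∀ j, PowerSeries.coeff 1 (φ (MvPolynomial.X j)) =
      ∑ i, MvPolynomial.C (M i j) * MvPolynomial.X i) :
    Function.Injective φ := by
  classical
  set σ : MvPolynomial (Fin δ) k →ₐ[k] MvPolynomial (Fin δ) k :=
    MvPolynomial.aeval (fun j => MvPolynomial.X j - MvPolynomial.C (a j)) with hσ
  set τ : MvPolynomial (Fin δ) k →ₐ[k] MvPolynomial (Fin δ) k :=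
    MvPolynomial.aeval (fun j => MvPolynomial.X j + MvPolynomial.C (a j)) with hτ
  have hCσ : ∀ c : k, σ (MvPolynomial.C c) = MvPolynomial.C c := fun c => by
    rw [hσ, MvPolynomial.aeval_C, MvPolynomial.algebraMap_eq]
  have hCτ : ∀ c : k, τ (MvPolynomial.C c) = MvPolynomial.C c := fun c => by
    rw [hτ, MvPolynomial.aeval_C, MvPolynomial.algebraMap_eq]
  have hXσ : ∀ j, σ (MvPolynomial.X j) = MvPolynomial.X j - MvPolynomial.C (a j) := fun j => by
    rw [hσ, MvPolynomial.aeval_X]
  have hXτ : ∀ j, τ (MvPolynomial.X j) = MvPolynomial.X j + MvPolynomial.C (a j) := fun j => by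
    rw [hτ, MvPolynomial.aeval_X]
  have hστ : σ.comp τ = AlgHom.id k _ := by
    apply MvPolynomial.algHom_ext
    intro j
    rw [AlgHom.comp_apply, hXτ, map_add, hXσ, hCσ, AlgHom.id_apply]
    ring
  have hτinj : Function.Injective τ := by
    intro x y hxy
    have := congrArg σ hxy
    rw [← AlgHom.comp_apply, ← AlgHom.comp_apply, hστ] at this
    simpa using this
  have hφC : ∀ c : k, φ (MvPolynomial.C c) =
      algebraMap k (PowerSeries (MvPolynomial (Fin δ) k)) c := fun c => by
    rw [← MvPolynomial.algebraMap_eq, AlgHom.commutes]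
  have halg : ∀ c : k, algebraMap k (PowerSeries (MvPolynomial (Fin δ) k)) c =
      PowerSeries.C (MvPolynomial.C c) := fun c => PowerSeries.algebraMap_apply
  have hinj := lowest_form_zero (φ.comp σ)
    (fun j => ∑ i, MvPolynomial.C (M i j) * MvPolynomial.X i) (lin_subst_injective M hM)
    (fun j => by
      rw [AlgHom.comp_apply, hXσ, map_sub, map_sub, h0, hφC, halg,
        PowerSeries.constantCoeff_C, sub_self])
    (fun j => by
      rw [AlgHom.comp_apply, hXσ, map_sub, map_sub, h1, hφC, halg, PowerSeries.coeff_C,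
        if_neg one_ne_zero, sub_zero])
  have hfac : ∀ g, φ g = (φ.comp σ) (τ g) := by
    intro g
    rw [AlgHom.comp_apply, ← AlgHom.comp_apply σ τ, hστ, AlgHom.id_apply]
  intro x y hxy
  rw [hfac x, hfac y] at hxy
  exact hτinj (hinj hxy)

end H96.RM
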