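import Mathlib
import Pool.Agent.H96.RM.Lowest

/-!
# Job RM-A3: the Gauss valuation (helper96, MP_d7d607_ag)

`D` a discrete valuation ring with uniformizer `z`.

1. `prime_Q`: the constant `z` is a prime element of `D[v_1..v_δ][[λ]]`, and of `D[v_1..v_δ]`.
   Proof: `Prime (MvPolynomial.C z)` is `MvPolynomial.prime_C_iff`.  For `A⟦X⟧` and `a : A` prime:
   `algebraMap a ∣ f` iff `a ∣ coeff n f` for all `n` (choose the quotients coefficientwise,
   `PowerSeries.mk`), iff `f` maps to `0` in `(A ⧸ span {a})⟦X⟧` (`PowerSeries.map`), which is a domain.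
2. `gauss`: let `φ : D[X_1..X_δ] → D[v][[λ]]` be a `D`-algebra homomorphism with
   `φ (X_j) = a_j + λ ∑ i M i j v_i + ...` with `det M` a unit.  If `z ∣ φ g` then `z ∣ g`.
   Proof: let `k = ResidueField D` (or `D ⧸ span {z}`).  There is a `k`-algebra homomorphism
   `φk : k[X] → k[v][[λ]]`, `X_j ↦` reduction of `φ (X_j)` (`MvPolynomial.aeval`), and it commutes
   with `φ` and the reduction maps (check on constants and variables, `MvPolynomial.ringHom_ext`).
   It satisfies the hypotheses of `lowest_form` (det of the reduced matrix is nonzero), so it is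
   injective.  `z ∣ φ g` ⟹ the reduction of `φ g` is `0` ⟹ `φk (g mod z) = 0` ⟹ `g mod z = 0` ⟹
   all coefficients of `g` are divisible by `z` ⟹ `C z ∣ g` (`MvPolynomial.C_dvd_iff_dvd_coeff`).
3. `gauss_injective`: if `φ g = 0`, then `z ∣ g`, `g = z g₁`, `φ g₁ = 0` (`Q` is a domain), and so on:
   `C (z^n) ∣ g` for all `n`, so every coefficient of `g` is divisible by all `z ^ n`, hence is `0`
   (`IsDiscreteValuationRing`: Krull intersection, or `WfDvdMonoid.multiplicity_finite`).
-/

set_option autoImplicit false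
set_option linter.unusedVariables false

namespace H96.RM

universe u

variable {D : Type u} [CommRing D] [IsDomain D] [IsDiscreteValuationRing D] {z : D}

theorem gauss_C_dvd {A : Type u} [CommRing A] (a : A) (f : PowerSeries A) :
    PowerSeries.C a ∣ f ↔ ∀ n, a ∣ PowerSeries.coeff n f := by
  constructor
  · rintro ⟨g, rfl⟩ n
    rw [PowerSeries.coeff_C_mul]
    exact dvd_mul_right _ _
  · intro h
    choose g hg using h
    refine ⟨PowerSeries.mk g, ?_⟩
    ext n
    rw [PowerSeries.coeff_C_mul, PowerSeries.coeff_mk, hg n]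

theorem gauss_prime_C {A : Type u} [CommRing A] {a : A} (ha : Prime a) :
    Prime (PowerSeries.C a : PowerSeries A) := by
  have hI : (Ideal.span {a}).IsPrime := (Ideal.span_singleton_prime ha.ne_zero).2 ha
  have hker : ∀ f : PowerSeries A, PowerSeries.C a ∣ f ↔
      PowerSeries.map (Ideal.Quotient.mk (Ideal.span {a})) f = 0 := by
    intro f
    rw [gauss_C_dvd]
    constructor
    · intro h
      ext n
      rw [PowerSeries.coeff_map, map_zero, Ideal.Quotient.eq_zero_iff_mem,
        Ideal.mem_span_singleton]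
      exact h n
    · intro h n
      have h1 := congrArg (PowerSeries.coeff n) h
      rw [PowerSeries.coeff_map, map_zero, Ideal.Quotient.eq_zero_iff_mem,
        Ideal.mem_span_singleton] at h1
      exact h1
  refine ⟨?_, ?_, ?_⟩
  · intro h
    apply ha.ne_zero
    have h1 := congrArg (PowerSeries.coeff 0) h
    simpa using h1
  · intro h
    apply ha.not_isUnit
    have h1 := h.map (PowerSeries.constantCoeff (R := A))
    simpa using h1
  · intro f g hfg
    rw [hker, map_mul] at hfg
    rw [hker, hker]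
    exact mul_eq_zero.1 hfg

omit [IsDomain D] [IsDiscreteValuationRing D] in
theorem gauss_alg (d : D) (δ : ℕ) :
    algebraMap D (PowerSeries (MvPolynomial (Fin δ) D)) d = PowerSeries.C (MvPolynomial.C d) := by
  rw [PowerSeries.algebraMap_apply, MvPolynomial.algebraMap_eq]

theorem prime_Q (hz : Irreducible z) (δ : ℕ) :
    Prime (algebraMap D (PowerSeries (MvPolynomial (Fin δ) D)) z) := by
  rw [gauss_alg]
  exact gauss_prime_C ((MvPolynomial.prime_C_iff _).2 hz.prime)

theorem prime_MvPoly (hz : Irreducible z) (δ : ℕ) :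
    Prime (algebraMap D (MvPolynomial (Fin δ) D) z) := by
  rw [MvPolynomial.algebraMap_eq]
  exact (MvPolynomial.prime_C_iff _).2 hz.prime

theorem gauss_residue (hz : Irreducible z) (d : D) :
    IsLocalRing.residue D d = 0 ↔ z ∣ d := by
  rw [IsLocalRing.residue_eq_zero_iff, hz.maximalIdeal_eq, Ideal.mem_span_singleton]

theorem gauss (hz : Irreducible z) {δ : ℕ}
    (φ : MvPolynomial (Fin δ) D →ₐ[D] PowerSeries (MvPolynomial (Fin δ) D))
    (a : Fin δ → D) (M : Matrix (Fin δ) (Fin δ) D) (hM : IsUnit M.det)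
    (h0 : ∀ j, PowerSeries.constantCoeff (φ (MvPolynomial.X j)) = MvPolynomial.C (a j))
    (h1 : ∀ j, PowerSeries.coeff 1 (φ (MvPolynomial.X j)) =
      ∑ i, MvPolynomial.C (M i j) * MvPolynomial.X i)
    (g : MvPolynomial (Fin δ) D)
    (hg : algebraMap D (PowerSeries (MvPolynomial (Fin δ) D)) z ∣ φ g) :
    algebraMap D (MvPolynomial (Fin δ) D) z ∣ g := by
  let ρ : D →+* IsLocalRing.ResidueField D := IsLocalRing.residue D
  let red : PowerSeries (MvPolynomial (Fin δ) D) →+*
      PowerSeries (MvPolynomial (Fin δ) (IsLocalRing.ResidueField D)) :=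
    PowerSeries.map (MvPolynomial.map ρ)
  let φk : MvPolynomial (Fin δ) (IsLocalRing.ResidueField D) →ₐ[IsLocalRing.ResidueField D]
      PowerSeries (MvPolynomial (Fin δ) (IsLocalRing.ResidueField D)) :=
    MvPolynomial.aeval (fun j => red (φ (MvPolynomial.X j)))
  have hcomm : ∀ g : MvPolynomial (Fin δ) D, φk (MvPolynomial.map ρ g) = red (φ g) := by
    intro g
    have h2 : (φk : MvPolynomial (Fin δ) (IsLocalRing.ResidueField D) →+*
        PowerSeries (MvPolynomial (Fin δ) (IsLocalRing.ResidueField D))).comp (MvPolynomial.map ρ) =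
        red.comp (φ : MvPolynomial (Fin δ) D →+* PowerSeries (MvPolynomial (Fin δ) D)) := by
      apply MvPolynomial.ringHom_ext
      · intro d
        have e1 : φ (MvPolynomial.C d) = PowerSeries.C (MvPolynomial.C d) := by
          rw [← MvPolynomial.algebraMap_eq, φ.commutes, gauss_alg, MvPolynomial.algebraMap_eq]
        have e2 : φk (MvPolynomial.C (ρ d)) = PowerSeries.C (MvPolynomial.C (ρ d)) := by
          rw [← MvPolynomial.algebraMap_eq, φk.commutes, PowerSeries.algebraMap_apply,
            MvPolynomial.algebraMap_eq]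
        change φk (MvPolynomial.map ρ (MvPolynomial.C d)) = red (φ (MvPolynomial.C d))
        rw [MvPolynomial.map_C, e2, e1]
        change _ = PowerSeries.map (MvPolynomial.map ρ) _
        rw [PowerSeries.map_C, MvPolynomial.map_C]
      · intro j
        change φk (MvPolynomial.map ρ (MvPolynomial.X j)) = red (φ (MvPolynomial.X j))
        rw [MvPolynomial.map_X]
        change MvPolynomial.aeval _ (MvPolynomial.X j) = _
        rw [MvPolynomial.aeval_X]
    exact congrArg (fun f => f g) h2
  have hdet : (M.map ρ).det ≠ 0 := by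
    have h3 : (M.map ρ).det = ρ M.det := (RingHom.map_det ρ M).symm
    rw [h3]
    exact (hM.map ρ).ne_zero
  have hinj : Function.Injective φk := by
    refine lowest_form φk (fun j => ρ (a j)) (M.map ρ) hdet ?_ ?_
    · intro j
      change PowerSeries.constantCoeff (MvPolynomial.aeval _ (MvPolynomial.X j)) = _
      rw [MvPolynomial.aeval_X]
      change PowerSeries.constantCoeff (PowerSeries.map (MvPolynomial.map ρ) _) = _
      rw [← PowerSeries.coeff_zero_eq_constantCoeff_apply, PowerSeries.coeff_map,
        PowerSeries.coeff_zero_eq_constantCoeff_apply, h0, MvPolynomial.map_C]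
    · intro j
      change PowerSeries.coeff 1 (MvPolynomial.aeval _ (MvPolynomial.X j)) = _
      rw [MvPolynomial.aeval_X]
      change PowerSeries.coeff 1 (PowerSeries.map (MvPolynomial.map ρ) _) = _
      rw [PowerSeries.coeff_map, h1, map_sum]
      refine Finset.sum_congr rfl fun i _ => ?_
      rw [map_mul, MvPolynomial.map_C, MvPolynomial.map_X, Matrix.map_apply]
  have hzero : MvPolynomial.map ρ g = 0 := by
    apply hinj
    rw [hcomm, map_zero]
    obtain ⟨q, hq⟩ := hg
    rw [hq, map_mul]
    have e3 : red (algebraMap D (PowerSeries (MvPolynomial (Fin δ) D)) z) = 0 := by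
      rw [gauss_alg]
      change PowerSeries.map (MvPolynomial.map ρ) _ = 0
      rw [PowerSeries.map_C, MvPolynomial.map_C]
      have : ρ z = 0 := (gauss_residue hz z).2 dvd_rfl
      rw [this, map_zero, map_zero]
    rw [e3, zero_mul]
  rw [MvPolynomial.algebraMap_eq, MvPolynomial.C_dvd_iff_dvd_coeff]
  intro m
  have h4 := congrArg (MvPolynomial.coeff m) hzero
  rw [MvPolynomial.coeff_map, MvPolynomial.coeff_zero] at h4
  exact (gauss_residue hz _).1 h4

theorem gauss_injective (hz : Irreducible z) {δ : ℕ}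
    (φ : MvPolynomial (Fin δ) D →ₐ[D] PowerSeries (MvPolynomial (Fin δ) D))
    (a : Fin δ → D) (M : Matrix (Fin δ) (Fin δ) D) (hM : IsUnit M.det)
    (h0 : ∀ j, PowerSeries.constantCoeff (φ (MvPolynomial.X j)) = MvPolynomial.C (a j))
    (h1 : ∀ j, PowerSeries.coeff 1 (φ (MvPolynomial.X j)) =
      ∑ i, MvPolynomial.C (M i j) * MvPolynomial.X i) :
    Function.Injective φ := by
  rw [injective_iff_map_eq_zero]
  intro g hg
  have key : ∀ n : ℕ, ∃ h : MvPolynomial (Fin δ) D,
      g = algebraMap D (MvPolynomial (Fin δ) D) z ^ n * h ∧ φ h = 0 := by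
    intro n
    induction n with
    | zero => exact ⟨g, by rw [pow_zero, one_mul], hg⟩
    | succ n ih =>
      obtain ⟨h, hh, hφ⟩ := ih
      obtain ⟨h', hh'⟩ := gauss hz φ a M hM h0 h1 h (by rw [hφ]; exact dvd_zero _)
      refine ⟨h', by rw [hh, hh']; ring, ?_⟩
      rw [hh', map_mul, φ.commutes] at hφ
      exact (mul_eq_zero.1 hφ).resolve_left (prime_Q hz δ).ne_zero
  by_contra hne
  obtain ⟨m, hm⟩ := MvPolynomial.ne_zero_iff.1 hne
  have hfin : FiniteMultiplicity z (MvPolynomial.coeff m g) :=
    FiniteMultiplicity.of_not_isUnit hz.not_isUnit hm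
  obtain ⟨n, hn⟩ := hfin
  apply hn
  obtain ⟨h, hh, -⟩ := key (n + 1)
  rw [hh, MvPolynomial.algebraMap_eq, ← map_pow, MvPolynomial.coeff_C_mul]
  exact dvd_mul_right _ _

end H96.RM
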