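import Mathlib
import Pool.Agent.H96.RM.Deriv
import Pool.Agent.H96.RM.FinSep
import Pool.Agent.H96.RM.Gauss

/-!
# Job RM-A7: the fraction field is finite separable over the coordinates `J`
(helper96, MP_d7d607_ag)

`P` a point datum, `J` coordinates with unit minor, `𝔮` a prime with `I ≤ 𝔮 ≤ ker P.Ψ`.

Proof of `exists_ext`.  `θ = P.Ψ ∘ rename J : D[Y_1..Y_δ] → Q` is injective by `gauss_injective`
(with `a = P.a ∘ J`, `M i j = P.β i (J j)`, use `P.h0`, `P.h1`).  Hence `D[Y] → D[t] ⧸ 𝔮` is injective
(if `rename J b ∈ 𝔮` then `P.Ψ (rename J b) = 0`), and so it extends to the fraction fields: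
`e = IsFractionRing.map` / `IsFractionRing.lift` (`IsFractionRing.lift` applied to
`(algebraMap (D[t]⧸𝔮) (FractionRing _)).comp (mk.comp (rename J))`, injective).
With `letI := e.toAlgebra`: `F = FractionRing (D[t] ⧸ 𝔮)` is generated over `E` by the finitely many
classes of the variables `X l` (every element of `F` is a fraction of classes of polynomials; constants of
`D` come from `E`), so `IntermediateField.adjoin E (image of the X l) = ⊤`.
A derivation `d : Derivation E F F` restricts to a `D`-derivation (`Derivation.restrictScalars`, give `F` the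
`D`-algebra structure through `D[t] ⧸ 𝔮`) and kills the classes of `X (J j)` (they are in the image of `e`,
`Derivation.map_algebraMap`), so it kills all classes of `X l` by `PointData.deriv_zero`, applied to
`φ = D[t] → D[t] ⧸ 𝔮 → F`; hence `d = 0` (it kills generators of the field: `Derivation` vanishes on
polynomials in them and on fractions, `Derivation.leibniz_inv`/`Derivation.leibniz_div`; or
`Derivation.eqOn_adjoin`).  Now `finSep_of_deriv`.
-/

set_option autoImplicit false
set_option linter.unusedVariables false
set_option linter.unusedSectionVars false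

namespace H96.RM

universe u

variable {D : Type u} [CommRing D] [IsDomain D] [IsDiscreteValuationRing D]
  {ι : Type} [Fintype ι] [DecidableEq ι] {z : D} {I : Ideal (MvPolynomial ι D)}

theorem PointData.theta_injective (hz : Irreducible z) (P : PointData D ι z I) (J : Fin P.δ → ι)
    (hJ : IsUnit (Matrix.det (Matrix.of fun i j => P.β i (J j)))) :
    Function.Injective (fun b : MvPolynomial (Fin P.δ) D => P.Ψ (MvPolynomial.rename J b)) := by
  have h := gauss_injective hz (P.Ψ.comp (MvPolynomial.rename J)) (fun j => P.a (J j))
    (Matrix.of fun i j => P.β i (J j)) hJ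
    (fun j => by rw [AlgHom.comp_apply, MvPolynomial.rename_X, P.h0])
    (fun j => by rw [AlgHom.comp_apply, MvPolynomial.rename_X, P.h1]; rfl)
  intro a b hab
  exact h hab

/-- `z ∣ Ψ (b(t_J))` implies `z ∣ b`. -/
theorem PointData.theta_gauss (hz : Irreducible z) (P : PointData D ι z I) (J : Fin P.δ → ι)
    (hJ : IsUnit (Matrix.det (Matrix.of fun i j => P.β i (J j))))
    (b : MvPolynomial (Fin P.δ) D)
    (hb : algebraMap D (PowerSeries (MvPolynomial (Fin P.δ) D)) z ∣
      P.Ψ (MvPolynomial.rename J b)) :
    algebraMap D (MvPolynomial (Fin P.δ) D) z ∣ b :=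
  gauss hz (P.Ψ.comp (MvPolynomial.rename J)) (fun j => P.a (J j))
    (Matrix.of fun i j => P.β i (J j)) hJ
    (fun j => by rw [AlgHom.comp_apply, MvPolynomial.rename_X, P.h0])
    (fun j => by rw [AlgHom.comp_apply, MvPolynomial.rename_X, P.h1]; rfl) b hb

/-- A derivation killing generators of a field extension is zero. -/
theorem deriv_eq_zero_of_adjoin {E F : Type*} [Field E] [Field F] [Algebra E F] (S : Set F)
    (hS : IntermediateField.adjoin E S = ⊤) (d : Derivation E F F) (h : ∀ x ∈ S, d x = 0) :
    d = 0 := by
  ext x
  have hx : x ∈ IntermediateField.adjoin E S := by rw [hS]; trivial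
  change d x = 0
  induction hx using IntermediateField.adjoin_induction with
  | mem x hx => exact h x hx
  | algebraMap x => exact d.map_algebraMap x
  | add x y hx hy h1 h2 => rw [map_add, h1, h2, add_zero]
  | inv x hx h1 => rw [d.leibniz_inv, h1, smul_zero]
  | mul x y hx hy h1 h2 => rw [d.leibniz, h1, h2, smul_zero, smul_zero, add_zero]

theorem PointData.exists_ext (hz : Irreducible z) (P : PointData D ι z I) (J : Fin P.δ → ι)
    (hJ : IsUnit (Matrix.det (Matrix.of fun i j => P.β i (J j))))
    (q : Ideal (MvPolynomial ι D)) [q.IsPrime] (hI : I ≤ q) (hle : ∀ f ∈ q, P.Ψ f = 0) :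
    ∃ e : FractionRing (MvPolynomial (Fin P.δ) D) →+* FractionRing (MvPolynomial ι D ⧸ q),
      (∀ b, e (algebraMap _ _ b) = algebraMap _ _ (Ideal.Quotient.mk q (MvPolynomial.rename J b))) ∧
      (@FiniteDimensional (FractionRing (MvPolynomial (Fin P.δ) D))
        (FractionRing (MvPolynomial ι D ⧸ q)) _ _ e.toAlgebra.toModule) ∧
      (@Algebra.IsSeparable (FractionRing (MvPolynomial (Fin P.δ) D))
        (FractionRing (MvPolynomial ι D ⧸ q)) _ _ e.toAlgebra) := by
  classical
  set A := MvPolynomial (Fin P.δ) D with hA
  set B := MvPolynomial ι D ⧸ q with hB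
  let g : A →+* FractionRing B :=
    (algebraMap B (FractionRing B)).comp ((Ideal.Quotient.mk q).comp
      (MvPolynomial.rename J : MvPolynomial (Fin P.δ) D →ₐ[D] MvPolynomial ι D).toRingHom)
  have hgv : ∀ b : A, g b = algebraMap B (FractionRing B)
      (Ideal.Quotient.mk q (MvPolynomial.rename J b)) := fun b => rfl
  have hg : Function.Injective g := by
    rw [injective_iff_map_eq_zero]
    intro b hb
    rw [hgv] at hb
    have h1 : Ideal.Quotient.mk q (MvPolynomial.rename J b) = 0 :=
      IsFractionRing.injective B (FractionRing B) (by rw [hb, map_zero])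
    rw [Ideal.Quotient.eq_zero_iff_mem] at h1
    have h2 := hle _ h1
    apply P.theta_injective hz J hJ
    change P.Ψ (MvPolynomial.rename J b) = P.Ψ (MvPolynomial.rename J 0)
    rw [h2, map_zero, map_zero]
  let e : FractionRing A →+* FractionRing B := IsFractionRing.lift hg
  have he : ∀ b : A, e (algebraMap A (FractionRing A) b) =
      algebraMap B (FractionRing B) (Ideal.Quotient.mk q (MvPolynomial.rename J b)) := fun b => by
    rw [← hgv]
    exact IsFractionRing.lift_algebraMap hg b
  refine ⟨e, he, ?_⟩
  let _ : Algebra (FractionRing A) (FractionRing B) := e.toAlgebra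
  have hea : ∀ x, algebraMap (FractionRing A) (FractionRing B) x = e x := fun x => rfl
  let S : Finset (FractionRing B) := Finset.univ.image
    (fun l : ι => algebraMap B (FractionRing B) (Ideal.Quotient.mk q (MvPolynomial.X l)))
  have hpoly : ∀ p : MvPolynomial ι D, algebraMap B (FractionRing B) (Ideal.Quotient.mk q p) ∈
      IntermediateField.adjoin (FractionRing A) (S : Set (FractionRing B)) := by
    intro p
    induction p using MvPolynomial.induction_on with
    | C c =>
      have h1 : algebraMap B (FractionRing B) (Ideal.Quotient.mk q (MvPolynomial.C c)) =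
          algebraMap (FractionRing A) (FractionRing B)
            (algebraMap A (FractionRing A) (MvPolynomial.C c)) := by
        rw [hea, he, MvPolynomial.rename_C]
      rw [h1]
      exact IntermediateField.algebraMap_mem _ _
    | add p r hp hr =>
      rw [map_add, map_add]
      exact add_mem hp hr
    | mul_X p l hp =>
      rw [map_mul, map_mul]
      refine mul_mem hp (IntermediateField.subset_adjoin _ _ ?_)
      rw [Finset.mem_coe]
      exact Finset.mem_image_of_mem _ (Finset.mem_univ l)
  have hS : IntermediateField.adjoin (FractionRing A) (S : Set (FractionRing B)) = ⊤ := by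
    rw [eq_top_iff]
    intro x _
    obtain ⟨n, m, hm, rfl⟩ := IsFractionRing.div_surjective (A := B) x
    obtain ⟨n, rfl⟩ := Ideal.Quotient.mk_surjective n
    obtain ⟨m, rfl⟩ := Ideal.Quotient.mk_surjective m
    exact div_mem (hpoly n) (hpoly m)
  have hder : ∀ d : Derivation (FractionRing A) (FractionRing B) (FractionRing B), d = 0 := by
    intro d
    apply deriv_eq_zero_of_adjoin _ hS
    have htow : IsScalarTower D (FractionRing A) (FractionRing B) := by
      refine IsScalarTower.of_algebraMap_eq fun c => ?_
      rw [hea]
      have h1 : algebraMap D (FractionRing A) c =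
          algebraMap A (FractionRing A) (MvPolynomial.C c) := by
        rw [IsScalarTower.algebraMap_apply D A (FractionRing A)]
        rfl
      rw [h1, he, MvPolynomial.rename_C, IsScalarTower.algebraMap_apply D B (FractionRing B)]
      rfl
    let φ : MvPolynomial ι D →ₐ[D] FractionRing B :=
      (IsScalarTower.toAlgHom D B (FractionRing B)).comp (Ideal.Quotient.mkₐ D q)
    have hφ : ∀ f, φ f = algebraMap B (FractionRing B) (Ideal.Quotient.mk q f) := fun f => rfl
    have h0 : ∀ l, d (φ (MvPolynomial.X l)) = 0 := by
      intro l
      refine P.deriv_zero J hJ φ ?_ ?_ (d.restrictScalars D) ?_ l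
      · intro f hf
        rw [hφ, Ideal.Quotient.eq_zero_iff_mem.mpr (hI hf), map_zero]
      · intro f hf
        rw [hφ] at hf
        have h1 : Ideal.Quotient.mk q f = 0 :=
          IsFractionRing.injective B (FractionRing B) (by rw [hf, map_zero])
        exact hle _ (Ideal.Quotient.eq_zero_iff_mem.mp h1)
      · intro j
        change d (φ (MvPolynomial.X (J j))) = 0
        have h1 : φ (MvPolynomial.X (J j)) = algebraMap (FractionRing A) (FractionRing B)
            (algebraMap A (FractionRing A) (MvPolynomial.X j)) := by
          rw [hea, he, hφ, MvPolynomial.rename_X]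
        rw [h1]
        exact d.map_algebraMap _
    intro x hx
    rw [Finset.mem_coe, Finset.mem_image] at hx
    obtain ⟨l, -, rfl⟩ := hx
    exact h0 l
  exact finSep_of_deriv S hS hder

end H96.RM
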