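import Mathlib

/-!
# Job RM-A1: a unit minor (helper96, MP_d7d607_ag)

`D` a discrete valuation ring with uniformizer `z`, `β` a `δ × ι` matrix over `D` whose rows are
linearly independent modulo `z`.  Then some `δ × δ` minor is a unit of `D`.

Proof.  Put `k = D ⧸ span {z}` (a field, as `span {z}` is the maximal ideal:
`Irreducible.maximalIdeal_eq` or `IsDiscreteValuationRing.irreducible_iff_uniformizer`); or use
`IsLocalRing.ResidueField D`.  `h` says that the rows of the reduced matrix are linearly independent
over `k` (lift the coefficients to `D`; an element of `D` is divisible by `z` iff its residue is `0`).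
The rank of the reduced matrix is `δ`, so its columns span `Fin δ → k`, hence a subfamily `J : Fin δ → ι`
of the columns is a basis (`exists_linearIndependent`, `Module.Basis.extend`, or
`Matrix.rank`, `LinearIndependent.rank_matrix`, `exists_fun_fin_finrank_span_eq` ...), the determinant of
the square submatrix is nonzero in `k`, so the determinant over `D` is a unit
(`RingHom.map_det`, `IsLocalRing.residue_ne_zero_iff_isUnit`).
-/

set_option autoImplicit false
set_option linter.unusedVariables false

namespace H96.RM

universe u

theorem exists_minor {D : Type u} [CommRing D] [IsDomain D] [IsDiscreteValuationRing D] {z : D}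
    (hz : Irreducible z) {ι : Type*} [Fintype ι] [DecidableEq ι] {δ : ℕ} (β : Fin δ → ι → D)
    (h : ∀ c : Fin δ → D, (∀ l, z ∣ ∑ i, c i * β i l) → ∀ i, z ∣ c i) :
    ∃ J : Fin δ → ι, IsUnit (Matrix.det (Matrix.of fun i j => β i (J j))) := by
  have hres : ∀ x : D, IsLocalRing.residue D x = 0 ↔ z ∣ x := by
    intro x
    rw [← Ideal.mem_span_singleton, ← hz.maximalIdeal_eq]
    exact Ideal.Quotient.eq_zero_iff_mem
  set M : Matrix (Fin δ) ι (IsLocalRing.ResidueField D) :=
    Matrix.of fun i l => IsLocalRing.residue D (β i l) with hM
  -- the rows are linearly independent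
  have hrow : LinearIndependent (IsLocalRing.ResidueField D) M.row := by
    rw [Fintype.linearIndependent_iff]
    intro g hg i
    choose c hc using fun i => IsLocalRing.residue_surjective (g i)
    have h1 : ∀ l, z ∣ ∑ i, c i * β i l := by
      intro l
      rw [← hres, map_sum]
      have h2 := congrFun hg l
      rw [Finset.sum_apply] at h2
      rw [← h2.trans (Pi.zero_apply l)]
      refine Finset.sum_congr rfl fun i _ => ?_
      rw [map_mul, hc]
      rfl
    rw [← hc i, hres]
    exact h c h1 i
  have hrank : Module.finrank (IsLocalRing.ResidueField D)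
      (Submodule.span (IsLocalRing.ResidueField D) (Set.range M.col)) = δ := by
    rw [← Matrix.rank_eq_finrank_span_cols, hrow.rank_matrix, Fintype.card_fin]
  obtain ⟨f, hf1, hf3⟩ : ∃ f : Fin δ → (Fin δ → IsLocalRing.ResidueField D),
      (∀ i, f i ∈ Set.range M.col) ∧ LinearIndependent (IsLocalRing.ResidueField D) f := by
    have h5 := Submodule.exists_fun_fin_finrank_span_eq (IsLocalRing.ResidueField D)
      (Set.range M.col)
    rw [hrank] at h5
    obtain ⟨f, h6, -, h7⟩ := h5
    exact ⟨f, h6, h7⟩
  choose J hJ using hf1
  refine ⟨J, ?_⟩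
  rw [← IsLocalRing.residue_ne_zero_iff_isUnit, RingHom.map_det]
  set A : Matrix (Fin δ) (Fin δ) (IsLocalRing.ResidueField D) :=
    (IsLocalRing.residue D).mapMatrix (Matrix.of fun i j => β i (J j)) with hA
  have hcol : A.col = f := by
    funext j
    rw [← hJ j]
    rfl
  rw [← hcol, Matrix.linearIndependent_cols_iff_isUnit, Matrix.isUnit_iff_isUnit_det] at hf3
  exact hf3.ne_zero

end H96.RM
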