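import Mathlib
import Pool.Agent.H96.RM.Ext
import Pool.Agent.H96.RM.Minor

/-!
# Job RM-A8: `ker Ψ` is a minimal prime over `I` (helper96, MP_d7d607_ag)

Proof.  `ker P.Ψ` is prime (the target is a domain) and contains `I` (`P.hI`).  Let `q` be a prime with
`I ≤ q ≤ ker P.Ψ`; we show `ker P.Ψ ≤ q`.  Suppose `a ∈ ker P.Ψ`, `a ∉ q`.  By `exists_ext` the field
`FractionRing (D[t] ⧸ q)` is algebraic over `FractionRing D[Y_J]`, hence the class `ā` of `a` in `D[t] ⧸ q` is
algebraic over `D[Y]` (algebra structure through `rename J`; `IsFractionRing.isAlgebraic_iff`,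
`IsAlgebraic` descends along the injection into the fraction field, `isAlgebraic_algebraMap_iff`).
Apply `Ideal.comap_ne_bot_of_algebraic_mem` (file `Mathlib/RingTheory/Ideal/Over.lean` or similar) to the ideal
`(ker P.Ψ).map (mk q)` of `D[t] ⧸ q` and `x = ā ≠ 0`: its contraction to `D[Y]` is not `⊥`, so there is
`b ≠ 0` in `D[Y]` with `rename J b ∈ ker P.Ψ + q = ker P.Ψ`, i.e. `P.Ψ (rename J b) = 0`, contradicting
`PointData.theta_injective`.
-/

set_option autoImplicit false
set_option linter.unusedVariables false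

namespace H96.RM

universe u

variable {D : Type u} [CommRing D] [IsDomain D] [IsDiscreteValuationRing D]
  {ι : Type} [Fintype ι] [DecidableEq ι] {z : D} {I : Ideal (MvPolynomial ι D)}

theorem PointData.ker_mem_minimalPrimes (hz : Irreducible z) (P : PointData D ι z I) :
    RingHom.ker P.Ψ ∈ I.minimalPrimes := by
  obtain ⟨J, hJ⟩ := exists_minor hz P.β P.hβ1
  have hkp : (RingHom.ker P.Ψ).IsPrime := RingHom.ker_isPrime P.Ψ
  refine ⟨⟨hkp, fun f hf => P.hI f hf⟩, ?_⟩
  rintro q ⟨hq, hIq⟩ hle a ha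
  haveI := hq
  by_contra haq
  obtain ⟨e, he, hfd, -⟩ := P.exists_ext hz J hJ q hIq (fun f hf => hle hf)
  letI i1 : Algebra (FractionRing (MvPolynomial (Fin P.δ) D))
    (FractionRing (MvPolynomial ι D ⧸ q)) := e.toAlgebra
  letI i2 : Algebra (MvPolynomial (Fin P.δ) D) (MvPolynomial ι D ⧸ q) :=
    ((Ideal.Quotient.mk q).comp (MvPolynomial.rename J).toRingHom).toAlgebra
  haveI i3 : Module.Finite (FractionRing (MvPolynomial (Fin P.δ) D))
    (FractionRing (MvPolynomial ι D ⧸ q)) := hfd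
  haveI i4 : IsScalarTower (MvPolynomial (Fin P.δ) D) (FractionRing (MvPolynomial (Fin P.δ) D))
      (FractionRing (MvPolynomial ι D ⧸ q)) := by
    refine IsScalarTower.of_algebraMap_eq fun b => ?_
    rw [IsScalarTower.algebraMap_apply (MvPolynomial (Fin P.δ) D) (MvPolynomial ι D ⧸ q)
      (FractionRing (MvPolynomial ι D ⧸ q))]
    exact (he b).symm
  have h1 : IsAlgebraic (FractionRing (MvPolynomial (Fin P.δ) D))
      (algebraMap (MvPolynomial ι D ⧸ q) (FractionRing (MvPolynomial ι D ⧸ q))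
        (Ideal.Quotient.mk q a)) := Algebra.IsAlgebraic.isAlgebraic _
  rw [← IsFractionRing.isAlgebraic_iff (MvPolynomial (Fin P.δ) D)] at h1
  rw [isAlgebraic_algebraMap_iff (IsFractionRing.injective (MvPolynomial ι D ⧸ q)
    (FractionRing (MvPolynomial ι D ⧸ q)))] at h1
  have h2 := Ideal.comap_ne_bot_of_algebraic_mem
    (I := (RingHom.ker P.Ψ).map (Ideal.Quotient.mk q)) (x := Ideal.Quotient.mk q a)
    (fun h => haq (Ideal.Quotient.eq_zero_iff_mem.1 h)) (Ideal.mem_map_of_mem _ ha) h1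
  obtain ⟨b, hb, hb0⟩ := Submodule.exists_mem_ne_zero_of_ne_bot h2
  have h3 : Ideal.Quotient.mk q (MvPolynomial.rename J b) ∈
      (RingHom.ker P.Ψ).map (Ideal.Quotient.mk q) := hb
  rw [Ideal.mem_map_iff_of_surjective _ Ideal.Quotient.mk_surjective] at h3
  obtain ⟨c, hc, hcb⟩ := h3
  have h4 : c - MvPolynomial.rename J b ∈ q := Ideal.Quotient.eq.1 hcb
  have h5 : P.Ψ (c - MvPolynomial.rename J b) = 0 := hle h4
  have h6 : P.Ψ c = 0 := hc
  rw [map_sub, h6, zero_sub, neg_eq_zero] at h5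
  apply hb0
  apply P.theta_injective hz J hJ
  simp only [map_zero]
  exact h5

end H96.RM
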