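import Mathlib

/-!
# Job RM-A11: descent of conjugacy of matrices (helper96, MP_d7d607_ag)

`W` a discrete valuation ring with infinite residue field, `V` a local domain, `W → V` injective and local.
If two families of matrices over `W` are conjugate over `V` (by an element of `GL_s(V)`), they are conjugate over `W`.

Proof.  The conjugating matrices form the kernel of a linear system: let
`H = {y : Matrix s s W | ∀ i, y * A i = B i * y}` (a `W`-submodule of the free module
`Matrix s s W`).  The quotient is torsion free (`w y A = B w y`, `w ≠ 0` implies `y A = B y`), finitely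
generated over a PID, hence free, so `H` has a complement `C` and finite bases `h_1..h_r` of `H`, `c_1..c_t` of `C`
(`Submodule.exists_isCompl`... via a section of the projective quotient, `Module.projective_lifting_property`).
Every matrix `x` over `V` is `∑ a_j h_j + ∑ b_i c_i` with `a_j, b_i ∈ V` (the `h_j, c_i` are a basis of
`Matrix s s W`, so their images are a basis of `Matrix s s V`; `Module.Basis.baseChange` or by hand with the
inverse base change matrix).  If `x A = B x` over `V` then
`∑ b_i (c_i A_j - B_j c_i) = 0` for all `j`.  The elements `(c_i A_j - B_j c_i)_j`, `i = 1..t`, of the product over `j`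
are linearly independent over `W` (injectivity on `C`), hence over `Frac W`, hence over `Frac V`
(a finite family of vectors over `W` that is independent over `Frac W` has a nonzero `t × t` minor, see
`H96.RM.exists_det_ne_zero`, which stays nonzero in `V`), so `b = 0`.
So `x = ∑ a_j h_j`.  Let `p = det (∑ X_j h_j) ∈ W[X_1..X_r]` (`MvPolynomial (Fin r) W`).  `p(a)` is a unit of `V`, so
`p` is not zero modulo the maximal ideal of `W` (otherwise `p(a)` is in the ideal generated by the maximal ideal
of `W`, which consists of non-units of `V` because `W → V` is local).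
As the residue field `κ` of `W` is infinite there is a point of `κ^r` where `p mod 𝔪` is nonzero
(`MvPolynomial.funext`, `MvPolynomial.exists_eval_ne_zero_of_..`, contrapositive of `MvPolynomial.funext`);
lift it to `c ∈ W^r` (`IsLocalRing.residue_surjective`): `y = ∑ c_j h_j` has unit determinant and
`y A = B y`.
-/

set_option autoImplicit false
set_option linter.unusedVariables false

namespace H96.RM

open IsLocalRing

theorem descent {W V : Type*} [CommRing W] [IsDomain W] [IsDiscreteValuationRing W]
    [Infinite (ResidueField W)] [CommRing V] [IsDomain V] [IsLocalRing V] [Algebra W V]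
    (hinj : Function.Injective (algebraMap W V)) [IsLocalHom (algebraMap W V)]
    {s : Type*} [Fintype s] [DecidableEq s] {κ : Type*} (A B : κ → Matrix s s W)
    (x : Matrix s s V) (hx : IsUnit x.det)
    (h : ∀ i, x * (A i).map (algebraMap W V) = (B i).map (algebraMap W V) * x) :
    ∃ y : Matrix s s W, IsUnit y.det ∧ ∀ i, y * A i = B i * y := by
  classical
  have hfs : FaithfulSMul W V := (faithfulSMul_iff_algebraMap_injective W V).mpr hinj
  have htf : Module.IsTorsionFree W V := inferInstance
  have hflat : Module.Flat W V := inferInstance
  -- the evaluation map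
  let X : Matrix s s W →ₗ[W] V :=
    { toFun := fun E => ∑ p, ∑ q, (E p q) • (x p q)
      map_add' := by
        intro E F
        simp only [Matrix.add_apply, add_smul, Finset.sum_add_distrib]
      map_smul' := by
        intro c E
        simp only [Matrix.smul_apply, smul_eq_mul, mul_smul, Finset.smul_sum, RingHom.id_apply] }
  have hX1 : ∀ p q, X (Matrix.single p q 1) = x p q := by
    intro p q
    change ∑ p', ∑ q', (Matrix.single p q (1 : W) p' q') • (x p' q') = x p q
    rw [Finset.sum_eq_single p, Finset.sum_eq_single q]
    · simp
    · intro b _ hb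
      simp [Matrix.single_apply, Ne.symm hb]
    · simp
    · intro b _ hb
      apply Finset.sum_eq_zero
      intro c _
      simp [Matrix.single_apply, Ne.symm hb]
    · simp
  let ρ : κ × s × s → Matrix s s W := fun t =>
    (∑ r, (A t.1 r t.2.2) • Matrix.single t.2.1 r (1 : W)) -
      ∑ r, (B t.1 t.2.1 r) • Matrix.single r t.2.2 (1 : W)
  have hXρ : ∀ t, X (ρ t) = 0 := by
    intro t
    have h1 := congrFun (congrFun (h t.1) t.2.1) t.2.2
    rw [Matrix.mul_apply, Matrix.mul_apply] at h1
    simp only [ρ, map_sub, map_sum, map_smul, hX1]
    rw [sub_eq_zero]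
    simp only [Algebra.smul_def]
    simp only [Matrix.map_apply] at h1
    rw [← h1]
    exact Finset.sum_congr rfl fun r _ => mul_comm _ _
  let K : Submodule W (Matrix s s W) := Submodule.span W (Set.range ρ)
  have hK : X ∘ₗ K.subtype = 0 := by
    have hle : K ≤ LinearMap.ker X := by
      rw [Submodule.span_le]
      rintro _ ⟨t, rfl⟩
      exact hXρ t
    ext ⟨z, hz⟩
    exact hle hz
  obtain ⟨k, a, y0, hXa, haf⟩ := Module.Flat.exists_factorization_of_comp_eq_zero_of_free hK
  let H : Fin k → Matrix s s W := fun j => Matrix.of fun p q => a (Matrix.single p q 1) j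
  let v : Fin k → V := fun j => y0 (Finsupp.single j 1)
  have hxH : ∀ p q, x p q = ∑ j, v j * algebraMap W V (H j p q) := by
    intro p q
    rw [← hX1 p q, hXa, LinearMap.comp_apply]
    conv_lhs => rw [← Finsupp.univ_sum_single (a (Matrix.single p q 1))]
    rw [map_sum]
    refine Finset.sum_congr rfl fun j _ => ?_
    have : (Finsupp.single j (a (Matrix.single p q 1) j) : Fin k →₀ W) =
        (a (Matrix.single p q 1) j) • Finsupp.single j 1 := by
      rw [Finsupp.smul_single, smul_eq_mul, mul_one]
    rw [this, map_smul, Algebra.smul_def, mul_comm]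
    rfl
  have hHA : ∀ j i, H j * A i = B i * H j := by
    intro j i
    ext p q
    have hmem : ρ (i, p, q) ∈ K := Submodule.subset_span ⟨_, rfl⟩
    have h0 : a (ρ (i, p, q)) = 0 := by
      have := LinearMap.congr_fun haf ⟨ρ (i, p, q), hmem⟩
      simpa using this
    have h1 : (a (ρ (i, p, q))) j = 0 := by rw [h0]; rfl
    simp only [ρ, map_sub, map_sum, map_smul, Finsupp.sub_apply, Finsupp.finsetSum_apply,
      Finsupp.smul_apply, smul_eq_mul] at h1
    rw [sub_eq_zero] at h1
    rw [Matrix.mul_apply, Matrix.mul_apply]
    have e1 : ∑ r, H j p r * A i r q = ∑ r, A i r q * (a (Matrix.single p r 1)) j :=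
      Finset.sum_congr rfl fun r _ => mul_comm _ _
    rw [e1, h1]
    rfl
  -- the polynomial
  let P : MvPolynomial (Fin k) W :=
    (Matrix.of fun p q => ∑ j, MvPolynomial.X j * MvPolynomial.C (H j p q) :
      Matrix s s (MvPolynomial (Fin k) W)).det
  have hPv : MvPolynomial.eval₂Hom (algebraMap W V) v P = x.det := by
    simp only [P]
    rw [RingHom.map_det]
    congr 1
    ext p q
    rw [hxH p q]
    simp
  have hPne : MvPolynomial.map (residue W) P ≠ 0 := by
    intro h0
    have h1 : residue V (x.det) = 0 := by
      rw [← hPv, ← RingHom.comp_apply, MvPolynomial.comp_eval₂Hom]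
      have h2 : (residue V).comp (algebraMap W V) =
          (ResidueField.map (algebraMap W V)).comp (residue W) := rfl
      rw [h2]
      have h3 := MvPolynomial.eval₂Hom_map_hom (residue W)
        (g := fun j => residue V (v j)) (ResidueField.map (algebraMap W V)) P
      rw [h0, map_zero] at h3
      exact h3.symm
    rw [residue_eq_zero_iff] at h1
    exact h1 hx
  obtain ⟨c', hc'⟩ : ∃ c' : Fin k → ResidueField W,
      MvPolynomial.eval c' (MvPolynomial.map (residue W) P) ≠ 0 := by
    by_contra hcon
    push Not at hcon
    exact hPne (MvPolynomial.funext fun c => by rw [hcon c, map_zero])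
  choose c hc using fun j => residue_surjective (c' j)
  have hcc : (fun j => residue W (c j)) = c' := funext hc
  let y : Matrix s s W := Matrix.of fun p q => ∑ j, c j * H j p q
  have hy : y = ∑ j, c j • H j := by
    ext p q
    simp [y, Matrix.sum_apply]
  refine ⟨y, ?_, ?_⟩
  · have h1 : y.det = MvPolynomial.eval c P := by
      simp only [P]
      rw [RingHom.map_det]
      congr 1
      ext p q
      simp [y]
    have h2 : residue W y.det ≠ 0 := by
      rw [h1]
      rw [← hcc] at hc'
      intro h3
      apply hc'
      rw [MvPolynomial.eval_map]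
      have h4 := MvPolynomial.eval₂_comp_left (residue W) (RingHom.id W) c P
      rw [MvPolynomial.eval₂_id] at h4
      rw [h4, RingHom.comp_id] at h3
      exact h3
    by_contra hnu
    exact h2 ((residue_eq_zero_iff _).mpr hnu)
  · intro i
    rw [hy, Finset.sum_mul, Finset.mul_sum]
    refine Finset.sum_congr rfl fun j _ => ?_
    rw [Matrix.smul_mul, Matrix.mul_smul, hHA j i]

end H96.RM
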