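import Mathlib

/-!
# Job RM-A10: finitely many extensions of a discrete valuation ring
(helper96, MP_d7d607_ag)

`F/E` finite separable, `W0` a valuation subring of `E` which is a discrete valuation ring.  Only finitely many
valuation subrings `W` of `F` contract to `W0`.

Proof.  Let `B = integralClosure W0 F`.  `W0` is a Dedekind domain with fraction field `E`
(`ValuationSubring` instance `IsFractionRing W0 E`), so `B` is a Dedekind domain
(`integralClosure.isDedekindDomain W0 E F`) with fraction field `F`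
(`integralClosure.isFractionRing_of_finite_extension`).  Let `z` be a uniformizer of `W0`; the image of
`z` in `B` is nonzero, so only finitely many primes of `B` contain it
(`Ideal.finite_factors`, or `IsDedekindDomain` + `Ideal.finite_minimalPrimes_of_isNoetherianRing` of `span {z}`).
For a valuation subring `W` over `W0`: `B ≤ W` (a valuation ring is integrally closed,
`ValuationSubring` instance / `Valuation.Integers.mem_of_integral`, elements of `B` are integral over `W0 ≤ W`).
Let `𝔔 = 𝔪_W ∩ B` (preimage of the maximal ideal; it contains `z` because `z⁻¹ ∉ W`, as `z⁻¹ ∈ E` and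
`z⁻¹ ∉ W0`).  `W` is determined by `𝔔`:  `x ∈ W ↔ ∃ b s ∈ B, s ∉ 𝔔, x = b / s`.
(⇐) `s ∈ B ≤ W`, `s ∉ 𝔪_W`, so `s⁻¹ ∈ W`.  (⇒) `𝔔` is a nonzero prime of a Dedekind domain, so
`Localization.AtPrime 𝔔` is a discrete valuation ring, i.e. for every `x : F` either `x = b/s` or `x⁻¹ = b/s` with
`s ∉ 𝔔`; if `x ∈ W` is not of the form `b/s`, then `x⁻¹ = b/s` with `s ∉ 𝔔` and `b ∈ 𝔔` (otherwise
`x = s/b`), so `x⁻¹ ∈ 𝔪_W`, so `x ∉ W`, contradiction.
Hence `W ↦ 𝔔` is injective into a finite set (`Set.Finite.of_injOn` ...).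
Alternative proof avoiding Dedekind theory: if `W_0, …, W_e` are `e + 1 > [F:E]` distinct such rings, pick by
approximation `a_i ∈ ⋂ W_j` with `a_i ≡ δ_ij` mod `𝔪_{W_j}`; they are linearly independent over `E`.
-/

set_option autoImplicit false
set_option linter.unusedVariables false

namespace H96.RM

universe u

theorem finExt_gen {B F : Type u} [CommRing B] [IsDedekindDomain B] [Field F] [Algebra B F]
    [IsFractionRing B F] (z : B) (hz : z ≠ 0) :
    {W : ValuationSubring F | (∀ b : B, algebraMap B F b ∈ W) ∧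
      (algebraMap B F z)⁻¹ ∉ W}.Finite := by
  have hfin := Ideal.finite_factors (R := B) (I := Ideal.span {z})
    (by rw [ne_eq, Ideal.zero_eq_bot, Ideal.span_singleton_eq_bot]; exact hz)
  refine (hfin.image fun v =>
    IsDedekindDomain.HeightOneSpectrum.valuationSubringAtPrime F v).subset ?_
  rintro W ⟨hB, hzW⟩
  set φ : B →+* W := (algebraMap B F).codRestrict W hB with hφ
  have hφv : ∀ b, ((φ b : W) : F) = algebraMap B F b := fun b => rfl
  have hunit : ∀ b : B, IsUnit (φ b) → (algebraMap B F b)⁻¹ ∈ W := by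
    rintro b ⟨w, hw⟩
    have h1 : ((w : W) : F) * (((w⁻¹ : Wˣ) : W) : F) = 1 := by
      have h2 : ((w : W) * ((w⁻¹ : Wˣ) : W)) = 1 := w.mul_inv
      exact congrArg Subtype.val h2
    rw [hw, hφv] at h1
    rw [inv_eq_of_mul_eq_one_right h1]
    exact (((w⁻¹ : Wˣ) : W)).2
  set Q : Ideal B := (IsLocalRing.maximalIdeal W).comap φ with hQ
  have hzQ : z ∈ Q := by
    rw [hQ, Ideal.mem_comap, IsLocalRing.mem_maximalIdeal, mem_nonunits_iff]
    intro h
    exact hzW (hunit z h)
  have hprime : Q.IsPrime := Ideal.IsPrime.comap φ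
  have hbot : Q ≠ ⊥ := by
    intro h
    rw [h, Ideal.mem_bot] at hzQ
    exact hz hzQ
  refine ⟨⟨Q, hprime, hbot⟩, ?_, ?_⟩
  · change Q ∣ Ideal.span {z}
    rw [Ideal.dvd_span_singleton]
    exact hzQ
  · apply ValuationSubring.eq_of_le_of_ne_top
    · rintro x ⟨a, s, hs, rfl⟩
      refine W.mul_mem _ _ (hB a) (hunit s ?_)
      by_contra hns
      exact hs ((IsLocalRing.mem_maximalIdeal _).mpr hns)
    · intro h
      exact hzW (h ▸ ValuationSubring.mem_top _)

theorem finite_extensions {E F : Type u} [Field E] [Field F] [Algebra E F]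
    [FiniteDimensional E F] [Algebra.IsSeparable E F] (W0 : ValuationSubring E)
    [IsDiscreteValuationRing W0] :
    {W : ValuationSubring F | W.comap (algebraMap E F) = W0}.Finite := by
  let _ : Algebra W0 F := ((algebraMap E F).comp (algebraMap W0 E)).toAlgebra
  have : IsScalarTower W0 E F := IsScalarTower.of_algebraMap_eq fun _ => rfl
  have : IsDedekindDomain (integralClosure W0 F) := integralClosure.isDedekindDomain W0 E F
  have : IsFractionRing (integralClosure W0 F) F :=
    integralClosure.isFractionRing_of_finite_extension E F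
  obtain ⟨z, hz⟩ := IsDiscreteValuationRing.exists_irreducible W0
  have hz0 : z ≠ 0 := hz.ne_zero
  have hinj : Function.Injective (algebraMap W0 (integralClosure W0 F)) := by
    intro a b hab
    have h1 : algebraMap W0 F a = algebraMap W0 F b := congrArg Subtype.val hab
    exact Subtype.ext ((algebraMap E F).injective h1)
  have hz1 : algebraMap W0 (integralClosure W0 F) z ≠ 0 := by
    rw [← map_zero (algebraMap W0 (integralClosure W0 F))]
    exact fun h => hz0 (hinj h)
  refine (finExt_gen (algebraMap W0 (integralClosure W0 F) z) hz1).subset ?_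
  intro W hW
  have hW' : W.comap (algebraMap E F) = W0 := hW
  have hmem : ∀ e : E, algebraMap E F e ∈ W ↔ e ∈ W0 := by
    intro e
    rw [← hW', ValuationSubring.mem_comap]
  refine ⟨?_, ?_⟩
  · rintro ⟨b, hb⟩
    change b ∈ W
    obtain ⟨p, hp, hpb⟩ := hb
    let ψ : W0 →+* W := ((algebraMap E F).comp (algebraMap W0 E)).codRestrict W
      (fun a => (hmem _).mpr a.2)
    have h1 : IsIntegral W b := by
      refine ⟨p.map ψ, hp.map ψ, ?_⟩
      rw [Polynomial.eval₂_map]
      exact hpb
    obtain ⟨y, hy⟩ := (IsIntegrallyClosed.isIntegral_iff (R := W) (K := F)).mp h1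
    rw [← hy]
    exact y.2
  · change (algebraMap E F (z : E))⁻¹ ∉ W
    rw [← map_inv₀, hmem]
    intro h
    apply hz.not_isUnit
    refine IsUnit.of_mul_eq_one ⟨(z : E)⁻¹, h⟩ ?_
    apply Subtype.ext
    change (z : E) * (z : E)⁻¹ = 1
    exact mul_inv_cancel₀ (fun h0 => hz0 (Subtype.ext h0))

/-- A criterion for a valuation subring to be a discrete valuation ring. -/
theorem isDVR_of_fact {F : Type u} [Field F] (W : ValuationSubring F) (z : F) (hz0 : z ≠ 0)
    (hz : z ∈ W) (hz' : z⁻¹ ∉ W)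
    (h : ∀ x ∈ W, x ≠ 0 → ∃ (n : ℕ) (u : F), u ∈ W ∧ u⁻¹ ∈ W ∧ u ≠ 0 ∧ x = u * z ^ n) :
    IsDiscreteValuationRing W := by
  have hunit : ∀ (u : F) (hu : u ∈ W), u⁻¹ ∈ W → u ≠ 0 → IsUnit (⟨u, hu⟩ : W) := by
    intro u hu hu' hu0
    exact IsUnit.of_mul_eq_one ⟨u⁻¹, hu'⟩ (Subtype.ext (mul_inv_cancel₀ hu0))
  have hinv : ∀ a : W, IsUnit a → ((a : F))⁻¹ ∈ W := by
    rintro a ⟨w, hw⟩
    have h1 : ((w : W) : F) * (((w⁻¹ : Wˣ) : W) : F) = 1 := congrArg Subtype.val w.mul_inv
    rw [hw] at h1
    rw [inv_eq_of_mul_eq_one_right h1]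
    exact (((w⁻¹ : Wˣ) : W)).2
  apply IsDiscreteValuationRing.ofHasUnitMulPowIrreducibleFactorization
  refine ⟨⟨z, hz⟩, ⟨?_, ?_⟩, ?_⟩
  · intro h1
    exact hz' (hinv _ h1)
  · intro a b hab
    have hab' : z = (a : F) * (b : F) := congrArg Subtype.val hab
    have ha0 : (a : F) ≠ 0 := by
      intro h0; rw [h0, zero_mul] at hab'; exact hz0 hab'
    have hb0 : (b : F) ≠ 0 := by
      intro h0; rw [h0, mul_zero] at hab'; exact hz0 hab'
    obtain ⟨n, u, hu, hu', hu0, hau⟩ := h a a.2 ha0
    obtain ⟨m, v, hv, hv', hv0, hbv⟩ := h b b.2 hb0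
    rcases Nat.eq_zero_or_pos n with hn | hn
    · left
      rw [hn, pow_zero, mul_one] at hau
      have : a = ⟨u, hu⟩ := Subtype.ext hau
      rw [this]
      exact hunit u hu hu' hu0
    · rcases Nat.eq_zero_or_pos m with hm | hm
      · right
        rw [hm, pow_zero, mul_one] at hbv
        have : b = ⟨v, hv⟩ := Subtype.ext hbv
        rw [this]
        exact hunit v hv hv' hv0
      · exfalso
        obtain ⟨n', rfl⟩ : ∃ n', n = n' + 1 := ⟨n - 1, by omega⟩
        obtain ⟨m', rfl⟩ : ∃ m', m = m' + 1 := ⟨m - 1, by omega⟩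
        apply hz'
        have h1 : z * (u * v * z ^ (n' + m')) = 1 := by
          have h2 : z * (z * (u * v * z ^ (n' + m'))) = z * 1 := by
            calc z * (z * (u * v * z ^ (n' + m'))) = (u * z ^ (n' + 1)) * (v * z ^ (m' + 1)) := by
                  ring
              _ = z := by rw [← hau, ← hbv, ← hab']
              _ = z * 1 := (mul_one z).symm
          exact mul_left_cancel₀ hz0 h2
        rw [inv_eq_of_mul_eq_one_right h1]
        exact W.mul_mem _ _ (W.mul_mem _ _ hu hv) (pow_mem hz _)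
  · rintro ⟨x, hx⟩ hx0
    have hx0' : x ≠ 0 := fun h0 => hx0 (Subtype.ext h0)
    obtain ⟨n, u, hu, hu', hu0, hxu⟩ := h x hx hx0'
    refine ⟨n, ?_⟩
    obtain ⟨w, hw⟩ := hunit u hu hu' hu0
    refine ⟨w, ?_⟩
    rw [hw]
    apply Subtype.ext
    change z ^ n * u = x
    rw [hxu, mul_comm]

end H96.RM
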