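import Mathlib

/-!
# Job RM-A9: the valuation subring of a prime element (helper96, MP_d7d607_ag)

`Q` a Noetherian domain, `z` a prime element.  The set of fractions `a / b` with `z ∤ b` is a valuation
subring of the fraction field, with every nonzero element a unit times a power of `z`.

Proof.  Every nonzero `q : Q` can be written `q = z ^ n * q'` with `z ∤ q'` (finite multiplicity in a
Noetherian domain: `FiniteMultiplicity`, `WfDvdMonoid`, `exists_eq_pow_mul_and_not_dvd`).  Closure under
`+`, `*`: denominators multiply, and `z ∤ b * b'` as `z` is prime.  For `x = a / b ≠ 0`,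
`a = z^i a'`, `b = z^j b'`: if `j ≤ i` then `x = z^(i-j) a' / b'` is in the ring, otherwise `x⁻¹` is.
Units: `x = a/b`, `z ∤ b`, `a = z^n a'`, `x = (a'/b) * z^n` with `(a'/b)⁻¹ = b/a'` in the ring.
`z⁻¹` is not in the ring: `z⁻¹ = a/b` gives `b = z a`.
-/

set_option autoImplicit false
set_option linter.unusedVariables false

namespace H96.RM

universe u

theorem exists_locV (Q : Type u) [CommRing Q] [IsDomain Q] [IsNoetherianRing Q] (z : Q)
    (hz : Prime z) :
    ∃ V : ValuationSubring (FractionRing Q),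
      (∀ x, x ∈ V ↔ ∃ a b : Q, ¬ z ∣ b ∧
        x * algebraMap Q (FractionRing Q) b = algebraMap Q (FractionRing Q) a) ∧
      (∀ x ∈ V, x ≠ 0 → ∃ (n : ℕ) (u : FractionRing Q), u ∈ V ∧ u⁻¹ ∈ V ∧ u ≠ 0 ∧
        x = u * algebraMap Q (FractionRing Q) z ^ n) ∧
      (algebraMap Q (FractionRing Q) z)⁻¹ ∉ V := by
  have hinj : Function.Injective (algebraMap Q (FractionRing Q)) :=
    IsFractionRing.injective Q (FractionRing Q)
  have hne : ∀ q : Q, q ≠ 0 → algebraMap Q (FractionRing Q) q ≠ 0 := fun q hq h =>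
    hq (hinj (by rw [h, map_zero]))
  have hz0 : algebraMap Q (FractionRing Q) z ≠ 0 := hne z hz.ne_zero
  have hnd : ∀ b : Q, ¬ z ∣ b → b ≠ 0 := fun b hb h => hb (by rw [h]; exact dvd_zero z)
  have hfac : ∀ q : Q, q ≠ 0 → ∃ (n : ℕ) (q' : Q), ¬ z ∣ q' ∧ q = z ^ n * q' := fun q hq =>
    WfDvdMonoid.max_power_factor' hq hz.not_isUnit
  have h1 : ¬ z ∣ 1 := fun h => hz.not_isUnit (isUnit_of_dvd_one h)
  have hmul : ∀ b b' : Q, ¬ z ∣ b → ¬ z ∣ b' → ¬ z ∣ b * b' := fun b b' hb hb' h =>
    (hz.dvd_or_dvd h).elim hb hb'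
  let V : ValuationSubring (FractionRing Q) :=
    { carrier := {x | ∃ a b : Q, ¬ z ∣ b ∧
        x * algebraMap Q (FractionRing Q) b = algebraMap Q (FractionRing Q) a}
      mul_mem' := by
        rintro x y ⟨a, b, hb, hx⟩ ⟨a', b', hb', hy⟩
        refine ⟨a * a', b * b', hmul b b' hb hb', ?_⟩
        rw [map_mul, map_mul, ← hx, ← hy]
        ring
      one_mem' := ⟨1, 1, h1, by rw [one_mul]⟩
      add_mem' := by
        rintro x y ⟨a, b, hb, hx⟩ ⟨a', b', hb', hy⟩
        refine ⟨a * b' + a' * b, b * b', hmul b b' hb hb', ?_⟩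
        rw [map_add, map_mul, map_mul, map_mul, ← hx, ← hy]
        ring
      zero_mem' := ⟨0, 1, h1, by rw [zero_mul, map_zero]⟩
      neg_mem' := by
        rintro x ⟨a, b, hb, hx⟩
        refine ⟨-a, b, hb, ?_⟩
        rw [map_neg, ← hx]
        ring
      mem_or_inv_mem' := by
        intro x
        obtain ⟨a, b, hb, rfl⟩ := IsFractionRing.div_surjective (A := Q) x
        have hb0 : b ≠ 0 := nonZeroDivisors.ne_zero hb
        by_cases ha0 : a = 0
        · left
          refine ⟨0, 1, h1, ?_⟩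
          rw [ha0, map_zero, zero_div, zero_mul]
        obtain ⟨i, a', ha', hai⟩ := hfac a ha0
        obtain ⟨j, b', hb', hbj⟩ := hfac b hb0
        have hφb' := hne b' (hnd b' hb')
        have hφa' := hne a' (hnd a' ha')
        rcases le_total j i with hji | hij
        · left
          obtain ⟨k, rfl⟩ := Nat.exists_eq_add_of_le hji
          refine ⟨z ^ k * a', b', hb', ?_⟩
          rw [hai, hbj, map_mul, map_mul, map_mul, map_pow, map_pow, map_pow, pow_add]
          field_simp
        · right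
          obtain ⟨k, rfl⟩ := Nat.exists_eq_add_of_le hij
          refine ⟨z ^ k * b', a', ha', ?_⟩
          rw [hai, hbj, map_mul, map_mul, map_mul, map_pow, map_pow, map_pow, pow_add]
          field_simp }
  refine ⟨V, fun x => Iff.rfl, ?_, ?_⟩
  · rintro x ⟨a, b, hb, hx⟩ hx0
    have hφb := hne b (hnd b hb)
    have ha0 : a ≠ 0 := by
      intro h
      rw [h, map_zero] at hx
      exact (mul_ne_zero hx0 hφb) hx
    obtain ⟨n, a', ha', han⟩ := hfac a ha0
    have hφa' := hne a' (hnd a' ha')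
    refine ⟨n, algebraMap Q (FractionRing Q) a' / algebraMap Q (FractionRing Q) b,
      ⟨a', b, hb, ?_⟩, ⟨b, a', ha', ?_⟩, div_ne_zero hφa' hφb, ?_⟩
    · field_simp
    · field_simp
    · have h2 : x = algebraMap Q (FractionRing Q) a / algebraMap Q (FractionRing Q) b := by
        rw [← hx]
        field_simp
      rw [h2, han, map_mul, map_pow]
      ring
  · rintro ⟨a, b, hb, hx⟩
    apply hb
    refine ⟨a, hinj ?_⟩
    rw [map_mul, ← hx]
    field_simp

/-- The valuation subring of a prime element. -/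
noncomputable def locV (Q : Type u) [CommRing Q] [IsDomain Q] [IsNoetherianRing Q] (z : Q)
    (hz : Prime z) : ValuationSubring (FractionRing Q) :=
  Classical.choose (exists_locV Q z hz)

theorem mem_locV {Q : Type u} [CommRing Q] [IsDomain Q] [IsNoetherianRing Q] {z : Q}
    (hz : Prime z) (x : FractionRing Q) : x ∈ locV Q z hz ↔ ∃ a b : Q, ¬ z ∣ b ∧
        x * algebraMap Q (FractionRing Q) b = algebraMap Q (FractionRing Q) a :=
  (Classical.choose_spec (exists_locV Q z hz)).1 x

theorem locV_fact {Q : Type u} [CommRing Q] [IsDomain Q] [IsNoetherianRing Q] {z : Q}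
    (hz : Prime z) : ∀ x ∈ locV Q z hz, x ≠ 0 → ∃ (n : ℕ) (u : FractionRing Q),
      u ∈ locV Q z hz ∧ u⁻¹ ∈ locV Q z hz ∧ u ≠ 0 ∧
        x = u * algebraMap Q (FractionRing Q) z ^ n :=
  (Classical.choose_spec (exists_locV Q z hz)).2.1

theorem locV_inv {Q : Type u} [CommRing Q] [IsDomain Q] [IsNoetherianRing Q] {z : Q}
    (hz : Prime z) : (algebraMap Q (FractionRing Q) z)⁻¹ ∉ locV Q z hz :=
  (Classical.choose_spec (exists_locV Q z hz)).2.2

end H96.RM
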