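import Mathlib
import Pool.Agent.H96.RM.Ext
import Pool.Agent.H96.RM.Minor
import Pool.Agent.H96.RM.LocV
import Pool.Agent.H96.RM.FinExt

/-!
# Job RM-A12: the valuation subrings of the point data (helper96, MP_d7d607_ag)

`Q_δ = D[v_1..v_δ][[λ]]` is a Noetherian domain (`MvPolynomial`, `PowerSeries` instances) with prime element `z`
(`prime_Q`), so `locV Q_δ z` is a valuation subring of its fraction field.  For a point datum `P` with
`ker P.Ψ = p` the induced embedding `D[t] ⧸ p → Q_δ` extends to the fraction fields; `P.W p` is the pull back of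
`locV Q_δ z` to `FractionRing (D[t] ⧸ p)`.

`emb` : `IsFractionRing.map (j := ...)`/`IsFractionRing.lift` of the injective ring homomorphism
`Ideal.Quotient.lift p P.Ψ _` (injectivity: `Ideal.Quotient.lift_injective_of_ker_le_ideal` or by hand).
`mem_W`: `P.emb (algebraMap (mk f)) = algebraMap (P.Ψ f)` and elements of `Q` are in `locV` (denominator `1`,
`z ∤ 1` since `z` is prime).
`W_fact`: let `x ∈ W`, `x ≠ 0`.  By `locV_fact` `emb x = u * z^n` with `u` a unit of `locV`.  Put
`u' = x * (algebraMap z)⁻¹ ^ n ∈ F`; `emb u' = u`, so `u', u'⁻¹ ∈ W`.  (`z ≠ 0` in `F` as `emb z = z ≠ 0`.)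
`W_inv`: `emb z⁻¹ = z⁻¹ ∉ locV`.

`finite_W`: for fixed `p` the set of all `P.W p` is finite.  For given `δ` and `J : Fin δ → ι` (finitely many pairs:
`δ ≤ card ι` because a unit minor forces `J` injective) consider the data with these `δ, J` and
unit minor (`exists_minor` applied to `P.β`, `P.hβ1` gives a `J` for each `P`).
If there is one such datum `P₀`, `exists_ext` (with `q = p`, `I ≤ p` by `P₀.hI`) gives the field extension
`e : E = FractionRing D[Y] → F`, finite and separable.  For every datum `P` with these `δ, J` and `ker P.Ψ = p`: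
`(P.W p).comap e = locV (MvPolynomial (Fin δ) D) z` =: `W0`.  Indeed
`emb (e (b / b')) = Ψ (b(t_J)) / Ψ (b'(t_J))`; if `z ∤ b'` then `z ∤ Ψ (b'(t_J))` by `theta_gauss`, so the
element is in `locV Q`; conversely if `x = b/b' ∉ W0`, cancel `z`: `z ∤ b`, `z ∣ b'`, then
`x⁻¹ = b'/b`, `emb (e x⁻¹)` is `z` times an element of `locV Q`, so `emb (e x) ∈ locV Q` would give
`z⁻¹ ∈ locV Q`, contradiction.  `W0` is a discrete valuation ring by `isDVR_of_fact` (`locV_fact`, `locV_inv`).
So `finite_extensions` applies.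
-/

set_option autoImplicit false
set_option linter.unusedVariables false

namespace H96.RM

universe u

variable {D : Type u} [CommRing D] [IsDomain D] [IsDiscreteValuationRing D]
  {ι : Type} [Fintype ι] [DecidableEq ι] {z : D} {I : Ideal (MvPolynomial ι D)}

/-- Abbreviation for the ring of the formal family. -/
abbrev QQ (D : Type u) [CommRing D] (δ : ℕ) : Type u := PowerSeries (MvPolynomial (Fin δ) D)

theorem PointData.exists_emb (P : PointData D ι z I) (p : Ideal (MvPolynomial ι D)) [p.IsPrime]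
    (hp : RingHom.ker P.Ψ = p) :
    ∃ e : FractionRing (MvPolynomial ι D ⧸ p) →+* FractionRing (QQ D P.δ),
      ∀ f, e (algebraMap _ _ (Ideal.Quotient.mk p f)) = algebraMap _ _ (P.Ψ f) := by
  have h0 : ∀ f ∈ p, (P.Ψ : MvPolynomial ι D →+* QQ D P.δ) f = 0 := by
    intro f hf
    rw [← hp, RingHom.mem_ker] at hf
    exact hf
  set φ : (MvPolynomial ι D ⧸ p) →+* QQ D P.δ :=
    Ideal.Quotient.lift p (P.Ψ : MvPolynomial ι D →+* QQ D P.δ) h0 with hφ
  have hφm : ∀ f, φ (Ideal.Quotient.mk p f) = P.Ψ f := fun f => rfl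
  have hφi : Function.Injective φ := by
    rw [injective_iff_map_eq_zero]
    intro x hx
    obtain ⟨f, rfl⟩ := Ideal.Quotient.mk_surjective x
    rw [hφm] at hx
    rw [Ideal.Quotient.eq_zero_iff_mem, ← hp, RingHom.mem_ker]
    exact hx
  have hgi : Function.Injective ((algebraMap (QQ D P.δ) (FractionRing (QQ D P.δ))).comp φ) :=
    (IsFractionRing.injective (QQ D P.δ) (FractionRing (QQ D P.δ))).comp hφi
  refine ⟨IsFractionRing.lift hgi, fun f => ?_⟩
  rw [IsFractionRing.lift_algebraMap]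
  rfl

/-- The embedding of fraction fields. -/
noncomputable def PointData.emb (P : PointData D ι z I) (p : Ideal (MvPolynomial ι D)) [p.IsPrime]
    (hp : RingHom.ker P.Ψ = p) :
    FractionRing (MvPolynomial ι D ⧸ p) →+* FractionRing (QQ D P.δ) :=
  Classical.choose (P.exists_emb p hp)

theorem PointData.emb_mk (P : PointData D ι z I) (p : Ideal (MvPolynomial ι D)) [p.IsPrime]
    (hp : RingHom.ker P.Ψ = p) (f : MvPolynomial ι D) :
    P.emb p hp (algebraMap _ _ (Ideal.Quotient.mk p f)) = algebraMap _ _ (P.Ψ f) :=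
  Classical.choose_spec (P.exists_emb p hp) f

/-- The valuation subring of a point datum. -/
noncomputable def PointData.W (hz : Irreducible z) (P : PointData D ι z I)
    (p : Ideal (MvPolynomial ι D)) [p.IsPrime] (hp : RingHom.ker P.Ψ = p) :
    ValuationSubring (FractionRing (MvPolynomial ι D ⧸ p)) :=
  (locV (QQ D P.δ) (algebraMap D (QQ D P.δ) z) (prime_Q hz P.δ)).comap (P.emb p hp)

theorem PointData.mem_W (hz : Irreducible z) (P : PointData D ι z I)
    (p : Ideal (MvPolynomial ι D)) [p.IsPrime] (hp : RingHom.ker P.Ψ = p)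
    (f : MvPolynomial ι D) :
    algebraMap _ (FractionRing (MvPolynomial ι D ⧸ p)) (Ideal.Quotient.mk p f) ∈ P.W hz p hp := by
  unfold PointData.W
  rw [ValuationSubring.mem_comap, P.emb_mk, mem_locV]
  refine ⟨P.Ψ f, 1, fun h => (prime_Q hz P.δ).not_isUnit (isUnit_of_dvd_one h), ?_⟩
  rw [map_one, mul_one]

/-- the image of `z` under the embedding -/
theorem PointData.emb_z (P : PointData D ι z I)
    (p : Ideal (MvPolynomial ι D)) [p.IsPrime] (hp : RingHom.ker P.Ψ = p) :
    P.emb p hp (algebraMap _ (FractionRing (MvPolynomial ι D ⧸ p))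
      (Ideal.Quotient.mk p (MvPolynomial.C z))) =
      algebraMap (QQ D P.δ) (FractionRing (QQ D P.δ)) (algebraMap D (QQ D P.δ) z) := by
  rw [P.emb_mk]
  congr 1
  exact P.Ψ.commutes z

theorem PointData.W_fact (hz : Irreducible z) (P : PointData D ι z I)
    (p : Ideal (MvPolynomial ι D)) [p.IsPrime] (hp : RingHom.ker P.Ψ = p) :
    ∀ x ∈ P.W hz p hp, x ≠ 0 → ∃ (n : ℕ) (u : FractionRing (MvPolynomial ι D ⧸ p)),
      u ∈ P.W hz p hp ∧ u⁻¹ ∈ P.W hz p hp ∧ u ≠ 0 ∧
        x = u * algebraMap _ (FractionRing (MvPolynomial ι D ⧸ p))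
          (Ideal.Quotient.mk p (MvPolynomial.C z)) ^ n := by
  intro x hx hx0
  unfold PointData.W at hx
  rw [ValuationSubring.mem_comap] at hx
  obtain ⟨n, u, hu, hui, hu0, hxu⟩ := locV_fact (prime_Q hz P.δ) _ hx
    (fun h => hx0 ((map_eq_zero _).1 h))
  set Z := algebraMap _ (FractionRing (MvPolynomial ι D ⧸ p))
    (Ideal.Quotient.mk p (MvPolynomial.C z)) with hZ
  have hZe := P.emb_z p hp
  rw [← hZ] at hZe
  have hz0 : algebraMap (QQ D P.δ) (FractionRing (QQ D P.δ)) (algebraMap D (QQ D P.δ) z) ≠ 0 := by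
    intro h
    apply (prime_Q hz P.δ).ne_zero
    apply IsFractionRing.injective (QQ D P.δ) (FractionRing (QQ D P.δ))
    rw [h, map_zero]
  have hZ0 : Z ≠ 0 := by
    intro h
    rw [h, map_zero] at hZe
    exact hz0 hZe.symm
  have hemb : P.emb p hp (x * (Z ^ n)⁻¹) = u := by
    rw [map_mul, map_inv₀, map_pow, hZe, hxu, mul_assoc, mul_inv_cancel₀ (pow_ne_zero n hz0),
      mul_one]
  refine ⟨n, x * (Z ^ n)⁻¹, ?_, ?_, mul_ne_zero hx0 (inv_ne_zero (pow_ne_zero n hZ0)), ?_⟩
  · unfold PointData.W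
    rw [ValuationSubring.mem_comap, hemb]
    exact hu
  · unfold PointData.W
    rw [ValuationSubring.mem_comap, map_inv₀, hemb]
    exact hui
  · rw [mul_assoc, inv_mul_cancel₀ (pow_ne_zero n hZ0), mul_one]

theorem PointData.W_inv (hz : Irreducible z) (P : PointData D ι z I)
    (p : Ideal (MvPolynomial ι D)) [p.IsPrime] (hp : RingHom.ker P.Ψ = p) :
    (algebraMap _ (FractionRing (MvPolynomial ι D ⧸ p))
      (Ideal.Quotient.mk p (MvPolynomial.C z)))⁻¹ ∉ P.W hz p hp := by
  unfold PointData.W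
  rw [ValuationSubring.mem_comap, map_inv₀, P.emb_z]
  exact locV_inv (prime_Q hz P.δ)

end H96.RM
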