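import Mathlib
import Pool.Agent.H96.RM.PW

/-!
# Job RM-A13: finitely many valuation subrings (helper96, MP_d7d607_ag)

See the last paragraph of the header of `PW.lean` for the full proof.
-/

set_option autoImplicit false
set_option linter.unusedVariables false

namespace H96.RM

universe u

variable {D : Type u} [CommRing D] [IsDomain D] [IsDiscreteValuationRing D]
  {ι : Type} [Fintype ι] [DecidableEq ι] {z : D} {I : Ideal (MvPolynomial ι D)}

theorem finW_comap_eq (hz : Irreducible z) (P : PointData D ι z I)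
    (p : Ideal (MvPolynomial ι D)) [p.IsPrime] (hp : RingHom.ker P.Ψ = p)
    (δ : ℕ) (h : P.δ = δ) (J : Fin δ → ι)
    (hJ : IsUnit (Matrix.det (Matrix.of fun i j => P.β i (J (Fin.cast h j)))))
    (e : FractionRing (MvPolynomial (Fin δ) D) →+* FractionRing (MvPolynomial ι D ⧸ p))
    (he : ∀ b, e (algebraMap _ _ b) =
      algebraMap _ _ (Ideal.Quotient.mk p (MvPolynomial.rename J b))) :
    (P.W hz p hp).comap e = locV (MvPolynomial (Fin δ) D)
      (algebraMap D (MvPolynomial (Fin δ) D) z) (prime_MvPoly hz δ) := by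
  subst h
  have hJ' : IsUnit (Matrix.det (Matrix.of fun i j => P.β i (J j))) := hJ
  have hmem : ∀ x, x ∈ (P.W hz p hp).comap e ↔ P.emb p hp (e x) ∈
      locV (QQ D P.δ) (algebraMap D (QQ D P.δ) z) (prime_Q hz P.δ) := fun x => Iff.rfl
  have hemb : ∀ b, P.emb p hp (e (algebraMap _ _ b)) =
      algebraMap (QQ D P.δ) (FractionRing (QQ D P.δ)) (P.Ψ (MvPolynomial.rename J b)) := by
    intro b
    rw [he, PointData.emb_mk]
  have hle : ∀ x, x ∈ locV (MvPolynomial (Fin P.δ) D)
      (algebraMap D (MvPolynomial (Fin P.δ) D) z) (prime_MvPoly hz P.δ) →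
      P.emb p hp (e x) ∈
        locV (QQ D P.δ) (algebraMap D (QQ D P.δ) z) (prime_Q hz P.δ) := by
    intro x hx
    rw [mem_locV] at hx
    obtain ⟨a, b, hb, hab⟩ := hx
    rw [mem_locV]
    refine ⟨P.Ψ (MvPolynomial.rename J a), P.Ψ (MvPolynomial.rename J b), ?_, ?_⟩
    · intro hdvd
      exact hb (P.theta_gauss hz J hJ' b hdvd)
    · rw [← hemb, ← hemb, ← map_mul, ← map_mul, hab]
  have hzz : P.emb p hp (e (algebraMap _ _ (algebraMap D (MvPolynomial (Fin P.δ) D) z))) =
      algebraMap (QQ D P.δ) (FractionRing (QQ D P.δ)) (algebraMap D (QQ D P.δ) z) := by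
    rw [hemb]
    congr 1
    rw [MvPolynomial.algebraMap_eq, MvPolynomial.rename_C, ← MvPolynomial.algebraMap_eq,
      AlgHom.commutes]
  apply ValuationSubring.ext
  intro x
  rw [hmem]
  refine ⟨fun hx => ?_, hle x⟩
  by_contra hxn
  have hx0 : x ≠ 0 := by
    rintro rfl
    exact hxn (zero_mem _)
  have hxi : x⁻¹ ∈ locV (MvPolynomial (Fin P.δ) D)
      (algebraMap D (MvPolynomial (Fin P.δ) D) z) (prime_MvPoly hz P.δ) :=
    ((locV _ _ (prime_MvPoly hz P.δ)).mem_or_inv_mem x).resolve_left hxn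
  obtain ⟨n, w, hw, hwi, hw0, hxw⟩ := locV_fact (prime_MvPoly hz P.δ) _ hxi (inv_ne_zero hx0)
  rcases Nat.eq_zero_or_pos n with hn | hn
  · apply hxn
    rw [hn, pow_zero, mul_one] at hxw
    rw [← inv_inv x, hxw]
    exact hwi
  · obtain ⟨m, rfl⟩ : ∃ m, n = m + 1 := ⟨n - 1, by omega⟩
    apply locV_inv (prime_Q hz P.δ)
    have hzne : algebraMap (MvPolynomial (Fin P.δ) D) (FractionRing (MvPolynomial (Fin P.δ) D))
        (algebraMap D (MvPolynomial (Fin P.δ) D) z) ≠ 0 := by
      intro h0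
      exact (prime_MvPoly hz P.δ).ne_zero
        ((IsFractionRing.injective (MvPolynomial (Fin P.δ) D)
          (FractionRing (MvPolynomial (Fin P.δ) D))) (by rw [h0, map_zero]))
    have h1 : (algebraMap (MvPolynomial (Fin P.δ) D) (FractionRing (MvPolynomial (Fin P.δ) D))
        (algebraMap D (MvPolynomial (Fin P.δ) D) z))⁻¹ = x * w *
        (algebraMap (MvPolynomial (Fin P.δ) D) (FractionRing (MvPolynomial (Fin P.δ) D))
        (algebraMap D (MvPolynomial (Fin P.δ) D) z)) ^ m := by
      have h2 : x * (w * (algebraMap (MvPolynomial (Fin P.δ) D)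
          (FractionRing (MvPolynomial (Fin P.δ) D))
          (algebraMap D (MvPolynomial (Fin P.δ) D) z)) ^ (m + 1)) = 1 := by
        rw [← hxw, mul_inv_cancel₀ hx0]
      rw [pow_succ] at h2
      apply inv_eq_of_mul_eq_one_left
      rw [← h2]
      ring
    rw [← hzz, ← map_inv₀, ← map_inv₀, h1, map_mul, map_mul, map_mul, map_mul, map_pow, map_pow]
    refine mul_mem (mul_mem hx (hle w hw)) (pow_mem ?_ _)
    rw [hzz, mem_locV]
    exact ⟨algebraMap D (QQ D P.δ) z, 1,
      fun h => (prime_Q hz P.δ).not_isUnit (isUnit_of_dvd_one h), by rw [map_one, mul_one]⟩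

theorem finW_fixed (hz : Irreducible z) (p : Ideal (MvPolynomial ι D)) [p.IsPrime]
    (δ : ℕ) (J : Fin δ → ι) :
    {W : ValuationSubring (FractionRing (MvPolynomial ι D ⧸ p)) |
      ∃ (P : PointData D ι z I) (hp : RingHom.ker P.Ψ = p) (h : P.δ = δ),
        IsUnit (Matrix.det (Matrix.of fun i j => P.β i (J (Fin.cast h j)))) ∧
        W = P.W hz p hp}.Finite := by
  by_cases hne : ({W : ValuationSubring (FractionRing (MvPolynomial ι D ⧸ p)) |
      ∃ (P : PointData D ι z I) (hp : RingHom.ker P.Ψ = p) (h : P.δ = δ),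
        IsUnit (Matrix.det (Matrix.of fun i j => P.β i (J (Fin.cast h j)))) ∧
        W = P.W hz p hp}).Nonempty
  · obtain ⟨W₁, P₀, hp₀, h₀, hJ₀, -⟩ := hne
    subst h₀
    have hJ' : IsUnit (Matrix.det (Matrix.of fun i j => P₀.β i (J j))) := hJ₀
    obtain ⟨e, he, hfd, hsep⟩ := P₀.exists_ext hz J hJ' p
      (by
        intro f hf
        rw [← hp₀]
        exact P₀.hI f hf)
      (by
        intro f hf
        rw [← hp₀] at hf
        exact hf)
    letI := e.toAlgebra
    haveI := hfd
    haveI := hsep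
    set W0 : ValuationSubring (FractionRing (MvPolynomial (Fin P₀.δ) D)) :=
      locV (MvPolynomial (Fin P₀.δ) D)
        (algebraMap D (MvPolynomial (Fin P₀.δ) D) z) (prime_MvPoly hz P₀.δ) with hW0
    haveI : IsDiscreteValuationRing W0 := by
      refine isDVR_of_fact W0 (algebraMap (MvPolynomial (Fin P₀.δ) D)
        (FractionRing (MvPolynomial (Fin P₀.δ) D))
        (algebraMap D (MvPolynomial (Fin P₀.δ) D) z)) ?_ ?_ (locV_inv _) (locV_fact _)
      · intro h0
        exact (prime_MvPoly hz P₀.δ).ne_zero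
          ((IsFractionRing.injective (MvPolynomial (Fin P₀.δ) D)
            (FractionRing (MvPolynomial (Fin P₀.δ) D))) (by rw [h0, map_zero]))
      · rw [hW0, mem_locV]
        exact ⟨algebraMap D (MvPolynomial (Fin P₀.δ) D) z, 1,
          fun h => (prime_MvPoly hz P₀.δ).not_isUnit (isUnit_of_dvd_one h),
          by rw [map_one, mul_one]⟩
    refine (finite_extensions (E := FractionRing (MvPolynomial (Fin P₀.δ) D))
      (F := FractionRing (MvPolynomial ι D ⧸ p)) W0).subset ?_
    rintro W ⟨P, hp, h, hJ, rfl⟩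
    exact finW_comap_eq hz P p hp P₀.δ h J hJ e he
  · rw [Set.not_nonempty_iff_eq_empty] at hne
    rw [hne]
    exact Set.finite_empty

theorem finite_W (hz : Irreducible z) (p : Ideal (MvPolynomial ι D)) [p.IsPrime] :
    {W : ValuationSubring (FractionRing (MvPolynomial ι D ⧸ p)) |
      ∃ (P : PointData D ι z I) (hp : RingHom.ker P.Ψ = p), W = P.W hz p hp}.Finite := by
  have hfin : (⋃ s : (Σ δ : Fin (Fintype.card ι + 1), (Fin (δ : ℕ) → ι)),
      {W : ValuationSubring (FractionRing (MvPolynomial ι D ⧸ p)) |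
      ∃ (P : PointData D ι z I) (hp : RingHom.ker P.Ψ = p) (h : P.δ = (s.1 : ℕ)),
        IsUnit (Matrix.det (Matrix.of fun i j => P.β i (s.2 (Fin.cast h j)))) ∧
        W = P.W hz p hp}).Finite :=
    Set.finite_iUnion fun s => finW_fixed hz p (s.1 : ℕ) s.2
  refine hfin.subset ?_
  rintro W ⟨P, hp, rfl⟩
  obtain ⟨J, hJ⟩ := exists_minor hz P.β P.hβ1
  have hinj : Function.Injective J := by
    intro i j hij
    by_contra hne
    apply hJ.ne_zero
    refine Matrix.det_zero_of_column_eq hne ?_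
    intro k
    simp only [Matrix.of_apply, hij]
  have hcard : P.δ ≤ Fintype.card ι := by
    have := Fintype.card_le_of_injective J hinj
    rwa [Fintype.card_fin] at this
  rw [Set.mem_iUnion]
  exact ⟨⟨⟨P.δ, by omega⟩, J⟩, P, hp, rfl, hJ, rfl⟩

end H96.RM
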