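import Mathlib
import Pool.Agent.H96.RM.FinW
import Pool.Agent.H96.RM.Descent

/-!
# Job RM-A14: two point data of the same class (helper96, MP_d7d607_ag)

Let `P, P'` be point data with `ker P.Ψ = ker P'.Ψ = p` and
`P.W p = P'.W p =: W` (a discrete valuation ring by `isDVR_of_fact`, `W_fact`, `W_inv`, `mem_W`).
`D → W` (`mem_W` for constants) is injective and local (if `d` maps to a unit of `W` and `d` is not a unit of `D` then
`d = z d'`, `z⁻¹ = d' d⁻¹ ∈ W`, contradiction with `W_inv`), so the residue field of `W` contains that of `D` and is infinite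
(`IsLocalRing.ResidueField.map`, injective).
Let `V = locV (QQ D P.δ) z` (valuation subring, so a local domain).  `emb` induces `W → V`, injective and
local (`emb x ∈ V` unit implies `emb x⁻¹ ∈ V`, i.e. `x⁻¹ ∈ W`).  The matrices `A i` = class of `τ i` over `W` (`mem_W`) and
`B i` = constants `eval P.a (τ i)`; over `V` the matrix `g` (entries in `QQ`, which maps to `V`: `mem_locV` with
denominator `1`) satisfies `g A = B g` and has unit determinant.  `descent` gives `y ∈ GL_s(W)` with `y A = B y`.  Same for
`P'`: `y' A = B' y'`.  Hence `x = y' y⁻¹ ∈ GL_s(W)` satisfies `x B = B' x`.  A second application of `descent`, to `D → W`, gives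
`G ∈ GL_s(D)` with `G B = B' G`.
Suggestion: first a general lemma (a) `W` valuation subring as above, `e : F →+* F'` a field homomorphism, `V` a valuation
subring of `F'` with `V.comap e = W`: conjugacy over `V` descends to `W`; apply it to `P` and `P'`.
-/

set_option autoImplicit false
set_option linter.unusedVariables false

namespace H96.RM

universe u

open IsLocalRing

variable {D : Type u} [CommRing D] [IsDomain D] [IsDiscreteValuationRing D]
  {ι : Type} [Fintype ι] [DecidableEq ι] {z : D} {I : Ideal (MvPolynomial ι D)}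

/-- conjugacy over a valuation ring of an extension field descends -/
theorem sc_descend {F F' : Type*} [Field F] [Field F'] (e : F →+* F') (W : ValuationSubring F)
    (V : ValuationSubring F') (hWV : ∀ x, x ∈ W ↔ e x ∈ V) [IsDiscreteValuationRing W]
    [Infinite (ResidueField W)] {s : Type*} [Fintype s] [DecidableEq s] {κ : Type*}
    (A B : κ → Matrix s s W) (x : Matrix s s V) (hx : IsUnit x.det)
    (h : ∀ i, x.map V.subtype * (A i).map (e.comp W.subtype) =
      (B i).map (e.comp W.subtype) * x.map V.subtype) :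
    ∃ y : Matrix s s W, IsUnit y.det ∧ ∀ i, y * A i = B i * y := by
  let φ : W →+* V := (e.comp W.subtype).codRestrict V fun w => (hWV w).1 w.2
  letI : Algebra W V := φ.toAlgebra
  have hφ : ∀ w : W, ((algebraMap W V w : V) : F') = e (w : F) := fun w => rfl
  have hinj : Function.Injective (algebraMap W V) := by
    intro w w' hw
    apply Subtype.ext
    apply e.injective
    rw [← hφ, ← hφ, hw]
  haveI : IsLocalHom (algebraMap W V) := by
    constructor
    intro w hw
    obtain ⟨v, hv⟩ := isUnit_iff_exists_inv.1 hw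
    have h1 : e (w : F) * (v : F') = 1 := by
      rw [← hφ]
      exact congrArg (fun t : V => (t : F')) hv
    have h2 : (w : F) ≠ 0 := by
      intro h0
      rw [h0, map_zero, zero_mul] at h1
      exact zero_ne_one h1
    have h3 : e ((w : F)⁻¹) = (v : F') := by
      rw [map_inv₀]
      exact (eq_inv_of_mul_eq_one_right h1).symm
    have h4 : (w : F)⁻¹ ∈ W := by
      rw [hWV, h3]
      exact v.2
    exact isUnit_iff_exists_inv.2 ⟨⟨_, h4⟩, Subtype.ext (mul_inv_cancel₀ h2)⟩
  refine descent hinj A B x hx fun i => ?_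
  have h5 : Function.Injective (fun m : Matrix s s V => m.map V.subtype) := by
    intro m m' hm
    ext a b
    exact congrFun (congrFun hm a) b
  apply h5
  simp only [Matrix.map_mul]
  have h6 : ∀ m : Matrix s s W, (m.map (algebraMap W V)).map V.subtype = m.map (e.comp W.subtype) := by
    intro m
    rfl
  rw [h6, h6]
  exact h i

/-- polynomials as elements of `W` -/
noncomputable def scToW (p : Ideal (MvPolynomial ι D)) [p.IsPrime]
    (W : ValuationSubring (FractionRing (MvPolynomial ι D ⧸ p)))
    (hW : ∀ f, algebraMap _ (FractionRing (MvPolynomial ι D ⧸ p)) (Ideal.Quotient.mk p f) ∈ W) :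
    MvPolynomial ι D →+* W :=
  ((algebraMap _ (FractionRing (MvPolynomial ι D ⧸ p))).comp (Ideal.Quotient.mk p)).codRestrict W hW

theorem sc_point (hz : Irreducible z) (P : PointData D ι z I)
    (p : Ideal (MvPolynomial ι D)) [p.IsPrime] (hp : RingHom.ker P.Ψ = p)
    (W : ValuationSubring (FractionRing (MvPolynomial ι D ⧸ p))) (hWP : W = P.W hz p hp)
    (hW : ∀ f, algebraMap _ (FractionRing (MvPolynomial ι D ⧸ p)) (Ideal.Quotient.mk p f) ∈ W)
    [IsDiscreteValuationRing W] [Infinite (ResidueField W)]
    {s : Type} [Fintype s] [DecidableEq s] {κ : Type} (τ : κ → Matrix s s (MvPolynomial ι D))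
    (g : Matrix s s (QQ D P.δ)) (hg : IsUnit g.det)
    (hgτ : ∀ i, g * (τ i).map P.Ψ =
      ((τ i).map (MvPolynomial.eval P.a)).map (algebraMap D (QQ D P.δ)) * g) :
    ∃ y : Matrix s s W, IsUnit y.det ∧ ∀ i, y * (τ i).map (scToW p W hW) =
      ((τ i).map (MvPolynomial.eval P.a)).map ((scToW p W hW).comp MvPolynomial.C) * y := by
  let V := locV (QQ D P.δ) (algebraMap D (QQ D P.δ) z) (prime_Q hz P.δ)
  have hV : ∀ q : QQ D P.δ, algebraMap (QQ D P.δ) (FractionRing (QQ D P.δ)) q ∈ V := by
    intro q
    rw [mem_locV]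
    refine ⟨q, 1, fun h => (prime_Q hz P.δ).not_isUnit (isUnit_of_dvd_one h), ?_⟩
    rw [map_one, mul_one]
  let j : QQ D P.δ →+* V := (algebraMap (QQ D P.δ) (FractionRing (QQ D P.δ))).codRestrict V hV
  refine sc_descend (P.emb p hp) W V (fun x => ?_) _ _ (g.map j) ?_ fun i => ?_
  · rw [hWP]
    rfl
  · have h1 := RingHom.map_det j g
    have h2 : (g.map j).det = j g.det := h1.symm
    rw [h2]
    exact hg.map j
  · have h3 : (g.map j).map V.subtype = g.map (algebraMap (QQ D P.δ) (FractionRing (QQ D P.δ))) := rfl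
    have h4 : ((τ i).map (scToW p W hW)).map ((P.emb p hp).comp W.subtype) =
        ((τ i).map P.Ψ).map (algebraMap (QQ D P.δ) (FractionRing (QQ D P.δ))) := by
      ext a b
      exact P.emb_mk p hp (τ i a b)
    have h5 : (((τ i).map (MvPolynomial.eval P.a)).map ((scToW p W hW).comp MvPolynomial.C)).map
        ((P.emb p hp).comp W.subtype) =
        (((τ i).map (MvPolynomial.eval P.a)).map (algebraMap D (QQ D P.δ))).map
          (algebraMap (QQ D P.δ) (FractionRing (QQ D P.δ))) := by
      ext a b
      refine (P.emb_mk p hp _).trans ?_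
      simp only [Matrix.map_apply]
      congr 1
      exact P.Ψ.commutes _
    rw [h3, h4, h5, ← Matrix.map_mul, ← Matrix.map_mul, hgτ i]

theorem same_class [Infinite (ResidueField D)] (hz : Irreducible z) (P P' : PointData D ι z I)
    (p : Ideal (MvPolynomial ι D)) [p.IsPrime] (hp : RingHom.ker P.Ψ = p)
    (hp' : RingHom.ker P'.Ψ = p) (hW : P.W hz p hp = P'.W hz p hp')
    {s : Type} [Fintype s] [DecidableEq s] {κ : Type} (τ : κ → Matrix s s (MvPolynomial ι D))
    (g : Matrix s s (QQ D P.δ)) (hg : IsUnit g.det)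
    (hgτ : ∀ i, g * (τ i).map P.Ψ =
      ((τ i).map (MvPolynomial.eval P.a)).map (algebraMap D (QQ D P.δ)) * g)
    (g' : Matrix s s (QQ D P'.δ)) (hg' : IsUnit g'.det)
    (hgτ' : ∀ i, g' * (τ i).map P'.Ψ =
      ((τ i).map (MvPolynomial.eval P'.a)).map (algebraMap D (QQ D P'.δ)) * g') :
    ∃ G : Matrix s s D, IsUnit G.det ∧ ∀ i, G * (τ i).map (MvPolynomial.eval P.a) =
      (τ i).map (MvPolynomial.eval P'.a) * G := by
  have hmem : ∀ f, algebraMap _ (FractionRing (MvPolynomial ι D ⧸ p)) (Ideal.Quotient.mk p f) ∈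
      P.W hz p hp := P.mem_W hz p hp
  have hinv := P.W_inv hz p hp
  have hfact := P.W_fact hz p hp
  generalize hWd : P.W hz p hp = W at hmem hinv hfact
  -- constants
  have hC : ∀ d : D, algebraMap _ (FractionRing (MvPolynomial ι D ⧸ p))
      (Ideal.Quotient.mk p (MvPolynomial.C d)) = 0 → d = 0 := by
    intro d hd
    have h1 := (IsFractionRing.injective (MvPolynomial ι D ⧸ p)
      (FractionRing (MvPolynomial ι D ⧸ p))) (hd.trans (map_zero _).symm)
    rw [Ideal.Quotient.eq_zero_iff_mem, ← hp, RingHom.mem_ker] at h1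
    have h2 : P.Ψ (MvPolynomial.C d) = algebraMap D (QQ D P.δ) d := P.Ψ.commutes d
    have h3 : algebraMap D (QQ D P.δ) d = 0 := h2.symm.trans h1
    have h4 := congrArg (fun q : QQ D P.δ => PowerSeries.constantCoeff q) h3
    simp only [map_zero] at h4
    have h5 : PowerSeries.constantCoeff (algebraMap D (QQ D P.δ) d) = MvPolynomial.C d := by
      simp [MvPolynomial.algebraMap_eq, PowerSeries.algebraMap_apply]
    rw [h5] at h4
    exact (MvPolynomial.C_injective (Fin P.δ) D) (h4.trans (map_zero _).symm)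
  have hz0 : algebraMap _ (FractionRing (MvPolynomial ι D ⧸ p))
      (Ideal.Quotient.mk p (MvPolynomial.C z)) ≠ 0 := fun h => hz.ne_zero (hC z h)
  haveI : IsDiscreteValuationRing W := isDVR_of_fact W _ hz0 (hmem _) hinv hfact
  letI algDW : Algebra D W := ((scToW p W hmem).comp MvPolynomial.C).toAlgebra
  have hDW : ∀ d : D, ((algebraMap D W d : W) : FractionRing (MvPolynomial ι D ⧸ p)) =
      algebraMap _ (FractionRing (MvPolynomial ι D ⧸ p)) (Ideal.Quotient.mk p (MvPolynomial.C d)) :=
    fun d => rfl
  have hinj : Function.Injective (algebraMap D W) := by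
    rw [injective_iff_map_eq_zero]
    intro d hd
    apply hC
    rw [← hDW, hd]
    rfl
  haveI : IsLocalHom (algebraMap D W) := by
    constructor
    intro d hd
    by_contra hnd
    have h1 : d ∈ maximalIdeal D := hnd
    rw [hz.maximalIdeal_eq, Ideal.mem_span_singleton] at h1
    obtain ⟨d', rfl⟩ := h1
    obtain ⟨w, hw⟩ := isUnit_iff_exists_inv.1 hd
    have h2 : ((algebraMap D W (z * d') * w : W) : FractionRing (MvPolynomial ι D ⧸ p)) = 1 := by
      rw [hw]
      rfl
    apply hinv
    have h3 : (algebraMap _ (FractionRing (MvPolynomial ι D ⧸ p))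
        (Ideal.Quotient.mk p (MvPolynomial.C z)))⁻¹ =
        ((algebraMap D W d' * w : W) : FractionRing (MvPolynomial ι D ⧸ p)) := by
      symm
      apply eq_inv_of_mul_eq_one_right
      rw [← hDW, ← h2, map_mul]
      push_cast
      ring
    rw [h3]
    exact (algebraMap D W d' * w : W).2
  haveI : Infinite (ResidueField W) :=
    Infinite.of_injective (ResidueField.map (algebraMap D W)) (RingHom.injective _)
  obtain ⟨y, hy, hyA⟩ := sc_point hz P p hp W hWd.symm hmem τ g hg hgτ
  obtain ⟨y', hy', hyA'⟩ := sc_point hz P' p hp' W (hWd.symm.trans hW) hmem τ g' hg' hgτ'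
  refine descent hinj (fun i => (τ i).map (MvPolynomial.eval P.a))
    (fun i => (τ i).map (MvPolynomial.eval P'.a)) (y' * y⁻¹) ?_ fun i => ?_
  · rw [Matrix.det_mul]
    exact hy'.mul (Matrix.isUnit_nonsing_inv_det y hy)
  · have h1 := hyA i
    have h2 := hyA' i
    have e1 : ∀ m : Matrix s s D, m.map (algebraMap D W) = m.map ((scToW p W hmem).comp MvPolynomial.C) :=
      fun m => rfl
    rw [e1, e1]
    have h3 : y⁻¹ * ((τ i).map (MvPolynomial.eval P.a)).map ((scToW p W hmem).comp MvPolynomial.C) =
        (τ i).map (scToW p W hmem) * y⁻¹ := by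
      have h4 : y⁻¹ * (((τ i).map (MvPolynomial.eval P.a)).map ((scToW p W hmem).comp MvPolynomial.C) * y)
          * y⁻¹ = y⁻¹ * (y * (τ i).map (scToW p W hmem)) * y⁻¹ := by
        rw [h1]
      rw [← Matrix.mul_assoc y⁻¹ y, Matrix.nonsing_inv_mul y hy, Matrix.one_mul, Matrix.mul_assoc,
        Matrix.mul_assoc, Matrix.mul_nonsing_inv y hy, Matrix.mul_one] at h4
      exact h4
    rw [Matrix.mul_assoc, h3, ← Matrix.mul_assoc, h2, Matrix.mul_assoc]

end H96.RM
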