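import Mathlib
import Pool.Agent.H96.RM.SameClass
import Pool.Agent.H96.RM.MinPrime

/-!
# Job RM-A15: the core theorem (helper96, MP_d7d607_ag)

Among infinitely many point data over a discrete valuation ring with infinite residue field, whose matrices
`τ i` (evaluated along the formal family) are conjugate to constant ones, two have conjugate matrices.

Proof.  `m ↦ ker (P m).Ψ` takes values in the finite set `I.minimalPrimes`
(`Ideal.finite_minimalPrimes_of_isNoetherianRing`, `ker_mem_minimalPrimes`), so some value `p` is taken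
for infinitely many `m`; for these `m`, `(P m).W p` takes values in the finite set of `finite_W`; so two of them agree
(`Set.Infinite`, `Set.Infinite.exists_ne_map_eq_of_mapsTo`), and the smaller index is called `i`.  Apply `same_class`.
-/

set_option autoImplicit false
set_option linter.unusedVariables false

namespace H96.RM

universe u

open IsLocalRing

variable {D : Type u} [CommRing D] [IsDomain D] [IsDiscreteValuationRing D]
  {ι : Type} [Fintype ι] [DecidableEq ι] {z : D} {I : Ideal (MvPolynomial ι D)}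

theorem core_main [Infinite (ResidueField D)] (hz : Irreducible z) (P : ℕ → PointData D ι z I)
    {s : Type} [Fintype s] [DecidableEq s] {κ : Type} (τ : κ → Matrix s s (MvPolynomial ι D))
    (hg : ∀ m, ∃ g : Matrix s s (QQ D (P m).δ), IsUnit g.det ∧
      ∀ i, g * (τ i).map (P m).Ψ =
        ((τ i).map (MvPolynomial.eval (P m).a)).map (algebraMap D (QQ D (P m).δ)) * g) :
    ∃ i j, i < j ∧ ∃ G : Matrix s s D, IsUnit G.det ∧
      ∀ c, G * (τ c).map (MvPolynomial.eval (P i).a) =
        (τ c).map (MvPolynomial.eval (P j).a) * G := by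
  have hfin : Finite I.minimalPrimes :=
    (Ideal.finite_minimalPrimes_of_isNoetherianRing _ I).to_subtype
  let f : ℕ → I.minimalPrimes :=
    fun m => ⟨RingHom.ker (P m).Ψ, (P m).ker_mem_minimalPrimes hz⟩
  obtain ⟨⟨p, hpI⟩, hinf⟩ := Finite.exists_infinite_fiber f
  have hpp : p.IsPrime := hpI.1.1
  have hp : ∀ m : (f ⁻¹' {⟨p, hpI⟩}), RingHom.ker (P m).Ψ = p :=
    fun m => congrArg Subtype.val m.2
  have hW : Finite {W : ValuationSubring (FractionRing (MvPolynomial ι D ⧸ p)) |
      ∃ (P : PointData D ι z I) (hp : RingHom.ker P.Ψ = p), W = P.W hz p hp} :=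
    (finite_W hz p).to_subtype
  let w : (f ⁻¹' {⟨p, hpI⟩}) → {W : ValuationSubring (FractionRing (MvPolynomial ι D ⧸ p)) |
      ∃ (P : PointData D ι z I) (hp : RingHom.ker P.Ψ = p), W = P.W hz p hp} :=
    fun m => ⟨(P m).W hz p (hp m), P m, hp m, rfl⟩
  obtain ⟨i, j, hij, hw⟩ := Finite.exists_ne_map_eq_of_infinite w
  have hw' : (P i).W hz p (hp i) = (P j).W hz p (hp j) := congrArg Subtype.val hw
  have key : ∀ (i j : ℕ) (hi : RingHom.ker (P i).Ψ = p) (hj : RingHom.ker (P j).Ψ = p),
      (P i).W hz p hi = (P j).W hz p hj → ∃ G : Matrix s s D, IsUnit G.det ∧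
      ∀ c, G * (τ c).map (MvPolynomial.eval (P i).a) =
        (τ c).map (MvPolynomial.eval (P j).a) * G := by
    intro i j hi hj hWij
    obtain ⟨g, hg1, hg2⟩ := hg i
    obtain ⟨g', hg1', hg2'⟩ := hg j
    exact same_class hz (P i) (P j) p hi hj hWij τ g hg1 hg2 g' hg1' hg2'
  have hne : (i : ℕ) ≠ (j : ℕ) := fun h => hij (Subtype.ext h)
  rcases lt_or_gt_of_ne hne with h | h
  · exact ⟨i, j, h, key i j (hp i) (hp j) hw'⟩
  · exact ⟨j, i, h, key j i (hp j) (hp i) hw'.symm⟩

end H96.RM
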