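import Mathlib
import Pool.Agent.H96.RM.Defs

/-!
# Matrix context (definitions; helper96, MP_d7d607_ag)
-/

set_option autoImplicit false
set_option linter.unusedVariables false

namespace H96.RM

universe u

/-- Matrices of a module `V` over `D[y_1..y_l]/(y)^N`, of the projection `Pi : V → V/(y)^n V` and of a
`D`-linear section `Sg`. -/
structure MatCtx (D : Type u) [CommRing D] (l N : ℕ) (s s' : Type) [Fintype s] [DecidableEq s]
    [Fintype s'] [DecidableEq s'] where
  Y : Fin l → Matrix s s D
  Pi : Matrix s' s D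
  Sg : Matrix s s' D
  hPS : Pi * Sg = 1
  P1 : ∀ A B : Matrix s s D, (∀ j, A * Y j = Y j * A) → Pi * A = 0 → Pi * B = 0 → A * B = 0
  P2 : ∀ A : Matrix s s D, (∀ j, A * Y j = Y j * A) → Pi * A = Pi * A * Sg * Pi
  P3 : ∀ f : Fin N → Fin l, (List.ofFn fun i => Y (f i)).prod = 0

end H96.RM
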