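import Mathlib
import Pool.Agent.H96.RM.Ctx

/-!
# Job RM-B0: representations kill `𝔟^N` (helper96, MP_d7d607_ag)

`𝔟 = (y_1..y_l)`.  A homomorphism `Φ : R → Mat_s(B)` with `Φ (y_j) = Y_j` kills `𝔟^N`; so does a derivation `c` with `c (y_j) = 0`.
Proof: `𝔟^N` is additively spanned by the products `y_{f 1} ⋯ y_{f N} x`.  Show by induction on `m` that for
`x ∈ 𝔟^m` the element `Φ x` lies in the additive subgroup generated by the matrices
`(List.ofFn fun i : Fin m => Y (f i)).prod * A` with `f : Fin m → Fin l`, `A` any matrix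
(`Submodule.pow_induction_on_left'`, `Ideal.mul_mem..`, `Submodule.span_induction`; `List.ofFn_succ`), then use
`P3` for `m = N`.  For `c`: `c (y_j x) = σ (y_j) c x + c (y_j) σ x = Y_j c x`, so the same statement with `c` in
place of `Φ`.  (`kill'` is the case `B = D` of `kill`.)
-/

set_option autoImplicit false
set_option linter.unusedVariables false

namespace H96.RM

universe u

variable {D : Type u} [CommRing D] {R : Type u} [CommRing R] [Algebra D R] {l N : ℕ}
  {s s' : Type} [Fintype s] [DecidableEq s] [Fintype s'] [DecidableEq s']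

theorem kill_aux {R : Type*} [CommRing R] {M : Type*} [Ring M] {l : ℕ} (y : Fin l → R)
    (Z : Fin l → M) (G : R →+ M) (hG : ∀ j x, G (y j * x) = Z j * G x) (n : ℕ) :
    ∀ L : M, (∀ f : Fin n → Fin l, L * (List.ofFn fun i => Z (f i)).prod = 0) →
      ∀ x ∈ (Ideal.span (Set.range y)) ^ n, L * G x = 0 := by
  induction n with
  | zero =>
    intro L hL x _
    have h := hL Fin.elim0
    rw [List.ofFn_zero, List.prod_nil, mul_one] at h
    rw [h, zero_mul]
  | succ n ih =>
    intro L hL x hx
    have key : ∀ a ∈ Ideal.span (Set.range y), ∀ b ∈ (Ideal.span (Set.range y)) ^ n,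
        L * G (a * b) = 0 := by
      intro a ha
      induction ha using Submodule.span_induction with
      | mem a ha =>
        intro b hb
        obtain ⟨j, rfl⟩ := ha
        rw [hG, ← mul_assoc]
        refine ih (L * Z j) (fun f => ?_) b hb
        have h := hL (Fin.cons j f)
        rw [List.ofFn_succ, List.prod_cons] at h
        simp only [Fin.cons_zero, Fin.cons_succ] at h
        rw [mul_assoc]
        exact h
      | zero =>
        intro b _
        rw [zero_mul, map_zero, mul_zero]
      | add a a' _ _ h h' =>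
        intro b hb
        rw [add_mul, map_add, mul_add, h b hb, h' b hb, add_zero]
      | smul r a _ h =>
        intro b hb
        have h1 : (r • a) * b = a * (r * b) := by
          rw [smul_eq_mul]
          ring
        rw [h1]
        exact h _ (Ideal.mul_mem_left _ r hb)
    rw [pow_succ'] at hx
    induction hx using Submodule.mul_induction_on' with
    | mem_mul_mem a ha b hb => exact key a ha b hb
    | add a _ b _ h h' => rw [map_add, mul_add, h, h', add_zero]

theorem MatCtx.kill (ctx : MatCtx D l N s s') (y : Fin l → R) {B : Type u} [CommRing B]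
    [Algebra D B] (Φ : R →ₐ[D] Matrix s s B)
    (hΦ : ∀ j, Φ (y j) = (ctx.Y j).map (algebraMap D B)) :
    ∀ x ∈ (Ideal.span (Set.range y)) ^ N, Φ x = 0 := by
  intro x hx
  have h := kill_aux y (fun j => (ctx.Y j).map (algebraMap D B)) (Φ : R →+ Matrix s s B)
    (fun j x => by
      change Φ (y j * x) = _ * Φ x
      rw [map_mul, hΦ]) N 1 (fun f => by
      have h1 := congrArg (fun A : Matrix s s D => (algebraMap D B).mapMatrix A) (ctx.P3 f)
      simp only [map_list_prod, map_zero] at h1
      rw [one_mul, ← h1]
      congr 1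
      rw [List.map_ofFn]
      rfl) x hx
  rw [one_mul] at h
  exact h

theorem MatCtx.kill' (ctx : MatCtx D l N s s') (y : Fin l → R) (σ : R →ₐ[D] Matrix s s D)
    (hσ : ∀ j, σ (y j) = ctx.Y j) :
    ∀ x ∈ (Ideal.span (Set.range y)) ^ N, σ x = 0 := by
  intro x hx
  have h := kill_aux y ctx.Y (σ : R →+ Matrix s s D)
    (fun j x => by
      change σ (y j * x) = _ * σ x
      rw [map_mul, hσ]) N 1 (fun f => by rw [one_mul, ctx.P3 f]) x hx
  rw [one_mul] at h
  exact h

theorem MatCtx.kill_cocycle (ctx : MatCtx D l N s s') (y : Fin l → R) (σ : R →ₐ[D] Matrix s s D)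
    (hσ : ∀ j, σ (y j) = ctx.Y j) (c : R →ₗ[D] Matrix s s D) (hc : ∀ j, c (y j) = 0)
    (hc' : ∀ a b, c (a * b) = σ a * c b + c a * σ b) :
    ∀ x ∈ (Ideal.span (Set.range y)) ^ N, c x = 0 := by
  intro x hx
  have h := kill_aux y ctx.Y c.toAddMonoidHom
    (fun j x => by
      change c (y j * x) = _ * c x
      rw [hc', hσ, hc, zero_mul, add_zero]) N 1 (fun f => by rw [one_mul, ctx.P3 f]) x hx
  rw [one_mul] at h
  exact h

end H96.RM
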