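import Mathlib
import Pool.Agent.H96.RM.Kill

/-!
# Job RM-B1: the ideal of the representation variety (helper96, MP_d7d607_ag)

`R` a `D`-algebra, `y_1..y_l ∈ R`, `𝔟 = (y)`, `R/𝔟^N` generated as a `D`-module by `r_1..r_g`.  We parametrise
`D`-algebra homomorphisms `Φ : R → Mat_s(B)` with `Φ (y_j) = Y_j` by the entries of `Φ (r_i)`.

`exists_eqIdeal`.  Let `T_i` be the generic matrices with entries `X (i, a, b)`.
`I` = ideal generated by all entries of the following matrices over `D[X]`
 (L) `∑ c_i T_i` for all `c : Fin g → D` with `∑ c_i r_i ∈ 𝔟^N`;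
 (M) `T_i T_j - ∑_k γ_{ijk} T_k`, where `γ` is chosen with `r_i r_j - ∑ γ_{ijk} r_k ∈ 𝔟^N`;
 (Y) `∑ e_{ji} T_i - Y_j`, `e` chosen with `y_j - ∑ e_{ji} r_i ∈ 𝔟^N`;
 (1) `∑ u_i T_i - 1`, `u` chosen with `1 - ∑ u_i r_i ∈ 𝔟^N`.
First property: for `Φ` as in the statement all these matrices vanish after evaluation at the entries of `Φ (r_i)` (by `kill`),
`aeval` is a ring homomorphism, entries of products are sums of products.
Second property: let `σ` and the tangent vector `τ` be given, `c_i = (τ (i, a, b))_{a b}` (matrices).
The map `d f = ∑_p eval (pderiv p f) * τ p` satisfies `d (f g) = eval f * d g + d f * eval g`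
(`Derivation.leibniz`), `d (X p) = τ p`, `d (C a) = 0`, so the vanishing of `d` on the entries of (L), (M), (Y), (1) gives
 `∑ a_i c_i = 0` whenever `∑ a_i r_i ∈ 𝔟^N`;  `c_i σ(r_j) + σ(r_i) c_j = ∑ γ_{ijk} c_k`;
 `∑ e_{ji} c_i = 0`;  `∑ u_i c_i = 0`.
By (L) there is a unique `D`-linear `c : R → Mat_s(D)` killing `𝔟^N` with `c (r_i) = c_i` (factor the
surjection `D^g → R/𝔟^N`; `Submodule.liftQ`, `LinearMap.quotKerEquivOfSurjective`).  `c (y_j) = 0` by (Y), and the product rule
holds for `a = r_i, b = r_j` by (M), hence for all `a, b` by bilinearity (`a = ∑ a_i r_i + 𝔟^N`, both sides kill `𝔟^N`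
because `σ` and `c` do).
-/

set_option autoImplicit false
set_option linter.unusedVariables false
set_option linter.unusedSectionVars false

namespace H96.RM

universe u

variable {D : Type u} [CommRing D] {R : Type u} [CommRing R] [Algebra D R] {l N : ℕ}
  {s s' : Type} [Fintype s] [DecidableEq s] [Fintype s'] [DecidableEq s']

/-- The generic matrices. -/
noncomputable def genMat (D : Type u) [CommRing D] (g : ℕ) (s : Type) (i : Fin g) :
    Matrix s s (MvPolynomial (Fin g × s × s) D) :=
  Matrix.of fun a b => MvPolynomial.X (i, a, b)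

/-- The differential at the point `v` in the direction `τ`. -/
noncomputable def dirD {ι : Type} [Fintype ι] (v τ : ι → D) : MvPolynomial ι D →ₗ[D] D :=
  ∑ p, (τ p) • ((MvPolynomial.aeval v).toLinearMap ∘ₗ
    (MvPolynomial.pderiv p : Derivation D (MvPolynomial ι D) (MvPolynomial ι D)).toLinearMap)

theorem dirD_apply {ι : Type} [Fintype ι] (v τ : ι → D) (f : MvPolynomial ι D) :
    dirD v τ f = ∑ p, MvPolynomial.eval v (MvPolynomial.pderiv p f) * τ p := by
  classical
  simp only [dirD, LinearMap.sum_apply, LinearMap.smul_apply, LinearMap.comp_apply,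
    AlgHom.toLinearMap_apply, smul_eq_mul]
  refine Finset.sum_congr rfl fun p _ => ?_
  rw [mul_comm]
  rfl

theorem dirD_mul {ι : Type} [Fintype ι] (v τ : ι → D) (f h : MvPolynomial ι D) :
    dirD v τ (f * h) = MvPolynomial.eval v f * dirD v τ h + dirD v τ f * MvPolynomial.eval v h := by
  simp only [dirD_apply, Derivation.leibniz, smul_eq_mul, map_add, map_mul, Finset.mul_sum,
    Finset.sum_mul, ← Finset.sum_add_distrib]
  refine Finset.sum_congr rfl fun p _ => ?_
  ring

theorem dirD_X {ι : Type} [Fintype ι] [DecidableEq ι] (v τ : ι → D) (q : ι) :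
    dirD v τ (MvPolynomial.X q) = τ q := by
  rw [dirD_apply, Finset.sum_eq_single q]
  · simp
  · intro p _ hp
    rw [MvPolynomial.pderiv_X, Pi.single_eq_of_ne (Ne.symm hp)]
    simp
  · intro h
    exact absurd (Finset.mem_univ q) h

theorem dirD_C {ι : Type} [Fintype ι] (v τ : ι → D) (a : D) :
    dirD v τ (MvPolynomial.C a) = 0 := by
  rw [dirD_apply]
  simp

theorem dirD_matrix_mul {ι : Type} [Fintype ι] (v τ : ι → D)
    (F G : Matrix s s (MvPolynomial ι D)) :
    (F * G).map (dirD v τ) = F.map (MvPolynomial.eval v) * G.map (dirD v τ) +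
      F.map (dirD v τ) * G.map (MvPolynomial.eval v) := by
  ext a b
  simp only [Matrix.map_apply, Matrix.mul_apply, Matrix.add_apply, map_sum, dirD_mul,
    Finset.sum_add_distrib]

/-- The set of matrices of equations. -/
def eqMats (ctx : MatCtx D l N s s') (y : Fin l → R) {g : ℕ} (r : Fin g → R)
    (γ : Fin g → Fin g → Fin g → D) (e : Fin l → Fin g → D) (w : Fin g → D) :
    Set (Matrix s s (MvPolynomial (Fin g × s × s) D)) :=
  {F | (∃ c : Fin g → D, ∑ i, c i • r i ∈ (Ideal.span (Set.range y)) ^ N ∧
        F = ∑ i, c i • genMat D g s i) ∨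
      (∃ i j, F = genMat D g s i * genMat D g s j - ∑ k, γ i j k • genMat D g s k) ∨
      (∃ j, F = ∑ i, e j i • genMat D g s i - (ctx.Y j).map MvPolynomial.C) ∨
      F = ∑ i, w i • genMat D g s i - 1}

theorem exists_eqIdeal (ctx : MatCtx D l N s s') (y : Fin l → R) {g : ℕ} (r : Fin g → R)
    (hr : ∀ x : R, ∃ c : Fin g → D, x - ∑ i, c i • r i ∈ (Ideal.span (Set.range y)) ^ N) :
    ∃ I : Ideal (MvPolynomial (Fin g × s × s) D),
      (∀ (B : Type u) [CommRing B] [Algebra D B] (Φ : R →ₐ[D] Matrix s s B),
        (∀ j, Φ (y j) = (ctx.Y j).map (algebraMap D B)) →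
        ∀ f ∈ I, MvPolynomial.aeval (fun p : Fin g × s × s => Φ (r p.1) p.2.1 p.2.2) f = 0) ∧
      (∀ σ : R →ₐ[D] Matrix s s D, (∀ j, σ (y j) = ctx.Y j) → ∀ τ : Fin g × s × s → D,
        (∀ f ∈ I, ∑ p, MvPolynomial.eval (fun p : Fin g × s × s => σ (r p.1) p.2.1 p.2.2)
          (MvPolynomial.pderiv p f) * τ p = 0) →
        ∃ c : R →ₗ[D] Matrix s s D, (∀ j, c (y j) = 0) ∧
          (∀ a b, c (a * b) = σ a * c b + c a * σ b) ∧
          ∀ p, c (r p.1) p.2.1 p.2.2 = τ p) := by
  classical
  choose κ hκ using hr
  set J : Ideal R := (Ideal.span (Set.range y)) ^ N with hJ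
  set γ : Fin g → Fin g → Fin g → D := fun i j => κ (r i * r j) with hγ
  set e : Fin l → Fin g → D := fun j => κ (y j) with he
  set w : Fin g → D := κ 1 with hw
  set S := eqMats ctx y r γ e w with hS
  refine ⟨Ideal.span {f | ∃ F ∈ S, ∃ a b, f = F a b}, ?_, ?_⟩
  · intro B _ _ Φ hΦ
    set φ : MvPolynomial (Fin g × s × s) D →ₐ[D] B :=
      MvPolynomial.aeval (fun p : Fin g × s × s => Φ (r p.1) p.2.1 p.2.2) with hφ
    have hkill := ctx.kill y Φ hΦ
    have hT : ∀ i, φ.mapMatrix (genMat D g s i) = Φ (r i) := by
      intro i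
      ext a b
      simp [genMat, hφ]
    have hker : Ideal.span {f | ∃ F ∈ S, ∃ a b, f = F a b} ≤ RingHom.ker φ := by
      rw [Ideal.span_le]
      rintro f ⟨F, hF, a, b, rfl⟩
      have hF0 : φ.mapMatrix F = 0 := by
        rcases hF with ⟨c, hc, rfl⟩ | ⟨i, j, rfl⟩ | ⟨j, rfl⟩ | rfl
        · have := hkill _ hc
          rw [map_sum] at this
          rw [map_sum]
          simpa only [map_smul, hT] using this
        · have := hkill _ (hκ (r i * r j))
          rw [map_sub, map_mul, map_sum] at this
          rw [map_sub, map_mul, map_sum]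
          simpa only [map_smul, hT, hγ] using this
        · have := hkill _ (hκ (y j))
          rw [map_sub, map_sum] at this
          rw [map_sub, map_sum]
          have h2 : φ.mapMatrix ((ctx.Y j).map MvPolynomial.C) = Φ (y j) := by
            rw [hΦ j]
            ext a b
            simp [hφ]
          rw [h2]
          simp only [map_smul, hT, he] at this ⊢
          rw [← neg_eq_zero, neg_sub]
          exact this
        · have := hkill _ (hκ 1)
          rw [map_sub, map_sum, map_one] at this
          rw [map_sub, map_sum, map_one]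
          simp only [map_smul, hT, hw] at this ⊢
          rw [← neg_eq_zero, neg_sub]
          exact this
      have := congrFun (congrFun hF0 a) b
      simpa using this
    intro f hf
    exact hker hf
  · intro σ hσ τ hτ
    set v : Fin g × s × s → D := fun p => σ (r p.1) p.2.1 p.2.2 with hv
    have hkill := ctx.kill' y σ hσ
    set cc : Fin g → Matrix s s D := fun i => Matrix.of fun a b => τ (i, a, b) with hcc
    have hTd : ∀ i, (genMat D g s i).map (dirD v τ) = cc i := by
      intro i
      ext a b
      simp [genMat, dirD_X, hcc]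
    have hTe : ∀ i, (genMat D g s i).map (MvPolynomial.eval v) = σ (r i) := by
      intro i
      ext a b
      simp [genMat, hv]
    have hvan : ∀ F ∈ S, F.map (dirD v τ) = 0 := by
      intro F hF
      ext a b
      rw [Matrix.map_apply, dirD_apply]
      exact hτ _ (Ideal.subset_span ⟨F, hF, a, b, rfl⟩)
    have hsum : ∀ c : Fin g → D, (∑ i, c i • genMat D g s i).map (dirD v τ) =
        ∑ i, c i • cc i := by
      intro c
      ext a b
      simp only [Matrix.map_apply, Matrix.sum_apply, Matrix.smul_apply, map_sum, map_smul,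
        ← hTd]
    have hsub : ∀ F G : Matrix s s (MvPolynomial (Fin g × s × s) D),
        (F - G).map (dirD v τ) = F.map (dirD v τ) - G.map (dirD v τ) := by
      intro F G
      ext a b
      simp
    -- the four consequences
    have hL : ∀ c : Fin g → D, ∑ i, c i • r i ∈ J → ∑ i, c i • cc i = 0 := by
      intro c hc
      rw [← hsum c]
      exact hvan _ (Or.inl ⟨c, hc, rfl⟩)
    have hM : ∀ i j, ∑ k, γ i j k • cc k = σ (r i) * cc j + cc i * σ (r j) := by
      intro i j
      have := hvan _ (Or.inr (Or.inl ⟨i, j, rfl⟩))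
      rw [hsub, hsum, dirD_matrix_mul, hTd, hTd, hTe, hTe, sub_eq_zero] at this
      exact this.symm
    have hY : ∀ j, ∑ i, e j i • cc i = 0 := by
      intro j
      have := hvan _ (Or.inr (Or.inr (Or.inl ⟨j, rfl⟩)))
      rw [hsub, hsum] at this
      have h2 : ((ctx.Y j).map (MvPolynomial.C : D →+* MvPolynomial (Fin g × s × s) D)).map
          (dirD v τ) = 0 := by
        ext a b
        simp only [Matrix.map_apply, dirD_C, Matrix.zero_apply]
      rw [h2, sub_zero] at this
      exact this
    -- key lemma
    have hkey : ∀ (x : R) (a : Fin g → D), x - ∑ i, a i • r i ∈ J →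
        ∑ i, κ x i • cc i = ∑ i, a i • cc i := by
      intro x a ha
      have h1 : ∑ i, (κ x i - a i) • r i ∈ J := by
        have := J.sub_mem ha (hκ x)
        simp only [sub_smul, Finset.sum_sub_distrib]
        convert this using 1
        abel
      have := hL _ h1
      simp only [sub_smul, Finset.sum_sub_distrib] at this
      exact sub_eq_zero.mp this
    let c : R →ₗ[D] Matrix s s D :=
      { toFun := fun x => ∑ i, κ x i • cc i
        map_add' := by
          intro x x'
          rw [hkey (x + x') (fun i => κ x i + κ x' i)]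
          · simp only [add_smul, Finset.sum_add_distrib]
          · have := J.add_mem (hκ x) (hκ x')
            simp only [add_smul, Finset.sum_add_distrib]
            convert this using 1
            abel
        map_smul' := by
          intro d x
          rw [hkey (d • x) (fun i => d * κ x i)]
          · simp only [mul_smul, Finset.smul_sum, RingHom.id_apply]
          · have := J.mul_mem_left (algebraMap D R d) (hκ x)
            simp only [mul_smul, ← Finset.smul_sum, ← smul_sub]
            rw [Algebra.smul_def]
            exact this }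
    have hc : ∀ x, c x = ∑ i, κ x i • cc i := fun x => rfl
    refine ⟨c, ?_, ?_, ?_⟩
    · intro j
      rw [hc]
      exact hY j
    · intro a b
      have hσa : ∀ x : R, σ x = ∑ i, κ x i • σ (r i) := by
        intro x
        have := hkill _ (hκ x)
        rw [map_sub, map_sum, sub_eq_zero] at this
        simpa only [map_smul] using this
      have hab : a * b - ∑ k, (∑ i, ∑ j, κ a i * κ b j * γ i j k) • r k ∈ J := by
        have h1 : a * b - (∑ i, κ a i • r i) * (∑ j, κ b j • r j) ∈ J := by
          have e1 := J.mul_mem_right b (hκ a)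
          have e2 := J.mul_mem_left (∑ i, κ a i • r i) (hκ b)
          have := J.add_mem e1 e2
          convert this using 1
          ring
        have h2 : (∑ i, κ a i • r i) * (∑ j, κ b j • r j) -
            ∑ k, (∑ i, ∑ j, κ a i * κ b j * γ i j k) • r k ∈ J := by
          have h3 : (∑ i, κ a i • r i) * (∑ j, κ b j • r j) -
            ∑ k, (∑ i, ∑ j, κ a i * κ b j * γ i j k) • r k =
              ∑ i, ∑ j, (κ a i * κ b j) • (r i * r j - ∑ k, γ i j k • r k) := by
            simp only [smul_sub, Finset.sum_sub_distrib, Finset.smul_sum, Finset.sum_smul]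
            congr 1
            · rw [Finset.sum_mul_sum]
              refine Finset.sum_congr rfl fun i _ => Finset.sum_congr rfl fun j _ => ?_
              rw [smul_mul_smul_comm]
            · rw [Finset.sum_comm]
              refine Finset.sum_congr rfl fun i _ => ?_
              rw [Finset.sum_comm]
              refine Finset.sum_congr rfl fun j _ => Finset.sum_congr rfl fun k _ => ?_
              rw [smul_smul]
          rw [h3]
          refine J.sum_mem fun i _ => J.sum_mem fun j _ => ?_
          rw [Algebra.smul_def]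
          exact J.mul_mem_left _ (hκ (r i * r j))
        have := J.add_mem h1 h2
        convert this using 1
        ring
      rw [hc, hkey _ _ hab, hc, hc, hσa a, hσa b]
      have e1 : ∑ k, (∑ i, ∑ j, κ a i * κ b j * γ i j k) • cc k =
          ∑ i, ∑ j, (κ a i * κ b j) • (∑ k, γ i j k • cc k) := by
        simp only [Finset.smul_sum, Finset.sum_smul]
        rw [Finset.sum_comm]
        refine Finset.sum_congr rfl fun i _ => ?_
        rw [Finset.sum_comm]
        refine Finset.sum_congr rfl fun j _ => Finset.sum_congr rfl fun k _ => ?_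
        rw [smul_smul]
      rw [e1]
      simp only [hM, Finset.sum_mul_sum, smul_add, Finset.sum_add_distrib, smul_mul_smul_comm]
    · rintro ⟨i, a, b⟩
      have h1 : r i - ∑ j, (Pi.single i 1 : Fin g → D) j • r j ∈ J := by
        rw [Finset.sum_eq_single i]
        · simp
        · intro j _ hj
          rw [Pi.single_eq_of_ne hj, zero_smul]
        · intro h
          exact absurd (Finset.mem_univ i) h
      rw [hc, hkey _ _ h1, Finset.sum_eq_single i]
      · simp [hcc]
      · intro j _ hj
        rw [Pi.single_eq_of_ne hj, zero_smul]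
      · intro h
        exact absurd (Finset.mem_univ i) h

end H96.RM
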