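import Mathlib
import Pool.Agent.H96.RM.Ctx
import Pool.Agent.H96.RM.PW

/-!
# Job RM-B3: the explicit formal family (helper96, MP_d7d607_ag)

`Q = QQ D δ = D[v_1..v_δ][[λ]]` (`λ = PowerSeries.X`, `v_i = MvPolynomial.X i`).  Given
`σ : R → Mat_s(D)`, matrices `h_i` commuting with the `Y_j`, and `σ`-derivations `t_i` with
`t_i (y_j) = 0` and `Pi * t_i a = 0`, put
 `g₀ = 1 + λ ∑ v_i h_i ∈ Mat_s(Q)`,  `T a = σ a + λ ∑ v_i t_i a`,  `Φ a = g₀ (T a) g₀⁻¹`.

* `t_i a` commutes with `Y_j`: compute `t_i (a y_j) = t_i (y_j a)` with the product rule.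
* `t_i a * t_j b = 0` by `P1` (with `A = t_i a`, `B = t_j b`).  Hence `T (a b) = T a * T b`, `T 1 = 1`
  (`t_i 1 = 0` from the product rule), `T` is `D`-linear, `T (y_j) = Y_j`: `T` is a `D`-algebra homomorphism.
* `det g₀` has constant coefficient `1`, so it is a unit in `Q` (`PowerSeries.isUnit_iff_constantCoeff`,
  `RingHom.map_det`), so `g₀` is invertible (`Matrix.nonsing_inv`).  `g₀` commutes with the `Y_j`, so
  `Φ (y_j) = Y_j`.
* constant coefficient: `g₀ ≡ 1`, so `Φ a ≡ σ a`.  Coefficient of `λ`: from `Φ a * g₀ = g₀ * T a`,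
  comparing coefficients of `λ` (`PowerSeries.coeff_mul` with antidiagonal of 1, entrywise):
  `Φ₁ + σ a ∑ v_i h_i = ∑ v_i t_i a + ∑ v_i h_i σ a`.
* level `n`: `P2` holds over `Q` coefficientwise: for a matrix `A` over `Q` commuting with all `Y_j` (mapped)
  `Pi A = Pi A Sg Pi` (all coefficient matrices commute with `Y_j`; or, for the matrices needed, prove it directly: it is
  enough for `g₀`, `g₀⁻¹` and `T a`; for `g₀` and `T a` it follows from `P2` for `1, h_i, σ a, t_i a`, and for
  `g₀⁻¹` from `Pi g₀ = Pi g₀ Sg Pi`: multiply by `g₀⁻¹` ... simplest is the coefficientwise argument).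
  Let `ḡ = Pi g₀⁻¹ Sg`.  Its inverse is `Pi g₀ Sg` (`Pi g₀⁻¹ Sg Pi g₀ Sg = Pi g₀⁻¹ g₀ Sg = 1`), so `det ḡ` is a unit, and
  `ḡ (Pi Φ(a) Sg) = Pi g₀⁻¹ Φ(a) Sg = Pi T(a) g₀⁻¹ Sg = (Pi T(a) Sg) (Pi g₀⁻¹ Sg) = (Pi σ(a) Sg) ḡ`
  because `Pi t_i a = 0`.
-/

set_option autoImplicit false
set_option linter.unusedVariables false

namespace H96.RM

universe u

variable {D : Type u} [CommRing D] {R : Type u} [CommRing R] [Algebra D R] {l N : ℕ}
  {s s' : Type} [Fintype s] [DecidableEq s] [Fintype s'] [DecidableEq s']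

section aux

variable {Q : Type u} [CommRing Q] [Algebra D Q]

theorem lin_mul_right {m n p : Type} [Fintype n] (f : Q →ₗ[D] D) (A : Matrix m n Q)
    (B : Matrix n p D) : (A * B.map (algebraMap D Q)).map f = A.map f * B := by
  ext i j
  simp only [Matrix.map_apply, Matrix.mul_apply, map_sum]
  refine Finset.sum_congr rfl fun k _ => ?_
  rw [mul_comm, ← Algebra.smul_def, map_smul, smul_eq_mul, mul_comm]

theorem lin_mul_left {m n p : Type} [Fintype n] (f : Q →ₗ[D] D) (A : Matrix m n D)
    (B : Matrix n p Q) : (A.map (algebraMap D Q) * B).map f = A * B.map f := by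
  ext i j
  simp only [Matrix.map_apply, Matrix.mul_apply, map_sum]
  refine Finset.sum_congr rfl fun k _ => ?_
  rw [← Algebra.smul_def, map_smul, smul_eq_mul]

/-- the extraction of a coefficient -/
noncomputable def cf (D : Type u) [CommRing D] (δ : ℕ) (m : ℕ) (d : Fin δ →₀ ℕ) :
    QQ D δ →ₗ[D] D where
  toFun q := MvPolynomial.coeff d (PowerSeries.coeff m q)
  map_add' x y := by simp
  map_smul' a x := by simp

theorem eq_of_cf {δ : ℕ} {m n : Type} {A B : Matrix m n (QQ D δ)}
    (h : ∀ k d, A.map (cf D δ k d) = B.map (cf D δ k d)) : A = B := by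
  ext i j k d
  have := congrFun (congrFun (h k d) i) j
  exact this

theorem P2_QQ (ctx : MatCtx D l N s s') {δ : ℕ} (A : Matrix s s (QQ D δ))
    (hA : ∀ j, A * (ctx.Y j).map (algebraMap D (QQ D δ)) =
      (ctx.Y j).map (algebraMap D (QQ D δ)) * A) :
    ctx.Pi.map (algebraMap D (QQ D δ)) * A = ctx.Pi.map (algebraMap D (QQ D δ)) * A *
      ctx.Sg.map (algebraMap D (QQ D δ)) * ctx.Pi.map (algebraMap D (QQ D δ)) := by
  apply eq_of_cf
  intro k d
  rw [lin_mul_right, lin_mul_right, lin_mul_left]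
  apply ctx.P2
  intro j
  have h1 := congrArg (fun M : Matrix s s (QQ D δ) => M.map (cf D δ k d)) (hA j)
  rwa [lin_mul_right, lin_mul_left] at h1

end aux

theorem exists_family (ctx : MatCtx D l N s s') (y : Fin l → R) (σ : R →ₐ[D] Matrix s s D)
    (hσ : ∀ j, σ (y j) = ctx.Y j) {δ : ℕ} (h : Fin δ → Matrix s s D)
    (hh : ∀ i j, h i * ctx.Y j = ctx.Y j * h i) (t : Fin δ → (R →ₗ[D] Matrix s s D))
    (ht : ∀ i a b, t i (a * b) = σ a * t i b + t i a * σ b) (hty : ∀ i j, t i (y j) = 0)
    (htP : ∀ i a, ctx.Pi * t i a = 0) :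
    ∃ Φ : R →ₐ[D] Matrix s s (QQ D δ),
      (∀ j, Φ (y j) = (ctx.Y j).map (algebraMap D (QQ D δ))) ∧
      (∀ a, (Φ a).map PowerSeries.constantCoeff = (σ a).map MvPolynomial.C) ∧
      (∀ a, (Φ a).map (PowerSeries.coeff 1) = ∑ i, (MvPolynomial.X i : MvPolynomial (Fin δ) D) •
        (t i a + (h i * σ a - σ a * h i)).map MvPolynomial.C) ∧
      ∃ g : Matrix s' s' (QQ D δ), IsUnit g.det ∧
        ∀ a, g * (ctx.Pi.map (algebraMap D (QQ D δ)) * Φ a *
            ctx.Sg.map (algebraMap D (QQ D δ))) =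
          (ctx.Pi * σ a * ctx.Sg).map (algebraMap D (QQ D δ)) * g := by
  classical
  -- base change
  have mmul : ∀ {m n p : Type} [Fintype n] (A : Matrix m n D) (B : Matrix n p D),
      (A * B).map (algebraMap D (QQ D δ)) = A.map (algebraMap D (QQ D δ)) *
        B.map (algebraMap D (QQ D δ)) := by
    intro m n p _ A B
    exact Matrix.map_mul
  have madd : ∀ {m n : Type} (A B : Matrix m n D),
      (A + B).map (algebraMap D (QQ D δ)) = A.map (algebraMap D (QQ D δ)) +
        B.map (algebraMap D (QQ D δ)) := by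
    intro m n A B
    exact Matrix.map_add _ (map_add _) _ _
  set v : Fin δ → QQ D δ := fun i => PowerSeries.C (MvPolynomial.X i) with hv
  -- commutation
  have tY : ∀ i a j, t i a * ctx.Y j = ctx.Y j * t i a := by
    intro i a j
    have h1 := ht i a (y j)
    have h2 := ht i (y j) a
    rw [hty, mul_zero, zero_add, hσ] at h1
    rw [hty, zero_mul, add_zero, hσ] at h2
    rw [← h1, ← h2, mul_comm]
  have tt : ∀ i j a b, t i a * t j b = 0 := by
    intro i j a b
    exact ctx.P1 _ _ (tY i a) (htP i a) (htP j b)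
  have t1 : ∀ i, t i 1 = 0 := by
    intro i
    have h1 := ht i 1 1
    rw [mul_one, map_one σ, mul_one, one_mul] at h1
    have h2 : t i 1 + 0 = t i 1 + t i 1 := by rw [add_zero]; exact h1
    exact (add_left_cancel h2).symm
  -- the matrices
  let H : Matrix s s (QQ D δ) := ∑ i, v i • (h i).map (algebraMap D (QQ D δ))
  let Tt : R → Matrix s s (QQ D δ) := fun a => ∑ i, v i • (t i a).map (algebraMap D (QQ D δ))
  let g0 : Matrix s s (QQ D δ) := 1 + (PowerSeries.X : QQ D δ) • H
  have hH : H = ∑ i, v i • (h i).map (algebraMap D (QQ D δ)) := rfl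
  have hTt : ∀ a, Tt a = ∑ i, v i • (t i a).map (algebraMap D (QQ D δ)) := fun a => rfl
  have hg0 : g0 = 1 + (PowerSeries.X : QQ D δ) • H := rfl
  have TtTt : ∀ a b, Tt a * Tt b = 0 := by
    intro a b
    rw [hTt, hTt, Finset.sum_mul]
    refine Finset.sum_eq_zero fun i _ => ?_
    rw [Finset.mul_sum]
    refine Finset.sum_eq_zero fun j _ => ?_
    rw [Matrix.smul_mul, Matrix.mul_smul, ← mmul, tt]
    simp
  have Ttadd : ∀ a b, Tt (a + b) = Tt a + Tt b := by
    intro a b
    rw [hTt, hTt, hTt, ← Finset.sum_add_distrib]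
    refine Finset.sum_congr rfl fun i _ => ?_
    rw [map_add, madd, smul_add]
  have Ttmul : ∀ a b, Tt (a * b) = (σ a).map (algebraMap D (QQ D δ)) * Tt b +
      Tt a * (σ b).map (algebraMap D (QQ D δ)) := by
    intro a b
    rw [hTt, hTt, hTt, Finset.mul_sum, Finset.sum_mul, ← Finset.sum_add_distrib]
    refine Finset.sum_congr rfl fun i _ => ?_
    rw [ht, madd, mmul, mmul, smul_add, Matrix.mul_smul, Matrix.smul_mul]
  let T : R → Matrix s s (QQ D δ) := fun a =>
    (σ a).map (algebraMap D (QQ D δ)) + (PowerSeries.X : QQ D δ) • Tt a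
  have hT : ∀ a, T a = (σ a).map (algebraMap D (QQ D δ)) + (PowerSeries.X : QQ D δ) • Tt a :=
    fun a => rfl
  have Tmul : ∀ a b, T (a * b) = T a * T b := by
    intro a b
    rw [hT, hT, hT, map_mul, mmul, Ttmul, add_mul, mul_add, mul_add, Matrix.smul_mul,
      Matrix.smul_mul, Matrix.mul_smul, Matrix.mul_smul, TtTt, smul_zero, smul_zero, add_zero,
      smul_add]
    abel
  have Tadd : ∀ a b, T (a + b) = T a + T b := by
    intro a b
    rw [hT, hT, hT, map_add, madd, Ttadd, smul_add]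
    abel
  have Tt1 : ∀ d : D, Tt (algebraMap D R d) = 0 := by
    intro d
    rw [hTt]
    refine Finset.sum_eq_zero fun i _ => ?_
    rw [Algebra.algebraMap_eq_smul_one, map_smul, t1]
    simp
  have Talg : ∀ d : D, T (algebraMap D R d) = algebraMap D (Matrix s s (QQ D δ)) d := by
    intro d
    rw [hT, Tt1, smul_zero, add_zero, AlgHom.commutes]
    rw [Matrix.algebraMap_eq_diagonal, Matrix.algebraMap_eq_diagonal]
    rw [Matrix.diagonal_map (map_zero _)]
    congr 1
  -- the unit
  have g0c : g0.map (PowerSeries.constantCoeff) = 1 := by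
    ext i j
    simp only [hg0, Matrix.map_apply, Matrix.add_apply, Matrix.smul_apply, smul_eq_mul, map_add,
      map_mul, PowerSeries.constantCoeff_X, zero_mul, add_zero]
    by_cases hij : i = j
    · subst hij; simp
    · simp [Matrix.one_apply_ne hij]
  have hdet : IsUnit g0.det := by
    rw [PowerSeries.isUnit_iff_constantCoeff]
    have h1 : PowerSeries.constantCoeff g0.det =
        (g0.map (PowerSeries.constantCoeff (R := MvPolynomial (Fin δ) D))).det := by
      exact RingHom.map_det _ _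
    rw [h1, g0c, Matrix.det_one]
    exact isUnit_one
  have gi : g0 * g0⁻¹ = 1 := Matrix.mul_nonsing_inv _ hdet
  have ig : g0⁻¹ * g0 = 1 := Matrix.nonsing_inv_mul _ hdet
  have gY : ∀ j, g0 * (ctx.Y j).map (algebraMap D (QQ D δ)) =
      (ctx.Y j).map (algebraMap D (QQ D δ)) * g0 := by
    intro j
    rw [hg0, add_mul, mul_add, one_mul, mul_one, Matrix.smul_mul, Matrix.mul_smul, hH,
      Finset.sum_mul, Finset.mul_sum]
    congr 2
    refine Finset.sum_congr rfl fun i _ => ?_
    rw [Matrix.smul_mul, Matrix.mul_smul, ← mmul, ← mmul, hh]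
  have iY : ∀ j, g0⁻¹ * (ctx.Y j).map (algebraMap D (QQ D δ)) =
      (ctx.Y j).map (algebraMap D (QQ D δ)) * g0⁻¹ := by
    intro j
    calc g0⁻¹ * (ctx.Y j).map (algebraMap D (QQ D δ))
        = g0⁻¹ * ((ctx.Y j).map (algebraMap D (QQ D δ)) * g0) * g0⁻¹ := by
          rw [mul_assoc, mul_assoc, gi, mul_one]
      _ = g0⁻¹ * (g0 * (ctx.Y j).map (algebraMap D (QQ D δ))) * g0⁻¹ := by rw [gY]
      _ = (ctx.Y j).map (algebraMap D (QQ D δ)) * g0⁻¹ := by
          rw [← mul_assoc, ig, one_mul]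
  -- the homomorphism
  let Φ : R →ₐ[D] Matrix s s (QQ D δ) :=
    { toFun := fun a => g0 * T a * g0⁻¹
      map_one' := by
        have h1 := Talg 1
        rw [map_one, map_one] at h1
        rw [h1, mul_one, gi]
      map_mul' := by
        intro a b
        rw [Tmul]
        calc g0 * (T a * T b) * g0⁻¹ = g0 * T a * (1 * T b) * g0⁻¹ := by
              rw [one_mul]
              simp only [mul_assoc]
          _ = g0 * T a * ((g0⁻¹ * g0) * T b) * g0⁻¹ := by rw [ig]
          _ = g0 * T a * g0⁻¹ * (g0 * T b * g0⁻¹) := by simp only [mul_assoc]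
      map_zero' := by
        have h1 := Talg 0
        rw [map_zero, map_zero] at h1
        rw [h1, mul_zero, zero_mul]
      map_add' := by
        intro a b
        rw [Tadd, mul_add, add_mul]
      commutes' := by
        intro d
        rw [Talg, ← Algebra.commutes d g0, mul_assoc, gi, mul_one] }
  have hΦ : ∀ a, Φ a = g0 * T a * g0⁻¹ := fun a => rfl
  have hΦg : ∀ a, Φ a * g0 = g0 * T a := by
    intro a
    rw [hΦ, mul_assoc, ig, mul_one]
  -- coefficient formulas
  have mul0 : ∀ A B : Matrix s s (QQ D δ),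
      (A * B).map (PowerSeries.constantCoeff (R := MvPolynomial (Fin δ) D)) =
        A.map (PowerSeries.constantCoeff) * B.map (PowerSeries.constantCoeff) := by
    intro A B
    exact Matrix.map_mul
  have mul1 : ∀ A B : Matrix s s (QQ D δ),
      (A * B).map (PowerSeries.coeff (R := MvPolynomial (Fin δ) D) 1) =
        A.map (PowerSeries.coeff 1) * B.map (PowerSeries.constantCoeff) +
          A.map (PowerSeries.constantCoeff) * B.map (PowerSeries.coeff 1) := by
    intro A B
    ext1 i j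
    simp only [Matrix.map_apply, Matrix.mul_apply, Matrix.add_apply, map_sum,
      ← Finset.sum_add_distrib]
    refine Finset.sum_congr rfl fun k _ => ?_
    rw [PowerSeries.coeff_mul, Finset.Nat.sum_antidiagonal_eq_sum_range_succ_mk,
      Finset.sum_range_succ, Finset.sum_range_one]
    simp only [PowerSeries.coeff_zero_eq_constantCoeff, Nat.sub_zero, Nat.sub_self]
    rw [add_comm]
  have Tc : ∀ a, (T a).map (PowerSeries.constantCoeff (R := MvPolynomial (Fin δ) D)) =
      (σ a).map MvPolynomial.C := by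
    intro a
    ext1 i j
    simp only [hT, Matrix.map_apply, Matrix.add_apply, Matrix.smul_apply, smul_eq_mul, map_add,
      map_mul, PowerSeries.constantCoeff_X, zero_mul, add_zero]
    rw [PowerSeries.algebraMap_apply]
    simp [MvPolynomial.algebraMap_eq]
  have c1 : ∀ d : D, (PowerSeries.coeff (R := MvPolynomial (Fin δ) D) 1)
      (algebraMap D (QQ D δ) d) = 0 := by
    intro d
    rw [PowerSeries.algebraMap_apply, PowerSeries.coeff_C]
    simp
  have c0 : ∀ d : D, PowerSeries.constantCoeff (R := MvPolynomial (Fin δ) D)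
      (algebraMap D (QQ D δ) d) = MvPolynomial.C d := by
    intro d
    rw [PowerSeries.algebraMap_apply]
    simp [MvPolynomial.algebraMap_eq]
  have X1 : ∀ q : QQ D δ, (PowerSeries.coeff (R := MvPolynomial (Fin δ) D) 1)
      (PowerSeries.X * q) = PowerSeries.constantCoeff q := by
    intro q
    have := PowerSeries.coeff_succ_X_mul (n := 0) (φ := q)
    simpa using this
  have sum0 : ∀ w : Fin δ → Matrix s s D,
      (∑ i, v i • (w i).map (algebraMap D (QQ D δ))).map
        (PowerSeries.constantCoeff (R := MvPolynomial (Fin δ) D)) =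
        ∑ i, (MvPolynomial.X i : MvPolynomial (Fin δ) D) • (w i).map MvPolynomial.C := by
    intro w
    ext1 i j
    simp only [Matrix.map_apply, Matrix.sum_apply, Matrix.smul_apply, smul_eq_mul, map_sum,
      map_mul, c0, hv, PowerSeries.constantCoeff_C]
  have g1 : g0.map (PowerSeries.coeff (R := MvPolynomial (Fin δ) D) 1) =
      ∑ i, (MvPolynomial.X i : MvPolynomial (Fin δ) D) • (h i).map MvPolynomial.C := by
    rw [← sum0, ← hH]
    ext1 i j
    simp only [hg0, Matrix.map_apply, Matrix.add_apply, Matrix.smul_apply, smul_eq_mul, map_add,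
      X1]
    by_cases hij : i = j
    · subst hij
      rw [Matrix.one_apply_eq]
      simp [PowerSeries.coeff_one]
    · simp [Matrix.one_apply_ne hij]
  have T1 : ∀ a, (T a).map (PowerSeries.coeff (R := MvPolynomial (Fin δ) D) 1) =
      ∑ i, (MvPolynomial.X i : MvPolynomial (Fin δ) D) • (t i a).map MvPolynomial.C := by
    intro a
    rw [← sum0, ← hTt]
    ext1 i j
    simp only [hT, Matrix.map_apply, Matrix.add_apply, Matrix.smul_apply, smul_eq_mul, map_add,
      X1, c1, zero_add]
  have Φ0 : ∀ a, (Φ a).map (PowerSeries.constantCoeff (R := MvPolynomial (Fin δ) D)) =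
      (σ a).map MvPolynomial.C := by
    intro a
    have h1 := congrArg (fun M : Matrix s s (QQ D δ) =>
      M.map (PowerSeries.constantCoeff (R := MvPolynomial (Fin δ) D))) (hΦg a)
    rw [mul0, mul0, g0c, mul_one, one_mul, Tc] at h1
    exact h1
  refine ⟨Φ, ?_, Φ0, ?_, ctx.Pi.map (algebraMap D (QQ D δ)) * g0⁻¹ *
    ctx.Sg.map (algebraMap D (QQ D δ)), ?_, ?_⟩
  · intro j
    have h1 : T (y j) = (ctx.Y j).map (algebraMap D (QQ D δ)) := by
      rw [hT, hTt, hσ]
      have h2 : ∑ i, v i • (t i (y j)).map (algebraMap D (QQ D δ)) = 0 := by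
        refine Finset.sum_eq_zero fun i _ => ?_
        rw [hty]
        simp
      rw [h2, smul_zero, add_zero]
    rw [hΦ, h1, gY, mul_assoc, gi, mul_one]
  · intro a
    have h1 := congrArg (fun M : Matrix s s (QQ D δ) =>
      M.map (PowerSeries.coeff (R := MvPolynomial (Fin δ) D) 1)) (hΦg a)
    rw [mul1, mul1, g0c, mul_one, one_mul, Tc, Φ0, g1, T1] at h1
    have h2 : (Φ a).map (PowerSeries.coeff (R := MvPolynomial (Fin δ) D) 1) =
        (∑ i, (MvPolynomial.X i : MvPolynomial (Fin δ) D) • (h i).map MvPolynomial.C) *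
          (σ a).map MvPolynomial.C +
        ∑ i, (MvPolynomial.X i : MvPolynomial (Fin δ) D) • (t i a).map MvPolynomial.C -
        (σ a).map MvPolynomial.C *
          ∑ i, (MvPolynomial.X i : MvPolynomial (Fin δ) D) • (h i).map MvPolynomial.C := by
      rw [← h1]
      abel
    rw [h2, Finset.sum_mul, Finset.mul_sum, ← Finset.sum_add_distrib, ← Finset.sum_sub_distrib]
    refine Finset.sum_congr rfl fun i _ => ?_
    rw [Matrix.smul_mul, Matrix.mul_smul, ← smul_add, ← smul_sub]
    congr 1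
    rw [Matrix.map_add _ (map_add _), Matrix.map_sub _ (map_sub _), Matrix.map_mul,
      Matrix.map_mul]
    abel
  · have h1 : (ctx.Pi.map (algebraMap D (QQ D δ)) * g0⁻¹ *
        ctx.Sg.map (algebraMap D (QQ D δ))) * (ctx.Pi.map (algebraMap D (QQ D δ)) * g0 *
        ctx.Sg.map (algebraMap D (QQ D δ))) = 1 := by
      calc (ctx.Pi.map (algebraMap D (QQ D δ)) * g0⁻¹ *
            ctx.Sg.map (algebraMap D (QQ D δ))) * (ctx.Pi.map (algebraMap D (QQ D δ)) * g0 *
            ctx.Sg.map (algebraMap D (QQ D δ)))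
          = (ctx.Pi.map (algebraMap D (QQ D δ)) * g0⁻¹ *
            ctx.Sg.map (algebraMap D (QQ D δ)) * ctx.Pi.map (algebraMap D (QQ D δ))) * g0 *
            ctx.Sg.map (algebraMap D (QQ D δ)) := by simp only [Matrix.mul_assoc]
        _ = ctx.Pi.map (algebraMap D (QQ D δ)) * g0⁻¹ * g0 *
            ctx.Sg.map (algebraMap D (QQ D δ)) := by rw [← P2_QQ ctx g0⁻¹ iY]
        _ = 1 := by
          rw [Matrix.mul_assoc _ g0⁻¹ g0, ig, Matrix.mul_one, ← mmul, ctx.hPS]
          simp
    have h2 := congrArg Matrix.det h1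
    rw [Matrix.det_mul, Matrix.det_one] at h2
    exact IsUnit.of_mul_eq_one _ h2
  · intro a
    have hσY : ∀ j, σ a * ctx.Y j = ctx.Y j * σ a := by
      intro j
      rw [← hσ, ← map_mul, ← map_mul, mul_comm]
    have PiTt : ctx.Pi.map (algebraMap D (QQ D δ)) * T a =
        ctx.Pi.map (algebraMap D (QQ D δ)) * (σ a).map (algebraMap D (QQ D δ)) := by
      rw [hT, Matrix.mul_add, Matrix.mul_smul, hTt]
      have h2 : ctx.Pi.map (algebraMap D (QQ D δ)) *
          ∑ i, v i • (t i a).map (algebraMap D (QQ D δ)) = 0 := by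
        rw [Matrix.mul_sum]
        refine Finset.sum_eq_zero fun i _ => ?_
        rw [Matrix.mul_smul, ← mmul, htP]
        simp
      rw [h2, smul_zero, add_zero]
    calc (ctx.Pi.map (algebraMap D (QQ D δ)) * g0⁻¹ * ctx.Sg.map (algebraMap D (QQ D δ))) *
          (ctx.Pi.map (algebraMap D (QQ D δ)) * Φ a * ctx.Sg.map (algebraMap D (QQ D δ)))
        = (ctx.Pi.map (algebraMap D (QQ D δ)) * g0⁻¹ * ctx.Sg.map (algebraMap D (QQ D δ)) *
          ctx.Pi.map (algebraMap D (QQ D δ))) * Φ a * ctx.Sg.map (algebraMap D (QQ D δ)) := by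
          simp only [Matrix.mul_assoc]
      _ = ctx.Pi.map (algebraMap D (QQ D δ)) * (g0⁻¹ * Φ a) *
          ctx.Sg.map (algebraMap D (QQ D δ)) := by
          rw [← P2_QQ ctx g0⁻¹ iY]
          simp only [Matrix.mul_assoc]
      _ = ctx.Pi.map (algebraMap D (QQ D δ)) * (T a * g0⁻¹) *
          ctx.Sg.map (algebraMap D (QQ D δ)) := by
          have h3 : g0⁻¹ * Φ a = T a * g0⁻¹ := by
            rw [hΦ, mul_assoc, ← mul_assoc, ig, one_mul]
          rw [h3]
      _ = (ctx.Pi * σ a).map (algebraMap D (QQ D δ)) * g0⁻¹ *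
          ctx.Sg.map (algebraMap D (QQ D δ)) := by
          rw [← Matrix.mul_assoc, PiTt, mmul]
      _ = (ctx.Pi * σ a * ctx.Sg * ctx.Pi).map (algebraMap D (QQ D δ)) * g0⁻¹ *
          ctx.Sg.map (algebraMap D (QQ D δ)) := by rw [← ctx.P2 (σ a) hσY]
      _ = (ctx.Pi * σ a * ctx.Sg).map (algebraMap D (QQ D δ)) *
          (ctx.Pi.map (algebraMap D (QQ D δ)) * g0⁻¹ *
            ctx.Sg.map (algebraMap D (QQ D δ))) := by
          rw [mmul (ctx.Pi * σ a * ctx.Sg) ctx.Pi]
          simp only [Matrix.mul_assoc]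

end H96.RM
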