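import Mathlib

/-!
# Job RM-B2: basis of a saturated submodule (helper96, MP_d7d607_ag)

`D` a discrete valuation ring, `Z ≤ D^ι` a submodule with `z τ ∈ Z → τ ∈ Z`.

Proof.  `Z` is a finitely generated submodule of a free module over a PID, hence free of finite rank `δ`
(`Submodule.nonempty_basis_of_pid` / `Module.finBasis`): basis `β_1..β_δ`.  If `z ∣ ∑ c_i β_i l` for all `l`,
then `∑ c_i β_i = z τ`, `τ ∈ Z` by saturation, `τ = ∑ c'_i β_i`, so `c_i = z c'_i` by linear independence.
-/

set_option autoImplicit false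
set_option linter.unusedVariables false

namespace H96.RM

universe u

theorem exists_tangent_basis {D : Type u} [CommRing D] [IsDomain D] [IsDiscreteValuationRing D]
    {z : D} (hz : Irreducible z) {ι : Type} [Fintype ι] [DecidableEq ι]
    (Z : Submodule D (ι → D)) (hZ : ∀ τ, z • τ ∈ Z → τ ∈ Z) :
    ∃ (δ : ℕ) (β : Fin δ → ι → D), (∀ i, β i ∈ Z) ∧
      (∀ τ ∈ Z, ∃ c : Fin δ → D, ∀ l, τ l = ∑ i, c i * β i l) ∧
      (∀ c : Fin δ → D, (∀ l, z ∣ ∑ i, c i * β i l) → ∀ i, z ∣ c i) := by
  obtain ⟨δ, ⟨b⟩⟩ := Submodule.nonempty_basis_of_pid (Pi.basisFun D ι) Z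
  refine ⟨δ, fun i => (b i : ι → D), fun i => (b i).2, ?_, ?_⟩
  · intro τ hτ
    refine ⟨fun i => b.repr ⟨τ, hτ⟩ i, fun l => ?_⟩
    have h := congrArg (fun x : Z => (x : ι → D) l) (b.sum_repr ⟨τ, hτ⟩)
    simp only at h
    rw [← h, AddSubmonoidClass.coe_finset_sum, Finset.sum_apply]
    rfl
  · intro c hc i
    choose t ht using hc
    have h1 : z • t = ∑ i, c i • (b i : ι → D) := by
      funext l
      simp only [Pi.smul_apply, smul_eq_mul, Finset.sum_apply]
      exact (ht l).symm
    have h2 : t ∈ Z := by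
      apply hZ
      rw [h1]
      exact Submodule.sum_mem _ fun i _ => Z.smul_mem _ (b i).2
    have h3 : z • (⟨t, h2⟩ : Z) = ∑ i, c i • b i := by
      apply Subtype.ext
      rw [Submodule.coe_smul, h1]
      simp
    have h4 := congrArg (fun x => b.repr x i) h3
    simp only [map_smul, b.repr_sum_self, Finsupp.smul_apply, smul_eq_mul] at h4
    exact ⟨_, h4.symm⟩

end H96.RM
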