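import Mathlib
import Pool.Agent.H96.RM.EqIdeal
import Pool.Agent.H96.RM.TBasis
import Pool.Agent.H96.RM.Family
import Pool.Agent.H96.RM.Core

/-!
# Job RM-B4: the matrix theorem (helper96, MP_d7d607_ag)

Proof.  `r : Fin g → R` from `hfin`; `I` from `exists_eqIdeal`; `ι = Fin g × s × s`; `z` a uniformizer of `D`
(`IsDiscreteValuationRing.exists_irreducible`).
For each `m` build `P m : PointData D ι z I` (as an existence statement followed by `choose`):
`a p = σ m (r p.1) p.2.1 p.2.2`; `Z = {τ | ∀ f ∈ I, ∑ p, eval a (pderiv p f) * τ p = 0}` is a saturated submodule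
(`D` is a domain, `z ≠ 0`), `exists_tangent_basis` gives `δ, β`.  For each `i` the second property of `I`
gives a derivation `c_i` with `c_i (r p.1) .. = β i p`, `hrig` gives `h_i` commuting with the `Y_j`, and
`t_i a = c_i a - (h_i σ a - σ a h_i)` is again a derivation with `t_i (y_j) = 0`, `Pi t_i a = 0`.
`exists_family` gives `Φ`; put `Ψ = MvPolynomial.aeval (fun p => Φ (r p.1) p.2.1 p.2.2)`.
`hI` is the first property of `I` (with `B = QQ D δ`), `h0` and `h1` are the constant and linear coefficient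
statements for `a = r i` (`t_i a + (h_i σ a - σ a h_i) = c_i a`), `hβ1, hβ2` from `exists_tangent_basis`.
Matrices: `τ i = Pi T_i Sg` for `i : Fin g`, `T_i` the generic matrix (entries `X (i, a, b)`), everything mapped to
`MvPolynomial ι D` by `C`.  `(τ i).map Ψ = Pi Φ(r_i) Sg`, `(τ i).map (eval a) = Pi σ(r_i) Sg`; the `g` of `exists_family`
is the conjugating matrix required in `core_main`.
`core_main` gives `i < j` and `G` with `G (Pi σ_i(r_c) Sg) = (Pi σ_j(r_c) Sg) G` for all generators `r_c`; for general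
`a : R` write `a = ∑ c_i r_i + x`, `x ∈ 𝔟^N`, and use linearity and `MatCtx.kill'`.
-/

set_option autoImplicit false
set_option linter.unusedVariables false

namespace H96.RM

universe u

open IsLocalRing

variable {D : Type u} [CommRing D] [IsDomain D] [IsDiscreteValuationRing D]
  {R : Type u} [CommRing R] [Algebra D R] {l N : ℕ}
  {s s' : Type} [Fintype s] [DecidableEq s] [Fintype s'] [DecidableEq s']

/-- The tangent submodule at a point. -/
def matTan {ι : Type} [Fintype ι] (I : Ideal (MvPolynomial ι D)) (a : ι → D) :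
    Submodule D (ι → D) where
  carrier := {τ | ∀ f ∈ I, ∑ p, MvPolynomial.eval a (MvPolynomial.pderiv p f) * τ p = 0}
  add_mem' := by
    intro τ τ' h h' f hf
    have h1 := h f hf
    have h2 := h' f hf
    simp only [Pi.add_apply, mul_add, Finset.sum_add_distrib, h1, h2, add_zero]
  zero_mem' := by
    intro f hf
    simp
  smul_mem' := by
    intro c τ h f hf
    have h1 := h f hf
    have : ∑ p, MvPolynomial.eval a (MvPolynomial.pderiv p f) * (c • τ) p
        = c * ∑ p, MvPolynomial.eval a (MvPolynomial.pderiv p f) * τ p := by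
      rw [Finset.mul_sum]
      refine Finset.sum_congr rfl fun p _ => ?_
      simp only [Pi.smul_apply, smul_eq_mul]
      ring
    rw [this, h1, mul_zero]

theorem matTan_sat {ι : Type} [Fintype ι] (I : Ideal (MvPolynomial ι D)) (a : ι → D) {z : D}
    (hz : z ≠ 0) (τ : ι → D) (h : z • τ ∈ matTan I a) : τ ∈ matTan I a := by
  intro f hf
  have h1 := h f hf
  have : ∑ p, MvPolynomial.eval a (MvPolynomial.pderiv p f) * (z • τ) p
      = z * ∑ p, MvPolynomial.eval a (MvPolynomial.pderiv p f) * τ p := by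
    rw [Finset.mul_sum]
    refine Finset.sum_congr rfl fun p _ => ?_
    simp only [Pi.smul_apply, smul_eq_mul]
    ring
  rw [this] at h1
  exact (mul_eq_zero.mp h1).resolve_left hz

/-- The matrices `τ i`. -/
noncomputable def matTau (ctx : MatCtx D l N s s') {g : ℕ} (i : Fin g) :
    Matrix s' s' (MvPolynomial (Fin g × s × s) D) :=
  ctx.Pi.map (MvPolynomial.C : D →+* MvPolynomial (Fin g × s × s) D) *
    (Matrix.of fun (a b : s) => (MvPolynomial.X (i, a, b) :
      MvPolynomial (Fin g × s × s) D)) *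
    ctx.Sg.map (MvPolynomial.C : D →+* MvPolynomial (Fin g × s × s) D)

theorem matTau_map (ctx : MatCtx D l N s s') {g : ℕ} (i : Fin g) {B : Type u} [CommRing B]
    [Algebra D B] (Ψ : MvPolynomial (Fin g × s × s) D →ₐ[D] B) (M : Matrix s s B)
    (hM : ∀ a b, Ψ (MvPolynomial.X (i, a, b)) = M a b) :
    (matTau ctx i).map Ψ = ctx.Pi.map (algebraMap D B) * M * ctx.Sg.map (algebraMap D B) := by
  have h1 : ∀ {m n : Type} (A : Matrix m n D),
      (A.map (MvPolynomial.C : D →+* MvPolynomial (Fin g × s × s) D)).map Ψ =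
        A.map (algebraMap D B) := by
    intro m n A
    ext a b
    simp only [Matrix.map_apply]
    exact Ψ.commutes _
  have h2 : (Matrix.of fun (a b : s) => (MvPolynomial.X (i, a, b) :
      MvPolynomial (Fin g × s × s) D)).map Ψ = M := by
    ext a b
    simp only [Matrix.map_apply, Matrix.of_apply]
    exact hM a b
  unfold matTau
  rw [Matrix.map_mul, Matrix.map_mul, h1, h1, h2]

theorem matTau_eval (ctx : MatCtx D l N s s') {g : ℕ} (i : Fin g)
    (a : Fin g × s × s → D) (M : Matrix s s D) (hM : ∀ p q, a (i, p, q) = M p q) :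
    (matTau ctx i).map (MvPolynomial.eval a) = ctx.Pi * M * ctx.Sg := by
  have h1 : ∀ {m n : Type} (A : Matrix m n D),
      (A.map (MvPolynomial.C : D →+* MvPolynomial (Fin g × s × s) D)).map
        (MvPolynomial.eval a) = A := by
    intro m n A
    ext a b
    simp only [Matrix.map_apply, MvPolynomial.eval_C]
  have h2 : (Matrix.of fun (a b : s) => (MvPolynomial.X (i, a, b) :
      MvPolynomial (Fin g × s × s) D)).map (MvPolynomial.eval a) = M := by
    ext p q
    simp only [Matrix.map_apply, Matrix.of_apply, MvPolynomial.eval_X]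
    exact hM p q
  unfold matTau
  rw [Matrix.map_mul, Matrix.map_mul, h1, h1, h2]

theorem mat_point (ctx : MatCtx D l N s s') (y : Fin l → R) {g : ℕ} (r : Fin g → R)
    {z : D} (hz : Irreducible z) (I : Ideal (MvPolynomial (Fin g × s × s) D))
    (hI1 : ∀ (B : Type u) [CommRing B] [Algebra D B] (Φ : R →ₐ[D] Matrix s s B),
        (∀ j, Φ (y j) = (ctx.Y j).map (algebraMap D B)) →
        ∀ f ∈ I, MvPolynomial.aeval (fun p : Fin g × s × s => Φ (r p.1) p.2.1 p.2.2) f = 0)
    (hI2 : ∀ σ : R →ₐ[D] Matrix s s D, (∀ j, σ (y j) = ctx.Y j) → ∀ τ : Fin g × s × s → D,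
        (∀ f ∈ I, ∑ p, MvPolynomial.eval (fun p : Fin g × s × s => σ (r p.1) p.2.1 p.2.2)
          (MvPolynomial.pderiv p f) * τ p = 0) →
        ∃ c : R →ₗ[D] Matrix s s D, (∀ j, c (y j) = 0) ∧
          (∀ a b, c (a * b) = σ a * c b + c a * σ b) ∧
          ∀ p, c (r p.1) p.2.1 p.2.2 = τ p)
    (σ : R →ₐ[D] Matrix s s D) (hσ : ∀ j, σ (y j) = ctx.Y j)
    (hrig : ∀ c : R →ₗ[D] Matrix s s D, (∀ j, c (y j) = 0) →
      (∀ a b, c (a * b) = σ a * c b + c a * σ b) →
      ∃ h : Matrix s s D, (∀ j, h * ctx.Y j = ctx.Y j * h) ∧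
        ∀ a, ctx.Pi * (c a - (h * σ a - σ a * h)) = 0) :
    ∃ P : PointData D (Fin g × s × s) z I,
      P.a = (fun p : Fin g × s × s => σ (r p.1) p.2.1 p.2.2) ∧
      ∃ gg : Matrix s' s' (QQ D P.δ), IsUnit gg.det ∧
        ∀ i : Fin g, gg * (matTau ctx i).map P.Ψ =
          ((matTau ctx i).map (MvPolynomial.eval P.a)).map (algebraMap D (QQ D P.δ)) * gg := by
  classical
  set a : Fin g × s × s → D := fun p => σ (r p.1) p.2.1 p.2.2 with ha
  obtain ⟨δ, β, hβ0, hβ2, hβ1⟩ := exists_tangent_basis hz (matTan I a)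
    (matTan_sat I a hz.ne_zero)
  have hc : ∀ i, ∃ c : R →ₗ[D] Matrix s s D, (∀ j, c (y j) = 0) ∧
          (∀ a b, c (a * b) = σ a * c b + c a * σ b) ∧
          ∀ p : Fin g × s × s, c (r p.1) p.2.1 p.2.2 = β i p :=
    fun i => hI2 σ hσ (β i) (hβ0 i)
  choose c hc1 hc2 hc3 using hc
  have hh : ∀ i, ∃ h : Matrix s s D, (∀ j, h * ctx.Y j = ctx.Y j * h) ∧
        ∀ a, ctx.Pi * (c i a - (h * σ a - σ a * h)) = 0 :=
    fun i => hrig (c i) (hc1 i) (hc2 i)
  choose h hh1 hh2 using hh
  let t : Fin δ → (R →ₗ[D] Matrix s s D) := fun i =>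
    c i - ((LinearMap.mulLeft D (h i)) ∘ₗ σ.toLinearMap -
      (LinearMap.mulRight D (h i)) ∘ₗ σ.toLinearMap)
  have htdef : ∀ i x, t i x = c i x - (h i * σ x - σ x * h i) := by
    intro i x
    simp [t]
  obtain ⟨Φ, hΦ1, hΦ2, hΦ3, gg, hgg, hgΦ⟩ := exists_family ctx y σ hσ h hh1 t
    (by
      intro i x w
      rw [htdef, htdef, htdef, hc2, map_mul]
      noncomm_ring)
    (by
      intro i j
      rw [htdef, hc1, hσ, hh1, sub_self, sub_self])
    (by
      intro i x
      rw [htdef]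
      exact hh2 i x)
  let Ψ : MvPolynomial (Fin g × s × s) D →ₐ[D] QQ D δ :=
    MvPolynomial.aeval (fun p : Fin g × s × s => Φ (r p.1) p.2.1 p.2.2)
  have hΨX : ∀ p, Ψ (MvPolynomial.X p) = Φ (r p.1) p.2.1 p.2.2 := by
    intro p
    simp [Ψ]
  refine ⟨⟨a, δ, β, Ψ, hβ1, ?_, ?_, ?_, ?_⟩, rfl, gg, hgg, ?_⟩
  · intro τ hτ
    exact hβ2 τ hτ
  · exact hI1 (QQ D δ) Φ hΦ1
  · intro p
    rw [hΨX]
    have := congrFun (congrFun (hΦ2 (r p.1)) p.2.1) p.2.2
    simpa only [Matrix.map_apply] using this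
  · intro p
    rw [hΨX]
    have := congrFun (congrFun (hΦ3 (r p.1)) p.2.1) p.2.2
    rw [Matrix.map_apply] at this
    rw [this, Matrix.sum_apply]
    refine Finset.sum_congr rfl fun i _ => ?_
    rw [Matrix.smul_apply, Matrix.map_apply, smul_eq_mul, mul_comm]
    congr 2
    rw [htdef, sub_add_cancel]
    exact hc3 i p
  · intro i
    show gg * (matTau ctx i).map Ψ =
          ((matTau ctx i).map (MvPolynomial.eval a)).map (algebraMap D (QQ D δ)) * gg
    rw [matTau_map ctx i Ψ (Φ (r i)) (fun p q => hΨX (i, p, q)),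
      matTau_eval ctx i a (σ (r i)) (fun p q => rfl)]
    exact hgΦ (r i)

theorem mat_main [Infinite (ResidueField D)] (ctx : MatCtx D l N s s') (y : Fin l → R)
    (hfin : ∃ (g : ℕ) (r : Fin g → R), ∀ x : R, ∃ c : Fin g → D,
      x - ∑ i, c i • r i ∈ (Ideal.span (Set.range y)) ^ N)
    (σ : ℕ → (R →ₐ[D] Matrix s s D)) (hσ : ∀ m j, σ m (y j) = ctx.Y j)
    (hrig : ∀ m, ∀ c : R →ₗ[D] Matrix s s D, (∀ j, c (y j) = 0) →
      (∀ a b, c (a * b) = σ m a * c b + c a * σ m b) →
      ∃ h : Matrix s s D, (∀ j, h * ctx.Y j = ctx.Y j * h) ∧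
        ∀ a, ctx.Pi * (c a - (h * σ m a - σ m a * h)) = 0) :
    ∃ i j, i < j ∧ ∃ G : Matrix s' s' D, IsUnit G.det ∧
      ∀ a : R, G * (ctx.Pi * σ i a * ctx.Sg) = (ctx.Pi * σ j a * ctx.Sg) * G := by
  classical
  obtain ⟨g, r, hr⟩ := hfin
  obtain ⟨I, hI1, hI2⟩ := exists_eqIdeal ctx y r hr
  obtain ⟨z, hz⟩ := IsDiscreteValuationRing.exists_irreducible D
  have hP := fun m => mat_point ctx y r hz I hI1 hI2 (σ m) (hσ m) (hrig m)
  choose P hPa hPg using hP
  obtain ⟨i, j, hij, G, hG, hGτ⟩ := core_main hz P (fun i : Fin g => matTau ctx i) hPg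
  refine ⟨i, j, hij, G, hG, ?_⟩
  have hgen : ∀ c : Fin g, G * (ctx.Pi * σ i (r c) * ctx.Sg) =
      (ctx.Pi * σ j (r c) * ctx.Sg) * G := by
    intro c
    have h1 := hGτ c
    rw [matTau_eval ctx c (P i).a (σ i (r c)) (fun p q => by rw [hPa]),
      matTau_eval ctx c (P j).a (σ j (r c)) (fun p q => by rw [hPa])] at h1
    exact h1
  intro x
  obtain ⟨c, hc⟩ := hr x
  have e1 : ∀ m, σ m x = ∑ k, c k • σ m (r k) := by
    intro m
    have h1 := ctx.kill' y (σ m) (hσ m) _ hc
    rw [map_sub, map_sum, sub_eq_zero] at h1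
    rw [h1]
    exact Finset.sum_congr rfl fun k _ => map_smul _ _ _
  rw [e1 i, e1 j]
  simp only [Matrix.mul_sum, Matrix.sum_mul, Matrix.mul_smul, Matrix.smul_mul]
  exact Finset.sum_congr rfl fun k _ => by rw [hgen k]

end H96.RM
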