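import Mathlib
import Pool.Agent.H96.RM.Approx
import Pool.Agent.H96.RM.MatMain

/-!
# Job RM-C10: the abstract main theorem (helper96, MP_d7d607_ag)

`L_m(i) = M_i / 𝔟^m M_i`, `𝔟 = (y)`, `V = L_{2n}(0)`, `V' = L_n(0)`.

Proof.  Choose `D`-bases `b : Basis (Fin t) D V`, `b' : Basis (Fin t') D V'` (`Module.finBasis`), let `p = projLv : V → V'`
(surjective, kernel `𝔟^n V`), `σ₀ : V' → V` a `D`-linear section (`V'` is free).
`ctx : MatCtx D l (2n) (Fin t) (Fin t')`: `Y j = toMatrix b b (y_j •)`, `Pi = toMatrix b b' p`, `Sg = toMatrix b' b σ₀`.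
`P1`: translate to endomorphisms `A, B` of `V` with `A` commuting with the `y_j`, `p A = 0 = p B`.  `range B ≤ 𝔟^n V` is the
additive span of the elements `y_{f 1} ⋯ y_{f n} v`; `A (y_{f 1} ⋯ y_{f n} v) = y_{f 1} ⋯ y_{f n} (A v)`, `A v ∈ 𝔟^n V`, so this is in
`𝔟^(2n) V = 0`.  `P2`: `A` maps `𝔟^n V = ker p` to itself by the same computation, so `p A (1 - σ₀ p) = 0`.
`P3`: the product of `2n` elements `y` is in `𝔟^(2n)`, which kills `V`.
For each `i` let `e_i : V ≃ L_{2n}(i)` be the `D[y]`-isomorphism of `hiso` (take `hiso 0` as it is) and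
`σ_i a = toMatrix b b (v ↦ e_i⁻¹ (a • e_i v))`, a `D`-algebra homomorphism `R → Mat_t(D)` with `σ_i (y_j) = Y_j`.
`hrig` of `mat_main`: a cocycle `c` for `σ_i` corresponds (conjugating with `e_i`) to a cocycle in the sense of `ApproxRigid`
(`c a` as an endomorphism of `L_{2n}(i)`), `ApproxRigid` gives `h` with values of the difference in `𝔟^n L_{2n}(i) = e_i (𝔟^n V) = e_i (ker p)`.
`mat_main` gives `i < j` and `G ∈ GL_{t'}(D)`, i.e. a `D`-linear automorphism `G` of `V'` with
`G (p σ_i(a) σ₀) = (p σ_j(a) σ₀) G`.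
Finally `q_i : L_n(i) ≃ V'` `D`-linear: `e_i` induces `V/𝔟^n V ≃ L_{2n}(i)/𝔟^n L_{2n}(i)`, i.e. `V' ≃ L_n(i)`, and under it
the action of `a` on `L_n(i)` corresponds to `p σ_i(a) σ₀` on `V'` (because `σ_i(a)` preserves `ker p`).  So `G` is an
`R`-isomorphism `L_n(i) ≃ L_n(j)`.
-/

set_option autoImplicit false
set_option linter.unusedVariables false

namespace H96.RM

universe u

open IsLocalRing
open scoped Pointwise

section AbsAux

variable {D : Type u} [CommRing D] {R : Type u} [CommRing R] [Algebra D R] {l : ℕ}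

/-- Induction principle for `I^n V`, `I = (y)`. -/
theorem AM_induction (y : Fin l → R) {V : Type u} [AddCommGroup V] [Module R V] (n : ℕ)
    {P : V → Prop} (h0 : P 0) (hadd : ∀ v w, P v → P w → P (v + w))
    (hprod : ∀ (f : Fin n → Fin l) (v : V), P ((List.ofFn fun i => y (f i)).prod • v)) {x : V}
    (hx : x ∈ Ideal.span (Set.range y) ^ n • (⊤ : Submodule R V)) : P x := by
  refine Submodule.smul_induction_on hx ?_ hadd
  intro r hr v _
  have hr' : r ∈ Submodule.span R ((Set.range y) ^ n) := by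
    rw [← Submodule.span_pow]
    exact hr
  clear hr
  revert v
  refine Submodule.span_induction (p := fun r _ => ∀ v : V, v ∈ (⊤ : Submodule R V) → P (r • v))
    ?_ ?_ ?_ ?_ hr'
  · intro r hr v _
    obtain ⟨f, hf⟩ := Set.mem_pow.1 hr
    choose g hg using fun i => (f i).2
    have := hprod g v
    simp only [hg] at this
    rw [hf] at this
    exact this
  · intro v _
    rw [zero_smul]
    exact h0
  · intro a b _ _ ha hb v hv
    rw [add_smul]
    exact hadd _ _ (ha v hv) (hb v hv)
  · intro a b _ hb v _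
    rw [smul_eq_mul, mul_comm, mul_smul]
    exact hb _ trivial

theorem AM_prod_comm (y : Fin l → R) {V V' : Type u} [AddCommGroup V] [Module R V]
    [AddCommGroup V'] [Module R V'] (φ : V → V') (hφ : ∀ j v, φ (y j • v) = y j • φ v)
    {m : ℕ} (f : Fin m → Fin l) (v : V) :
    φ ((List.ofFn fun i => y (f i)).prod • v) = (List.ofFn fun i => y (f i)).prod • φ v := by
  have key : ∀ L : List (Fin l), ∀ v, φ ((L.map y).prod • v) = (L.map y).prod • φ v := by
    intro L
    induction L with
    | nil => intro v; simp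
    | cons a L ih =>
      intro v
      rw [List.map_cons, List.prod_cons, mul_smul, mul_smul, hφ, ih]
  have h := key (List.ofFn f) v
  rw [List.map_ofFn] at h
  exact h

theorem AM_prod_mem (y : Fin l → R) {m : ℕ} (f : Fin m → Fin l) :
    (List.ofFn fun i => y (f i)).prod ∈ Ideal.span (Set.range y) ^ m := by
  have : (List.ofFn fun i => y (f i)).prod ∈ Submodule.span R ((Set.range y) ^ m) := by
    refine Submodule.subset_span ?_
    rw [Set.mem_pow]
    exact ⟨fun i => ⟨y (f i), f i, rfl⟩, rfl⟩
  rw [← Submodule.span_pow] at this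
  exact this

theorem AM_map_mem (y : Fin l → R) {V V' : Type u} [AddCommGroup V] [Module R V]
    [AddCommGroup V'] [Module R V'] (φ : V → V') (h0 : φ 0 = 0)
    (hadd : ∀ v w, φ (v + w) = φ v + φ w) (hφ : ∀ j v, φ (y j • v) = y j • φ v)
    (n : ℕ) {x : V} (hx : x ∈ Ideal.span (Set.range y) ^ n • (⊤ : Submodule R V)) :
    φ x ∈ Ideal.span (Set.range y) ^ n • (⊤ : Submodule R V') := by
  refine AM_induction y n (P := fun x => φ x ∈ Ideal.span (Set.range y) ^ n •
    (⊤ : Submodule R V')) ?_ ?_ ?_ hx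
  · rw [h0]; exact Submodule.zero_mem _
  · intro v w hv hw
    rw [hadd]
    exact Submodule.add_mem _ hv hw
  · intro f v
    rw [AM_prod_comm y φ hφ f v]
    exact Submodule.smul_mem_smul (AM_prod_mem y f) trivial

/-- The representation of `R` on `V` in the basis `b`. -/
noncomputable def AMrho {V : Type u} [AddCommGroup V] [Module R V] [Module D V]
    [IsScalarTower D R V] {s : Type} [Fintype s] [DecidableEq s] (b : Module.Basis s D V) :
    R →ₐ[D] Matrix s s D :=
  (LinearMap.toMatrixAlgEquiv b).toAlgHom.comp (Algebra.lsmul D D V)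

theorem AMrho_apply {V : Type u} [AddCommGroup V] [Module R V] [Module D V]
    [IsScalarTower D R V] {s : Type} [Fintype s] [DecidableEq s] (b : Module.Basis s D V) (a : R) :
    AMrho (D := D) b a = LinearMap.toMatrix b b (Algebra.lsmul D D V a) := rfl

theorem AMrho_mul_toMatrix {V : Type u} [AddCommGroup V] [Module R V] [Module D V]
    [IsScalarTower D R V] {s : Type} [Fintype s] [DecidableEq s] (b : Module.Basis s D V) (a : R)
    (A : V →ₗ[D] V) : AMrho (D := D) b a * LinearMap.toMatrix b b A =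
      LinearMap.toMatrix b b ((Algebra.lsmul D D V a : Module.End D V).comp A) := by
  rw [AMrho_apply, ← LinearMap.toMatrix_comp]

theorem AMrho_toMatrix_mul {V : Type u} [AddCommGroup V] [Module R V] [Module D V]
    [IsScalarTower D R V] {s : Type} [Fintype s] [DecidableEq s] (b : Module.Basis s D V) (a : R)
    (A : V →ₗ[D] V) : LinearMap.toMatrix b b A * AMrho (D := D) b a =
      LinearMap.toMatrix b b (A.comp (Algebra.lsmul D D V a : Module.End D V)) := by
  rw [AMrho_apply, ← LinearMap.toMatrix_comp]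

/-- The matrix context of `p : V → W`. -/
noncomputable def AMctx (y : Fin l → R) (n : ℕ) {V W : Type u} [AddCommGroup V] [Module R V]
    [Module D V] [IsScalarTower D R V] [AddCommGroup W] [Module D W]
    {s s' : Type} [Fintype s] [DecidableEq s] [Fintype s'] [DecidableEq s']
    (b : Module.Basis s D V) (b' : Module.Basis s' D W) (p : V →ₗ[D] W) (σ0 : W →ₗ[D] V)
    (hσ : ∀ w, p (σ0 w) = w)
    (hk : ∀ v, p v = 0 ↔ v ∈ Ideal.span (Set.range y) ^ n • (⊤ : Submodule R V))
    (h2 : ∀ x ∈ Ideal.span (Set.range y) ^ (2 * n), ∀ v : V, x • v = 0) :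
    MatCtx D l (2 * n) s s' where
  Y j := AMrho b (y j)
  Pi := LinearMap.toMatrix b b' p
  Sg := LinearMap.toMatrix b' b σ0
  hPS := by
    rw [← LinearMap.toMatrix_comp]
    have : p.comp σ0 = LinearMap.id := LinearMap.ext hσ
    rw [this, LinearMap.toMatrix_id]
  P1 := by
    intro A B hA hpA hpB
    obtain ⟨A, rfl⟩ := (LinearMap.toMatrix b b).surjective A
    obtain ⟨B, rfl⟩ := (LinearMap.toMatrix b b).surjective B
    rw [← LinearMap.toMatrix_comp] at hpA hpB ⊢
    have hA' : ∀ j v, A (y j • v) = y j • A v := by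
      intro j v
      have := hA j
      rw [AMrho_toMatrix_mul, AMrho_mul_toMatrix] at this
      have := LinearMap.congr_fun ((LinearMap.toMatrix b b).injective this) v
      simpa using this
    have hpA' : ∀ v, p (A v) = 0 := by
      intro v
      have h0 := (LinearMap.toMatrix b b').injective (hpA.trans (map_zero _).symm)
      exact LinearMap.congr_fun h0 v
    have hpB' : ∀ v, p (B v) = 0 := by
      intro v
      have h0 := (LinearMap.toMatrix b b').injective (hpB.trans (map_zero _).symm)
      exact LinearMap.congr_fun h0 v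
    have hz : A.comp B = 0 := by
      ext v
      show A (B v) = 0
      refine AM_induction y n (P := fun x => A x = 0) (map_zero _) ?_ ?_ ((hk _).1 (hpB' v))
      · intro v w hv hw
        rw [map_add, hv, hw, add_zero]
      · intro f v
        rw [AM_prod_comm y A hA' f v]
        have hm : (List.ofFn fun i => y (f i)).prod • A v ∈
            Ideal.span (Set.range y) ^ (2 * n) • (⊤ : Submodule R V) := by
          rw [two_mul, pow_add, Submodule.mul_smul]
          exact Submodule.smul_mem_smul (AM_prod_mem y f) ((hk _).1 (hpA' v))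
        refine Submodule.smul_induction_on hm (fun x hx v _ => h2 x hx v) ?_
        intro v w hv hw
        rw [hv, hw, add_zero]
    rw [hz, map_zero]
  P2 := by
    intro A hA
    obtain ⟨A, rfl⟩ := (LinearMap.toMatrix b b).surjective A
    rw [← LinearMap.toMatrix_comp b b b', ← LinearMap.toMatrix_comp b' b b',
      ← LinearMap.toMatrix_comp b b' b']
    have hA' : ∀ j v, A (y j • v) = y j • A v := by
      intro j v
      have := hA j
      rw [AMrho_toMatrix_mul, AMrho_mul_toMatrix] at this
      have := LinearMap.congr_fun ((LinearMap.toMatrix b b).injective this) v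
      simpa using this
    congr 1
    ext v
    show p (A v) = p (A (σ0 (p v)))
    have h1 : p (v - σ0 (p v)) = 0 := by rw [map_sub, hσ, sub_self]
    have h3 := AM_map_mem y (fun x => A x) (map_zero A) (map_add A) hA' n ((hk _).1 h1)
    have h4 := (hk _).2 h3
    rw [map_sub, map_sub, sub_eq_zero] at h4
    exact h4
  P3 := by
    intro f
    have : (List.ofFn fun i => AMrho (D := D) b (y (f i))).prod =
        AMrho (D := D) b (List.ofFn fun i => y (f i)).prod := by
      rw [map_list_prod, List.map_ofFn]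
      rfl
    rw [this, AMrho_apply]
    have hz : (Algebra.lsmul D D V (List.ofFn fun i => y (f i)).prod : Module.End D V) = 0 := by
      ext v
      exact h2 _ (AM_prod_mem y f) v
    rw [hz, map_zero]

/-- Abstract form. -/
theorem AM_core [IsDomain D] [IsDiscreteValuationRing D] [Infinite (ResidueField D)]
    (y : Fin l → R) (n : ℕ) (hn : 1 ≤ n)
    (hfin : ∃ (g : ℕ) (r : Fin g → R), ∀ x : R, ∃ c : Fin g → D,
      x - ∑ i, c i • r i ∈ (Ideal.span (Set.range y)) ^ (2 * n))
    (V W : ℕ → Type u) [∀ i, AddCommGroup (V i)] [∀ i, Module R (V i)] [∀ i, Module D (V i)]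
    [∀ i, IsScalarTower D R (V i)]
    [∀ i, AddCommGroup (W i)] [∀ i, Module R (W i)] [∀ i, Module D (W i)]
    [∀ i, IsScalarTower D R (W i)]
    (p : ∀ i, V i →ₗ[R] W i) (hp : ∀ i, Function.Surjective (p i))
    (hk : ∀ i v, p i v = 0 ↔ v ∈ Ideal.span (Set.range y) ^ n • (⊤ : Submodule R (V i)))
    (h2 : ∀ i, ∀ x ∈ Ideal.span (Set.range y) ^ (2 * n), ∀ v : V i, x • v = 0)
    [Module.Finite D (V 0)] [Module.Free D (V 0)] [Module.Finite D (W 0)] [Module.Free D (W 0)]
    (e : ∀ i, V 0 ≃ₗ[D] V i) (he : ∀ i j v, e i (y j • v) = y j • e i v)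
    (hrig : ∀ i, ∀ c : R →ₗ[D] (V i →ₗ[D] V i),
    (∀ j, c (y j) = 0) → (∀ a b v, c (a * b) v = a • c b v + c a (b • v)) →
    ∃ h : V i →ₗ[D] V i,
      (∀ j v, h (y j • v) = y j • h v) ∧
      ∀ a v, c a v - (h (a • v) - a • h v) ∈ Ideal.span (Set.range y) ^ n •
        (⊤ : Submodule R (V i))) :
    ∃ i j, i < j ∧ Nonempty (W i ≃ₗ[R] W j) := by
  classical
  set b := Module.finBasis D (V 0) with hb
  set b' := Module.finBasis D (W 0) with hb'
  obtain ⟨σ0, hσ0⟩ : ∃ σ0 : W 0 →ₗ[D] V 0, ∀ w, (p 0).restrictScalars D (σ0 w) = w := by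
    obtain ⟨g, hg⟩ := Module.projective_lifting_property ((p 0).restrictScalars D)
      (LinearMap.id : W 0 →ₗ[D] W 0) (hp 0)
    exact ⟨g, fun w => LinearMap.congr_fun hg w⟩
  let ctx := AMctx (D := D) y n b b' ((p 0).restrictScalars D) σ0 hσ0 (hk 0) (h2 0)
  -- the bases of `V i`
  let bb : ∀ i, Module.Basis (Fin (Module.finrank D (V 0))) D (V i) := fun i => b.map (e i)
  let σ : ℕ → (R →ₐ[D] Matrix (Fin (Module.finrank D (V 0))) (Fin (Module.finrank D (V 0))) D) :=
    fun i => AMrho (bb i)
  -- the projections `V i → W 0`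
  let q : ∀ i, V i →ₗ[D] W 0 := fun i => ((p 0).restrictScalars D).comp (e i).symm.toLinearMap
  have he' : ∀ i j v, (e i).symm (y j • v) = y j • (e i).symm v := by
    intro i j v
    rw [LinearEquiv.symm_apply_eq, he, LinearEquiv.apply_symm_apply]
  have hqk : ∀ i v, q i v = 0 ↔ v ∈ Ideal.span (Set.range y) ^ n • (⊤ : Submodule R (V i)) := by
    intro i v
    show p 0 ((e i).symm v) = 0 ↔ _
    rw [hk 0]
    constructor
    · intro h
      have := AM_map_mem y (fun x => e i x) (map_zero (e i)) (map_add (e i)) (he i) n h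
      simpa using this
    · intro h
      exact AM_map_mem y (fun x => (e i).symm x) (map_zero (e i).symm) (map_add (e i).symm)
        (he' i) n h
  have hqs : ∀ i, Function.Surjective (q i) := fun i => (hp 0).comp (e i).symm.surjective
  have hPi : ∀ i, LinearMap.toMatrix (bb i) b' (q i) = ctx.Pi := by
    intro i
    show LinearMap.toMatrix (b.map (e i)) b' (q i) =
      LinearMap.toMatrix b b' ((p 0).restrictScalars D)
    ext r k
    rw [LinearMap.toMatrix_apply, LinearMap.toMatrix_apply]
    show b'.repr (p 0 ((e i).symm ((b.map (e i)) k))) r = _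
    rw [Module.Basis.map_apply, LinearEquiv.symm_apply_apply]
    rfl
  have hSg : ∀ i, LinearMap.toMatrix b' (bb i) ((e i).toLinearMap.comp σ0) = ctx.Sg := by
    intro i
    show LinearMap.toMatrix b' (b.map (e i)) ((e i).toLinearMap.comp σ0) =
      LinearMap.toMatrix b' b σ0
    ext r k
    rw [LinearMap.toMatrix_apply, LinearMap.toMatrix_apply]
    show b.repr ((e i).symm (e i (σ0 (b' k)))) r = _
    rw [LinearEquiv.symm_apply_apply]
  have hσ : ∀ m j, σ m (y j) = ctx.Y j := by
    intro m j
    show LinearMap.toMatrix (b.map (e m)) (b.map (e m)) (Algebra.lsmul D D (V m) (y j)) =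
      LinearMap.toMatrix b b (Algebra.lsmul D D (V 0) (y j))
    ext r k
    rw [LinearMap.toMatrix_apply, LinearMap.toMatrix_apply]
    show b.repr ((e m).symm (y j • ((b.map (e m)) k))) r = b.repr (y j • b k) r
    rw [he', Module.Basis.map_apply, LinearEquiv.symm_apply_apply]
  have hσlin : ∀ m a, Matrix.toLin (bb m) (bb m) (σ m a) =
      (Algebra.lsmul D D (V m) a : Module.End D (V m)) := by
    intro m a
    show Matrix.toLin (bb m) (bb m) (LinearMap.toMatrix (bb m) (bb m)
      (Algebra.lsmul D D (V m) a)) = _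
    rw [Matrix.toLin_toMatrix]
  obtain ⟨i, j, hij, G, hG, hGa⟩ := mat_main ctx y hfin σ hσ (by
    intro m c hc0 hcm
    obtain ⟨h, hh1, hh2⟩ := hrig m ((Matrix.toLin (bb m) (bb m)).toLinearMap.comp c)
      (by intro j; rw [LinearMap.comp_apply, hc0]; simp)
      (by
        intro a b v
        show Matrix.toLin (bb m) (bb m) (c (a * b)) v =
          a • Matrix.toLin (bb m) (bb m) (c b) v + Matrix.toLin (bb m) (bb m) (c a) (b • v)
        rw [hcm, map_add, Matrix.toLin_mul (bb m) (bb m) (bb m),
          Matrix.toLin_mul (bb m) (bb m) (bb m), hσlin, hσlin]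
        rfl)
    refine ⟨LinearMap.toMatrix (bb m) (bb m) h, ?_, ?_⟩
    · intro j
      rw [← hσ m j]
      show LinearMap.toMatrix (bb m) (bb m) h * AMrho (bb m) (y j) =
        AMrho (bb m) (y j) * LinearMap.toMatrix (bb m) (bb m) h
      rw [AMrho_mul_toMatrix, AMrho_toMatrix_mul]
      congr 1
      ext v
      exact hh1 j v
    · intro a
      rw [← hPi m]
      have hc : c a = LinearMap.toMatrix (bb m) (bb m) (Matrix.toLin (bb m) (bb m) (c a)) := by
        rw [LinearMap.toMatrix_toLin]
      rw [hc]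
      show LinearMap.toMatrix (bb m) b' (q m) * (LinearMap.toMatrix (bb m) (bb m)
        (Matrix.toLin (bb m) (bb m) (c a)) - (LinearMap.toMatrix (bb m) (bb m) h *
        AMrho (bb m) a - AMrho (bb m) a * LinearMap.toMatrix (bb m) (bb m) h)) = 0
      rw [AMrho_mul_toMatrix, AMrho_toMatrix_mul, ← map_sub, ← map_sub,
        ← LinearMap.toMatrix_comp]
      have hz : (q m).comp (Matrix.toLin (bb m) (bb m) (c a) -
          (h.comp (Algebra.lsmul D D (V m) a : Module.End D (V m)) -
          (Algebra.lsmul D D (V m) a : Module.End D (V m)).comp h)) = 0 := by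
        ext v
        exact (hqk m _).2 (hh2 a v)
      rw [hz, map_zero])
  refine ⟨i, j, hij, ?_⟩
  -- the automorphism `g` of `W 0`
  have hGu : IsUnit G := (Matrix.isUnit_iff_isUnit_det G).2 hG
  obtain ⟨G', hG'⟩ := hGu.exists_right_inv
  have hG'' : G' * G = 1 := mul_eq_one_comm.1 hG'
  let g : W 0 ≃ₗ[D] W 0 := LinearEquiv.ofLinearMap (Matrix.toLin b' b' G) (Matrix.toLin b' b' G')
    (by rw [← Matrix.toLin_mul, hG', Matrix.toLin_one]) (by rw [← Matrix.toLin_mul, hG'',
      Matrix.toLin_one])
  -- action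
  have hact : ∀ m a v, q m (a • v) =
      Matrix.toLin b' b' (ctx.Pi * σ m a * ctx.Sg) (q m v) := by
    intro m a v
    rw [← hPi m, ← hSg m]
    have h1 : Matrix.toLin b' b' (LinearMap.toMatrix (bb m) b' (q m) * σ m a *
        LinearMap.toMatrix b' (bb m) ((e m).toLinearMap.comp σ0)) =
        ((q m).comp (Algebra.lsmul D D (V m) a : Module.End D (V m))).comp
          ((e m).toLinearMap.comp σ0) := by
      rw [Matrix.toLin_mul b' (bb m) b', Matrix.toLin_mul (bb m) (bb m) b', hσlin,
        Matrix.toLin_toMatrix, Matrix.toLin_toMatrix]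
    rw [h1]
    show q m (a • v) = q m (a • (e m (σ0 (q m v))))
    rw [← sub_eq_zero, ← map_sub, ← smul_sub, hqk]
    refine Submodule.smul_mem _ _ ?_
    rw [← hqk, map_sub, sub_eq_zero]
    show q m v = p 0 ((e m).symm (e m (σ0 (q m v))))
    rw [LinearEquiv.symm_apply_apply]
    exact (hσ0 _).symm
  -- the comparison `W m ≃ W 0`
  have hT : ∀ m, ∃ T : W m ≃ₗ[D] W 0, ∀ v, T (p m v) = q m v := by
    intro m
    have hker : LinearMap.ker ((p m).restrictScalars D) = LinearMap.ker (q m) := by
      ext v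
      rw [LinearMap.mem_ker, LinearMap.mem_ker, hqk]
      exact hk m v
    refine ⟨(LinearMap.quotKerEquivOfSurjective ((p m).restrictScalars D) (hp m)).symm.trans
      ((Submodule.quotEquivOfEq _ _ hker).trans
        (LinearMap.quotKerEquivOfSurjective (q m) (hqs m))), fun v => ?_⟩
    have h1 : (LinearMap.quotKerEquivOfSurjective ((p m).restrictScalars D) (hp m)).symm
        (p m v) = Submodule.Quotient.mk v := by
      rw [LinearEquiv.symm_apply_eq]
      rfl
    rw [LinearEquiv.trans_apply, h1]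
    rfl
  choose T hT using hT
  let Ψ : W i ≃ₗ[D] W j := (T i).trans (g.trans (T j).symm)
  have hΨ : ∀ (a : R) (x : W i), Ψ (a • x) = a • Ψ x := by
    intro a x
    obtain ⟨v, rfl⟩ := hp i x
    obtain ⟨w, hw⟩ := hqs j (g (q i v))
    have h1 : Ψ (p i v) = p j w := by
      show (T j).symm (g (T i (p i v))) = p j w
      rw [LinearEquiv.symm_apply_eq, hT, hT, hw]
    rw [h1]
    show (T j).symm (g (T i (a • p i v))) = a • p j w
    rw [LinearEquiv.symm_apply_eq, ← map_smul, ← map_smul, hT, hT, hact, hact, hw]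
    show Matrix.toLin b' b' G (Matrix.toLin b' b' (ctx.Pi * σ i a * ctx.Sg) (q i v)) =
      Matrix.toLin b' b' (ctx.Pi * σ j a * ctx.Sg) (Matrix.toLin b' b' G (q i v))
    have h5 := congrArg (Matrix.toLin b' b') (hGa a)
    rw [Matrix.toLin_mul b' b' b', Matrix.toLin_mul b' b' b'] at h5
    exact LinearMap.congr_fun h5 (q i v)
  exact ⟨{ Ψ with map_smul' := hΨ }⟩


theorem AM_kill (I : Ideal R) (m : ℕ) {M : Type u} [AddCommGroup M] [Module R M] (x : R)
    (hx : x ∈ I ^ m) (v : Lv I m M) : x • v = 0 := by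
  obtain ⟨v, rfl⟩ := Submodule.Quotient.mk_surjective _ v
  rw [← Submodule.Quotient.mk_smul, Submodule.Quotient.mk_eq_zero]
  exact Submodule.smul_mem_smul hx trivial

end AbsAux

theorem abs_main {D : Type u} [CommRing D] [IsDomain D] [IsDiscreteValuationRing D]
    [Infinite (ResidueField D)] {R : Type u} [CommRing R] [Algebra D R] {l : ℕ}
    (y : Fin l → R) (n : ℕ) (hn : 1 ≤ n)
    (hfin : ∃ (g : ℕ) (r : Fin g → R), ∀ x : R, ∃ c : Fin g → D,
      x - ∑ i, c i • r i ∈ (Ideal.span (Set.range y)) ^ (2 * n))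
    (M : ℕ → Type u) [∀ i, AddCommGroup (M i)] [∀ i, Module R (M i)] [∀ i, Module D (M i)]
    [∀ i, IsScalarTower D R (M i)]
    (hN1 : ∀ i, Module.Finite D (Lv (Ideal.span (Set.range y)) (2 * n) (M i)))
    (hN2 : ∀ i, Module.Free D (Lv (Ideal.span (Set.range y)) (2 * n) (M i)))
    (hn1 : ∀ i, Module.Finite D (Lv (Ideal.span (Set.range y)) n (M i)))
    (hn2 : ∀ i, Module.Free D (Lv (Ideal.span (Set.range y)) n (M i)))
    (hiso : ∀ i, ∃ e : Lv (Ideal.span (Set.range y)) (2 * n) (M 0) ≃ₗ[D]
      Lv (Ideal.span (Set.range y)) (2 * n) (M i), ∀ j v, e (y j • v) = y j • e v)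
    (hrig : ∀ i, ApproxRigid D y n (M i)) :
    ∃ i j, i < j ∧ Nonempty (Lv (Ideal.span (Set.range y)) n (M i) ≃ₗ[R]
      Lv (Ideal.span (Set.range y)) n (M j)) := by
  have := hN1 0
  have := hN2 0
  have := hn1 0
  have := hn2 0
  choose e he using hiso
  refine AM_core (D := D) y n hn hfin
    (fun i => Lv (Ideal.span (Set.range y)) (2 * n) (M i))
    (fun i => Lv (Ideal.span (Set.range y)) n (M i))
    (fun i => projLv (Ideal.span (Set.range y)) (show n ≤ 2 * n by omega)) ?_ ?_ ?_ e he hrig
  · intro i x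
    obtain ⟨v, rfl⟩ := Submodule.Quotient.mk_surjective _ x
    exact ⟨Submodule.Quotient.mk v, rfl⟩
  · intro i x
    obtain ⟨v, rfl⟩ := Submodule.Quotient.mk_surjective _ x
    constructor
    · intro h
      have h1 : (Submodule.Quotient.mk v : Lv (Ideal.span (Set.range y)) n (M i)) = 0 := h
      rw [Submodule.Quotient.mk_eq_zero] at h1
      have h2 := Submodule.mem_map_of_mem
        (f := Submodule.mkQ (Ideal.span (Set.range y) ^ (2 * n) • (⊤ : Submodule R (M i)))) h1
      rw [Submodule.map_smul''] at h2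
      exact Submodule.smul_mono le_rfl le_top h2
    · intro h
      have h3 := Submodule.mem_map_of_mem
        (f := projLv (M := M i) (Ideal.span (Set.range y)) (show n ≤ 2 * n by omega)) h
      rw [Submodule.map_smul''] at h3
      refine Submodule.smul_induction_on h3 ?_ ?_
      · intro r hr w _
        exact AM_kill _ n r hr w
      · intro v w hv hw
        rw [hv, hw, add_zero]
  · intro i x hx v
    exact AM_kill _ (2 * n) x hx v

end H96.RM
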