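import Mathlib

/-!
# Job RM-E3: `R = S[x_1..x_n]` (helper96, MP_d7d607_ag)

Proof.  Let `A = Algebra.adjoin S (range x)`, viewed as an `S`-submodule `N` of `R`.  `happ` with exponent `c`:
`R = N + 𝔪_R^c ≤ N + 𝔪_S R`.  As `R` is a finite `S`-module and `𝔪_S` is the Jacobson radical of `S`, Nakayama gives `N = ⊤`
(`Submodule.le_of_le_smul_of_le_jacobson_bot`: `⊤ ≤ N ⊔ 𝔪_S • ⊤`; `IsLocalRing.maximalIdeal_le_jacobson`).
-/

set_option autoImplicit false
namespace H96.RM
universe u
open IsLocalRing

theorem adjoin_top {S R : Type u} [CommRing S] [CommRing R] [Algebra S R] [IsLocalRing S]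
    [IsLocalRing R] [Module.Finite S R] {n : ℕ} (x : Fin n → R)
    (happ : ∀ (r : R) (N : ℕ), ∃ p ∈ Algebra.adjoin S (Set.range x), r - p ∈ maximalIdeal R ^ N)
    (c : ℕ) (hc : maximalIdeal R ^ c ≤ (maximalIdeal S).map (algebraMap S R)) :
    Algebra.adjoin S (Set.range x) = ⊤ := by
  have key : (⊤ : Submodule S R) ≤ Subalgebra.toSubmodule (Algebra.adjoin S (Set.range x)) := by
    apply Submodule.le_of_le_smul_of_le_jacobson_bot (I := maximalIdeal S)
    · exact Module.Finite.fg_top
    · exact IsLocalRing.maximalIdeal_le_jacobson _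
    · intro r _
      obtain ⟨p, hp, hrp⟩ := happ r c
      have h1 : r - p ∈ (maximalIdeal S) • (⊤ : Submodule S R) := by
        have := hc hrp
        rw [Ideal.smul_top_eq_map]
        simpa using this
      have : r = p + (r - p) := by ring
      rw [this]
      exact Submodule.add_mem_sup (by simpa using hp) h1
  rw [eq_top_iff]
  intro r _
  exact key (Submodule.mem_top)

end H96.RM
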