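import Mathlib

/-!
# Job RM-E5: divided differences (helper96, MP_d7d607_ag)

`R = S[x_1..x_n]`, `F ∈ R` comes from `S`, `d F = ∑ a_j d x_j` in `Ω[R⁄S]`.  Then there are `T_j ∈ R ⊗[S] R` with
`∑ T_j (x_j ⊗ 1 - 1 ⊗ x_j) = 0` and `μ (T_j) = a_j`, `μ` the multiplication.

Proof.  Let `K = KaehlerDifferential.ideal S R = ker μ` (`μ = Algebra.TensorProduct.lmul' S`).
(a) `K` is generated by the elements `e_j = x_j ⊗ 1 - 1 ⊗ x_j`: the set of `r` with `r ⊗ 1 - 1 ⊗ r ∈ span {e_j}` is an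
`S`-subalgebra of `R` containing the `x_j` (`rs⊗1 - 1⊗rs = (r⊗1)(s⊗1 - 1⊗s) + (1⊗s)(r⊗1 - 1⊗r)`), hence everything;
and `K` is spanned by all `1 ⊗ r - r ⊗ 1` (`KaehlerDifferential.span_range_eq_ideal`).
(b) `Ω = K/K²` (`KaehlerDifferential` is `(ideal S R).Cotangent`, `D r` is the class of `1 ⊗ r - r ⊗ 1`,
`KaehlerDifferential.D_apply`; the `R`-module structure is through `a ↦ a ⊗ 1`, up to `K`).  `d F = 0`
(`F` comes from `S`), so `∑ a_j d x_j = 0` says `∑ (a_j ⊗ 1) e_j ∈ K²` (`Ideal.toCotangent_eq_zero`).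
(c) By (a) `K² = ∑ K e_j`: `∑ (a_j ⊗ 1) e_j = ∑ κ_j e_j` with `κ_j ∈ K`.  Put `T_j = a_j ⊗ 1 - κ_j`; `μ (T_j) = a_j`.
-/

set_option autoImplicit false
set_option linter.unusedVariables false

namespace H96.RM

universe u

open TensorProduct

theorem exT_mem {S R : Type u} [CommRing S] [CommRing R] [Algebra S R] {n : ℕ} (x : Fin n → R)
    (hadj : Algebra.adjoin S (Set.range x) = ⊤) (r : R) :
    r ⊗ₜ[S] (1 : R) - (1 : R) ⊗ₜ[S] r ∈
      Ideal.span (Set.range fun j => (x j) ⊗ₜ[S] (1 : R) - (1 : R) ⊗ₜ[S] (x j)) := by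
  have hr : r ∈ Algebra.adjoin S (Set.range x) := by rw [hadj]; trivial
  induction hr using Algebra.adjoin_induction with
  | mem y hy =>
    obtain ⟨j, rfl⟩ := hy
    exact Ideal.subset_span ⟨j, rfl⟩
  | algebraMap s =>
    rw [Algebra.TensorProduct.tmul_one_eq_one_tmul, sub_self]
    exact Ideal.zero_mem _
  | add a b _ _ ha hb =>
    have e : (a + b) ⊗ₜ[S] (1 : R) - (1 : R) ⊗ₜ[S] (a + b) =
        (a ⊗ₜ[S] (1 : R) - (1 : R) ⊗ₜ[S] a) + (b ⊗ₜ[S] (1 : R) - (1 : R) ⊗ₜ[S] b) := by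
      rw [TensorProduct.add_tmul, TensorProduct.tmul_add]
      ring
    rw [e]
    exact Ideal.add_mem _ ha hb
  | mul a b _ _ ha hb =>
    have e : (a * b) ⊗ₜ[S] (1 : R) - (1 : R) ⊗ₜ[S] (a * b) =
        (a ⊗ₜ[S] (1 : R)) * (b ⊗ₜ[S] (1 : R) - (1 : R) ⊗ₜ[S] b) +
          ((1 : R) ⊗ₜ[S] b) * (a ⊗ₜ[S] (1 : R) - (1 : R) ⊗ₜ[S] a) := by
      simp only [mul_sub, Algebra.TensorProduct.tmul_mul_tmul, one_mul, mul_one]
      rw [mul_comm b a]
      ring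
    rw [e]
    exact Ideal.add_mem _ (Ideal.mul_mem_left _ _ hb) (Ideal.mul_mem_left _ _ ha)

theorem exT_ideal {S R : Type u} [CommRing S] [CommRing R] [Algebra S R] {n : ℕ} (x : Fin n → R)
    (hadj : Algebra.adjoin S (Set.range x) = ⊤) :
    KaehlerDifferential.ideal S R ≤
      Ideal.span (Set.range fun j => (x j) ⊗ₜ[S] (1 : R) - (1 : R) ⊗ₜ[S] (x j)) := by
  rw [← KaehlerDifferential.span_range_eq_ideal, Ideal.span_le]
  rintro _ ⟨r, rfl⟩
  have h := exT_mem x hadj r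
  have h2 := Ideal.neg_mem_iff _ |>.mpr h
  rw [neg_sub] at h2
  exact h2

theorem exists_T {S R : Type u} [CommRing S] [CommRing R] [Algebra S R] {n : ℕ} (x : Fin n → R)
    (hadj : Algebra.adjoin S (Set.range x) = ⊤) (F : R) (hF : ∃ s : S, algebraMap S R s = F)
    (a : Fin n → R)
    (ha : KaehlerDifferential.D S R F = ∑ j, a j • KaehlerDifferential.D S R (x j)) :
    ∃ T : Fin n → R ⊗[S] R,
      (∑ j, T j * ((x j) ⊗ₜ[S] (1 : R) - (1 : R) ⊗ₜ[S] (x j)) = 0) ∧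
      ∀ j, Algebra.TensorProduct.lmul' S (T j) = a j := by
  obtain ⟨s, rfl⟩ := hF
  rw [Derivation.map_algebraMap] at ha
  -- the relation in the square of the ideal
  have h1 : ∑ j, (a j ⊗ₜ[S] (1 : R)) * ((1 : R) ⊗ₜ[S] (x j) - (x j) ⊗ₜ[S] (1 : R)) ∈
      (KaehlerDifferential.ideal S R) ^ 2 := by
    set y : Fin n → KaehlerDifferential.ideal S R := fun j =>
      ⟨(1 : R) ⊗ₜ[S] (x j) - (x j) ⊗ₜ[S] (1 : R),
        KaehlerDifferential.one_smul_sub_smul_one_mem_ideal S (x j)⟩ with hy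
    have h2 : KaehlerDifferential.fromIdeal S R (∑ j, (a j ⊗ₜ[S] (1 : R)) • y j) = 0 := by
      rw [map_sum, ha]
      refine Finset.sum_congr rfl fun j _ => ?_
      rw [map_smul]
      have h3 : KaehlerDifferential.fromIdeal S R (y j) = KaehlerDifferential.D S R (x j) := rfl
      rw [h3]
      have h4 : (a j ⊗ₜ[S] (1 : R)) = a j • (1 : R ⊗[S] R) := by
        rw [Algebra.TensorProduct.one_def, TensorProduct.smul_tmul', smul_eq_mul, mul_one]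
      rw [h4, smul_assoc, one_smul]
    have h5 := (Ideal.toCotangent_eq_zero (KaehlerDifferential.ideal S R) _).mp h2
    have h6 : ((∑ j, (a j ⊗ₜ[S] (1 : R)) • y j : KaehlerDifferential.ideal S R) : R ⊗[S] R) =
        ∑ j, (a j ⊗ₜ[S] (1 : R)) * ((1 : R) ⊗ₜ[S] (x j) - (x j) ⊗ₜ[S] (1 : R)) := by
      rw [Submodule.coe_sum]
      rfl
    rw [h6] at h5
    exact h5
  have h7 : (KaehlerDifferential.ideal S R) ^ 2 ≤ (KaehlerDifferential.ideal S R) •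
      Submodule.span (R ⊗[S] R)
        (Set.range fun j => (x j) ⊗ₜ[S] (1 : R) - (1 : R) ⊗ₜ[S] (x j)) := by
    rw [pow_two]
    exact Ideal.mul_mono le_rfl (exT_ideal x hadj)
  have h8 := h7 h1
  rw [Submodule.mem_ideal_smul_span_iff_exists_sum] at h8
  obtain ⟨κ, hκ, hsum⟩ := h8
  rw [Finsupp.sum_fintype] at hsum
  rotate_left
  · intro i
    exact zero_smul _ _
  refine ⟨fun j => a j ⊗ₜ[S] (1 : R) + κ j, ?_, ?_⟩
  · have h9 : ∑ j, (a j ⊗ₜ[S] (1 : R) + κ j) *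
        ((x j) ⊗ₜ[S] (1 : R) - (1 : R) ⊗ₜ[S] (x j)) =
        (∑ j, κ j • ((x j) ⊗ₜ[S] (1 : R) - (1 : R) ⊗ₜ[S] (x j))) -
        ∑ j, (a j ⊗ₜ[S] (1 : R)) * ((1 : R) ⊗ₜ[S] (x j) - (x j) ⊗ₜ[S] (1 : R)) := by
      rw [← Finset.sum_sub_distrib]
      refine Finset.sum_congr rfl fun j _ => ?_
      rw [smul_eq_mul]
      ring
    rw [h9, hsum, sub_self]
  · intro j
    have h10 : Algebra.TensorProduct.lmul' S (κ j) = 0 := hκ j
    rw [map_add, h10, add_zero, Algebra.TensorProduct.lmul'_apply_tmul, mul_one]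

end H96.RM
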