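import Mathlib
import Pool.Agent.H96.RM.FFLemma

/-!
# Job RM-E6: the determinant is in the Noether different (helper96, MP_d7d607_ag)

`R = S[x_1..x_n]`, `T` an `n × n` matrix over `A = R ⊗[S] R` with `∑_j T i j e_j = 0` for all `i`,
`e_j = x_j ⊗ 1 - 1 ⊗ x_j`; `M` an `R`-module, free of finite rank over `S`.  Then `μ (det T)` factors through a free module on `M`.

Proof.  `θ = det T`.  `adj(T) T = θ 1` gives `θ e_j = 0` for all `j` (`Matrix.adjugate_mul`).  So `θ (r ⊗ 1 - 1 ⊗ r) = 0` for all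
`r : R` (the set of such `r` is an `S`-subalgebra containing the `x_j`).
Write `θ = ∑ a_i ⊗ b_i` (finite sum).  Let `F = R ⊗[S] M`, an `R`-module through the left factor, free of finite rank
(`Module.Free R (R ⊗[S] M)`, `Module.Finite`), so `F ≃ (Fin m → R)`.  `F` is an `A`-module; define `ψ m = θ • (1 ⊗ m) = ∑ a_i ⊗ b_i m`.
`ψ` is `R`-linear: `ψ (r m) = θ (1 ⊗ r) (1 ⊗ m) = θ (r ⊗ 1) (1 ⊗ m) = r ψ m`.  (Concretely: for fixed `m` the map
`A → F`, `a ⊗ b ↦ a ⊗ (b m)` is additive, `TensorProduct.lift`/`LinearMap.lTensor`, apply it to `θ (r ⊗ 1 - 1 ⊗ r) = 0`.)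
The multiplication `β : F → M`, `r ⊗ m ↦ r m` is `R`-linear and
`β (ψ m) = ∑ a_i b_i m = μ(θ) m`.
-/

set_option autoImplicit false
set_option linter.unusedVariables false

namespace H96.RM

universe u

open TensorProduct

theorem fft_kill {S R : Type u} [CommRing S] [CommRing R] [Algebra S R] {n : ℕ} (x : Fin n → R)
    (hadj : Algebra.adjoin S (Set.range x) = ⊤) (θ : R ⊗[S] R)
    (hT : ∀ j, θ * ((x j) ⊗ₜ[S] (1 : R) - (1 : R) ⊗ₜ[S] (x j)) = 0) (r : R) :
    θ * (r ⊗ₜ[S] (1 : R) - (1 : R) ⊗ₜ[S] r) = 0 := by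
  have hr : r ∈ Algebra.adjoin S (Set.range x) := by rw [hadj]; trivial
  induction hr using Algebra.adjoin_induction with
  | mem y hy => obtain ⟨j, rfl⟩ := hy; exact hT j
  | algebraMap s =>
    have : (algebraMap S R s) ⊗ₜ[S] (1 : R) = (1 : R) ⊗ₜ[S] (algebraMap S R s) := by
      rw [Algebra.algebraMap_eq_smul_one, TensorProduct.smul_tmul]
    rw [this, sub_self, mul_zero]
  | add y z _ _ hy hz =>
    have : (y + z) ⊗ₜ[S] (1 : R) - (1 : R) ⊗ₜ[S] (y + z) =
        (y ⊗ₜ[S] (1 : R) - (1 : R) ⊗ₜ[S] y) + (z ⊗ₜ[S] (1 : R) - (1 : R) ⊗ₜ[S] z) := by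
      rw [TensorProduct.add_tmul, TensorProduct.tmul_add]; ring
    rw [this, mul_add, hy, hz, add_zero]
  | mul y z _ _ hy hz =>
    have : (y * z) ⊗ₜ[S] (1 : R) - (1 : R) ⊗ₜ[S] (y * z) =
        (y ⊗ₜ[S] (1 : R)) * (z ⊗ₜ[S] (1 : R) - (1 : R) ⊗ₜ[S] z) +
          ((1 : R) ⊗ₜ[S] z) * (y ⊗ₜ[S] (1 : R) - (1 : R) ⊗ₜ[S] y) := by
      rw [mul_sub, mul_sub]
      simp only [Algebra.TensorProduct.tmul_mul_tmul, one_mul, mul_one]
      rw [mul_comm z y]
      ring
    rw [this]
    linear_combination (y ⊗ₜ[S] (1 : R)) * hz + ((1 : R) ⊗ₜ[S] z) * hy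

theorem ff_of_T {S R : Type u} [CommRing S] [CommRing R] [Algebra S R] {n : ℕ} (x : Fin n → R)
    (hadj : Algebra.adjoin S (Set.range x) = ⊤) (T : Matrix (Fin n) (Fin n) (R ⊗[S] R))
    (hT : ∀ i, ∑ j, T i j * ((x j) ⊗ₜ[S] (1 : R) - (1 : R) ⊗ₜ[S] (x j)) = 0)
    (M : Type u) [AddCommGroup M] [Module R M] [Module S M] [IsScalarTower S R M]
    [Module.Free S M] [Module.Finite S M] :
    FF R M (Algebra.TensorProduct.lmul' S T.det) := by
  classical
  have h1 : ∀ j, T.det * ((x j) ⊗ₜ[S] (1 : R) - (1 : R) ⊗ₜ[S] (x j)) = 0 := by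
    intro j
    have hv : T.mulVec (fun j => (x j) ⊗ₜ[S] (1 : R) - (1 : R) ⊗ₜ[S] (x j)) = 0 := by
      funext i
      exact hT i
    have h2 : (T.adjugate * T).mulVec (fun j => (x j) ⊗ₜ[S] (1 : R) - (1 : R) ⊗ₜ[S] (x j)) = 0 := by
      rw [← Matrix.mulVec_mulVec, hv, Matrix.mulVec_zero]
    rw [Matrix.adjugate_mul, Matrix.smul_mulVec, Matrix.one_mulVec] at h2
    exact congrFun h2 j
  generalize T.det = θ at h1
  have h2 := fft_kill x hadj θ h1
  rcases subsingleton_or_nontrivial R with hs | hn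
  · refine ⟨0, 0, 0, fun m => ?_⟩
    have : Subsingleton M := Module.subsingleton R M
    exact Subsingleton.elim _ _
  let f : M → (R →ₗ[S] M) := fun m => (LinearMap.toSpanSingleton R M m).restrictScalars S
  have hf : ∀ m b, f m b = b • m := fun m b => rfl
  let G : M → (R ⊗[S] R →ₗ[R] R ⊗[S] M) := fun m => LinearMap.baseChange R (f m)
  have hG : ∀ m a b, G m (a ⊗ₜ b) = a ⊗ₜ (b • m) := fun m a b => by
    show LinearMap.baseChange R (f m) (a ⊗ₜ b) = _
    rw [LinearMap.baseChange_tmul, hf]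
  have hadd' : ∀ m m' (t : R ⊗[S] R), G (m + m') t = G m t + G m' t := by
    intro m m' t
    induction t using TensorProduct.induction_on with
    | zero => rw [map_zero, map_zero, map_zero, add_zero]
    | tmul a b => rw [hG, hG, hG, smul_add, TensorProduct.tmul_add]
    | add u v hu hv => rw [map_add, map_add, map_add, hu, hv]; abel
  have hadd : ∀ m m', G (m + m') θ = G m θ + G m' θ := fun m m' => hadd' m m' θ
  have hsm' : ∀ (r : R) m (t : R ⊗[S] R), G (r • m) t = G m (((1 : R) ⊗ₜ[S] r) * t) := by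
    intro r m t
    induction t using TensorProduct.induction_on with
    | zero => rw [mul_zero, map_zero, map_zero]
    | tmul a b =>
      rw [Algebra.TensorProduct.tmul_mul_tmul, hG, hG, one_mul, smul_smul, mul_comm r b]
    | add u v hu hv => rw [map_add, mul_add, map_add, hu, hv]
  have hsm : ∀ (r : R) m, G (r • m) θ = r • G m θ := by
    intro r m
    have h3 : ((1 : R) ⊗ₜ[S] r) * θ = r • θ := by
      rw [Algebra.smul_def, Algebra.TensorProduct.algebraMap_apply, Algebra.algebraMap_self,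
        RingHom.id_apply]
      linear_combination -(h2 r)
    rw [hsm', h3, map_smul]
  let ψ : M →ₗ[R] R ⊗[S] M :=
    { toFun := fun m => G m θ
      map_add' := hadd
      map_smul' := hsm }
  let b := Module.finBasis R (R ⊗[S] M)
  let β : R ⊗[S] M →ₗ[R] M := LinearMap.liftBaseChange R (LinearMap.id : M →ₗ[S] M)
  refine ⟨_, b.equivFun.toLinearMap ∘ₗ ψ, β ∘ₗ b.equivFun.symm.toLinearMap, fun m => ?_⟩
  show β (b.equivFun.symm (b.equivFun (ψ m))) = _
  rw [LinearEquiv.symm_apply_apply]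
  show β (G m θ) = _
  have hfin : ∀ t : R ⊗[S] R, β (G m t) = Algebra.TensorProduct.lmul' S t • m := by
    intro t
    induction t using TensorProduct.induction_on with
    | zero => rw [map_zero, map_zero, map_zero, zero_smul]
    | tmul a b =>
      rw [hG, Algebra.TensorProduct.lmul'_apply_tmul]
      show LinearMap.liftBaseChange R (LinearMap.id : M →ₗ[S] M) (a ⊗ₜ (b • m)) = _
      rw [LinearMap.liftBaseChange_tmul, LinearMap.id_apply, smul_smul]
    | add u v hu hv => rw [map_add, map_add, map_add, add_smul, hu, hv]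
  exact hfin θ

end H96.RM
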