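import Mathlib

/-!
# Job RM-E2: finiteness over power series rings (helper96, MP_d7d607_ag)

`finite_of_sop`: `φ : k[[Y_1..Y_d]] → R`, `R` Noetherian local with residue field `k` (`hres`), `φ (Y_i) ∈ 𝔪`,
`𝔪^c ≤ (φ Y)`: then `φ` is finite.
Proof.  Let `S = k[[Y]]`, `𝔫 = (Y)`.  `R/𝔫R` is a quotient of `R/𝔪^c`, which is a finite-dimensional `k`-vector space
(`𝔪^i/𝔪^(i+1)` is finitely generated over `R/𝔪 = k`); choose `r_1..r_g ∈ R` with `R = ∑ k r_i + 𝔫R`.  Then every `x ∈ R` is
`∑ φ(s_i) r_i` with `s_i ∈ S`: Mathlib's `surjective_of_mkQ_comp_surjective` (file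
`Mathlib/RingTheory/AdicCompletion/Functoriality.lean`, `[IsPrecomplete I M] [IsHausdorff I N]`) applied to
`S^g → R`, with `S` precomplete for `𝔫` (`MvPowerSeries`: `toAdicCompletionAlgEquiv` in `MvPowerSeries/Equiv.lean`, or construct the limits
coefficientwise: elements of `𝔫^m` have no terms of degree `< m`, and a series with no terms of degree `< m` is in `𝔫^m`), `R` Hausdorff
for `𝔫R ≤ 𝔪` (Krull).  Alternatively by hand: `x = ∑ c_i r_i + ∑_j φ(Y_j) x_j`, iterate: `x = ∑_i φ(s_i^{(m)}) r_i + (element of 𝔪^m)` with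
`s_i^{(m+1)} - s_i^{(m)}` homogeneous of degree `m`, let `s_i` be the limit, `φ (s_i) - φ (s_i^{(m)}) ∈ 𝔪^m`, and conclude by
`⋂ 𝔪^m = 0`.
-/

set_option autoImplicit false
set_option linter.unusedVariables false

namespace H96.RM

universe u

open IsLocalRing

variable {k : Type u} [Field k] {R : Type u} [CommRing R] [IsLocalRing R] [IsNoetherianRing R]

/-- a finite power of a precomplete module over itself is precomplete -/
private theorem e2_prec {d : ℕ} (ι : Type*) [Fintype ι] :
    IsPrecomplete (Ideal.span (Set.range MvPowerSeries.X) : Ideal (MvPowerSeries (Fin d) k))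
      (ι → MvPowerSeries (Fin d) k) := by
  classical
  have hmem : ∀ (J : Ideal (MvPowerSeries (Fin d) k)) (v : ι → MvPowerSeries (Fin d) k),
      v ∈ (J • ⊤ : Submodule (MvPowerSeries (Fin d) k) (ι → MvPowerSeries (Fin d) k)) ↔
        ∀ i, v i ∈ J := by
    intro J v
    constructor
    · intro hv i
      induction hv using Submodule.smul_induction_on' with
      | smul r hr n hn => exact J.mul_mem_right _ hr
      | add x hx y hy h1 h2 => exact J.add_mem h1 h2
    · intro hv
      rw [pi_eq_sum_univ' v]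
      exact Submodule.sum_mem _ fun i _ => Submodule.smul_mem_smul (hv i) trivial
  refine ⟨fun f hf => ?_⟩
  have h1 : ∀ i, ∃ L : MvPowerSeries (Fin d) k, ∀ n, f n i ≡ L
      [SMOD ((Ideal.span (Set.range MvPowerSeries.X) : Ideal (MvPowerSeries (Fin d) k)) ^ n • ⊤ :
        Submodule (MvPowerSeries (Fin d) k) (MvPowerSeries (Fin d) k))] := by
    intro i
    refine IsPrecomplete.prec' (fun n => f n i) ?_
    intro m n hmn
    have h2 := hf hmn
    rw [SModEq.sub_mem, hmem] at h2
    rw [SModEq.sub_mem, smul_eq_mul, Ideal.mul_top]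
    exact h2 i
  choose L hL using h1
  refine ⟨L, fun n => ?_⟩
  rw [SModEq.sub_mem, hmem]
  intro i
  have h3 := hL i n
  rw [SModEq.sub_mem, smul_eq_mul, Ideal.mul_top] at h3
  exact h3

/-- generators modulo `𝔪^m` -/
private theorem e2_fin {d : ℕ} (φ : MvPowerSeries (Fin d) k →+* R)
    (hres : ∀ r : R, ∃ c : k, r - φ (MvPowerSeries.C c) ∈ maximalIdeal R)
    [Algebra (MvPowerSeries (Fin d) k) R]
    (hsmul : ∀ (s : MvPowerSeries (Fin d) k) (r : R), s • r = φ s * r) (m : ℕ) :
    ∃ T : Finset R, ∀ x : R, ∃ z ∈ Submodule.span (MvPowerSeries (Fin d) k) (T : Set R),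
      x - z ∈ maximalIdeal R ^ m := by
  classical
  induction m with
  | zero =>
    refine ⟨∅, fun x => ⟨0, Submodule.zero_mem _, ?_⟩⟩
    rw [pow_zero, Ideal.one_eq_top]
    trivial
  | succ m ih =>
    obtain ⟨T, hT⟩ := ih
    obtain ⟨G, hG⟩ := IsNoetherian.noetherian (maximalIdeal R ^ m)
    have hGm : ∀ z ∈ Submodule.span (MvPowerSeries (Fin d) k) (G : Set R),
        z ∈ maximalIdeal R ^ m := by
      intro z hz
      induction hz using Submodule.span_induction with
      | mem x hx =>
        rw [← hG]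
        exact Submodule.subset_span hx
      | zero => exact Submodule.zero_mem _
      | add x y _ _ h1 h2 => exact Ideal.add_mem _ h1 h2
      | smul a x _ h1 =>
        rw [hsmul]
        exact Ideal.mul_mem_left _ _ h1
    have hstep : ∀ y ∈ maximalIdeal R ^ m,
        ∃ z ∈ Submodule.span (MvPowerSeries (Fin d) k) (G : Set R),
          y - z ∈ maximalIdeal R ^ (m + 1) := by
      intro y hy
      rw [← hG] at hy
      induction hy using Submodule.span_induction with
      | mem x hx => exact ⟨x, Submodule.subset_span hx, by rw [sub_self]; exact zero_mem _⟩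
      | zero => exact ⟨0, Submodule.zero_mem _, by rw [sub_self]; exact zero_mem _⟩
      | add x y _ _ h1 h2 =>
        obtain ⟨z, hz, h1⟩ := h1
        obtain ⟨w, hw, h2⟩ := h2
        refine ⟨z + w, Submodule.add_mem _ hz hw, ?_⟩
        have e : x + y - (z + w) = (x - z) + (y - w) := by ring
        rw [e]
        exact Ideal.add_mem _ h1 h2
      | smul a x _ h1 =>
        obtain ⟨z, hz, h1⟩ := h1
        obtain ⟨c, hc⟩ := hres a
        refine ⟨(MvPowerSeries.C c : MvPowerSeries (Fin d) k) • z,
          Submodule.smul_mem _ _ hz, ?_⟩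
        have e : a • x - (MvPowerSeries.C c : MvPowerSeries (Fin d) k) • z =
            a * (x - z) + (a - φ (MvPowerSeries.C c)) * z := by
          rw [hsmul, smul_eq_mul]
          ring
        rw [e]
        refine Ideal.add_mem _ (Ideal.mul_mem_left _ _ h1) ?_
        rw [pow_succ']
        exact Ideal.mul_mem_mul hc (hGm z hz)
    refine ⟨T ∪ G, fun x => ?_⟩
    obtain ⟨z, hz, h1⟩ := hT x
    obtain ⟨w, hw, h2⟩ := hstep _ h1
    refine ⟨z + w, Submodule.add_mem _ ?_ ?_, ?_⟩
    · exact Submodule.span_mono (by rw [Finset.coe_union]; exact Set.subset_union_left) hz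
    · exact Submodule.span_mono (by rw [Finset.coe_union]; exact Set.subset_union_right) hw
    · rw [← sub_sub]
      exact h2

theorem finite_of_sop {d : ℕ} (φ : MvPowerSeries (Fin d) k →+* R)
    (hres : ∀ r : R, ∃ c : k, r - φ (MvPowerSeries.C c) ∈ maximalIdeal R)
    (hm : ∀ i, φ (MvPowerSeries.X i) ∈ maximalIdeal R) (c : ℕ)
    (hc : maximalIdeal R ^ c ≤ Ideal.span (Set.range fun i => φ (MvPowerSeries.X i))) :
    φ.Finite := by
  let _ : Algebra (MvPowerSeries (Fin d) k) R := φ.toAlgebra
  have halg : ∀ s : MvPowerSeries (Fin d) k, algebraMap (MvPowerSeries (Fin d) k) R s = φ s :=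
    fun s => rfl
  have hsmul : ∀ (s : MvPowerSeries (Fin d) k) (r : R), s • r = φ s * r := fun s r => rfl
  have hmap : Ideal.map (algebraMap (MvPowerSeries (Fin d) k) R)
      (Ideal.span (Set.range MvPowerSeries.X)) =
        Ideal.span (Set.range fun i => φ (MvPowerSeries.X i)) := by
    rw [Ideal.map_span, ← Set.range_comp]
    rfl
  have hhaus : IsHausdorff (Ideal.span (Set.range MvPowerSeries.X) :
      Ideal (MvPowerSeries (Fin d) k)) R := by
    have : Ideal.map (algebraMap (MvPowerSeries (Fin d) k) R)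
      (Ideal.span (Set.range MvPowerSeries.X)) ≤ maximalIdeal R := by
      rw [hmap, Ideal.span_le]
      rintro _ ⟨i, rfl⟩
      exact hm i
    exact IsHausdorff.of_map this
  obtain ⟨T, hT⟩ := e2_fin φ hres hsmul c
  have hprec := e2_prec (k := k) (d := d) T
  have hsurj : Function.Surjective
      (Fintype.linearCombination (MvPowerSeries (Fin d) k) (fun t : T => (t : R))) := by
    refine surjective_of_mkQ_comp_surjective
      (I := (Ideal.span (Set.range MvPowerSeries.X) : Ideal (MvPowerSeries (Fin d) k))) ?_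
    intro q
    obtain ⟨x, rfl⟩ := Submodule.mkQ_surjective _ q
    obtain ⟨z, hz, hxz⟩ := hT x
    have hz' : z ∈ Submodule.span (MvPowerSeries (Fin d) k)
        (Set.range (fun t : T => (t : R))) := by
      rwa [Subtype.range_coe_subtype]
    rw [← Fintype.range_linearCombination] at hz'
    obtain ⟨v, hv⟩ := hz'
    refine ⟨v, ?_⟩
    rw [LinearMap.comp_apply, hv]
    refine (Submodule.Quotient.eq _).2 ?_
    rw [Ideal.smul_top_eq_map, Submodule.restrictScalars_mem, hmap]
    rw [← neg_sub]
    exact neg_mem (hc hxz)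
  have hfin : Module.Finite (MvPowerSeries (Fin d) k) R := Module.Finite.of_surjective _ hsurj
  exact hfin

end H96.RM
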