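import Mathlib
import Pool.Agent.H96.RM.PiLemma

/-!
# Job RM-E4: differentials of power series (helper96, MP_d7d607_ag)

`π : k[[X_1..X_n]] → R` surjective, `R` Noetherian local, finite over `S`, the constants `π (C c)` come from `S`.  Then
`d (π F) = ∑_j π (∂_j F) d (π X_j)` in `Ω[R⁄S]`.

Proof.  Both sides are additive maps `δ₁, δ₂ : k[[X]] → Ω[R⁄S]` satisfying the product rule
`δ (F G) = π F • δ G + π G • δ F` and vanishing on constants (`KaehlerDifferential.D` kills the image of `S`,
`MvPowerSeries.pderiv` is a derivation).  They agree on the variables (`MvPowerSeries.pderiv_X`), hence on polynomials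
(`MvPolynomial.induction_on`).  Let `δ = δ₁ - δ₂`.  `Ω[R⁄S]` is a finite `R`-module (`R` is of finite type over `S`).
Claim: `δ F ∈ 𝔪^N Ω` for all `N`; then `δ F = 0` by Krull (`Ideal.iInf_pow_smul_eq_bot_of_isLocalRing`,
`IsHausdorff`).  For the claim write `F = p + G` with `p` a polynomial and `G` a sum of products of `N + 1` series with zero
constant coefficient (`G` has no terms of degree `≤ N`; e.g. `G = ∑_{|α| = N+1} X^α G_α`, see `MvPowerSeries.truncTotal`,
`truncTotal_sub_truncTotal_mem_pow_idealOfVars`, or prove by induction on `N` that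
`F - (polynomial) ∈ (Ideal.span (range X))^(N+1)` starting from: a series with zero constant
coefficient is in `span (range X)`).  The product rule gives `δ (𝔫^(N+1)) ⊆ 𝔪^N Ω` (`𝔫 = span (range X)`, `π 𝔫 ≤ 𝔪`; induction on `N`).
-/

set_option autoImplicit false
set_option linter.unusedVariables false

namespace H96.RM

universe u

open IsLocalRing

/-- A power series with zero constant coefficient is in the ideal generated by the variables. -/
theorem omega_mem_span {k : Type u} [Field k] {n : ℕ} (F : MvPowerSeries (Fin n) k)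
    (hF : MvPowerSeries.constantCoeff F = 0) :
    ∃ a : Fin n → MvPowerSeries (Fin n) k, F = ∑ j, a j * MvPowerSeries.X j := by
  classical
  let G : Fin n → MvPowerSeries (Fin n) k := fun j d =>
    if (∀ i < j, d i = 0) then MvPowerSeries.coeff (d + Finsupp.single j 1) F else 0
  have hG : ∀ j d, MvPowerSeries.coeff d (G j) =
      if (∀ i < j, d i = 0) then MvPowerSeries.coeff (d + Finsupp.single j 1) F else 0 :=
    fun j d => rfl
  refine ⟨G, ?_⟩
  ext d
  rw [map_sum]
  have hterm : ∀ j, MvPowerSeries.coeff d (G j * MvPowerSeries.X j) =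
      if 1 ≤ d j ∧ (∀ i < j, d i = 0) then MvPowerSeries.coeff d F else 0 := by
    intro j
    by_cases h1 : 1 ≤ d j
    · have hle : Finsupp.single j 1 ≤ d := by
        rw [Finsupp.single_le_iff]; exact h1
      obtain ⟨e, rfl⟩ : ∃ e, d = e + Finsupp.single j 1 :=
        ⟨d - Finsupp.single j 1, (tsub_add_cancel_of_le hle).symm⟩
      rw [MvPowerSeries.X, MvPowerSeries.coeff_add_mul_monomial, mul_one, hG]
      by_cases h2 : ∀ i < j, e i = 0
      · rw [if_pos h2, if_pos]
        refine ⟨h1, fun i hi => ?_⟩
        simp [h2 i hi, hi.ne']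
      · rw [if_neg h2, if_neg]
        rintro ⟨_, h3⟩
        apply h2
        intro i hi
        have := h3 i hi
        simp only [Finsupp.coe_add, Pi.add_apply, Nat.add_eq_zero_iff] at this
        exact this.1
    · rw [if_neg (fun h => h1 h.1), MvPowerSeries.X, MvPowerSeries.coeff_mul_monomial, if_neg]
      rw [Finsupp.single_le_iff]; exact h1
  rw [Finset.sum_congr rfl fun j _ => hterm j]
  by_cases hd : d = 0
  · subst hd
    rw [MvPowerSeries.coeff_zero_eq_constantCoeff_apply, hF]
    simp
  · obtain ⟨j0, hj0⟩ := Finsupp.ne_iff.mp hd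
    have hne : (Finset.univ.filter fun j => d j ≠ 0).Nonempty :=
      ⟨j0, by simpa using hj0⟩
    set m := (Finset.univ.filter fun j => d j ≠ 0).min' hne with hm
    have hm1 : d m ≠ 0 := by
      have := Finset.min'_mem _ hne
      rw [← hm] at this
      simpa using this
    have hm2 : ∀ i < m, d i = 0 := by
      intro i hi
      by_contra h
      have : m ≤ i := Finset.min'_le _ _ (by simpa using h)
      exact absurd hi (not_lt.mpr this)
    rw [Finset.sum_eq_single m]
    · rw [if_pos ⟨Nat.one_le_iff_ne_zero.mpr hm1, hm2⟩]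
    · intro j _ hj
      rw [if_neg]
      rintro ⟨h1, h2⟩
      rcases lt_or_gt_of_ne hj with h | h
      · have := hm2 j h
        omega
      · exact hm1 (h2 m h)
    · intro h
      exact absurd (Finset.mem_univ m) h

theorem omega_formula {k : Type u} [Field k] {S R : Type u} [CommRing S] [CommRing R]
    [Algebra S R] [IsLocalRing R] [IsNoetherianRing R] [Module.Finite S R] {n : ℕ}
    (π : MvPowerSeries (Fin n) k →+* R) (hπ : Function.Surjective π)
    (hS : ∀ c : k, ∃ s : S, algebraMap S R s = π (MvPowerSeries.C c))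
    (F : MvPowerSeries (Fin n) k) :
    KaehlerDifferential.D S R (π F) =
      ∑ j, π (MvPowerSeries.pderiv k j F) • KaehlerDifferential.D S R (π (MvPowerSeries.X j)) := by
  classical
  -- the difference of the two sides
  let δ : MvPowerSeries (Fin n) k → Ω[R⁄S] := fun F =>
    KaehlerDifferential.D S R (π F) -
      ∑ j, π (MvPowerSeries.pderiv k j F) • KaehlerDifferential.D S R (π (MvPowerSeries.X j))
  have hδ : ∀ F, δ F = KaehlerDifferential.D S R (π F) -
      ∑ j, π (MvPowerSeries.pderiv k j F) • KaehlerDifferential.D S R (π (MvPowerSeries.X j)) :=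
    fun F => rfl
  have hadd : ∀ F G, δ (F + G) = δ F + δ G := by
    intro F G
    simp only [hδ, map_add, add_smul, Finset.sum_add_distrib]
    abel
  have hzero : δ 0 = 0 := by
    simp [hδ]
  have hmul : ∀ F G, δ (F * G) = π F • δ G + π G • δ F := by
    intro F G
    simp only [hδ, map_mul, Derivation.leibniz, smul_eq_mul, map_add, add_smul,
      Finset.sum_add_distrib, smul_sub, Finset.smul_sum, smul_smul]
    abel
  have hC : ∀ c, δ (MvPowerSeries.C c) = 0 := by
    intro c
    obtain ⟨s, hs⟩ := hS c
    rw [hδ, ← hs, Derivation.map_algebraMap]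
    simp
  have hX : ∀ i, δ (MvPowerSeries.X i) = 0 := by
    intro i
    rw [hδ, Finset.sum_eq_single i]
    · simp
    · intro j _ hj
      rw [MvPowerSeries.pderiv_X_of_ne hj.symm, map_zero, zero_smul]
    · intro h
      exact absurd (Finset.mem_univ i) h
  have hsum : ∀ (s : Finset (Fin n)) (f : Fin n → MvPowerSeries (Fin n) k),
      δ (∑ j ∈ s, f j) = ∑ j ∈ s, δ (f j) := by
    intro s f
    induction s using Finset.induction_on with
    | empty => simpa using hzero
    | insert a s ha ih => rw [Finset.sum_insert ha, Finset.sum_insert ha, hadd, ih]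
  have hN : ∀ (N : ℕ) (F : MvPowerSeries (Fin n) k),
      δ F ∈ ((maximalIdeal R) ^ N • ⊤ : Submodule R (Ω[R⁄S])) := by
    intro N
    induction N with
    | zero => intro F; simp
    | succ N ih =>
      intro F
      obtain ⟨a, ha⟩ := omega_mem_span (F - MvPowerSeries.C (MvPowerSeries.constantCoeff F))
        (by simp)
      have hF : F = MvPowerSeries.C (MvPowerSeries.constantCoeff F) +
          ∑ j, a j * MvPowerSeries.X j := by
        rw [← ha]; ring
      rw [hF, hadd, hC, zero_add, hsum]
      refine Submodule.sum_mem _ fun j _ => ?_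
      rw [hmul, hX, smul_zero, zero_add, pow_succ', mul_smul]
      exact Submodule.smul_mem_smul (pi_mem π hπ _ (by simp)) (ih _)
  have hbot : δ F ∈ (⊥ : Submodule R (Ω[R⁄S])) := by
    rw [← Ideal.iInf_pow_smul_eq_bot_of_isLocalRing (M := Ω[R⁄S]) (maximalIdeal R)
      (Ideal.IsPrime.ne_top inferInstance)]
    rw [Submodule.mem_iInf]
    exact fun N => hN N F
  rw [Submodule.mem_bot, hδ, sub_eq_zero] at hbot
  exact hbot

end H96.RM
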