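import Mathlib
import Pool.Agent.H96.RM.PiLemma

/-!
# Job RM-E1b: quotients of power series rings II (helper96, MP_d7d607_ag)

`π : k[[X_1..X_n]] → R` surjective, `R` local.
* `pi_approx`: for every `F` and `N` there is a polynomial `p` with `π F - π p ∈ 𝔪^N`
  (`MvPowerSeries.truncTotal` in `Mathlib/RingTheory/MvPowerSeries/Trunc.lean`, `Equiv.lean`: a power series with no terms of degree `< N` is a
  finite sum `∑_{|α| = N} X^α G_α`; or by induction on `N` from `pi_span`: `F = C c + ∑ X_j G_j`, approximate the `G_j`
  to order `N - 1`).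
* `pi_dim`: `dim R ≤ n` (`ringKrullDim R = height 𝔪 ≤ n` by Krull's height theorem and `pi_span`;
  `ringKrullDim_le_ringKrullDim_add_card`, `Ideal.height_le_spanRank`).

Status: complete (helper26).
-/

set_option autoImplicit false
set_option linter.unusedVariables false

namespace H96.RM

universe u

open IsLocalRing

variable {k : Type u} [Field k] {R : Type u} [CommRing R] {n : ℕ}
  (π : MvPowerSeries (Fin n) k →+* R) (hπ : Function.Surjective π)

include hπ

theorem pi_approx [IsLocalRing R] (F : MvPowerSeries (Fin n) k) (N : ℕ) :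
    ∃ p : MvPolynomial (Fin n) k, π F - π (p : MvPowerSeries (Fin n) k) ∈ maximalIdeal R ^ N := by
  induction N generalizing F with
  | zero => exact ⟨0, by simp⟩
  | succ N ih =>
    have h0 : π (F - MvPowerSeries.C (MvPowerSeries.constantCoeff F)) ∈ maximalIdeal R := by
      apply pi_mem π hπ
      simp
    rw [← pi_span π hπ, Ideal.mem_span_range_iff_exists_fun] at h0
    obtain ⟨c, hc⟩ := h0
    choose G hG using fun j => hπ (c j)
    choose p hp using fun j => ih (G j)
    refine ⟨MvPolynomial.C (MvPowerSeries.constantCoeff F) + ∑ j, p j * MvPolynomial.X j, ?_⟩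
    have hX : ∀ j : Fin n, π (MvPowerSeries.X j) ∈ maximalIdeal R := fun j => by
      rw [← pi_span π hπ]
      exact Ideal.subset_span ⟨j, rfl⟩
    have hF : π F = π (MvPowerSeries.C (MvPowerSeries.constantCoeff F)) +
        ∑ j, π (G j) * π (MvPowerSeries.X j) := by
      have h1 : ∑ j, π (G j) * π (MvPowerSeries.X j) =
          π (F - MvPowerSeries.C (MvPowerSeries.constantCoeff F)) := by
        rw [← hc]
        exact Finset.sum_congr rfl fun j _ => by rw [hG]
      rw [h1, map_sub]
      ring
    have hp' : π ((MvPolynomial.C (MvPowerSeries.constantCoeff F) +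
        ∑ j, p j * MvPolynomial.X j : MvPolynomial (Fin n) k) : MvPowerSeries (Fin n) k) =
        π (MvPowerSeries.C (MvPowerSeries.constantCoeff F)) +
        ∑ j, π (p j : MvPowerSeries (Fin n) k) * π (MvPowerSeries.X j) := by
      have h2 : ((MvPolynomial.C (MvPowerSeries.constantCoeff F) +
          ∑ j, p j * MvPolynomial.X j : MvPolynomial (Fin n) k) : MvPowerSeries (Fin n) k) =
          MvPowerSeries.C (MvPowerSeries.constantCoeff F) +
          ∑ j, (p j : MvPowerSeries (Fin n) k) * MvPowerSeries.X j := by
        rw [MvPolynomial.coe_add, MvPolynomial.coe_C]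
        congr 1
        have h3 := map_sum (MvPolynomial.coeToMvPowerSeries.ringHom (σ := Fin n) (R := k))
          (fun j => p j * MvPolynomial.X j) Finset.univ
        simp only [MvPolynomial.coeToMvPowerSeries.ringHom_apply] at h3
        rw [h3]
        refine Finset.sum_congr rfl fun j _ => ?_
        rw [MvPolynomial.coe_mul, MvPolynomial.coe_X]
      rw [h2, map_add, map_sum]
      congr 1
      exact Finset.sum_congr rfl fun j _ => map_mul π _ _
    have h4 : π F - π ((MvPolynomial.C (MvPowerSeries.constantCoeff F) +
        ∑ j, p j * MvPolynomial.X j : MvPolynomial (Fin n) k) : MvPowerSeries (Fin n) k) =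
        ∑ j, (π (G j) - π (p j : MvPowerSeries (Fin n) k)) * π (MvPowerSeries.X j) := by
      rw [hF, hp', add_sub_add_left_eq_sub, ← Finset.sum_sub_distrib]
      exact Finset.sum_congr rfl fun j _ => by ring
    rw [h4, pow_succ]
    exact Ideal.sum_mem _ fun j _ => Ideal.mul_mem_mul (hp j) (hX j)

theorem pi_dim [IsLocalRing R] : ringKrullDim R ≤ (n : ℕ) := by
  haveI := pi_isNoetherian π hπ
  rw [← IsLocalRing.maximalIdeal_height_eq_ringKrullDim]
  have h1 : (maximalIdeal R).height ≤ (n : ℕ∞) := by
    refine (Ideal.height_le_spanFinrank (maximalIdeal R) (maximalIdeal.isMaximal R).ne_top).trans ?_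
    have h2 : (maximalIdeal R).spanFinrank ≤ n := by
      rw [← pi_span π hπ]
      refine (Submodule.spanFinrank_span_le_ncard_of_finite (Set.finite_range _)).trans ?_
      refine (Set.ncard_le_ncard (t := Set.range fun j : Fin n => π (MvPowerSeries.X j)) ?_ ?_).trans ?_
      · exact subset_rfl
      · exact Set.finite_range _
      · rw [← Set.image_univ]
        refine (Set.ncard_image_le (Set.toFinite _)).trans ?_
        rw [Set.ncard_univ]
        simp
    exact_mod_cast h2
  exact_mod_cast h1

end H96.RM
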