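import Mathlib

/-!
# Job RM-E1c: quotients of power series rings III, substitution (helper96, MP_d7d607_ag)

* `exists_subst`: for `g_i` with zero constant coefficient there is `φ : k[[Y_1..Y_d]] → R` with `φ (Y_i) = π (g_i)`,
  `φ (C c) = π (C c)`: `π` composed with `MvPowerSeries.substAlgHom` (`MvPowerSeries.hasSubst_of_constantCoeff_zero`,
  `MvPowerSeries.substAlgHom_X`).
-/

set_option autoImplicit false
set_option linter.unusedVariables false

namespace H96.RM

universe u

variable {k : Type u} [Field k] {R : Type u} [CommRing R] {n : ℕ}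
  (π : MvPowerSeries (Fin n) k →+* R)

theorem exists_subst {d : ℕ} (g : Fin d → MvPowerSeries (Fin n) k)
    (hg : ∀ i, MvPowerSeries.constantCoeff (g i) = 0) :
    ∃ φ : MvPowerSeries (Fin d) k →+* R,
      (∀ c : k, φ (MvPowerSeries.C c) = π (MvPowerSeries.C c)) ∧
      ∀ i, φ (MvPowerSeries.X i) = π (g i) := by
  have h : MvPowerSeries.HasSubst g := MvPowerSeries.hasSubst_of_constantCoeff_zero hg
  refine ⟨π.comp (MvPowerSeries.substAlgHom (R := k) h).toRingHom, fun c => ?_, fun i => ?_⟩
  · have h1 : (MvPowerSeries.substAlgHom (R := k) h) (MvPowerSeries.C c) = MvPowerSeries.C c := by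
      have h2 := (MvPowerSeries.substAlgHom (R := k) h).commutes c
      rw [MvPowerSeries.algebraMap_apply, MvPowerSeries.algebraMap_apply] at h2
      exact h2
    exact congrArg π h1
  · exact congrArg π (MvPowerSeries.substAlgHom_X h i)

end H96.RM
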