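import Mathlib
import Pool.Agent.H96.RM.FFT
import Pool.Agent.H96.RM.ExT
import Pool.Agent.H96.RM.Omega
import Pool.Agent.H96.RM.Adjoin
import Pool.Agent.H96.RM.FinPS
import Pool.Agent.H96.RM.PiLemma2
import Pool.Agent.H96.RM.PiSubst
import Pool.Agent.H96.RM.FreeReg

/-!
# Job RM-E7: Jacobian determinants factor through free modules (helper96, MP_d7d607_ag)

`g_1..g_d ∈ k[[X_1..X_n]]` with zero constant coefficient, `𝔪^c ≤ (π g)`; `F_1..F_n` power series each of which is killed by `π` or is
one of the `g_j`; `M` a finite `R`-module on which `π g_1, …, π g_d` is weakly regular.  Then `π (det (∂F_i/∂X_j))` factors through a free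
module on `M`.

Proof.  `exists_subst` gives `φ : S = k[[Y_1..Y_d]] → R`, `φ (Y_i) = π (g_i)`, `φ (C c) = π (C c)`; `letI := φ.toAlgebra`.
`φ` is finite (`finite_of_sop`, `pi_res`, `pi_mem`, `pi_isNoetherian`).  `x_j = π (X_j)`.
`adjoin_top`: `happ` from `pi_approx` (write `r = π F`; `π p` for a polynomial `p` is in `Algebra.adjoin S (range x)`, induction on `p`),
`hc` because the `φ (Y_i)` are in `(maximalIdeal S).map`.  `M` becomes an `S`-module (`Module.compHom M φ`), finite, tower.
`S` is local (`MvPowerSeries` instance) and Noetherian with maximal ideal generated by the variables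
(`pi_span` applied to the identity map of `S`), `M` is `S`-free by
`free_of_regular` with `xs = List.ofFn X` (`isWeaklyRegular_map_algebraMap_iff` transports regularity from `R` to `S`).
For each `i`: `π (F_i)` comes from `S`, `omega_formula` and `exists_T` (with `a_j = π (∂_j F_i)`) give the row `T i`.
`ff_of_T`: `μ (det T) = det (μ T) = det (π ∂_j F_i) = π (det ..)` (`RingHom.map_det`).
-/

set_option autoImplicit false
set_option linter.unusedVariables false

namespace H96.RM

universe u

open IsLocalRing RingTheory.Sequence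

theorem ff_delta {k : Type u} [Field k] {R : Type u} [CommRing R] [IsLocalRing R] {n d : ℕ}
    (π : MvPowerSeries (Fin n) k →+* R) (hπ : Function.Surjective π)
    (g : Fin d → MvPowerSeries (Fin n) k) (hg : ∀ i, MvPowerSeries.constantCoeff (g i) = 0)
    (c : ℕ) (hc : maximalIdeal R ^ c ≤ Ideal.span (Set.range fun i => π (g i)))
    (F : Fin n → MvPowerSeries (Fin n) k) (hF : ∀ i, π (F i) = 0 ∨ ∃ j, F i = g j)
    (M : Type u) [AddCommGroup M] [Module R M] [Module.Finite R M]
    (hM : IsWeaklyRegular M (List.ofFn fun i => π (g i))) :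
    FF R M (π (Matrix.det (Matrix.of fun i j => MvPowerSeries.pderiv k j (F i)))) := by
  classical
  obtain ⟨φ, hφC, hφX⟩ := exists_subst π g hg
  have hNR : IsNoetherianRing R := pi_isNoetherian π hπ
  have hNS : IsNoetherianRing (MvPowerSeries (Fin d) k) :=
    pi_isNoetherian (RingHom.id _) Function.surjective_id
  let algS : Algebra (MvPowerSeries (Fin d) k) R := φ.toAlgebra
  have halg : ∀ s, algebraMap (MvPowerSeries (Fin d) k) R s = φ s := fun s => rfl
  have hfin : φ.Finite := by
    refine finite_of_sop φ ?_ ?_ c ?_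
    · intro r
      obtain ⟨a, ha⟩ := pi_res π hπ r
      exact ⟨a, by rw [hφC]; exact ha⟩
    · intro i
      rw [hφX]
      exact pi_mem π hπ _ (hg i)
    · simpa only [hφX] using hc
  have hfinS : Module.Finite (MvPowerSeries (Fin d) k) R := hfin
  let modS : Module (MvPowerSeries (Fin d) k) M := Module.compHom M φ
  have tow : IsScalarTower (MvPowerSeries (Fin d) k) R M :=
    IsScalarTower.of_algebraMap_smul (fun r m => rfl)
  have finM : Module.Finite (MvPowerSeries (Fin d) k) M := Module.Finite.trans R M
  -- maximal ideal of `S`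
  have hmS : Ideal.ofList (List.ofFn fun i : Fin d => (MvPowerSeries.X i : MvPowerSeries (Fin d) k))
      = maximalIdeal (MvPowerSeries (Fin d) k) := by
    rw [← pi_span (RingHom.id (MvPowerSeries (Fin d) k)) Function.surjective_id, Ideal.ofList]
    congr 1
    ext x
    simp [List.mem_ofFn]
  have hfree : Module.Free (MvPowerSeries (Fin d) k) M := by
    refine free_of_regular _ hmS M ?_
    rw [← isWeaklyRegular_map_algebraMap_iff (S := R) M]
    rw [List.map_ofFn]
    convert hM using 2
    ext i
    simp [halg, hφX]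
  -- adjoin
  have hadj : Algebra.adjoin (MvPowerSeries (Fin d) k)
      (Set.range fun j : Fin n => π (MvPowerSeries.X j)) = ⊤ := by
    refine adjoin_top _ ?_ c ?_
    · intro r N
      obtain ⟨G, rfl⟩ := hπ r
      obtain ⟨p, hp⟩ := pi_approx π hπ G N
      refine ⟨π (p : MvPowerSeries (Fin n) k), ?_, hp⟩
      clear hp
      induction p using MvPolynomial.induction_on with
      | C a =>
        rw [MvPolynomial.coe_C, ← hφC, ← halg]
        exact Subalgebra.algebraMap_mem _ _
      | add p q hp hq =>
        rw [MvPolynomial.coe_add, map_add]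
        exact add_mem hp hq
      | mul_X p i hp =>
        rw [MvPolynomial.coe_mul, map_mul, MvPolynomial.coe_X]
        exact mul_mem hp (Algebra.subset_adjoin ⟨i, rfl⟩)
    · refine hc.trans ?_
      rw [Ideal.span_le]
      rintro _ ⟨i, rfl⟩
      have h1 : (MvPowerSeries.X i : MvPowerSeries (Fin d) k) ∈
          maximalIdeal (MvPowerSeries (Fin d) k) := by
        rw [← hmS]
        exact Ideal.subset_span (by simp [List.mem_ofFn])
      have h2 := Ideal.mem_map_of_mem (algebraMap (MvPowerSeries (Fin d) k) R) h1
      rw [halg, hφX] at h2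
      exact h2
  -- rows
  have hrow : ∀ i, ∃ T : Fin n → TensorProduct (MvPowerSeries (Fin d) k) R R,
      (∑ j, T j * (TensorProduct.tmul _ (π (MvPowerSeries.X j)) (1 : R) -
        TensorProduct.tmul _ (1 : R) (π (MvPowerSeries.X j))) = 0) ∧
      ∀ j, Algebra.TensorProduct.lmul' (MvPowerSeries (Fin d) k) (T j) =
        π (MvPowerSeries.pderiv k j (F i)) := by
    intro i
    refine exists_T (fun j : Fin n => π (MvPowerSeries.X j)) hadj (π (F i)) ?_
      (fun j => π (MvPowerSeries.pderiv k j (F i))) ?_
    · rcases hF i with h | ⟨j, h⟩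
      · exact ⟨0, by rw [map_zero, h]⟩
      · exact ⟨MvPowerSeries.X j, by rw [halg, hφX, h]⟩
    · exact omega_formula π hπ (fun a => ⟨MvPowerSeries.C a, by rw [halg, hφC]⟩) (F i)
  choose T hT1 hT2 using hrow
  have h1 := ff_of_T (fun j : Fin n => π (MvPowerSeries.X j)) hadj (Matrix.of T) hT1 M
  have h2 : Algebra.TensorProduct.lmul' (MvPowerSeries (Fin d) k) (Matrix.of T).det =
      π (Matrix.det (Matrix.of fun i j => MvPowerSeries.pderiv k j (F i))) := by
    rw [AlgHom.map_det, RingHom.map_det]
    congr 1
    ext i j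
    exact hT2 i j
  rw [h2] at h1
  exact h1

end H96.RM
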