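import Mathlib

/-!
# Job RM-E8: from generic to all linear forms (helper96, MP_d7d607_ag)

`R` Noetherian local containing an infinite field `k`, `(x_1..x_n) = 𝔪`, `dim R ≤ d`; `P` a `k`-multilinear map on `(k^n)^d` with values in `R`, `𝔉` a
`k`-subspace of `R`.  If `P ℓ ∈ 𝔉` whenever the linear forms `ℓ_i(x) = ∑_j ℓ_i j x_j` generate an `𝔪`-primary ideal, then `P ℓ ∈ 𝔉` for all `ℓ`.

Proof.  Let `A_j(ℓ)` be the ideal generated by `ℓ_i(x)`, `i < j`.  Claim(j), for `j = d, d-1, …, 0`: if
`dim R/A_j(ℓ) ≤ d - j` then `P ℓ ∈ 𝔉` (no condition on `ℓ_i`, `i ≥ j`).  Claim(0) is the theorem.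
Claim(d): `dim R/A_d ≤ 0`, so every prime containing `A_d` is `𝔪` and `𝔪^c ≤ A_d` (`Ideal.exists_pow_le_of_le_radical_of_fg`); hypothesis.
Claim(j+1) ⟹ Claim(j), `j < d`: let `dim R/A_j ≤ d - j`.  Let `𝒫` be the finite set of minimal primes of `A_j` other than `𝔪`.  For `p ∈ 𝒫` the set
`H_p = {v ∈ k^n | v(x) ∈ p}` is a subspace `≠ k^n` (otherwise all `x_i ∈ p`, `p = 𝔪`).  If `v ∉ ⋃ H_p`, then with `ℓ' = Function.update ℓ j v`:
`A_{j+1}(ℓ') = A_j(ℓ) + (v(x))` and `dim R/A_{j+1}(ℓ') ≤ d - j - 1` (a chain of primes of `R/A_{j+1}` starting at `q`; if `q = 𝔪` the length is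
`0 ≤ d-j-1`; otherwise `q` contains a minimal prime `p ≠ 𝔪` of `A_j`, `v(x) ∈ q \ p`, so the chain can be extended), hence
`P ℓ' ∈ 𝔉` by Claim(j+1).  `{v | P (update ℓ j v) ∈ 𝔉}` is a subspace `U` of `k^n` (linearity in the `j`-th variable)
containing the complement of the finite union of the proper subspaces `H_p`.  If `U ≠ k^n` then `k^n` is a finite union of proper
subspaces, impossible over an infinite field (`Subspace.biUnion_ne_univ_of_top_notMem` or similar in
`Mathlib/LinearAlgebra/...`, `Submodule.iUnion_ne_univ...`; search for `biUnion_ne_univ`).  So `P ℓ ∈ 𝔉`.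
(It may be convenient to prove the dimension step as a separate lemma.)
-/

set_option autoImplicit false
set_option linter.unusedVariables false

namespace H96.RM

universe u

open IsLocalRing

/-- Chains of primes above `A` have length at most `m`. -/
def DimLe {R : Type u} [CommRing R] (A : Ideal R) (m : ℕ) : Prop :=
  ∀ p : LTSeries (PrimeSpectrum R), A ≤ p.head.asIdeal → p.length ≤ m

theorem dimLe_succ {R : Type u} [CommRing R] [IsLocalRing R] (A B : Ideal R) (hAB : A ≤ B)
    (m : ℕ) (hA : DimLe A (m + 1)) (y : R) (hy : y ∈ B)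
    (hmin : ∀ p ∈ A.minimalPrimes, p ≠ maximalIdeal R → y ∉ p) : DimLe B m := by
  intro c hc
  by_cases h0 : c.length = 0
  · omega
  have hne : c.head.asIdeal ≠ maximalIdeal R := by
    intro h
    have hlt : c.head < c.last := by
      have : c (0 : Fin (c.length + 1)) < c (Fin.last _) :=
        c.strictMono (by
          rw [Fin.lt_def]
          simp
          omega)
      exact this
    have h1 : c.last.asIdeal ≤ maximalIdeal R := IsLocalRing.le_maximalIdeal c.last.isPrime.ne_top
    have h2 : c.head.asIdeal < c.last.asIdeal := hlt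
    rw [h] at h2
    exact absurd h2 (not_lt_of_ge h1)
  obtain ⟨p, hp, hpc⟩ := Ideal.exists_minimalPrimes_le (J := c.head.asIdeal) (hAB.trans hc)
  have hpne : p ≠ maximalIdeal R := by
    intro h
    rw [h] at hpc
    exact hne (le_antisymm (IsLocalRing.le_maximalIdeal c.head.isPrime.ne_top) hpc)
  have hyp := hmin p hp hpne
  let p' : PrimeSpectrum R := ⟨p, hp.1.1⟩
  have hlt : p' < c.head := by
    refine lt_of_le_of_ne hpc fun h => hyp ?_
    have : y ∈ c.head.asIdeal := hc hy
    rw [← h] at this
    exact this
  have := hA (c.cons p' hlt) (by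
    rw [RelSeries.head_cons]
    exact hp.1.2)
  simp at this
  exact this

theorem multi_generic {k : Type u} [Field k] [Infinite k] {R : Type u} [CommRing R]
    [IsLocalRing R] [IsNoetherianRing R] [Algebra k R] {n d : ℕ} (x : Fin n → R)
    (hx : Ideal.span (Set.range x) = maximalIdeal R) (hd : ringKrullDim R ≤ (d : ℕ))
    (P : MultilinearMap k (fun _ : Fin d => (Fin n → k)) R) (W : Submodule k R)
    (h : ∀ ℓ : Fin d → Fin n → k, (∃ c : ℕ, maximalIdeal R ^ c ≤
      Ideal.span (Set.range fun i => ∑ j, (ℓ i j) • x j)) → P ℓ ∈ W) :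
    ∀ ℓ, P ℓ ∈ W := by
  classical
  -- linear forms
  let L : (Fin n → k) →ₗ[k] R := Fintype.linearCombination k x
  have hL : ∀ v, L v = ∑ j, v j • x j := fun v => Fintype.linearCombination_apply k x v
  let A : (Fin d → Fin n → k) → ℕ → Ideal R := fun ℓ j =>
    Ideal.span {y | ∃ i : Fin d, i.val < j ∧ y = L (ℓ i)}
  have main : ∀ m, m ≤ d → ∀ ℓ, DimLe (A ℓ (d - m)) m → P ℓ ∈ W := by
    intro m
    induction m with
    | zero =>
      intro _ ℓ hA
      apply h
      have hrad : maximalIdeal R ≤
          (Ideal.span (Set.range fun i => ∑ j, (ℓ i j) • x j)).radical := by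
        rw [Ideal.radical_eq_sInf]
        refine le_sInf ?_
        rintro J ⟨hJ, hJp⟩
        by_contra hcon
        have hJlt : J < maximalIdeal R := by
          refine lt_of_le_of_ne (IsLocalRing.le_maximalIdeal hJp.ne_top) fun hh => hcon hh.ge
        let q : PrimeSpectrum R := ⟨J, hJp⟩
        let mm : PrimeSpectrum R := ⟨maximalIdeal R, inferInstance⟩
        have hqm : q < mm := hJlt
        have := hA ((RelSeries.singleton _ mm).cons q (by simpa using hqm)) (by
          rw [RelSeries.head_cons]
          refine le_trans ?_ hJ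
          refine Ideal.span_mono ?_
          rintro y ⟨i, _, rfl⟩
          exact ⟨i, (hL (ℓ i)).symm⟩)
        simp at this
      obtain ⟨c, hc⟩ := Ideal.exists_pow_le_of_le_radical_of_fg hrad (IsNoetherian.noetherian _)
      exact ⟨c, hc⟩
    | succ m ih =>
      intro hm ℓ hA
      set j : Fin d := ⟨d - (m + 1), by omega⟩ with hj
      -- the subspace U
      let U : Submodule k (Fin n → k) := W.comap (P.toLinearMap ℓ j)
      have hU : U = ⊤ := by
        by_contra hU
        have hfin : (A ℓ (d - (m + 1))).minimalPrimes.Finite :=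
          Ideal.finite_minimalPrimes_of_isNoetherianRing R _
        let H : Ideal R → Submodule k (Fin n → k) := fun p => (p.restrictScalars k).comap L
        let s : Finset (Submodule k (Fin n → k)) :=
          insert U ((hfin.toFinset.filter (fun p => p ≠ maximalIdeal R)).image H)
        have hs : (⊤ : Submodule k (Fin n → k)) ∉ s := by
          intro hmem
          rcases Finset.mem_insert.1 hmem with h1 | h1
          · exact hU h1.symm
          · obtain ⟨p, hp, hpt⟩ := Finset.mem_image.1 h1
            rw [Finset.mem_filter, Set.Finite.mem_toFinset] at hp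
            apply hp.2
            refine le_antisymm (IsLocalRing.le_maximalIdeal hp.1.1.1.ne_top) ?_
            rw [← hx, Ideal.span_le]
            rintro _ ⟨i, rfl⟩
            have h2 : Pi.single i (1 : k) ∈ H p := by rw [hpt]; trivial
            have h3 : L (Pi.single i (1 : k)) ∈ p := h2
            rw [hL] at h3
            have h4 : (∑ j, (Pi.single i (1 : k) : Fin n → k) j • x j) = x i := by
              rw [Finset.sum_eq_single i]
              · simp
              · intro b _ hb
                simp [Pi.single_eq_of_ne hb]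
              · simp
            rw [h4] at h3
            exact h3
        have hne := Subspace.biUnion_ne_univ_of_top_notMem hs
        obtain ⟨v, hv⟩ := (Set.ne_univ_iff_exists_notMem _).1 hne
        simp only [Set.mem_iUnion, not_exists] at hv
        have hvU : v ∉ U := hv U (Finset.mem_insert_self _ _)
        apply hvU
        show P.toLinearMap ℓ j v ∈ W
        rw [MultilinearMap.toLinearMap_apply]
        refine ih (by omega) (Function.update ℓ j v) ?_
        refine dimLe_succ (A ℓ (d - (m + 1))) _ ?_ m hA (L v) ?_ ?_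
        · refine Ideal.span_mono ?_
          rintro y ⟨i, hi, rfl⟩
          refine ⟨i, by omega, ?_⟩
          rw [Function.update_of_ne]
          intro hh
          rw [hh] at hi
          simp [hj] at hi
        · refine Ideal.subset_span ⟨j, ?_, ?_⟩
          · simp only [hj]
            omega
          · rw [Function.update_self]
        · intro p hp hpm hvp
          refine hv (H p) (Finset.mem_insert_of_mem (Finset.mem_image.2 ⟨p, ?_, rfl⟩)) hvp
          rw [Finset.mem_filter, Set.Finite.mem_toFinset]
          exact ⟨hp, hpm⟩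
      have h1 : ℓ j ∈ U := by rw [hU]; trivial
      have h2 : P.toLinearMap ℓ j (ℓ j) ∈ W := h1
      rw [MultilinearMap.toLinearMap_apply, Function.update_eq_self] at h2
      exact h2
  intro ℓ
  refine main d le_rfl ℓ ?_
  intro p hp
  have h1 : ((p.length : ℕ∞) : WithBot ℕ∞) ≤ ringKrullDim R := Order.LTSeries.length_le_krullDim p
  have h2 := h1.trans hd
  exact_mod_cast h2

end H96.RM
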