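import Mathlib
import Pool.Agent.H96.RM.FFDelta
import Pool.Agent.H96.RM.Multi

/-!
# Job RM-E9: the Jacobian ideal factors through free modules (helper96, MP_d7d607_ag)

`π : k[[X_1..X_n]] → R` surjective, `k` infinite, `dim R = d`, `M` a finite `R`-module on which every list of `d` elements of `𝔪` generating an
`𝔪`-primary ideal is weakly regular.  Then for `f_1..f_{n-d} ∈ ker π` and columns `c` the minor `π (det (∂f_i/∂X_{c_j}))` factors through a free
module on `M`.

Proof.  If `c` is not injective the determinant is `0` (two equal columns), `FF.zero`.  Let `c` be injective.  `d ≤ n` (`pi_dim`), so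
there is a bijection `e : Fin (n-d) ⊕ Fin d ≃ Fin n` with `e (inl j) = c j` (the complement of `range c` has `d` elements).
For `ℓ : Fin d → Fin n → k` let `F_ℓ : Fin (n-d) ⊕ Fin d → k[[X]]`, `inl i ↦ f i`, `inr i ↦ ∑_j C (ℓ i j) * X j`, and
`P ℓ = π (det (of fun a b => pderiv (e b) (F_ℓ a)))`.  The row `inr i` of this matrix is `C (ℓ i (e b))`, so `P` is `k`-multilinear in `ℓ`
(`k` acts on `R` through `π ∘ C`: `letI : Algebra k R := (π.comp MvPowerSeries.C).toAlgebra`; build the `MultilinearMap` by
`Matrix.det` multilinearity, `Matrix.detRowAlternating`, composed with linear maps; or `MultilinearMap.mk'` with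
`Matrix.det_updateRow_add`, `Matrix.det_updateRow_smul`).
If the linear forms `π (∑_j C (ℓ i j) X j)` generate an `𝔪`-primary ideal, then `P ℓ` factors through a free module on `M` by `ff_delta`
(`g i = ∑_j C (ℓ i j) X j`, `F = F_ℓ ∘ e.symm`; reindexing rows and columns by `e` does not change the determinant,
`Matrix.det_submatrix_equiv_self`).  `W = ffIdeal R M` restricted to `k`.  `multi_generic` gives `FF R M (P ℓ)` for all `ℓ`.
Take `ℓ i = Pi.single (e (inr i)) 1`: the matrix is block triangular (`Matrix.fromBlocks A B 0 1`), with determinant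
`det A`, `A i j = pderiv (c j) (f i)` (`Matrix.det_fromBlocks_zero₂₁`).
-/

set_option autoImplicit false
set_option linter.unusedVariables false

namespace H96.RM

universe u

open IsLocalRing RingTheory.Sequence

theorem fj_equiv {n d : ℕ} (hdn : d ≤ n) (c : Fin (n - d) → Fin n) (hc : Function.Injective c) :
    ∃ e : Fin (n - d) ⊕ Fin d ≃ Fin n, ∀ j, e (Sum.inl j) = c j := by
  classical
  have hcard : Fintype.card (Fin d) = Fintype.card ((Set.range c)ᶜ : Set (Fin n)) := by
    rw [Fintype.card_compl_set, Fintype.card_fin, Fintype.card_fin,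
      Set.card_range_of_injective hc, Fintype.card_fin]
    omega
  let e1 : Fin d ≃ ((Set.range c)ᶜ : Set (Fin n)) := Fintype.equivOfCardEq hcard
  refine ⟨(Equiv.sumCongr (Equiv.ofInjective c hc) e1).trans (Equiv.Set.sumCompl (Set.range c)), ?_⟩
  intro j
  simp

/-- the matrix of the job -/
noncomputable def fjMat {k : Type u} [Field k] {n d : ℕ} (f : Fin (n - d) → MvPowerSeries (Fin n) k)
    (e : Fin (n - d) ⊕ Fin d ≃ Fin n) (ℓ : Fin d → Fin n → k) :
    Matrix (Fin (n - d) ⊕ Fin d) (Fin (n - d) ⊕ Fin d) (MvPowerSeries (Fin n) k) :=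
  Matrix.of fun a b => Sum.elim (fun i => MvPowerSeries.pderiv k (e b) (f i))
    (fun i => MvPowerSeries.C (ℓ i (e b))) a

theorem fj_sub {k : Type u} [Field k] {n d : ℕ} (f : Fin (n - d) → MvPowerSeries (Fin n) k)
    (e : Fin (n - d) ⊕ Fin d ≃ Fin n) (ℓ : Fin d → Fin n → k) :
    Matrix.det (Matrix.of fun i j => MvPowerSeries.pderiv k j
      (Sum.elim f (fun i => ∑ j, MvPowerSeries.C (ℓ i j) * MvPowerSeries.X j) (e.symm i))) =
      (fjMat f e ℓ).det := by
  classical
  rw [← Matrix.det_submatrix_equiv_self e]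
  congr 1
  ext1 a b
  rw [Matrix.submatrix_apply, Matrix.of_apply, Equiv.symm_apply_apply, fjMat, Matrix.of_apply]
  rcases a with a | a
  · rfl
  · rw [Sum.elim_inr, Sum.elim_inr, map_sum]
    rw [Finset.sum_eq_single (e b)]
    · rw [Derivation.leibniz, MvPowerSeries.pderiv_C, smul_zero, add_zero,
        MvPowerSeries.pderiv_X_self, smul_eq_mul, mul_one]
    · intro j _ hj
      rw [Derivation.leibniz, MvPowerSeries.pderiv_C, smul_zero, add_zero,
        MvPowerSeries.pderiv_X_of_ne hj, smul_zero]
    · intro h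
      exact absurd (Finset.mem_univ _) h

theorem fj_block {k : Type u} [Field k] {n d : ℕ} (f : Fin (n - d) → MvPowerSeries (Fin n) k)
    (e : Fin (n - d) ⊕ Fin d ≃ Fin n) (c : Fin (n - d) → Fin n) (he : ∀ j, e (Sum.inl j) = c j) :
    (fjMat f e (fun i => Pi.single (e (Sum.inr i)) 1)).det =
      Matrix.det (Matrix.of fun i j => MvPowerSeries.pderiv k (c j) (f i)) := by
  classical
  have h : fjMat f e (fun i => Pi.single (e (Sum.inr i)) 1) =
      Matrix.fromBlocks (Matrix.of fun i j => MvPowerSeries.pderiv k (c j) (f i))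
        (Matrix.of fun i j => MvPowerSeries.pderiv k (e (Sum.inr j)) (f i)) 0 1 := by
    ext1 a b
    rw [fjMat, Matrix.of_apply]
    rcases a with a | a <;> rcases b with b | b
    · rw [Sum.elim_inl, Matrix.fromBlocks_apply₁₁, Matrix.of_apply, he]
    · rw [Sum.elim_inl, Matrix.fromBlocks_apply₁₂, Matrix.of_apply]
    · rw [Sum.elim_inr, Matrix.fromBlocks_apply₂₁, Matrix.zero_apply, Pi.single_eq_of_ne, map_zero]
      intro h
      have := e.injective h
      exact absurd this (by simp)
    · rw [Sum.elim_inr, Matrix.fromBlocks_apply₂₂, Matrix.one_apply]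
      by_cases hab : a = b
      · subst hab
        rw [Pi.single_eq_same, map_one, if_pos rfl]
      · rw [if_neg hab, Pi.single_eq_of_ne, map_zero]
        intro h
        have := e.injective h
        exact hab (Sum.inr_injective this).symm
  rw [h, Matrix.det_fromBlocks_zero₂₁, Matrix.det_one, mul_one]

theorem ff_jac {k : Type u} [Field k] [Infinite k] {R : Type u} [CommRing R] [IsLocalRing R]
    {n d : ℕ} (π : MvPowerSeries (Fin n) k →+* R) (hπ : Function.Surjective π)
    (hd : ringKrullDim R = (d : ℕ)) (M : Type u) [AddCommGroup M] [Module R M]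
    [Module.Finite R M]
    (hM : ∀ ys : List R, (∀ y ∈ ys, y ∈ maximalIdeal R) → ys.length = d →
      (∃ c : ℕ, maximalIdeal R ^ c ≤ Ideal.ofList ys) → IsWeaklyRegular M ys)
    (f : Fin (n - d) → MvPowerSeries (Fin n) k) (hf : ∀ i, π (f i) = 0)
    (c : Fin (n - d) → Fin n) :
    FF R M (π (Matrix.det (Matrix.of fun i j => MvPowerSeries.pderiv k (c j) (f i)))) := by
  classical
  by_cases hc : Function.Injective c
  swap
  · obtain ⟨i, j, hij, hne⟩ : ∃ i j, c i = c j ∧ i ≠ j := by
      by_contra h
      apply hc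
      intro i j hij
      by_contra hne
      exact h ⟨i, j, hij, hne⟩
    rw [Matrix.det_zero_of_column_eq hne (fun a => by rw [Matrix.of_apply, Matrix.of_apply, hij]),
      map_zero]
    exact FF.zero
  have hdn : d ≤ n := by
    have := pi_dim π hπ
    rw [hd] at this
    exact_mod_cast this
  obtain ⟨e, he⟩ := fj_equiv hdn c hc
  let _ : Algebra k R := (π.comp MvPowerSeries.C).toAlgebra
  have hN : IsNoetherianRing R := pi_isNoetherian π hπ
  have hsm : ∀ (a : k) (r : R), a • r = π (MvPowerSeries.C a) * r := fun a r => rfl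
  let πl : MvPowerSeries (Fin n) k →ₗ[k] R :=
    { toFun := π
      map_add' := map_add π
      map_smul' := fun a F => by
        rw [RingHom.id_apply, hsm, ← map_mul, MvPowerSeries.smul_eq_C_mul] }
  let D0 : MultilinearMap (MvPowerSeries (Fin n) k)
      (fun _ : Fin (n - d) ⊕ Fin d => (Fin (n - d) ⊕ Fin d → MvPowerSeries (Fin n) k))
      (MvPowerSeries (Fin n) k) :=
    (Matrix.detRowAlternating (n := Fin (n - d) ⊕ Fin d) (R := MvPowerSeries (Fin n) k)).toMultilinearMap
  let D1 := (MultilinearMap.currySum D0) (fun i b => MvPowerSeries.pderiv k (e b) (f i))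
  let row : (Fin n → k) →ₗ[k] (Fin (n - d) ⊕ Fin d → MvPowerSeries (Fin n) k) :=
    { toFun := fun v b => MvPowerSeries.C (v (e b))
      map_add' := fun v w => by funext b; simp
      map_smul' := fun a v => by
        funext b
        simp [MvPowerSeries.smul_eq_C_mul] }
  let P : MultilinearMap k (fun _ : Fin d => (Fin n → k)) R :=
    πl.compMultilinearMap ((D1.restrictScalars k).compLinearMap (fun _ => row))
  have hP : ∀ ℓ, P ℓ = π (fjMat f e ℓ).det := by
    intro ℓ
    show π (D1 (fun i => row (ℓ i))) = _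
    rw [MultilinearMap.currySum_apply]
    congr 1
    show Matrix.det _ = _
    congr 1
    funext a b
    rcases a with a | a
    · rfl
    · rfl
  let W : Submodule k R := (ffIdeal R M).restrictScalars k
  have hW : ∀ r, r ∈ W ↔ FF R M r := fun r => Iff.rfl
  have key := multi_generic (k := k) (fun j => π (MvPowerSeries.X j)) (pi_span π hπ) hd.le P W (by
    rintro ℓ ⟨N, hN'⟩
    rw [hW, hP, ← fj_sub]
    have hg : ∀ i, π (∑ j, MvPowerSeries.C (ℓ i j) * MvPowerSeries.X j) =
        ∑ j, (ℓ i j) • π (MvPowerSeries.X j) := by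
      intro i
      rw [map_sum]
      refine Finset.sum_congr rfl fun j _ => ?_
      rw [map_mul, hsm]
    have hg0 : ∀ i, MvPowerSeries.constantCoeff (∑ j, MvPowerSeries.C (ℓ i j) * MvPowerSeries.X j :
        MvPowerSeries (Fin n) k) = 0 := by
      intro i
      rw [map_sum]
      refine Finset.sum_eq_zero fun j _ => ?_
      rw [map_mul, MvPowerSeries.constantCoeff_X, mul_zero]
    have hN2 : maximalIdeal R ^ N ≤ Ideal.span (Set.range fun i =>
        π (∑ j, MvPowerSeries.C (ℓ i j) * MvPowerSeries.X j)) := by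
      simpa only [hg] using hN'
    refine ff_delta π hπ (fun i => ∑ j, MvPowerSeries.C (ℓ i j) * MvPowerSeries.X j) hg0 N hN2 _ ?_ M ?_
    · intro a
      rcases e.symm a with b | b
      · left
        exact hf b
      · right
        exact ⟨b, rfl⟩
    · refine hM _ ?_ (List.length_ofFn) ⟨N, ?_⟩
      · intro y hy
        rw [List.mem_ofFn'] at hy
        obtain ⟨i, rfl⟩ := hy
        exact pi_mem π hπ _ (hg0 i)
      · refine hN2.trans ?_
        rw [Ideal.span_le]
        rintro _ ⟨i, rfl⟩
        apply Ideal.subset_span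
        rw [Set.mem_ofPred_eq, List.mem_ofFn']
        exact ⟨i, rfl⟩)
  have h1 := key (fun i => Pi.single (e (Sum.inr i)) 1)
  rw [hW, hP, fj_block f e c he] at h1
  exact h1

end H96.RM
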