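import Mathlib

/-!
# Job RM-E2b: finiteness over k[[X]] modulo an ideal (helper96, MP_d7d607_ag)

`finite_D`: one variable, modulo an ideal `I`: `ψ : k[[X]] → R`, `𝔪^c ≤ I + (ψ X)`: there are `r_1..r_g` with
`R = ∑ ψ(k[[X]]) r_i + I`.  Proof: one variable: `R = ∑ k r_i + I + (ψ X)`;
`x = ∑ c_i r_i + ψ(X) x_1` mod `I`, iterate, `a_i = ∑_j c_i^{(j)} X^j` (`PowerSeries.mk`), then
`x - ∑ ψ (a_i) r_i ∈ I + (ψ X)^m` for all `m`, and `⋂_m (I + 𝔪^m) = I` (Krull intersection in the Noetherian local ring `R/I`;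
`Ideal.iInf_pow_sup_eq..` / `Ideal.isHausdorff`).
-/

set_option autoImplicit false
set_option linter.unusedVariables false

namespace H96.RM

universe u

open IsLocalRing

variable {k : Type u} [Field k] {R : Type u} [CommRing R] [IsLocalRing R] [IsNoetherianRing R]

theorem finite_D_gen (ρ : k →+* R)
    (hres : ∀ r : R, ∃ c : k, r - ρ c ∈ maximalIdeal R) (i : ℕ) :
    ∃ s : Finset R, ∀ x : R, ∃ c : R → k, x - ∑ r ∈ s, ρ (c r) * r ∈ maximalIdeal R ^ i := by
  classical
  letI : Algebra k R := ρ.toAlgebra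
  have hsm : ∀ (c : k) (x : R), c • x = ρ c * x := fun c x => Algebra.smul_def c x
  have main : ∀ i : ℕ, ∃ N : Submodule k R, N.FG ∧
      ∀ x : R, ∃ a ∈ N, x - a ∈ maximalIdeal R ^ i := by
    intro i
    induction i with
    | zero => exact ⟨⊥, Submodule.fg_bot, fun x => ⟨0, Submodule.zero_mem _, by simp⟩⟩
    | succ i ih =>
      obtain ⟨N, hN, hx⟩ := ih
      obtain ⟨T, hT⟩ := (IsNoetherian.noetherian (maximalIdeal R ^ i) : (maximalIdeal R ^ i).FG)
      refine ⟨N ⊔ Submodule.span k (T : Set R), hN.sup ⟨T, rfl⟩, fun x => ?_⟩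
      obtain ⟨a, ha, hxa⟩ := hx x
      have key : ∀ y ∈ Submodule.span R (T : Set R),
          ∃ u ∈ Submodule.span k (T : Set R), y - u ∈ maximalIdeal R ^ (i + 1) := by
        intro y hy
        induction hy using Submodule.span_induction with
        | mem y hy => exact ⟨y, Submodule.subset_span hy, by simp⟩
        | zero => exact ⟨0, Submodule.zero_mem _, by simp⟩
        | add y z _ _ hy hz =>
          obtain ⟨u, hu, hu'⟩ := hy
          obtain ⟨v, hv, hv'⟩ := hz
          refine ⟨u + v, Submodule.add_mem _ hu hv, ?_⟩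
          have : y + z - (u + v) = (y - u) + (z - v) := by ring
          rw [this]
          exact Ideal.add_mem _ hu' hv'
        | smul r y _ hy =>
          obtain ⟨u, hu, hu'⟩ := hy
          obtain ⟨c, hc⟩ := hres r
          refine ⟨c • u, Submodule.smul_mem _ _ hu, ?_⟩
          have hui : u ∈ maximalIdeal R ^ i := by
            have h1 : Submodule.span k (T : Set R) ≤ (Submodule.span R (T : Set R)).restrictScalars k :=
              Submodule.span_le_restrictScalars k R _
            have h2 := h1 hu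
            rw [Submodule.restrictScalars_mem] at h2
            rw [← hT]
            exact h2
          have : r • y - c • u = (r - ρ c) * u + r * (y - u) := by
            rw [hsm, smul_eq_mul]; ring
          rw [this]
          refine Ideal.add_mem _ ?_ (Ideal.mul_mem_left _ _ hu')
          rw [pow_succ']
          exact Ideal.mul_mem_mul hc hui
      obtain ⟨u, hu, hu'⟩ := key (x - a) (by rw [show Submodule.span R (T : Set R) = maximalIdeal R ^ i from hT]; exact hxa)
      refine ⟨a + u, Submodule.add_mem_sup ha hu, ?_⟩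
      have : x - (a + u) = x - a - u := by ring
      rw [this]
      exact hu'
  obtain ⟨N, ⟨s, hs⟩, hx⟩ := main i
  refine ⟨s, fun x => ?_⟩
  obtain ⟨a, ha, hxa⟩ := hx x
  rw [← hs] at ha
  rw [Submodule.mem_span_finset] at ha
  obtain ⟨c, hc, hca⟩ := ha
  refine ⟨c, ?_⟩
  rw [← hca] at hxa
  simpa [hsm] using hxa

theorem finite_D (ψ : PowerSeries k →+* R)
    (hres : ∀ r : R, ∃ c : k, r - ψ (PowerSeries.C c) ∈ maximalIdeal R)
    (hX : ψ PowerSeries.X ∈ maximalIdeal R) (I : Ideal R) (c : ℕ)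
    (hc : maximalIdeal R ^ c ≤ I ⊔ Ideal.span {ψ PowerSeries.X}) :
    ∃ (g : ℕ) (r : Fin g → R), ∀ x : R, ∃ a : Fin g → PowerSeries k,
      x - ∑ i, ψ (a i) * r i ∈ I := by
  classical
  obtain ⟨s, hs⟩ := finite_D_gen (ψ.comp (PowerSeries.C (R := k))) hres c
  refine ⟨s.card, fun i => (s.equivFin.symm i : R), fun x => ?_⟩
  suffices h : ∃ a : R → PowerSeries k, x - ∑ r ∈ s, ψ (a r) * r ∈ I by
    obtain ⟨a, ha⟩ := h
    refine ⟨fun i => a (s.equivFin.symm i : R), ?_⟩
    have : ∑ i : Fin s.card, ψ (a (s.equivFin.symm i : R)) * (s.equivFin.symm i : R)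
        = ∑ r ∈ s, ψ (a r) * r := by
      rw [← Finset.sum_coe_sort s (fun r => ψ (a r) * r)]
      exact Equiv.sum_comp s.equivFin.symm (fun r : s => ψ (a r) * (r : R))
    rw [this]
    exact ha
  have step : ∀ x : R, ∃ (cf : R → k) (nx : R),
      x - ∑ r ∈ s, ψ (PowerSeries.C (cf r)) * r - ψ PowerSeries.X * nx ∈ I := by
    intro x
    obtain ⟨cf, hcf⟩ := hs x
    obtain ⟨u, hu, v, hv, huv⟩ := Submodule.mem_sup.1 (hc hcf)
    obtain ⟨w, rfl⟩ := Ideal.mem_span_singleton'.1 hv
    refine ⟨cf, w, ?_⟩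
    have : x - ∑ r ∈ s, ψ (PowerSeries.C (cf r)) * r - ψ PowerSeries.X * w = u := by
      have h2 : x - ∑ r ∈ s, ψ (PowerSeries.C (cf r)) * r = u + w * ψ PowerSeries.X := by
        rw [huv]; rfl
      rw [h2]; ring
    rw [this]
    exact hu
  choose cf nx hcn using step
  let A : R → R → PowerSeries k := fun x r => PowerSeries.mk fun j => cf (nx^[j] x) r
  have hA : ∀ x r, A x r = PowerSeries.C (cf x r) + PowerSeries.X * A (nx x) r := by
    intro x r
    ext j
    cases j with
    | zero => simp [A]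
    | succ j =>
      rw [map_add, PowerSeries.coeff_succ_X_mul]
      simp [A, PowerSeries.coeff_C]
  have claim : ∀ (m : ℕ) (x : R), x - ∑ r ∈ s, ψ (A x r) * r ∈ I ⊔ maximalIdeal R ^ m := by
    intro m
    induction m with
    | zero => intro x; simp
    | succ m ih =>
      intro x
      have h1 : x - ∑ r ∈ s, ψ (A x r) * r
          = (x - ∑ r ∈ s, ψ (PowerSeries.C (cf x r)) * r - ψ PowerSeries.X * nx x)
            + ψ PowerSeries.X * (nx x - ∑ r ∈ s, ψ (A (nx x) r) * r) := by
        have h2 : ∑ r ∈ s, ψ (A x r) * r = ∑ r ∈ s, ψ (PowerSeries.C (cf x r)) * r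
            + ψ PowerSeries.X * ∑ r ∈ s, ψ (A (nx x) r) * r := by
          rw [Finset.mul_sum, ← Finset.sum_add_distrib]
          refine Finset.sum_congr rfl fun r _ => ?_
          rw [hA x r, map_add, map_mul]
          ring
        rw [h2]; ring
      rw [h1]
      refine Ideal.add_mem _ (Ideal.mem_sup_left (hcn x)) ?_
      obtain ⟨u, hu, v, hv, huv⟩ := Submodule.mem_sup.1 (ih (nx x))
      rw [← huv, mul_add]
      refine Submodule.add_mem_sup (Ideal.mul_mem_left _ _ hu) ?_
      rw [pow_succ']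
      exact Ideal.mul_mem_mul hX hv
  refine ⟨A x, ?_⟩
  set y := x - ∑ r ∈ s, ψ (A x r) * r with hy
  have hmem : Ideal.Quotient.mk I y ∈ (⨅ i : ℕ, maximalIdeal R ^ i • ⊤ : Submodule R (R ⧸ I)) := by
    rw [Submodule.mem_iInf]
    intro i
    obtain ⟨u, hu, v, hv, huv⟩ := Submodule.mem_sup.1 (claim i x)
    have : Ideal.Quotient.mk I y = v • (1 : R ⧸ I) := by
      rw [hy, ← huv, map_add, Ideal.Quotient.eq_zero_iff_mem.2 hu, zero_add]
      rw [Algebra.smul_def, mul_one]
      rfl
    rw [this]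
    exact Submodule.smul_mem_smul hv Submodule.mem_top
  rw [Ideal.iInf_pow_smul_eq_bot_of_isLocalRing _ (maximalIdeal.isMaximal R).ne_top] at hmem
  exact Ideal.Quotient.eq_zero_iff_mem.1 ((Submodule.mem_bot R).1 hmem)

end H96.RM
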