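import Mathlib
import Pool.Agent.H96.RM.Approx

/-!
# Job RM-C9: the lifting property for `S`-free modules (helper96, MP_d7d607_ag)

`D → S → R` with `y_j` = image of `yS_j ∈ S`, `S = D + (yS)`, `M` free of finite rank over `S`.

Proof.  Let `h : L_{2n} → L_n` be `D`-linear and commute with the `y_j`.  Claim: `h` is `S`-linear.  By induction on `m` every
`s ∈ S` is congruent modulo `(yS)^m` to a polynomial in the `yS_j` with coefficients in `D` (an element of
`Algebra.adjoin D (range yS)`): `S = D + 𝔟_S`, so `𝔟_S^m ⊆ (products of m of the y's) D + 𝔟_S^(m+1)`.  `h` commutes with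
`Algebra.adjoin D (range yS)`, and `(yS)^(2n)` kills `L_{2n}` and `L_n`.
Choose an `S`-basis `e_1..e_ρ` of `M`, lifts `m_i ∈ M` of `h (mk e_i) ∈ L_n` and let `F : M → M` be `S`-linear, `F e_i = m_i`.
`F` maps `𝔟^m M = (yS)^m M` to itself, so it induces `h' : L_{2n} → L_{2n}`, `S`-linear, hence `D`-linear and commuting with the
`y_j`, and `proj (h' (mk v)) = mk (F v) = h (mk v)` (both sides are `S`-linear in `v`, check on the `e_i`).
-/

set_option autoImplicit false
set_option linter.unusedVariables false

namespace H96.RM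

universe u

/-- `𝔟_S^m` is contained in `D[y] + 𝔟_S^(m+1)` -/
theorem liftFree_pow {D S : Type u} [CommRing D] [CommRing S] [Algebra D S] {l : ℕ}
    (yS : Fin l → S)
    (hDS : ∀ s : S, ∃ c : D, s - algebraMap D S c ∈ Ideal.span (Set.range yS)) (m : ℕ) :
    ∀ t ∈ Ideal.span (Set.range yS) ^ m, ∃ q ∈ Algebra.adjoin D (Set.range yS),
      t - q ∈ Ideal.span (Set.range yS) ^ (m + 1) := by
  induction m with
  | zero =>
    intro t _
    obtain ⟨c, hc⟩ := hDS t
    refine ⟨algebraMap D S c, Subalgebra.algebraMap_mem _ c, ?_⟩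
    rw [zero_add, pow_one]
    exact hc
  | succ m ih =>
    intro t ht
    rw [pow_succ] at ht
    refine Submodule.mul_induction_on ht ?_ ?_
    · intro a ha b hb
      have key : ∀ a ∈ Ideal.span (Set.range yS) ^ m, ∃ q ∈ Algebra.adjoin D (Set.range yS),
          a * b - q ∈ Ideal.span (Set.range yS) ^ (m + 1 + 1) := by
        refine Submodule.span_induction (p := fun b _ => ∀ a ∈ Ideal.span (Set.range yS) ^ m,
          ∃ q ∈ Algebra.adjoin D (Set.range yS),
            a * b - q ∈ Ideal.span (Set.range yS) ^ (m + 1 + 1)) ?_ ?_ ?_ ?_ hb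
        · intro b hb a ha
          obtain ⟨q, hq, hq'⟩ := ih a ha
          refine ⟨q * b, Subalgebra.mul_mem _ hq (Algebra.subset_adjoin hb), ?_⟩
          rw [← sub_mul, pow_succ _ (m + 1)]
          exact Ideal.mul_mem_mul hq' (Ideal.subset_span hb)
        · intro a _
          exact ⟨0, Subalgebra.zero_mem _, by rw [mul_zero, sub_zero]; exact Ideal.zero_mem _⟩
        · intro x y _ _ hx hy a ha
          obtain ⟨q, hq, hq'⟩ := hx a ha
          obtain ⟨r, hr, hr'⟩ := hy a ha
          refine ⟨q + r, Subalgebra.add_mem _ hq hr, ?_⟩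
          have : a * (x + y) - (q + r) = (a * x - q) + (a * y - r) := by ring
          rw [this]
          exact Ideal.add_mem _ hq' hr'
        · intro r x _ hx a ha
          obtain ⟨q, hq, hq'⟩ := hx (a * r) (Ideal.mul_mem_right _ _ ha)
          refine ⟨q, hq, ?_⟩
          have : a * (r • x) = a * r * x := by rw [smul_eq_mul, mul_assoc]
          rw [this]
          exact hq'
      exact key a ha
    · rintro x y ⟨q, hq, hq'⟩ ⟨r, hr, hr'⟩
      refine ⟨q + r, Subalgebra.add_mem _ hq hr, ?_⟩
      have : x + y - (q + r) = (x - q) + (y - r) := by ring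
      rw [this]
      exact Ideal.add_mem _ hq' hr'

theorem liftFree_approx {D S : Type u} [CommRing D] [CommRing S] [Algebra D S] {l : ℕ}
    (yS : Fin l → S)
    (hDS : ∀ s : S, ∃ c : D, s - algebraMap D S c ∈ Ideal.span (Set.range yS)) (m : ℕ) (s : S) :
    ∃ q ∈ Algebra.adjoin D (Set.range yS), s - q ∈ Ideal.span (Set.range yS) ^ m := by
  induction m with
  | zero => exact ⟨0, Subalgebra.zero_mem _, by rw [pow_zero, Ideal.one_eq_top]; trivial⟩
  | succ m ih =>
    obtain ⟨q, hq, hq'⟩ := ih
    obtain ⟨r, hr, hr'⟩ := liftFree_pow yS hDS m _ hq'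
    refine ⟨q + r, Subalgebra.add_mem _ hq hr, ?_⟩
    rw [← sub_sub]
    exact hr'

theorem liftP_of_free {D S R : Type u} [CommRing D] [CommRing S] [CommRing R] [Algebra D S]
    [Algebra S R] [Algebra D R] [IsScalarTower D S R] {l : ℕ} (yS : Fin l → S) (y : Fin l → R)
    (hy : ∀ j, y j = algebraMap S R (yS j))
    (hDS : ∀ s : S, ∃ c : D, s - algebraMap D S c ∈ Ideal.span (Set.range yS))
    (n : ℕ) (M : Type u) [AddCommGroup M] [Module R M] [Module D M] [IsScalarTower D R M]
    [Module S M] [IsScalarTower S R M] [IsScalarTower D S M] [Module.Free S M]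
    [Module.Finite S M] : LiftP D y n M := by
  intro h hh
  have hI : Ideal.span (Set.range y) = (Ideal.span (Set.range yS)).map (algebraMap S R) := by
    rw [Ideal.map_span, ← Set.range_comp]
    congr 2
    funext j
    exact hy j
  have hkill : ∀ (m : ℕ) (s : S), s ∈ Ideal.span (Set.range yS) ^ m →
      ∀ v : Lv (Ideal.span (Set.range y)) m M, s • v = 0 := by
    intro m s hs v
    obtain ⟨w, rfl⟩ := Submodule.Quotient.mk_surjective _ v
    rw [← algebraMap_smul R s, ← Submodule.Quotient.mk_smul, Submodule.Quotient.mk_eq_zero]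
    refine Submodule.smul_mem_smul ?_ Submodule.mem_top
    rw [hI, ← Ideal.map_pow]
    exact Ideal.mem_map_of_mem _ hs
  have hadj : ∀ q ∈ Algebra.adjoin D (Set.range yS),
      ∀ v : Lv (Ideal.span (Set.range y)) (2 * n) M, h (q • v) = q • h v := by
    intro q hq
    refine Algebra.adjoin_induction (p := fun q _ =>
      ∀ v : Lv (Ideal.span (Set.range y)) (2 * n) M, h (q • v) = q • h v) ?_ ?_ ?_ ?_ hq
    · rintro _ ⟨j, rfl⟩ v
      rw [← algebraMap_smul R (yS j) v, ← algebraMap_smul R (yS j) (h v), ← hy j]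
      exact hh j v
    · intro c v
      rw [algebraMap_smul, algebraMap_smul, map_smul]
    · intro a b _ _ ha hb v
      rw [add_smul, add_smul, map_add, ha, hb]
    · intro a b _ _ ha hb v
      rw [mul_smul, mul_smul, ha, hb]
  have hS : ∀ (s : S) (v : Lv (Ideal.span (Set.range y)) (2 * n) M), h (s • v) = s • h v := by
    intro s v
    obtain ⟨q, hq, hq'⟩ := liftFree_approx yS hDS (2 * n) s
    have h1 : s • v = q • v := by
      rw [← sub_eq_zero, ← sub_smul]
      exact hkill _ _ hq' v
    have h2 : s • h v = q • h v := by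
      rw [← sub_eq_zero, ← sub_smul]
      exact hkill _ _ (Ideal.pow_le_pow_right (show n ≤ 2 * n by omega) hq') (h v)
    rw [h1, h2, hadj q hq]
  let f : M →ₗ[S] Lv (Ideal.span (Set.range y)) n M :=
    { toFun := fun m => h (Submodule.Quotient.mk m)
      map_add' := fun a b => by rw [Submodule.Quotient.mk_add, map_add]
      map_smul' := fun s a => by
        rw [RingHom.id_apply, ← hS]
        rfl }
  let g : M →ₗ[S] Lv (Ideal.span (Set.range y)) n M :=
    (Submodule.mkQ (Ideal.span (Set.range y) ^ n • (⊤ : Submodule R M))).restrictScalars S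
  obtain ⟨F, hF⟩ := Module.projective_lifting_property g f
    (Submodule.mkQ_surjective (Ideal.span (Set.range y) ^ n • (⊤ : Submodule R M)))
  set P : Submodule R M := Ideal.span (Set.range y) ^ (2 * n) • (⊤ : Submodule R M) with hP
  have hPS : P.restrictScalars S = (Ideal.span (Set.range yS) ^ (2 * n)) • (⊤ : Submodule S M) := by
    rw [hP, hI, ← Ideal.map_pow, Ideal.smul_restrictScalars, Submodule.restrictScalars_top]
  have hFP : P.restrictScalars S ≤ (P.restrictScalars S).comap F := by
    rw [hPS, ← Submodule.map_le_iff_le_comap, Submodule.map_smul'']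
    exact Submodule.smul_mono le_rfl le_top
  let e := Submodule.Quotient.restrictScalarsEquiv S P
  let h' : Lv (Ideal.span (Set.range y)) (2 * n) M →ₗ[S]
      Lv (Ideal.span (Set.range y)) (2 * n) M :=
    e.toLinearMap ∘ₗ Submodule.mapQ (P.restrictScalars S) (P.restrictScalars S) F hFP ∘ₗ
      e.symm.toLinearMap
  have hh' : ∀ m : M, h' (Submodule.Quotient.mk m) = Submodule.Quotient.mk (F m) := fun m => rfl
  refine ⟨h'.restrictScalars D, ?_, ?_⟩
  · intro j v
    change h' (y j • v) = y j • h' v
    rw [hy j, algebraMap_smul, algebraMap_smul, map_smul]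
  · intro v
    obtain ⟨m, rfl⟩ := Submodule.Quotient.mk_surjective _ v
    change projLv (Ideal.span (Set.range y)) (show n ≤ 2 * n by omega)
      (h' (Submodule.Quotient.mk m)) = h (Submodule.Quotient.mk m)
    rw [hh', projLv_mk]
    exact LinearMap.congr_fun hF m

end H96.RM
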