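import Mathlib
import Pool.Agent.H42.Rigid

/-!
# Job RM-C5: splitting of self-extensions means Ext^1 = 0 (helper96, MP_d7d607_ag)

Proof.  `H42.EP.of_split` gives a surjection `π : R^n → M` such that every homomorphism `ker π → M` extends to
`R^n`.  The sequence `0 → ker π → R^n → M → 0` is short exact in `ModuleCat R`; the contravariant long exact
sequence (`Ext.contravariant_sequence_exact₃`: `Hom(ker π, M) → Ext^1(M, M) → Ext^1(R^n, M)`) and
`Ext^1(R^n, M) = 0` (projective, `Ext.eq_zero_of_projective`) show that every `x ∈ Ext^1(M, M)` is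
`extClass.comp (mk₀ φ)` with `φ : ker π → M`; as `φ` extends to `R^n` the composite is `0`
(`ShortComplex.ShortExact.extClass_comp` / `Ext.contravariant_sequence_exact₁`: composite of consecutive maps is zero).
-/

set_option autoImplicit false
set_option linter.unusedVariables false

namespace H96.RM

universe u

open CategoryTheory Abelian

theorem rigid_of_split {R : Type u} [CommRing R] (M : Type u) [AddCommGroup M] [Module R M]
    [Module.Finite R M]
    (h : ∀ (E : Type u) [AddCommGroup E] [Module R E] (f : M →ₗ[R] E) (g : E →ₗ[R] M),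
      Function.Injective f → Function.Surjective g → LinearMap.range f = LinearMap.ker g →
      ∃ s : M →ₗ[R] E, g ∘ₗ s = LinearMap.id) :
    Subsingleton (Ext (ModuleCat.of R M) (ModuleCat.of R M) 1) := by
  obtain ⟨n, π, hπ, hext⟩ := H42.EP.of_split M h
  let S : ShortComplex (ModuleCat.{u} R) := ModuleCat.shortComplexOfCompEqZero
    (LinearMap.ker π).subtype π (LinearMap.ext fun x => x.2)
  have hS : S.ShortExact := by
    refine ModuleCat.shortComplex_shortExact S ?_ (LinearMap.ker π).injective_subtype hπ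
    intro x
    exact ⟨fun hx => ⟨⟨x, hx⟩, rfl⟩, fun ⟨y, hy⟩ => by rw [← hy]; exact y.2⟩
  have hP : Projective S.X₂ :=
    inferInstanceAs (Projective (ModuleCat.of R (Fin n → R)))
  refine subsingleton_of_forall_eq 0 fun x => ?_
  have h0 : (Ext.mk₀ S.g).comp x (zero_add 1) = 0 := Ext.eq_zero_of_projective _
  obtain ⟨x₁, hx₁⟩ := Ext.contravariant_sequence_exact₃ hS _ x h0 (add_zero 1)
  obtain ⟨φ, rfl⟩ : ∃ φ, x₁ = Ext.mk₀ φ :=
    ⟨Ext.homEquiv₀ x₁, (Ext.mk₀_homEquiv₀_apply _).symm⟩
  obtain ⟨ψ, hψ⟩ := hext φ.hom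
  have hφ : φ = S.f ≫ (ModuleCat.ofHom ψ : S.X₂ ⟶ ModuleCat.of R M) := by
    apply ModuleCat.hom_ext
    apply LinearMap.ext
    intro y
    exact (hψ y).symm
  rw [← hx₁, hφ, ← Ext.mk₀_comp_mk₀]
  exact hS.extClass_comp_assoc (Ext.mk₀ (ModuleCat.ofHom ψ : S.X₂ ⟶ ModuleCat.of R M))

end H96.RM
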