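import Mathlib
import Pool.Agent.H96.RM.AbsMain
import Pool.Agent.H96.RM.LevelIso
import Pool.Agent.H96.RM.LiftFree
import Pool.Agent.H96.RM.FreeReg
import Pool.Agent.H42.FinalOne

/-!
# Sequences of rigid modules over a finite extension of a regular local ring
(helper96, MP_d7d607_ag)

`D` a DVR with infinite residue field, `S` a regular local ring with parameters `z` (the uniformizer of `D`), `y_1..y_l`, `D → S/(y)`
surjective, `R` finite over `S`.
-/

set_option autoImplicit false
set_option linter.unusedVariables false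
set_option linter.unusedSectionVars false

namespace H96.RM

universe u

open IsLocalRing RingTheory.Sequence CategoryTheory Abelian

section Free

variable {D : Type u} [CommRing D] [IsDomain D] [IsDiscreteValuationRing D]
  {R : Type u} [CommRing R] [Algebra D R]

/-- levels are torsion-free over `D` -/
theorem lv_free (ϖ : D) (hϖ : maximalIdeal D = Ideal.span {ϖ}) (ys : List R) (N : ℕ)
    (M : Type u) [AddCommGroup M] [Module R M] [Module D M] [IsScalarTower D R M]
    (hPR : PR R M (algebraMap D R ϖ :: ys))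
    (hfin : Module.Finite D (Lv (Ideal.ofList ys) N M)) :
    Module.Free D (Lv (Ideal.ofList ys) N M) := by
  have hirr : Irreducible ϖ := (IsDiscreteValuationRing.irreducible_iff_uniformizer ϖ).mpr hϖ
  have key : ∀ (m : ℕ) (v : M), (algebraMap D R ϖ) ^ m • v ∈
      Ideal.ofList ys ^ N • (⊤ : Submodule R M) →
      v ∈ Ideal.ofList ys ^ N • (⊤ : Submodule R M) := by
    intro m
    induction m with
    | zero => intro v hv; simpa using hv
    | succ m ih =>
      intro v hv
      refine ih v (hPR.regular_quot N _ ?_)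
      rwa [← mul_smul, ← pow_succ']
  have htf : Module.IsTorsionFree D (Lv (Ideal.ofList ys) N M) := by
    refine Module.IsTorsionFree.of_smul_eq_zero fun a x hax => ?_
    by_cases ha : a = 0
    · exact Or.inl ha
    right
    obtain ⟨m, u, rfl⟩ := IsDiscreteValuationRing.eq_unit_mul_pow_irreducible ha hirr
    obtain ⟨v, rfl⟩ := Submodule.Quotient.mk_surjective _ x
    have h1 : ϖ ^ m • (Submodule.Quotient.mk v : Lv (Ideal.ofList ys) N M) = 0 := by
      have h2 := congrArg (fun w => (↑u⁻¹ : D) • w) hax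
      simpa [smul_smul, ← mul_assoc] using h2
    rw [← Submodule.Quotient.mk_smul, Submodule.Quotient.mk_eq_zero] at h1
    rw [Submodule.Quotient.mk_eq_zero]
    refine key m v ?_
    rwa [← map_pow, algebraMap_smul]
  exact Module.free_of_finite_type_torsion_free'

/-- levels are finite over `D` -/
theorem lv_finite (I : Ideal R) (N : ℕ)
    (hfin : ∃ (g : ℕ) (r : Fin g → R), ∀ x : R, ∃ c : Fin g → D,
      x - ∑ i, c i • r i ∈ I ^ N)
    (M : Type u) [AddCommGroup M] [Module R M] [Module.Finite R M] [Module D M]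
    [IsScalarTower D R M] : Module.Finite D (Lv I N M) := by
  obtain ⟨g, r, hr⟩ := hfin
  obtain ⟨s, hs⟩ := Module.Finite.fg_top (R := R) (M := M)
  have hfs : (Set.range fun p : Fin g × s =>
      (Submodule.Quotient.mk (r p.1 • (p.2 : M)) : Lv I N M)).Finite := Set.finite_range _
  refine ⟨⟨hfs.toFinset, ?_⟩⟩
  rw [Set.Finite.coe_toFinset, eq_top_iff]
  rintro x -
  obtain ⟨v, rfl⟩ := Submodule.Quotient.mk_surjective _ x
  have hv : v ∈ Submodule.span R (s : Set M) := by rw [hs]; trivial
  suffices h : ∀ a : R, (Submodule.Quotient.mk (a • v) : Lv I N M) ∈ Submodule.span D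
      (Set.range fun p : Fin g × s => (Submodule.Quotient.mk (r p.1 • (p.2 : M)) : Lv I N M)) by
    simpa using h 1
  induction hv using Submodule.span_induction with
  | mem v hv =>
    intro a
    obtain ⟨c, hc⟩ := hr a
    have h1 : (Submodule.Quotient.mk (a • v) : Lv I N M) =
        ∑ i, c i • (Submodule.Quotient.mk (r i • v) : Lv I N M) := by
      have h2 : (Submodule.Quotient.mk ((a - ∑ i, c i • r i) • v) : Lv I N M) = 0 := by
        rw [Submodule.Quotient.mk_eq_zero]
        exact Submodule.smul_mem_smul hc trivial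
      rw [sub_smul, Submodule.Quotient.mk_sub, sub_eq_zero, Finset.sum_smul] at h2
      rw [h2, ← Submodule.mkQ_apply, map_sum]
      refine Finset.sum_congr rfl fun i _ => ?_
      rw [Submodule.mkQ_apply, smul_assoc, Submodule.Quotient.mk_smul]
    rw [h1]
    refine Submodule.sum_mem _ fun i _ => Submodule.smul_mem _ _ (Submodule.subset_span ?_)
    exact ⟨(i, ⟨v, hv⟩), rfl⟩
  | zero => intro a; simp
  | add a b _ _ ha hb =>
    intro c
    rw [smul_add, Submodule.Quotient.mk_add]
    exact Submodule.add_mem _ (ha c) (hb c)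
  | smul a v _ h =>
    intro c
    rw [← mul_smul]
    exact h (c * a)

end Free


section SFree

variable {D S R : Type u} [CommRing D] [CommRing S] [CommRing R] [Algebra D S] [Algebra S R]
  [Algebra D R] [IsScalarTower D S R]

/-- an `S`-linear isomorphism induces an isomorphism of levels -/
theorem lv_iso {l : ℕ} (yS : Fin l → S) (y : Fin l → R) (hy : ∀ j, y j = algebraMap S R (yS j))
    (N : ℕ) (M M' : Type u) [AddCommGroup M] [Module R M] [Module S M] [Module D M]
    [IsScalarTower S R M] [IsScalarTower D R M] [IsScalarTower D S M]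
    [AddCommGroup M'] [Module R M'] [Module S M'] [Module D M']
    [IsScalarTower S R M'] [IsScalarTower D R M'] [IsScalarTower D S M']
    (e : M ≃ₗ[S] M') :
    ∃ e : Lv (Ideal.span (Set.range y)) N M ≃ₗ[D] Lv (Ideal.span (Set.range y)) N M',
      ∀ j v, e (y j • v) = y j • e v := by
  have hspan : Ideal.span (Set.range y) = (Ideal.span (Set.range yS)).map (algebraMap S R) := by
    rw [Ideal.map_span, ← Set.range_comp]
    congr 1
    exact congrArg Set.range (funext hy)
  have hP : ∀ (X : Type u) [AddCommGroup X] [Module R X] [Module S X] [IsScalarTower S R X],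
      (Ideal.span (Set.range y) ^ N • (⊤ : Submodule R X)).restrictScalars S =
        Ideal.span (Set.range yS) ^ N • (⊤ : Submodule S X) := by
    intro X _ _ _ _
    rw [hspan, ← Ideal.map_pow, Ideal.smul_restrictScalars]
    rfl
  have hmap : ((Ideal.span (Set.range y) ^ N • (⊤ : Submodule R M)).restrictScalars S).map
      (e : M →ₗ[S] M') = (Ideal.span (Set.range y) ^ N • (⊤ : Submodule R M')).restrictScalars S := by
    rw [hP, hP, Submodule.map_smul'', Submodule.map_top, LinearEquiv.range]
  let e1 := (Submodule.Quotient.restrictScalarsEquiv S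
    (Ideal.span (Set.range y) ^ N • (⊤ : Submodule R M))).symm
  let e2 := Submodule.Quotient.equiv _ _ e hmap
  let e3 := Submodule.Quotient.restrictScalarsEquiv S
    (Ideal.span (Set.range y) ^ N • (⊤ : Submodule R M'))
  let E := e1 ≪≫ₗ e2 ≪≫ₗ e3
  refine ⟨E.restrictScalars D, fun j v => ?_⟩
  rw [hy, algebraMap_smul, algebraMap_smul]
  exact E.map_smul (yS j) v

/-- bound for the rank -/
theorem finrank_le_of_length [IsLocalRing R] [IsNoetherianRing R] [IsDomain S] (g : ℕ)
    (r : Fin g → R) (hr : Submodule.span S (Set.range r) = ⊤)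
    (M : Type u) [AddCommGroup M] [Module R M] [Module S M] [IsScalarTower S R M]
    [Module.Finite R M] (I : Ideal R) (hI : I ≤ maximalIdeal R) (b : ℕ)
    (hb : Module.length R (M ⧸ (I • (⊤ : Submodule R M))) ≤ b) :
    Module.finrank S M ≤ b * g := by
  obtain ⟨m, hm⟩ := H42.exists_generators_local b M (I • (⊤ : Submodule R M))
    (Submodule.smul_mono_left hI) hb
  have h1 : Submodule.span S (Set.range fun p : Fin b × Fin g => r p.2 • m p.1) = ⊤ := by
    rw [eq_top_iff]
    rintro v -
    have hv : v ∈ Submodule.span R (Set.range m) := by rw [hm]; trivial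
    rw [Submodule.mem_span_range_iff_exists_fun] at hv
    obtain ⟨c, rfl⟩ := hv
    refine Submodule.sum_mem _ fun i _ => ?_
    have hc : c i ∈ Submodule.span S (Set.range r) := by rw [hr]; trivial
    rw [Submodule.mem_span_range_iff_exists_fun] at hc
    obtain ⟨a, ha⟩ := hc
    rw [← ha, Finset.sum_smul]
    refine Submodule.sum_mem _ fun j _ => ?_
    rw [smul_assoc]
    exact Submodule.smul_mem _ _ (Submodule.subset_span ⟨(i, j), rfl⟩)
  have h2 := finrank_range_le_card (R := S) (b := fun p : Fin b × Fin g => r p.2 • m p.1)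
  rw [Set.finrank, h1, finrank_top] at h2
  simpa using h2

end SFree

section Main

variable {D S R : Type u} [CommRing D] [IsDomain D] [IsDiscreteValuationRing D]
  [Infinite (ResidueField D)] [CommRing S] [IsLocalRing S] [IsNoetherianRing S] [IsDomain S]
  [CommRing R] [IsLocalRing R] [IsNoetherianRing R] [Algebra D S] [Algebra S R]
  [Algebra D R] [IsScalarTower D S R] [Module.Finite S R]

theorem seq_core_aux (ϖ : D) (hϖ : maximalIdeal D = Ideal.span {ϖ}) {l : ℕ} (yS : Fin l → S)
    (y : Fin l → R) (hy : ∀ j, y j = algebraMap S R (yS j))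
    (hS : Ideal.ofList (algebraMap D S ϖ :: List.ofFn yS) = maximalIdeal S)
    (hDS : ∀ s : S, ∃ c : D, s - algebraMap D S c ∈ Ideal.span (Set.range yS))
    (hz : algebraMap D R ϖ ∈ maximalIdeal R) (hym : ∀ j, y j ∈ maximalIdeal R)
    (hfin : ∀ N, ∃ (g : ℕ) (r : Fin g → R), ∀ x : R, ∃ c : Fin g → D,
      x - ∑ i, c i • r i ∈ (Ideal.span (Set.range y)) ^ N)
    (M : ℕ → Type u) [∀ i, AddCommGroup (M i)] [∀ i, Module R (M i)] [∀ i, Module S (M i)]
    [∀ i, Module D (M i)] [∀ i, IsScalarTower S R (M i)] [∀ i, IsScalarTower D R (M i)]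
    [∀ i, IsScalarTower D S (M i)] [∀ i, Module.Finite R (M i)]
    (hPR : ∀ i, PR R (M i) (algebraMap D R ϖ :: List.ofFn y))
    (hFF : ∀ i j, FF R (M i) (y j)) (b : ℕ)
    (hb : ∀ i, Module.length R
      (M i ⧸ (Ideal.ofList (algebraMap D R ϖ :: List.ofFn y) • (⊤ : Submodule R (M i)))) ≤ b)
    (hrig : ∀ i, Subsingleton (Ext (ModuleCat.of R (M i)) (ModuleCat.of R (M i)) 1)) :
    ∃ i j, i < j ∧ Nonempty (M i ≃ₗ[R] M j) := by
  have hfS : ∀ i, Module.Finite S (M i) := fun i => Module.Finite.trans R (M i)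
  have hfree : ∀ i, Module.Free S (M i) := by
    intro i
    refine free_of_regular _ hS (M i) ?_
    rw [← isWeaklyRegular_map_algebraMap_iff (S := R)]
    refine hPR i _ ?_
    have : (algebraMap D S ϖ :: List.ofFn yS).map (algebraMap S R) =
        algebraMap D R ϖ :: List.ofFn y := by
      rw [List.map_cons, ← IsScalarTower.algebraMap_apply, List.map_ofFn]
      congr 2
      exact funext fun j => (hy j).symm
    rw [this]
  obtain ⟨s, hs⟩ := Module.Finite.fg_top (R := S) (M := R)
  have hI : Ideal.ofList (algebraMap D R ϖ :: List.ofFn y) ≤ maximalIdeal R := by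
    rw [Ideal.ofList, Ideal.span_le]
    intro x hx
    simp only [List.mem_cons, List.mem_ofFn, Set.mem_setOf_eq] at hx
    rcases hx with rfl | ⟨j, rfl⟩
    · exact hz
    · exact hym j
  have hrank : ∀ i, Module.finrank S (M i) < b * s.card + 1 := by
    intro i
    rw [Nat.lt_succ_iff]
    refine finrank_le_of_length s.card (fun j => (s.equivFin.symm j : R)) ?_ (M i) _ hI b (hb i)
    rw [← hs]
    congr 1
    ext x
    constructor
    · rintro ⟨j, rfl⟩
      exact (s.equivFin.symm j).2
    · intro hx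
      exact ⟨s.equivFin ⟨x, hx⟩, by simp⟩
  obtain ⟨ρ, φ, hφ, hρ⟩ := H42.exists_const_subseq
    (fun i => (⟨Module.finrank S (M i), hrank i⟩ : Fin (b * s.card + 1)))
  have hρ' : ∀ i, Module.finrank S (M (φ i)) = ρ.1 := fun i => congrArg Fin.val (hρ i)
  have hof : Ideal.ofList (List.ofFn y) = Ideal.span (Set.range y) := ofList_ofFn y
  have hf : ∀ N i, Module.Finite D (Lv (Ideal.span (Set.range y)) N (M i)) :=
    fun N i => lv_finite _ N (hfin N) (M i)
  have hfr : ∀ N i, Module.Free D (Lv (Ideal.span (Set.range y)) N (M i)) := by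
    intro N i
    have h := hf N i
    rw [← hof] at h ⊢
    exact lv_free ϖ hϖ (List.ofFn y) N (M i) (hPR i) h
  obtain ⟨i, j, hij, ⟨e⟩⟩ := abs_main (D := D) y (l + 1) (by omega) (hfin _)
    (fun i => M (φ i)) (fun i => hf _ _) (fun i => hfr _ _) (fun i => hf _ _) (fun i => hfr _ _)
    (fun i => by
      have e : M (φ 0) ≃ₗ[S] M (φ i) :=
        LinearEquiv.ofFinrankEq _ _ ((hρ' 0).trans (hρ' i).symm)
      exact lv_iso yS y hy _ _ _ e)
    (fun i => approxRigid_of_rigid y (l + 1) le_rfl (M (φ i)) (hrig _) (hFF _) (hPR _).tail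
      (liftP_of_free yS y hy hDS (l + 1) (M (φ i))))
  refine ⟨φ i, φ j, hφ hij, ?_⟩
  rw [← hof] at e
  refine iso_of_level (M (φ i)) (M (φ j)) (List.ofFn y) ?_ ?_ ?_ (hPR _).tail (hPR _).tail (l + 1)
    (by simp) e
  · intro x hx
    simp only [List.mem_ofFn] at hx
    obtain ⟨j, rfl⟩ := hx
    exact hym j
  · intro x hx
    simp only [List.mem_ofFn] at hx
    obtain ⟨j, rfl⟩ := hx
    exact hFF _ j
  · intro x hx
    simp only [List.mem_ofFn] at hx
    obtain ⟨j, rfl⟩ := hx
    exact hFF _ j

theorem seq_core (ϖ : D) (hϖ : maximalIdeal D = Ideal.span {ϖ}) {l : ℕ} (yS : Fin l → S)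
    (y : Fin l → R) (hy : ∀ j, y j = algebraMap S R (yS j))
    (hS : Ideal.ofList (algebraMap D S ϖ :: List.ofFn yS) = maximalIdeal S)
    (hDS : ∀ s : S, ∃ c : D, s - algebraMap D S c ∈ Ideal.span (Set.range yS))
    (hz : algebraMap D R ϖ ∈ maximalIdeal R) (hym : ∀ j, y j ∈ maximalIdeal R)
    (hfin : ∀ N, ∃ (g : ℕ) (r : Fin g → R), ∀ x : R, ∃ c : Fin g → D,
      x - ∑ i, c i • r i ∈ (Ideal.span (Set.range y)) ^ N)
    (M : ℕ → Type u) [∀ i, AddCommGroup (M i)] [∀ i, Module R (M i)]
    [∀ i, Module.Finite R (M i)]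
    (hPR : ∀ i, PR R (M i) (algebraMap D R ϖ :: List.ofFn y))
    (hFF : ∀ i j, FF R (M i) (y j)) (b : ℕ)
    (hb : ∀ i, Module.length R
      (M i ⧸ (Ideal.ofList (algebraMap D R ϖ :: List.ofFn y) • (⊤ : Submodule R (M i)))) ≤ b)
    (hrig : ∀ i, Subsingleton (Ext (ModuleCat.of R (M i)) (ModuleCat.of R (M i)) 1)) :
    ∃ i j, i < j ∧ Nonempty (M i ≃ₗ[R] M j) := by
  letI : ∀ i, Module S (M i) := fun i => Module.compHom (M i) (algebraMap S R)
  letI : ∀ i, Module D (M i) := fun i => Module.compHom (M i) (algebraMap D R)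
  haveI : ∀ i, IsScalarTower S R (M i) := fun i =>
    ⟨fun s r m => by rw [Algebra.smul_def, mul_smul]; rfl⟩
  haveI : ∀ i, IsScalarTower D R (M i) := fun i =>
    ⟨fun s r m => by rw [Algebra.smul_def, mul_smul]; rfl⟩
  haveI : ∀ i, IsScalarTower D S (M i) := fun i => ⟨fun d s m => by
    change algebraMap S R (d • s) • m = algebraMap D R d • algebraMap S R s • m
    rw [Algebra.smul_def, map_mul, mul_smul, ← IsScalarTower.algebraMap_apply]⟩
  exact seq_core_aux ϖ hϖ yS y hy hS hDS hz hym hfin M hPR hFF b hb hrig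

end Main

end H96.RM
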