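import Mathlib
import Pool.Agent.H96.RM.SeqCore
import Pool.Agent.H96.RM.SopReg
import Pool.Agent.H96.RM.SopExist
import Pool.Agent.H96.RM.LenLim
import Pool.Agent.H96.RM.FinPS
import Pool.Agent.H96.RM.FinD
import Pool.Agent.H96.RM.PiLemma2
import Pool.Agent.H96.RM.PiSubst

/-!
# Sequences of rigid modules over quotients of power series rings
(helper96, MP_d7d607_ag)
-/

set_option autoImplicit false
set_option linter.unusedVariables false
set_option linter.unusedSectionVars false
set_option linter.style.haveILetI false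

namespace H96.RM

universe u

open IsLocalRing RingTheory.Sequence CategoryTheory Abelian

theorem lift_zero {k : Type u} [Field k] {R : Type u} [CommRing R] [IsLocalRing R] {n : ℕ}
    (π : MvPowerSeries (Fin n) k →+* R) (hπ : Function.Surjective π) (r : R)
    (hr : r ∈ maximalIdeal R) :
    ∃ F : MvPowerSeries (Fin n) k, MvPowerSeries.constantCoeff F = 0 ∧ π F = r := by
  obtain ⟨F, rfl⟩ := hπ r
  refine ⟨F, ?_, rfl⟩
  have h1 : π (F - MvPowerSeries.C (MvPowerSeries.constantCoeff F)) ∈ maximalIdeal R :=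
    pi_mem π hπ _ (by simp)
  rw [map_sub] at h1
  have h2 : π (MvPowerSeries.C (MvPowerSeries.constantCoeff F)) ∈ maximalIdeal R := by
    have := Ideal.sub_mem _ hr h1
    simpa using this
  by_contra hne
  have h3 : IsUnit (π (MvPowerSeries.C (MvPowerSeries.constantCoeff F))) :=
    (((Ne.isUnit hne).map MvPowerSeries.C).map π)
  exact (IsLocalRing.mem_maximalIdeal _).mp h2 h3

theorem sup_pow_le {R : Type u} [CommRing R] (I J : Ideal R) (N : ℕ) :
    (I ⊔ J) ^ N ≤ I ⊔ J ^ N := by
  induction N with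
  | zero => simp
  | succ N ih =>
    have h1 : (I ⊔ J) ^ (N + 1) ≤ (I ⊔ J ^ N) * (I ⊔ J) := by
      rw [pow_succ]
      exact Ideal.mul_mono ih le_rfl
    refine h1.trans (Ideal.mul_le.mpr fun a ha b hb => ?_)
    obtain ⟨a1, ha1, a2, ha2, rfl⟩ := Submodule.mem_sup.mp ha
    obtain ⟨b1, hb1, b2, hb2, rfl⟩ := Submodule.mem_sup.mp hb
    rw [add_mul, mul_add a2, pow_succ, ← add_assoc]
    refine Ideal.add_mem _ (Ideal.mem_sup_left (Ideal.add_mem _ (I.mul_mem_right _ ha1)
      (I.mul_mem_left _ hb1))) (Ideal.mem_sup_right (Ideal.mul_mem_mul ha2 hb2))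

theorem axis {k : Type u} [Field k] {l : ℕ} (ι : PowerSeries k →+* MvPowerSeries (Fin (l + 1)) k)
    (hX : ι PowerSeries.X = MvPowerSeries.X 0)
    (hC : ∀ c : k, ι (PowerSeries.C c) = MvPowerSeries.C c)
    (s : MvPowerSeries (Fin (l + 1)) k) :
    ∃ c : PowerSeries k, s - ι c ∈
      Ideal.span (Set.range fun j : Fin l => (MvPowerSeries.X j.succ : MvPowerSeries (Fin (l + 1)) k)) := by
  haveI : IsNoetherianRing (MvPowerSeries (Fin (l + 1)) k) :=
    pi_isNoetherian (RingHom.id _) Function.surjective_id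
  set I : Ideal (MvPowerSeries (Fin (l + 1)) k) :=
    Ideal.span (Set.range fun j : Fin l => (MvPowerSeries.X j.succ : MvPowerSeries (Fin (l + 1)) k))
  have hspan := pi_span (RingHom.id (MvPowerSeries (Fin (l + 1)) k)) Function.surjective_id
  have hsup : maximalIdeal (MvPowerSeries (Fin (l + 1)) k) ≤ I ⊔ Ideal.span {ι PowerSeries.X} := by
    rw [← hspan, Ideal.span_le]
    rintro x ⟨i, rfl⟩
    refine Fin.cases ?_ (fun j => ?_) i
    · refine Ideal.mem_sup_right ?_
      rw [hX]
      exact Ideal.mem_span_singleton_self _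
    · exact Ideal.mem_sup_left (Ideal.subset_span ⟨j, rfl⟩)
  have hXm : ι PowerSeries.X ∈ maximalIdeal (MvPowerSeries (Fin (l + 1)) k) := by
    rw [hX]
    exact pi_mem (RingHom.id (MvPowerSeries (Fin (l + 1)) k)) Function.surjective_id
      (MvPowerSeries.X 0) (by simp)
  have hres : ∀ r : MvPowerSeries (Fin (l + 1)) k, ∃ c : k, r - ι (PowerSeries.C c) ∈
      maximalIdeal (MvPowerSeries (Fin (l + 1)) k) := by
    intro r
    obtain ⟨c, hc⟩ := pi_res (RingHom.id _) Function.surjective_id r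
    exact ⟨c, by rw [hC]; exact hc⟩
  obtain ⟨g, r, hr⟩ := finite_D ι hres hXm I 1 (by rwa [pow_one])
  letI : Algebra (PowerSeries k) (MvPowerSeries (Fin (l + 1)) k) := ι.toAlgebra
  have hsm : ∀ (a : PowerSeries k) (x : MvPowerSeries (Fin (l + 1)) k), a • x = ι a * x :=
    fun a x => rfl
  haveI hfin : Module.Finite (PowerSeries k) (MvPowerSeries (Fin (l + 1)) k ⧸ I) := by
    refine Module.Finite.of_surjective (Fintype.linearCombination (PowerSeries k)
      (fun i => (Ideal.Quotient.mk I (r i)))) ?_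
    intro x
    obtain ⟨x, rfl⟩ := Ideal.Quotient.mk_surjective x
    obtain ⟨a, ha⟩ := hr x
    refine ⟨a, ?_⟩
    rw [Fintype.linearCombination_apply]
    have h1 : Ideal.Quotient.mk I x = Ideal.Quotient.mk I (∑ i, ι (a i) * r i) :=
      Ideal.Quotient.eq.mpr ha
    rw [h1, map_sum]
    exact Finset.sum_congr rfl fun i _ => by rw [← hsm]; rfl
  let P : Submodule (PowerSeries k) (MvPowerSeries (Fin (l + 1)) k ⧸ I) :=
    Submodule.span (PowerSeries k) {1}
  have hP : P = ⊤ := by
    rw [← IsLocalRing.map_mkQ_eq_top, eq_top_iff]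
    rintro x -
    obtain ⟨x, rfl⟩ := Submodule.mkQ_surjective _ x
    obtain ⟨x, rfl⟩ := Ideal.Quotient.mk_surjective x
    obtain ⟨c, hc⟩ := hres x
    have h1 := hsup hc
    rw [Submodule.mem_sup] at h1
    obtain ⟨a, ha, b, hb, hab⟩ := h1
    obtain ⟨t, rfl⟩ := Ideal.mem_span_singleton'.mp hb
    refine ⟨Ideal.Quotient.mk I (ι (PowerSeries.C c)), ?_, ?_⟩
    · refine Submodule.mem_span_singleton.mpr ⟨PowerSeries.C c, ?_⟩
      rw [← map_one (Ideal.Quotient.mk I)]
      change Ideal.Quotient.mk I ((PowerSeries.C c) • (1 : MvPowerSeries (Fin (l + 1)) k)) = _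
      rw [hsm, mul_one]
    · rw [← sub_eq_zero, ← map_sub, ← map_sub, Submodule.mkQ_apply, Submodule.Quotient.mk_eq_zero]
      have h2 : Ideal.Quotient.mk I (ι (PowerSeries.C c) - x) =
          (PowerSeries.X : PowerSeries k) • Ideal.Quotient.mk I (-t) := by
        change _ = Ideal.Quotient.mk I ((PowerSeries.X : PowerSeries k) • (-t))
        rw [Ideal.Quotient.eq, hsm]
        have : ι (PowerSeries.C c) - x - ι PowerSeries.X * -t = -a := by
          linear_combination hab
        rw [this]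
        exact I.neg_mem ha
      rw [h2]
      refine Submodule.smul_mem_smul ?_ trivial
      rw [PowerSeries.maximalIdeal_eq_span_X]
      exact Ideal.mem_span_singleton_self _
  have hs : Ideal.Quotient.mk I s ∈ P := by rw [hP]; trivial
  obtain ⟨c, hc⟩ := Submodule.mem_span_singleton.mp hs
  refine ⟨c, ?_⟩
  rw [← Ideal.Quotient.eq, ← hc, ← map_one (Ideal.Quotient.mk I)]
  change Ideal.Quotient.mk I (c • (1 : MvPowerSeries (Fin (l + 1)) k)) = _
  rw [hsm, mul_one]

theorem seq_main {k : Type u} [Field k] [Infinite k] {R : Type u} [CommRing R] [IsLocalRing R]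
    {n : ℕ} (π : MvPowerSeries (Fin n) k →+* R) (hπ : Function.Surjective π) (l : ℕ)
    (hd : ringKrullDim R = (l + 1 : ℕ)) (J : Ideal R) (hJd : ringKrullDim (R ⧸ J) ≤ 1)
    (B : ℕ) (f : ℕ → ModuleCat.{u} R) (hfin : ∀ i, Module.Finite R (f i))
    (hM : ∀ i, H42.MCMLe R B (f i)) (hFF : ∀ i, ∀ x ∈ J, FF R (f i) x)
    (hrig : ∀ i, Subsingleton (Ext (ModuleCat.of R (f i)) (ModuleCat.of R (f i)) 1)) :
    ∃ i j, i < j ∧ Nonempty (f i ≃ₗ[R] f j) := by
  have hN : IsNoetherianRing R := pi_isNoetherian π hπ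
  obtain ⟨z, y, hz, hy, c, hc⟩ := exists_sop l hd J hJd
  obtain ⟨gz, hgz, hgz'⟩ := lift_zero π hπ z hz
  choose gy hgy hgy' using fun j => lift_zero π hπ (y j) (hy j).2
  let g : Fin (l + 1) → MvPowerSeries (Fin n) k := Fin.cons gz gy
  have hg : ∀ i, MvPowerSeries.constantCoeff (g i) = 0 := by
    intro i
    refine Fin.cases ?_ (fun j => ?_) i
    · simpa [g] using hgz
    · simpa [g] using hgy j
  obtain ⟨φ, hφC, hφX⟩ := exists_subst π g hg
  have hφ0 : φ (MvPowerSeries.X 0) = z := by rw [hφX]; simpa [g] using hgz'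
  have hφs : ∀ j : Fin l, φ (MvPowerSeries.X j.succ) = y j := by
    intro j; rw [hφX]; simpa [g] using hgy' j
  have hres : ∀ r : R, ∃ c : k, r - φ (MvPowerSeries.C c) ∈ maximalIdeal R := by
    intro r
    obtain ⟨c, hc⟩ := pi_res π hπ r
    exact ⟨c, by rwa [hφC]⟩
  have hm : ∀ i, φ (MvPowerSeries.X i) ∈ maximalIdeal R := by
    intro i
    refine Fin.cases ?_ (fun j => ?_) i
    · rwa [hφ0]
    · rw [hφs]; exact (hy j).2
  -- the list of parameters
  have hlist : Ideal.ofList (z :: List.ofFn y) = Ideal.span {z} ⊔ Ideal.span (Set.range y) := by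
    rw [Ideal.ofList_cons, ofList_ofFn]
  have hrange : Ideal.span (Set.range fun i => φ (MvPowerSeries.X i)) =
      Ideal.span {z} ⊔ Ideal.span (Set.range y) := by
    rw [← Ideal.span_union]
    congr 1
    ext x
    simp only [Set.mem_range, Set.singleton_union, Set.mem_insert_iff]
    constructor
    · rintro ⟨i, rfl⟩
      refine Fin.cases ?_ (fun j => ?_) i
      · left; rw [hφ0]
      · right; exact ⟨j, (hφs j).symm⟩
    · rintro (rfl | ⟨j, rfl⟩)
      · exact ⟨0, hφ0⟩
      · exact ⟨j.succ, hφs j⟩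
  have hfinφ : φ.Finite := finite_of_sop φ hres hm c (hrange ▸ hc)
  -- one parameter
  let ι : PowerSeries k →+* MvPowerSeries (Fin (l + 1)) k :=
    (PowerSeries.toMvPowerSeries (R := k) (0 : Fin (l + 1))).toRingHom
  have hιX : ι PowerSeries.X = MvPowerSeries.X 0 := PowerSeries.toMvPowerSeries_X _
  have hιC : ∀ c : k, ι (PowerSeries.C c) = MvPowerSeries.C c := fun c =>
    PowerSeries.toMvPowerSeries_C _ _
  letI : Algebra (MvPowerSeries (Fin (l + 1)) k) R := φ.toAlgebra
  letI : Algebra (PowerSeries k) (MvPowerSeries (Fin (l + 1)) k) := ι.toAlgebra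
  letI : Algebra (PowerSeries k) R := (φ.comp ι).toAlgebra
  haveI : IsScalarTower (PowerSeries k) (MvPowerSeries (Fin (l + 1)) k) R :=
    IsScalarTower.of_algebraMap_eq fun x => rfl
  haveI : Module.Finite (MvPowerSeries (Fin (l + 1)) k) R := hfinφ
  haveI : IsNoetherianRing (MvPowerSeries (Fin (l + 1)) k) :=
    pi_isNoetherian (RingHom.id _) Function.surjective_id
  haveI : IsDomain (MvPowerSeries (Fin (l + 1)) k) := NoZeroDivisors.to_isDomain _
  haveI : Infinite (ResidueField (PowerSeries k)) :=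
    Infinite.of_injective _ (PowerSeries.residueFieldOfPowerSeries (k := k)).symm.injective
  have hzD : algebraMap (PowerSeries k) R PowerSeries.X = z := by
    change φ (ι PowerSeries.X) = z
    rw [hιX, hφ0]
  let ys : List R := z :: List.ofFn y
  have hys : ∀ x ∈ ys, x ∈ maximalIdeal R := by
    intro x hx
    simp only [ys, List.mem_cons, List.mem_ofFn] at hx
    rcases hx with rfl | ⟨j, rfl⟩
    · exact hz
    · exact (hy j).2
  have hc1 : maximalIdeal R ^ (c + 1) ≤ Ideal.ofList ys := by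
    rw [hlist]
    exact (Ideal.pow_le_pow_right (Nat.le_succ c)).trans hc
  have hlen : ∀ rs : List R, (rs.length : WithBot ℕ∞) = ringKrullDim R → ys.length = rs.length := by
    intro rs hrs
    rw [hd] at hrs
    have h1 : rs.length = l + 1 := by exact_mod_cast hrs
    rw [h1]
    simp [ys]
  have hPR : ∀ i, PR R (f i) ys := by
    intro i
    obtain ⟨rs, hrs, hreg, hl, -⟩ := hM i
    exact PR_of_sop (f i) rs hrs hreg hl ys hys (hlen rs hl) (c + 1) hc1
  have hb : ∀ i, Module.length R (f i ⧸ (Ideal.ofList ys • (⊤ : Submodule R (f i)))) ≤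
      (((c + 1) ^ ys.length * B : ℕ) : ℕ∞) := by
    intro i
    obtain ⟨rs, hrs, hreg, hl, e, he, hlim⟩ := hM i
    refine length_le_of_mult (f i) ys hys (hPR i) (c + 1) (by omega) hc1 B e he ?_
    rw [hlen rs hl]
    exact hlim
  have hsp : Ideal.ofList (algebraMap (PowerSeries k) (MvPowerSeries (Fin (l + 1)) k)
      PowerSeries.X :: List.ofFn fun j : Fin l => MvPowerSeries.X j.succ) =
      maximalIdeal (MvPowerSeries (Fin (l + 1)) k) := by
    rw [← pi_span (RingHom.id (MvPowerSeries (Fin (l + 1)) k)) Function.surjective_id,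
      Ideal.ofList_cons, ofList_ofFn, ← Ideal.span_union]
    congr 1
    ext x
    simp only [Set.singleton_union, Set.mem_insert_iff, Set.mem_range, RingHom.id_apply]
    constructor
    · rintro (rfl | ⟨j, rfl⟩)
      · exact ⟨0, hιX.symm⟩
      · exact ⟨j.succ, rfl⟩
    · rintro ⟨i, rfl⟩
      refine Fin.cases ?_ (fun j => ?_) i
      · left; exact hιX.symm
      · right; exact ⟨j, rfl⟩
  refine seq_core (D := PowerSeries k) (S := MvPowerSeries (Fin (l + 1)) k) PowerSeries.X
    PowerSeries.maximalIdeal_eq_span_X (fun j : Fin l => MvPowerSeries.X j.succ) y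
    (fun j => (hφs j).symm) hsp (axis ι hιX hιC) (by rw [hzD]; exact hz) (fun j => (hy j).2) ?_
    (fun i => f i) (by rw [hzD]; exact hPR) (fun i j => hFF i _ (hy j).1) _
    (by rw [hzD]; exact hb) hrig
  intro N
  have hresD : ∀ r : R, ∃ c : k, r - (φ.comp ι) (PowerSeries.C c) ∈ maximalIdeal R := by
    intro r
    obtain ⟨c, hc⟩ := hres r
    exact ⟨c, by rw [RingHom.comp_apply, hιC]; exact hc⟩
  obtain ⟨g, r, hr⟩ := finite_D (φ.comp ι) hresD (by
      change algebraMap (PowerSeries k) R PowerSeries.X ∈ _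
      rw [hzD]; exact hz) (Ideal.span (Set.range y) ^ N) (c * N) (by
      change _ ≤ _ ⊔ Ideal.span {algebraMap (PowerSeries k) R PowerSeries.X}
      rw [hzD, pow_mul, sup_comm]
      exact (Ideal.pow_right_mono hc N).trans (sup_pow_le _ _ N))
  refine ⟨g, r, fun x => ?_⟩
  obtain ⟨a, ha⟩ := hr x
  exact ⟨a, ha⟩

end H96.RM
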